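import Pool.Agent.KD.Defs

/-!
# KD-2: orthogonality of the modes
-/

open MeasureTheory Set Complex

namespace Pool.Agent.KD

theorem kd2_conta {L k ρ : ℝ} {a b : ℤ → ℝ → ℝ} (h : IsMode L k ρ a b) (j : ℤ) :
    Continuous (a j) :=
  continuous_iff_continuousAt.2 fun x => (h.da j x).continuousAt

theorem kd2_contb {L k ρ : ℝ} {a b : ℤ → ℝ → ℝ} (h : IsMode L k ρ a b) (j : ℤ) :
    Continuous (b j) :=
  continuous_iff_continuousAt.2 fun x => (h.db j x).continuousAt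

/-- Three integrations by parts: `μ ∫ a a' = μ' ∫ b b'`. -/
theorem kd2_key {L k ρ k' ρ' : ℝ} {a b a' b' : ℤ → ℝ → ℝ}
    (h : IsMode L k ρ a b) (h' : IsMode L k' ρ' a' b') :
    (k - k ^ 3) * (∫ x in (0 : ℝ)..L, a 0 x * a' 0 x)
      = (k' - k' ^ 3) * ∫ x in (0 : ℝ)..L, b 0 x * b' 0 x := by
  have hF : ∀ x ∈ uIcc (0 : ℝ) L, HasDerivAt
      (fun x => b 2 x * a' 0 x - b 1 x * a' 1 x + b 0 x * a' 2 x + b 0 x * a' 0 x)
      ((k - k ^ 3) * (a 0 x * a' 0 x) - (k' - k' ^ 3) * (b 0 x * b' 0 x)) x := by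
    intro x _
    have e1 := h.odb x
    have e2 := h'.oda x
    have d0 : HasDerivAt (b 0) (b 1 x) x := by simpa using h.db 0 x
    have d1 : HasDerivAt (b 1) (b 2 x) x := by simpa using h.db 1 x
    have d2 : HasDerivAt (b 2) (b 3 x) x := by simpa using h.db 2 x
    have c0 : HasDerivAt (a' 0) (a' 1 x) x := by simpa using h'.da 0 x
    have c1 : HasDerivAt (a' 1) (a' 2 x) x := by simpa using h'.da 1 x
    have c2 : HasDerivAt (a' 2) (a' 3 x) x := by simpa using h'.da 2 x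
    have hd := (((d2.mul c0).sub (d1.mul c1)).add (d0.mul c2)).add (d0.mul c0)
    refine hd.congr_deriv ?_
    linear_combination a' 0 x * e1 + b 0 x * e2
  have ca := (kd2_conta h 0).mul (kd2_conta h' 0)
  have cb := (kd2_contb h 0).mul (kd2_contb h' 0)
  have ia : IntervalIntegrable (fun x => (k - k ^ 3) * (a 0 x * a' 0 x)) volume 0 L :=
    (continuous_const.mul ca).intervalIntegrable _ _
  have ib : IntervalIntegrable (fun x => (k' - k' ^ 3) * (b 0 x * b' 0 x)) volume 0 L :=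
    (continuous_const.mul cb).intervalIntegrable _ _
  have hI := intervalIntegral.integral_eq_sub_of_hasDerivAt hF (ia.sub ib)
  have hz : b 2 L * a' 0 L - b 1 L * a' 1 L + b 0 L * a' 2 L + b 0 L * a' 0 L
      - (b 2 0 * a' 0 0 - b 1 0 * a' 1 0 + b 0 0 * a' 2 0 + b 0 0 * a' 0 0) = 0 := by
    rw [h'.a0L, h.b1L, h.b0L, h'.a00, h'.a10, h.b00]
    ring
  rw [intervalIntegral.integral_sub ia ib, intervalIntegral.integral_const_mul,
    intervalIntegral.integral_const_mul] at hI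
  linarith

/-- `t ↦ t³ - t` is strictly increasing on `[2, ∞)`. -/
theorem kd2_mu {k k' : ℝ} (hk : 2 ≤ k) (hkk : k < k') : k ^ 3 - k < k' ^ 3 - k' := by
  nlinarith [mul_pos (sub_pos.2 hkk) (by nlinarith : (0 : ℝ) < k' ^ 2 + k' * k + k ^ 2 - 1)]

theorem kd2_mu_pos {k : ℝ} (hk : 2 ≤ k) : 0 < k ^ 3 - k := by
  nlinarith [mul_pos (by linarith : (0 : ℝ) < k) (by nlinarith : (0 : ℝ) < k ^ 2 - 1)]

theorem kd2_sq_ne {k k' : ℝ} (hk : 2 ≤ k) (hk' : 2 ≤ k') (hne : k ≠ k') :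
    (k - k ^ 3) ^ 2 - (k' - k' ^ 3) ^ 2 ≠ 0 := by
  have p1 := kd2_mu_pos hk
  have p2 := kd2_mu_pos hk'
  rcases lt_or_gt_of_ne hne with hlt | hlt
  · have := kd2_mu hk hlt
    have h3 : (k - k ^ 3) ^ 2 - (k' - k' ^ 3) ^ 2
        = -(((k' ^ 3 - k') - (k ^ 3 - k)) * ((k' ^ 3 - k') + (k ^ 3 - k))) := by ring
    rw [h3]
    exact neg_ne_zero.2 (mul_pos (by linarith) (by linarith)).ne'
  · have := kd2_mu hk' hlt
    have h3 : (k - k ^ 3) ^ 2 - (k' - k' ^ 3) ^ 2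
        = ((k ^ 3 - k) - (k' ^ 3 - k')) * ((k ^ 3 - k) + (k' ^ 3 - k')) := by ring
    rw [h3]
    exact (mul_pos (by linarith) (by linarith)).ne'

theorem mode_orth {L k ρ k' ρ' : ℝ} {a b a' b' : ℤ → ℝ → ℝ} (hL : 0 < L)
    (h : IsMode L k ρ a b) (h' : IsMode L k' ρ' a' b') (hne : k ≠ k') :
    (∫ x in (0 : ℝ)..L, b 0 x * b' 0 x) = 0 := by
  have e1 := kd2_key h h'
  have e2 := kd2_key h' h
  have sa : (∫ x in (0 : ℝ)..L, a' 0 x * a 0 x) = ∫ x in (0 : ℝ)..L, a 0 x * a' 0 x := by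
    congr 1; funext x; ring
  have sb : (∫ x in (0 : ℝ)..L, b' 0 x * b 0 x) = ∫ x in (0 : ℝ)..L, b 0 x * b' 0 x := by
    congr 1; funext x; ring
  rw [sa, sb] at e2
  have h3 : ((k - k ^ 3) ^ 2 - (k' - k' ^ 3) ^ 2)
      * (∫ x in (0 : ℝ)..L, b 0 x * b' 0 x) = 0 := by
    linear_combination (k' - k' ^ 3) * e1 - (k - k ^ 3) * e2
  exact (mul_eq_zero.1 h3).resolve_left (kd2_sq_ne h.hk h'.hk hne)

/-- The same for the components `a`. -/
theorem mode_orth_a {L k ρ k' ρ' : ℝ} {a b a' b' : ℤ → ℝ → ℝ}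
    (h : IsMode L k ρ a b) (h' : IsMode L k' ρ' a' b') (hne : k ≠ k') :
    (∫ x in (0 : ℝ)..L, a 0 x * a' 0 x) = 0 := by
  have e1 := kd2_key h h'
  have e2 := kd2_key h' h
  have sa : (∫ x in (0 : ℝ)..L, a' 0 x * a 0 x) = ∫ x in (0 : ℝ)..L, a 0 x * a' 0 x := by
    congr 1; funext x; ring
  have sb : (∫ x in (0 : ℝ)..L, b' 0 x * b 0 x) = ∫ x in (0 : ℝ)..L, b 0 x * b' 0 x := by
    congr 1; funext x; ring
  rw [sa, sb] at e2
  have h3 : ((k - k ^ 3) ^ 2 - (k' - k' ^ 3) ^ 2)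
      * (∫ x in (0 : ℝ)..L, a 0 x * a' 0 x) = 0 := by
    linear_combination (k - k ^ 3) * e1 - (k' - k' ^ 3) * e2
  exact (mul_eq_zero.1 h3).resolve_left (kd2_sq_ne h.hk h'.hk hne)

/-- Both components of a mode have the same norm. -/
theorem mode_norm {L k ρ : ℝ} {a b : ℤ → ℝ → ℝ} (h : IsMode L k ρ a b) :
    (∫ x in (0 : ℝ)..L, a 0 x ^ 2) = ∫ x in (0 : ℝ)..L, b 0 x ^ 2 := by
  have e := kd2_key h h
  have hp := kd2_mu_pos h.hk
  have hne : k - k ^ 3 ≠ 0 := by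
    have : k - k ^ 3 < 0 := by linarith
    exact this.ne
  have e2 := mul_left_cancel₀ hne e
  have sa : (∫ x in (0 : ℝ)..L, a 0 x ^ 2) = ∫ x in (0 : ℝ)..L, a 0 x * a 0 x := by
    congr 1; funext x; ring
  have sb : (∫ x in (0 : ℝ)..L, b 0 x ^ 2) = ∫ x in (0 : ℝ)..L, b 0 x * b 0 x := by
    congr 1; funext x; ring
  rw [sa, sb, e2]

end Pool.Agent.KD
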