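import Pool.Agent.KD.Mode
import Pool.Agent.KD.Orth

/-!
# The data of the counterexample (row KD-11)
-/

open MeasureTheory Set

namespace Pool.Agent.KD

/-! ### general lemmas -/

/-- termwise integration of a normally convergent series on `[0, L]` -/
lemma kd11_int {F : ℕ → ℝ → ℝ} {f : ℝ → ℝ} {u : ℕ → ℝ} {L : ℝ} (hu : Summable u)
    (hF : ∀ n, Continuous (F n)) (hb : ∀ n, ∀ x ∈ Icc (0 : ℝ) L, |F n x| ≤ u n)
    (hs : ∀ x ∈ Icc (0 : ℝ) L, HasSum (fun n => F n x) (f x)) {y : ℝ} (hy : y ∈ Icc (0 : ℝ) L) :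
    HasSum (fun n => ∫ x in (0 : ℝ)..y, F n x) (∫ x in (0 : ℝ)..y, f x) := by
  have hsub : ∀ t, t ∈ Set.uIoc (0 : ℝ) y → t ∈ Icc (0 : ℝ) L := by
    intro t ht
    rw [Set.uIoc_of_le hy.1] at ht
    exact ⟨ht.1.le, ht.2.trans hy.2⟩
  refine intervalIntegral.hasSum_integral_of_dominated_convergence (fun n _ => u n) ?_ ?_ ?_ ?_ ?_
  · intro n
    exact (hF n).aestronglyMeasurable
  · intro n
    filter_upwards with t ht
    exact hb n t (hsub t ht)
  · filter_upwards with t _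
    exact hu
  · exact intervalIntegrable_const
  · filter_upwards with t ht
    exact hs t (hsub t ht)

lemma kd11_tail {f : ℕ → ℝ} {s c : ℝ} (hf : HasSum f s) (m : ℕ)
    (h : ∀ i, |f (i + m)| ≤ c * (1 / 2) ^ i) :
    |s - ∑ j ∈ Finset.range m, f j| ≤ c * 2 := by
  have h1 := hf.summable.sum_add_tsum_nat_add m
  have h2 : s - ∑ j ∈ Finset.range m, f j = ∑' i, f (i + m) := by
    rw [← hf.tsum_eq, ← h1]; ring
  rw [h2, ← Real.norm_eq_abs]
  refine tsum_of_norm_bounded (g := fun i => c * (1 / 2) ^ i) ?_ ?_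
  · exact (hasSum_geometric_two).mul_left c
  · intro i
    rw [Real.norm_eq_abs]
    exact h i

/-- projection to `[0, L]` -/
noncomputable def kd11_cl (L x : ℝ) : ℝ := max 0 (min x L)

lemma kd11_cl_mem {L : ℝ} (hL : 0 < L) (x : ℝ) : kd11_cl L x ∈ Icc (0 : ℝ) L :=
  ⟨le_max_left _ _, max_le hL.le (min_le_right _ _)⟩

lemma kd11_cl_eq {L x : ℝ} (hx : x ∈ Icc (0 : ℝ) L) : kd11_cl L x = x := by
  unfold kd11_cl
  rw [min_eq_left hx.2, max_eq_right hx.1]

lemma kd11_cl_cont (L : ℝ) : Continuous (kd11_cl L) :=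
  continuous_const.max (continuous_id.min continuous_const)

/-- the sum of a normally convergent series of continuous functions, stopped at `0` and `L` -/
noncomputable def kd11_G (L : ℝ) (F : ℕ → ℝ → ℝ) (x : ℝ) : ℝ := ∑' n, F n (kd11_cl L x)

lemma kd11_G_cont {L : ℝ} (hL : 0 < L) {F : ℕ → ℝ → ℝ} {u : ℕ → ℝ} (hu : Summable u)
    (hF : ∀ n, Continuous (F n)) (hb : ∀ n, ∀ x ∈ Icc (0 : ℝ) L, |F n x| ≤ u n) :
    Continuous (kd11_G L F) := by
  unfold kd11_G
  refine continuous_tsum (fun n => (hF n).comp (kd11_cl_cont L)) hu ?_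
  intro n x
  rw [Real.norm_eq_abs]
  exact hb n _ (kd11_cl_mem hL x)

lemma kd11_G_sum {L : ℝ} {F : ℕ → ℝ → ℝ} {u : ℕ → ℝ} (hu : Summable u)
    (hb : ∀ n, ∀ x ∈ Icc (0 : ℝ) L, |F n x| ≤ u n) {x : ℝ} (hx : x ∈ Icc (0 : ℝ) L) :
    HasSum (fun n => F n x) (kd11_G L F x) := by
  unfold kd11_G
  rw [kd11_cl_eq hx]
  exact (Summable.of_norm_bounded hu (fun n => by rw [Real.norm_eq_abs]; exact hb n x hx)).hasSum

lemma kd11_G_bound {L : ℝ} (hL : 0 < L) {F : ℕ → ℝ → ℝ} {u : ℕ → ℝ} (hu : Summable u)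
    (hb : ∀ n, ∀ x ∈ Icc (0 : ℝ) L, |F n x| ≤ u n) (x : ℝ) :
    |kd11_G L F x| ≤ ∑' n, u n := by
  unfold kd11_G
  rw [← Real.norm_eq_abs]
  refine tsum_of_norm_bounded hu.hasSum ?_
  intro n
  rw [Real.norm_eq_abs]
  exact hb n _ (kd11_cl_mem hL x)

/-! ### the wave numbers -/

lemma kd11_seq (L : ℝ) (hL : 0 < L) : ∃ (k ρ : ℕ → ℝ) (a b : ℕ → ℤ → ℝ → ℝ),
    (∀ n, IsMode L (k n) (ρ n) (a n) (b n)) ∧ ∀ n, k n ^ 100 ≤ k (n + 1) := by
  have h : ∀ K : ℝ, ∃ m : {p : ℝ × ℝ × (ℤ → ℝ → ℝ) × (ℤ → ℝ → ℝ) //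
      IsMode L p.1 p.2.1 p.2.2.1 p.2.2.2}, K ≤ m.1.1 := by
    intro K
    obtain ⟨k, ρ, a, b, hK, hm⟩ := exists_mode L hL K
    exact ⟨⟨(k, ρ, a, b), hm⟩, hK⟩
  choose g hg using h
  let s : ℕ → {p : ℝ × ℝ × (ℤ → ℝ → ℝ) × (ℤ → ℝ → ℝ) //
      IsMode L p.1 p.2.1 p.2.2.1 p.2.2.2} := fun n => Nat.rec (g 2) (fun _ m => g (m.1.1 ^ 100)) n
  refine ⟨fun n => (s n).1.1, fun n => (s n).1.2.1, fun n => (s n).1.2.2.1,
    fun n => (s n).1.2.2.2, fun n => (s n).2, fun n => ?_⟩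
  exact hg ((s n).1.1 ^ 100)

lemma kd11_dbl {k : ℕ → ℝ} (h2 : ∀ n, 2 ≤ k n) (hg : ∀ n, k n ^ 100 ≤ k (n + 1)) (n : ℕ) :
    2 * k n ≤ k (n + 1) := by
  have h := h2 n
  have h1 : k n ^ 2 ≤ k n ^ 100 := pow_le_pow_right₀ (by linarith) (by norm_num)
  nlinarith [hg n]

lemma kd11_geo {k : ℕ → ℝ} (hd : ∀ n, 2 * k n ≤ k (n + 1)) (n i : ℕ) :
    2 ^ i * k n ≤ k (i + n) := by
  induction i with
  | zero => simp
  | succ i ih =>
    have h1 := hd (i + n)
    have h2 : i + 1 + n = i + n + 1 := by ring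
    rw [h2, pow_succ]
    nlinarith

/-- `(k_(i+n)^p)⁻¹ ≤ (k_n^p)⁻¹ 2^(-i)` for `p ≥ 1` -/
lemma kd11_inv {k : ℕ → ℝ} (h2 : ∀ n, 2 ≤ k n) (hd : ∀ n, 2 * k n ≤ k (n + 1)) {p : ℕ}
    (hp : p ≠ 0) (n i : ℕ) : (k (i + n) ^ p)⁻¹ ≤ (k n ^ p)⁻¹ * (1 / 2) ^ i := by
  have hkn : 0 < k n := by linarith [h2 n]
  have h1 : 2 ^ i * k n ^ p ≤ k (i + n) ^ p := by
    have h3 := pow_le_pow_left₀ (by positivity) (kd11_geo hd n i) p
    have h4 : (2 : ℝ) ^ i ≤ (2 ^ i) ^ p := le_self_pow₀ (one_le_pow₀ (by norm_num)) hp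
    calc 2 ^ i * k n ^ p ≤ (2 ^ i) ^ p * k n ^ p := by gcongr
      _ = (2 ^ i * k n) ^ p := by rw [mul_pow]
      _ ≤ _ := h3
  calc (k (i + n) ^ p)⁻¹ ≤ (2 ^ i * k n ^ p)⁻¹ := by
        apply inv_anti₀ (by positivity) h1
    _ = (k n ^ p)⁻¹ * (1 / 2) ^ i := by
        rw [mul_inv, one_div, inv_pow]; ring


/-! ### the coefficients -/

/-- the coefficients `ε` -/
noncomputable def kd11_eps (k : ℕ → ℝ) : ℕ → ℝ
  | 0 => 1
  | (n + 1) => (k n ^ 4)⁻¹

/-- the coefficients `d`, with first value `D` -/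
noncomputable def kd11_d (k : ℕ → ℝ) (D : ℝ) : ℕ → ℝ
  | 0 => D
  | (n + 1) => (k (n + 1) ^ 2 * k n ^ 4)⁻¹

lemma kd11_eps_nonneg {k : ℕ → ℝ} (h2 : ∀ n, 2 ≤ k n) (n : ℕ) : 0 ≤ kd11_eps k n := by
  cases n with
  | zero => simp [kd11_eps]
  | succ n =>
    have := h2 n
    simp only [kd11_eps]; positivity

lemma kd11_eps_le {k : ℕ → ℝ} (h2 : ∀ n, 2 ≤ k n) (n : ℕ) : kd11_eps k n ≤ 1 := by
  cases n with
  | zero => simp [kd11_eps]
  | succ n =>
    have := h2 n
    simp only [kd11_eps]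
    exact inv_le_one_of_one_le₀ (one_le_pow₀ (by linarith))

lemma kd11_eps_tail {k : ℕ → ℝ} (h2 : ∀ n, 2 ≤ k n) (hd : ∀ n, 2 * k n ≤ k (n + 1))
    (n i : ℕ) : kd11_eps k (i + (n + 1)) ≤ (k n ^ 4)⁻¹ * (1 / 2) ^ i := by
  show (k (i + n) ^ 4)⁻¹ ≤ _
  exact kd11_inv h2 hd (by norm_num) n i

lemma kd11_eps_summable {k : ℕ → ℝ} (h2 : ∀ n, 2 ≤ k n) (hd : ∀ n, 2 * k n ≤ k (n + 1)) :
    Summable (kd11_eps k) := by
  rw [← summable_nat_add_iff 1]
  refine Summable.of_nonneg_of_le (fun n => kd11_eps_nonneg h2 _) (fun n => ?_)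
    (summable_geometric_two.mul_left (k 0 ^ 4)⁻¹)
  exact kd11_eps_tail h2 hd 0 n

lemma kd11_d_nonneg {k : ℕ → ℝ} (h2 : ∀ n, 2 ≤ k n) (D : ℝ) (n : ℕ) :
    0 ≤ kd11_d k D (n + 1) := by
  have := h2 n
  have := h2 (n + 1)
  simp only [kd11_d]; positivity

lemma kd11_d_mul {k : ℕ → ℝ} (h2 : ∀ n, 2 ≤ k n) (D : ℝ) (n : ℕ) :
    kd11_d k D (n + 1) * k (n + 1) ^ 2 = (k n ^ 4)⁻¹ := by
  have h3 : k n ≠ 0 := by linarith [h2 n]
  have h4 : k (n + 1) ≠ 0 := by linarith [h2 (n + 1)]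
  simp only [kd11_d]
  field_simp

lemma kd11_d_le {k : ℕ → ℝ} (h2 : ∀ n, 2 ≤ k n) (D : ℝ) (n : ℕ) :
    kd11_d k D (n + 1) ≤ (k (n + 1) ^ 2)⁻¹ := by
  have h3 : 1 ≤ k n ^ 4 := one_le_pow₀ (by linarith [h2 n])
  have h4 : 0 < k (n + 1) ^ 2 := by
    have := h2 (n + 1)
    positivity
  simp only [kd11_d]
  exact inv_anti₀ h4 (le_mul_of_one_le_right h4.le h3)

lemma kd11_d_tail {k : ℕ → ℝ} (h2 : ∀ n, 2 ≤ k n) (hd : ∀ n, 2 * k n ≤ k (n + 1)) (D : ℝ)
    (n i : ℕ) : kd11_d k D (i + (n + 1)) ≤ (k (n + 1) ^ 2)⁻¹ * (1 / 2) ^ i :=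
  (kd11_d_le h2 D (i + n)).trans (kd11_inv h2 hd (by norm_num) (n + 1) i)

/-- the bound of the `n`-th term of the series for `w0`, `w01`, `w02` -/
noncomputable def kd11_u (k : ℕ → ℝ) (D : ℝ) (n : ℕ) : ℝ := 100 * (|kd11_d k D n| * k n ^ 2)

lemma kd11_u_summable {k : ℕ → ℝ} (h2 : ∀ n, 2 ≤ k n) (hd : ∀ n, 2 * k n ≤ k (n + 1)) (D : ℝ) :
    Summable (kd11_u k D) := by
  rw [← summable_nat_add_iff 1]
  refine Summable.of_nonneg_of_le (fun n => ?_) (fun n => ?_)
    (summable_geometric_two.mul_left (100 * (k 0 ^ 4)⁻¹))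
  · unfold kd11_u; positivity
  · have h3 := kd11_d_mul h2 D n
    have h4 := kd11_inv h2 hd (p := 4) (by norm_num) 0 n
    unfold kd11_u
    rw [abs_of_nonneg (kd11_d_nonneg h2 D n), h3]
    simp only [add_zero] at h4
    linarith

lemma kd11_u_nonneg (k : ℕ → ℝ) (D : ℝ) (n : ℕ) : 0 ≤ kd11_u k D n := by
  unfold kd11_u; positivity

section
variable {L : ℝ} {k ρ : ℕ → ℝ} {a b : ℕ → ℤ → ℝ → ℝ}

lemma kd11_bj (hm : ∀ n, IsMode L (k n) (ρ n) (a n) (b n)) (n j : ℕ) (hj : j ≤ 3) {x : ℝ}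
    (hx : x ∈ Icc (0 : ℝ) L) : |b n (j : ℤ) x| ≤ 100 * k n ^ j := by
  have h := (hm n).bdb (j : ℤ) (by omega) (by omega) x hx
  rwa [zpow_natCast] at h

lemma kd11_b0 (hm : ∀ n, IsMode L (k n) (ρ n) (a n) (b n)) (n : ℕ) {x : ℝ}
    (hx : x ∈ Icc (0 : ℝ) L) : |b n 0 x| ≤ 100 := by
  have h := (hm n).bdb 0 (by norm_num) (by norm_num) x hx
  simpa using h

lemma kd11_a0 (hm : ∀ n, IsMode L (k n) (ρ n) (a n) (b n)) (n : ℕ) {x : ℝ}
    (hx : x ∈ Icc (0 : ℝ) L) : |a n 0 x| ≤ 100 := by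
  have h := (hm n).bda 0 (by norm_num) (by norm_num) x hx
  simpa using h

lemma kd11_cb (hm : ∀ n, IsMode L (k n) (ρ n) (a n) (b n)) (n : ℕ) (j : ℤ) :
    Continuous (b n j) :=
  continuous_iff_continuousAt.2 fun x => ((hm n).db j x).continuousAt

lemma kd11_ca (hm : ∀ n, IsMode L (k n) (ρ n) (a n) (b n)) (n : ℕ) (j : ℤ) :
    Continuous (a n j) :=
  continuous_iff_continuousAt.2 fun x => ((hm n).da j x).continuousAt

/-- the terms of the series for `w0` and its derivatives -/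
lemma kd11_term (hm : ∀ n, IsMode L (k n) (ρ n) (a n) (b n)) (D : ℝ) (n j : ℕ) (hj : j ≤ 2)
    {x : ℝ} (hx : x ∈ Icc (0 : ℝ) L) : |kd11_d k D n * b n (j : ℤ) x| ≤ kd11_u k D n := by
  have h1 := kd11_bj hm n j (by omega) hx
  have h2 : k n ^ j ≤ k n ^ 2 := pow_le_pow_right₀ (by linarith [(hm n).hk]) hj
  rw [abs_mul]
  unfold kd11_u
  calc |kd11_d k D n| * |b n (j : ℤ) x| ≤ |kd11_d k D n| * (100 * k n ^ 2) := by
        gcongr; exact h1.trans (by linarith)
    _ = _ := by ring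

lemma kd11_nb_le (hL : 0 < L) (hm : ∀ n, IsMode L (k n) (ρ n) (a n) (b n)) (n : ℕ) :
    |∫ x in (0 : ℝ)..L, b n 0 x ^ 2| ≤ 10000 * L := by
  have h : ‖∫ x in (0 : ℝ)..L, b n 0 x ^ 2‖ ≤ 10000 * |L - 0| := by
    refine intervalIntegral.norm_integral_le_of_norm_le_const ?_
    intro x hx
    rw [Set.uIoc_of_le hL.le] at hx
    have h1 := kd11_b0 hm n (x := x) ⟨hx.1.le, hx.2⟩
    rw [Real.norm_eq_abs, abs_pow]
    nlinarith [abs_nonneg (b n 0 x)]
  rwa [sub_zero, abs_of_pos hL, Real.norm_eq_abs] at h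

/-- the value of `d 0` which makes the datum compatible -/
lemma kd11_D (hL : 0 < L) (hm : ∀ n, IsMode L (k n) (ρ n) (a n) (b n))
    (h2 : ∀ n, 2 ≤ k n) (hd : ∀ n, 2 * k n ≤ k (n + 1)) : ∃ D : ℝ,
    HasSum (fun j => kd11_eps k j * kd11_d k D j * ∫ x in (0 : ℝ)..L, b j 0 x ^ 2) 0 := by
  set nb : ℕ → ℝ := fun j => ∫ x in (0 : ℝ)..L, b j 0 x ^ 2 with hnb
  have hs : Summable (fun j => kd11_eps k (j + 1) * kd11_d k 0 (j + 1) * nb (j + 1)) := by
    refine Summable.of_norm_bounded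
      (summable_geometric_two.mul_left ((k 1 ^ 2)⁻¹ * (10000 * L))) (fun j => ?_)
    have h3 := kd11_eps_nonneg h2 (j + 1)
    have h4 := kd11_eps_le h2 (j + 1)
    have h5 := kd11_d_nonneg h2 0 j
    have h6 := kd11_d_tail h2 hd 0 0 j
    have h7 := kd11_nb_le hL hm (j + 1)
    rw [Real.norm_eq_abs, abs_mul, abs_mul, abs_of_nonneg h3, abs_of_nonneg h5]
    simp only [zero_add] at h6
    calc kd11_eps k (j + 1) * kd11_d k 0 (j + 1) * |nb (j + 1)|
        ≤ 1 * ((k 1 ^ 2)⁻¹ * (1 / 2) ^ j) * (10000 * L) := by gcongr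
      _ = _ := by ring
  have hn0 : nb 0 ≠ 0 := by
    have := (hm 0).nrm
    have h : 0 < nb 0 := lt_of_lt_of_le (by linarith) this
    exact h.ne'
  refine ⟨-(∑' j, kd11_eps k (j + 1) * kd11_d k 0 (j + 1) * nb (j + 1)) / nb 0, ?_⟩
  rw [← hasSum_nat_add_iff' 1]
  simp only [Finset.sum_range_one]
  have h0 : kd11_eps k 0 * kd11_d k
      (-(∑' j, kd11_eps k (j + 1) * kd11_d k 0 (j + 1) * nb (j + 1)) / nb 0) 0 * nb 0
      = -(∑' j, kd11_eps k (j + 1) * kd11_d k 0 (j + 1) * nb (j + 1)) := by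
    simp only [kd11_eps, kd11_d]
    field_simp
  rw [h0, zero_sub, neg_neg]
  exact hs.hasSum

end


/-- The data of the counterexample exist. -/
theorem exists_data (L : ℝ) (hL : 0 < L) : ∃ (k ρ : ℕ → ℝ) (a b : ℕ → ℤ → ℝ → ℝ)
    (ε d : ℕ → ℝ) (α β w0 w01 w02 : ℝ → ℝ) (C : ℝ),
    0 < C ∧ IsData L k ρ a b ε d α β w0 w01 w02 C := by
  obtain ⟨k, ρ, a, b, hm, hg⟩ := kd11_seq L hL
  have h2 : ∀ n, 2 ≤ k n := fun n => (hm n).hk
  have hd := kd11_dbl h2 hg
  obtain ⟨D, hD⟩ := kd11_D hL hm h2 hd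
  have hu : Summable (kd11_u k D) := kd11_u_summable h2 hd D
  set ε := kd11_eps k with hε
  set d := kd11_d k D with hdd
  set u := kd11_u k D with huu
  have h0L : (0 : ℝ) ∈ Icc (0 : ℝ) L := ⟨le_refl _, hL.le⟩
  have hLL : L ∈ Icc (0 : ℝ) L := ⟨hL.le, le_refl _⟩
  -- the series of the datum
  let G : ℕ → ℝ → ℝ := fun j => kd11_G L (fun n x => d n * b n (j : ℤ) x)
  have hFc : ∀ j n : ℕ, Continuous (fun x => d n * b n (j : ℤ) x) := fun j n =>
    continuous_const.mul (kd11_cb hm n j)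
  have hGc : ∀ j ≤ 2, Continuous (G j) := fun j hj =>
    kd11_G_cont hL hu (hFc j) (fun n x hx => kd11_term hm D n j hj hx)
  have hGs : ∀ j : ℕ, j ≤ 2 → ∀ x ∈ Icc (0 : ℝ) L,
      HasSum (fun n => d n * b n (j : ℤ) x) (G j x) :=
    fun j hj x hx => kd11_G_sum (F := fun n x => d n * b n (j : ℤ) x) hu
      (fun n x hx => kd11_term hm D n j hj hx) hx
  have hGb : ∀ j ≤ 2, ∀ x, |G j x| ≤ ∑' n, u n := fun j hj x =>
    kd11_G_bound hL hu (fun n x hx => kd11_term hm D n j hj hx) x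
  have hGi : ∀ j ≤ 1, ∀ x ∈ Icc (0 : ℝ) L, (∫ y in (0 : ℝ)..x, G (j + 1) y) = G j x - G j 0 := by
    intro j hj x hx
    have e1 := kd11_int (F := fun n x => d n * b n ((j + 1 : ℕ) : ℤ) x) (f := G (j + 1)) (L := L)
      hu (hFc (j + 1)) (fun n x hx => kd11_term hm D n (j + 1) (by omega) hx)
      (hGs (j + 1) (by omega)) hx
    have e2 := (hGs j (by omega) x hx).sub (hGs j (by omega) 0 h0L)
    refine e1.unique ?_
    have e3 : (fun n => ∫ y in (0 : ℝ)..x, d n * b n ((j + 1 : ℕ) : ℤ) y)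
        = fun n => d n * b n (j : ℤ) x - d n * b n (j : ℤ) 0 := by
      funext n
      rw [intervalIntegral.integral_const_mul, ← mul_sub]
      congr 1
      refine intervalIntegral.integral_eq_sub_of_hasDerivAt (fun y _ => ?_)
        ((kd11_cb hm n _).intervalIntegrable _ _)
      have := (hm n).db (j : ℤ) y
      simpa using this
    rw [e3]
    exact e2
  have hG00 : G 0 0 = 0 := by
    refine (hGs 0 (by norm_num) 0 h0L).unique ?_
    have : (fun n => d n * b n ((0 : ℕ) : ℤ) 0) = fun _ => 0 := by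
      funext n
      have := (hm n).b00
      simp [this]
    rw [this]; exact hasSum_zero
  have hG0L : G 0 L = 0 := by
    refine (hGs 0 (by norm_num) L hLL).unique ?_
    have : (fun n => d n * b n ((0 : ℕ) : ℤ) L) = fun _ => 0 := by
      funext n
      have := (hm n).b0L
      simp [this]
    rw [this]; exact hasSum_zero
  have hG1L : G 1 L = 0 := by
    refine (hGs 1 (by norm_num) L hLL).unique ?_
    have : (fun n => d n * b n ((1 : ℕ) : ℤ) L) = fun _ => 0 := by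
      funext n
      have := (hm n).b1L
      simp [this]
    rw [this]; exact hasSum_zero
  -- the datum
  set w02 : ℝ → ℝ := G 2 with hw02
  set w01 : ℝ → ℝ := fun x => G 1 0 + ∫ y in (0 : ℝ)..x, w02 y with hw01
  set w0 : ℝ → ℝ := fun x => ∫ y in (0 : ℝ)..x, w01 y with hw0
  have c02 : Continuous w02 := hGc 2 (le_refl _)
  have d01 : ∀ x, HasDerivAt w01 (w02 x) x := fun x =>
    ((c02.integral_hasStrictDerivAt 0 x).hasDerivAt).const_add _
  have c01 : Continuous w01 := continuous_iff_continuousAt.2 fun x => (d01 x).continuousAt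
  have d0 : ∀ x, HasDerivAt w0 (w01 x) x := fun x =>
    (c01.integral_hasStrictDerivAt 0 x).hasDerivAt
  have c0 : Continuous w0 := continuous_iff_continuousAt.2 fun x => (d0 x).continuousAt
  have e01 : ∀ x ∈ Icc (0 : ℝ) L, w01 x = G 1 x := by
    intro x hx
    have := hGi 1 (le_refl _) x hx
    simp only [hw01]
    show G 1 0 + ∫ y in (0 : ℝ)..x, G (1 + 1) y = G 1 x
    rw [this]; ring
  have e0 : ∀ x ∈ Icc (0 : ℝ) L, w0 x = G 0 x := by
    intro x hx
    have h1 := hGi 0 (by norm_num) x hx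
    have h3 : w0 x = ∫ y in (0 : ℝ)..x, G (0 + 1) y := by
      simp only [hw0]
      refine intervalIntegral.integral_congr fun y hy => ?_
      rw [uIcc_of_le hx.1] at hy
      exact e01 y ⟨hy.1, hy.2.trans hx.2⟩
    rw [h3, h1, hG00, sub_zero]
  have hU : 0 ≤ ∑' n, u n := tsum_nonneg (kd11_u_nonneg k D)
  have hwb : ∀ x ∈ Icc (0 : ℝ) L, |w0 x| ≤ ∑' n, u n := fun x hx => by
    rw [e0 x hx]; exact hGb 0 (by norm_num) x
  have hws : ∀ x ∈ Icc (0 : ℝ) L, HasSum (fun n => d n * b n 0 x) (w0 x) := fun x hx => by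
    rw [e0 x hx]; exact hGs 0 (by norm_num) x hx
  -- the kernels
  have hεs : Summable (fun n => 100 * ε n) := (kd11_eps_summable h2 hd).mul_left 100
  have hεn : ∀ n, 0 ≤ ε n := kd11_eps_nonneg h2
  have hab : ∀ n, ∀ x ∈ Icc (0 : ℝ) L, |ε n * a n 0 x| ≤ 100 * ε n := fun n x hx => by
    rw [abs_mul, abs_of_nonneg (hεn n), mul_comm]
    exact mul_le_mul_of_nonneg_right (kd11_a0 hm n hx) (hεn n)
  have hbb : ∀ n, ∀ x ∈ Icc (0 : ℝ) L, |ε n * b n 0 x| ≤ 100 * ε n := fun n x hx => by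
    rw [abs_mul, abs_of_nonneg (hεn n), mul_comm]
    exact mul_le_mul_of_nonneg_right (kd11_b0 hm n hx) (hεn n)
  have hca : ∀ n, Continuous (fun x => ε n * a n 0 x) := fun n =>
    continuous_const.mul (kd11_ca hm n 0)
  have hcb : ∀ n, Continuous (fun x => ε n * b n 0 x) := fun n =>
    continuous_const.mul (kd11_cb hm n 0)
  set α : ℝ → ℝ := fun x => -kd11_G L (fun n x => ε n * a n 0 x) x with hα
  set β : ℝ → ℝ := fun x => -kd11_G L (fun n x => ε n * b n 0 x) x with hβ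
  have cβ : Continuous β := (kd11_G_cont hL hεs hcb hbb).neg
  have hβs : ∀ x ∈ Icc (0 : ℝ) L, HasSum (fun n => -(ε n * b n 0 x)) (β x) := fun x hx =>
    (kd11_G_sum (F := fun n x => ε n * b n 0 x) hεs hbb hx).neg
  have hinv : ∀ n, 0 ≤ (k n ^ 4)⁻¹ := fun n => by
    have := h2 n
    positivity
  -- coefficients of the datum
  have hcoef : ∀ n, (∫ x in (0 : ℝ)..L, w0 x * b n 0 x)
      = d n * ∫ x in (0 : ℝ)..L, b n 0 x ^ 2 := by
    intro n
    have e1 := kd11_int (F := fun j x => d j * b j 0 x * b n 0 x)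
      (f := fun x => w0 x * b n 0 x) (u := fun j => u j * 100) (L := L)
      (hu.mul_right 100)
      (fun j => (continuous_const.mul (kd11_cb hm j 0)).mul (kd11_cb hm n 0))
      (fun j x hx => by
        rw [abs_mul]
        exact mul_le_mul (kd11_term hm D j 0 (by norm_num) hx) (kd11_b0 hm n hx) (abs_nonneg _)
          (kd11_u_nonneg k D j))
      (fun x hx => (hws x hx).mul_right _) hLL
    refine e1.unique ?_
    have e2 : (fun j => ∫ x in (0 : ℝ)..L, d j * b j 0 x * b n 0 x)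
        = fun j => if j = n then d n * ∫ x in (0 : ℝ)..L, b n 0 x ^ 2 else 0 := by
      funext j
      have e3 : (∫ x in (0 : ℝ)..L, d j * b j 0 x * b n 0 x)
          = d j * ∫ x in (0 : ℝ)..L, b j 0 x * b n 0 x := by
        rw [← intervalIntegral.integral_const_mul]
        congr 1; funext x; ring
      rw [e3]
      split_ifs with h
      · subst h
        congr 2; funext x; ring
      · have hne : k j ≠ k n := by
          have hmono : StrictMono k := strictMono_nat_of_lt_succ fun n => by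
            have := hd n; have := h2 n; linarith
          exact fun e => h (hmono.injective e)
        rw [mode_orth hL (hm j) (hm n) hne, mul_zero]
    rw [e2]
    exact hasSum_ite_eq n _
  -- compatibility
  have hcomp : (∫ x in (0 : ℝ)..L, β x * w0 x) = 0 := by
    have e1 := kd11_int (F := fun j x => -(ε j * b j 0 x) * w0 x)
      (f := fun x => β x * w0 x) (u := fun j => 100 * ε j * (∑' n, u n)) (L := L)
      (hεs.mul_right _)
      (fun j => (hcb j).neg.mul c0)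
      (fun j x hx => by
        rw [abs_mul, abs_neg]
        exact mul_le_mul (hbb j x hx) (hwb x hx) (abs_nonneg _) (by
          have := hεn j
          positivity))
      (fun x hx => (hβs x hx).mul_right _) hLL
    refine e1.unique ?_
    have e2 : (fun j => ∫ x in (0 : ℝ)..L, -(ε j * b j 0 x) * w0 x)
        = fun j => -(ε j * d j * ∫ x in (0 : ℝ)..L, b j 0 x ^ 2) := by
      funext j
      rw [mul_assoc, ← hcoef j, ← intervalIntegral.integral_const_mul,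
        ← intervalIntegral.integral_neg]
      congr 1; funext x; ring
    rw [e2]
    simpa using hD.neg
  -- the constant
  set U : ℝ := ∑' n, u n with hUU
  have hu0 : u 0 = 100 * (|D| * k 0 ^ 2) := rfl
  have hd0 : d 0 = D := rfl
  refine ⟨k, ρ, a, b, ε, d, α, β, w0, w01, w02, U + 20000 * L + 200 + 100 * (|D| * k 0 ^ 2),
    by positivity, ?_⟩
  have hCU : U ≤ U + 20000 * L + 200 + 100 * (|D| * k 0 ^ 2) := by
    have : 0 ≤ |D| * k 0 ^ 2 := by positivity
    linarith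
  have hC200 : 200 ≤ U + 20000 * L + 200 + 100 * (|D| * k 0 ^ 2) := by
    have : 0 ≤ |D| * k 0 ^ 2 := by positivity
    linarith
  have hCL : 20000 * L ≤ U + 20000 * L + 200 + 100 * (|D| * k 0 ^ 2) := by
    have : 0 ≤ |D| * k 0 ^ 2 := by positivity
    linarith
  have hCD : 100 * (|D| * k 0 ^ 2) + 200 ≤ U + 20000 * L + 200 + 100 * (|D| * k 0 ^ 2) := by
    linarith
  set C : ℝ := U + 20000 * L + 200 + 100 * (|D| * k 0 ^ 2) with hC
  refine ⟨hm, hg, rfl, fun n => rfl, fun n => rfl, (kd11_G_cont hL hεs hca hab).neg, cβ,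
    ?_, ?_, ?_, ?_, ?_, ?_, ?_, hcomp, hcoef, ?_, ?_, ?_, ?_⟩
  · -- tα
    intro n x hx
    have e1 := kd11_tail (c := 100 * (k n ^ 4)⁻¹)
      (kd11_G_sum (F := fun n x => ε n * a n 0 x) hεs hab hx) (n + 1) (fun i => by
        refine (hab (i + (n + 1)) x hx).trans ?_
        have := kd11_eps_tail h2 hd n i
        nlinarith)
    have e2 : α x + ∑ j ∈ Finset.range (n + 1), ε j * a j 0 x
        = -(kd11_G L (fun n x => ε n * a n 0 x) x - ∑ j ∈ Finset.range (n + 1), ε j * a j 0 x) := by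
      simp only [hα]; ring
    rw [e2, abs_neg]
    linarith
  · -- tβ
    intro n x hx
    have e1 := kd11_tail (c := 100 * (k n ^ 4)⁻¹)
      (kd11_G_sum (F := fun n x => ε n * b n 0 x) hεs hbb hx) (n + 1) (fun i => by
        refine (hbb (i + (n + 1)) x hx).trans ?_
        have := kd11_eps_tail h2 hd n i
        nlinarith)
    have e2 : β x + ∑ j ∈ Finset.range (n + 1), ε j * b j 0 x
        = -(kd11_G L (fun n x => ε n * b n 0 x) x - ∑ j ∈ Finset.range (n + 1), ε j * b j 0 x) := by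
      simp only [hβ]; ring
    rw [e2, abs_neg]
    linarith
  · -- w0 is C²
    have hder0 : deriv w0 = w01 := funext fun x => (d0 x).deriv
    have hder1 : deriv w01 = w02 := funext fun x => (d01 x).deriv
    have h1 : ContDiff ℝ 1 w01 := by
      rw [contDiff_one_iff_deriv]
      exact ⟨fun x => (d01 x).differentiableAt, by rw [hder1]; exact c02⟩
    have h3 : ContDiff ℝ (1 + 1) w0 := by
      rw [contDiff_succ_iff_deriv]
      refine ⟨fun x => (d0 x).differentiableAt, by simp, by rw [hder0]; exact h1⟩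
    have h4 : (2 : WithTop ℕ∞) = 1 + 1 := by norm_num
    rw [h4]; exact h3
  · -- IsH2
    refine ⟨fun x _ => (d0 x).hasDerivWithinAt, fun x _ => ?_, ?_⟩
    · simp only [hw01, intervalIntegral.integral_same, add_zero]
    · refine MemLp.of_bound c02.aestronglyMeasurable U ?_
      filter_upwards with x
      rw [Real.norm_eq_abs]
      exact hGb 2 (le_refl _) x
  · simp only [hw0, intervalIntegral.integral_same]
  · rw [e0 L hLL, hG0L]
  · rw [e01 L hLL, hG1L]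
  · -- tail
    intro n x hx
    have hk1 : 0 ≤ (k (n + 1) ^ 2)⁻¹ := by
      have := h2 (n + 1)
      positivity
    have e1 := kd11_tail (c := 100 * (k (n + 1) ^ 2)⁻¹) (hws x hx) (n + 1) (fun i => by
        have h3 := kd11_d_tail h2 hd D n i
        have h4 := kd11_b0 hm (i + (n + 1)) hx
        have h5 : 0 ≤ d (i + (n + 1)) := kd11_d_nonneg h2 D (i + n)
        rw [abs_mul, abs_of_nonneg h5]
        calc d (i + (n + 1)) * |b (i + (n + 1)) 0 x|
            ≤ ((k (n + 1) ^ 2)⁻¹ * (1 / 2) ^ i) * 100 := by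
              refine mul_le_mul h3 h4 (abs_nonneg _) (by positivity)
          _ = _ := by ring)
    refine e1.trans ?_
    nlinarith
  · -- lowV
    intro n j hj x hx
    refine (Finset.abs_sum_le_sum_abs _ _).trans ?_
    refine le_trans ?_ hCU
    refine le_trans (Finset.sum_le_sum fun i _ => kd11_term hm D i j hj hx) ?_
    exact hu.sum_le_tsum _ (fun i _ => kd11_u_nonneg k D i)
  · -- lowV3
    intro n x hx
    induction n with
    | zero =>
      simp only [zero_add, Finset.sum_range_one]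
      have h3 := kd11_bj hm 0 3 (le_refl _) hx
      have hk := h2 0
      rw [abs_mul, hd0]
      calc |D| * |b 0 (3 : ℤ) x| ≤ |D| * (100 * k 0 ^ 3) := by
            gcongr
            exact_mod_cast h3
        _ = 100 * (|D| * k 0 ^ 2) * k 0 := by ring
        _ ≤ C * k 0 := by
            gcongr
            linarith
    | succ n ih =>
      rw [Finset.sum_range_succ]
      have hk := h2 n
      have hk1 := h2 (n + 1)
      have h3 := kd11_bj hm (n + 1) 3 (le_refl _) hx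
      have h4 : |d (n + 1) * b (n + 1) (3 : ℤ) x| ≤ 100 * k (n + 1) := by
        have h5 : 0 ≤ d (n + 1) := kd11_d_nonneg h2 D n
        have h6 := kd11_d_mul h2 D n
        have h7 : (k n ^ 4)⁻¹ ≤ 1 := inv_le_one_of_one_le₀ (one_le_pow₀ (by linarith))
        rw [abs_mul, abs_of_nonneg h5]
        calc d (n + 1) * |b (n + 1) (3 : ℤ) x| ≤ d (n + 1) * (100 * k (n + 1) ^ 3) := by
              gcongr
              exact_mod_cast h3
          _ = 100 * k (n + 1) * (d (n + 1) * k (n + 1) ^ 2) := by ring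
          _ = 100 * k (n + 1) * (k n ^ 4)⁻¹ := by rw [h6]
          _ ≤ 100 * k (n + 1) * 1 := by gcongr
          _ = _ := by ring
      refine (abs_add_le _ _).trans ?_
      have h8 := hd n
      nlinarith
  · -- slow
    intro n
    have hk1 : 0 ≤ (k (n + 1) ^ 2)⁻¹ := by
      have := h2 (n + 1)
      positivity
    have e1 := kd11_tail (c := 10000 * L * (k (n + 1) ^ 2)⁻¹) hD (n + 1) (fun i => by
        have h3 := kd11_d_tail h2 hd D n i
        have h4 := kd11_nb_le hL hm (i + (n + 1))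
        have h5 : 0 ≤ d (i + (n + 1)) := kd11_d_nonneg h2 D (i + n)
        have h6 := kd11_eps_nonneg h2 (i + (n + 1))
        have h7 := kd11_eps_le h2 (i + (n + 1))
        rw [abs_mul, abs_mul, abs_of_nonneg h6, abs_of_nonneg h5]
        calc kd11_eps k (i + (n + 1)) * kd11_d k D (i + (n + 1))
              * |∫ x in (0 : ℝ)..L, b (i + (n + 1)) 0 x ^ 2|
            ≤ 1 * ((k (n + 1) ^ 2)⁻¹ * (1 / 2) ^ i) * (10000 * L) := by
              refine mul_le_mul (mul_le_mul h7 h3 h5 (by norm_num)) h4 (abs_nonneg _)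
                (by positivity)
          _ = _ := by ring)
    rw [zero_sub, abs_neg] at e1
    refine e1.trans ?_
    nlinarith

end Pool.Agent.KD
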