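import Pool.Agent.KD.SolDefs

/-!
# KdV-KdV system with linear boundary feedback: definitions (project KD, MP_11a591_an)

All functions of the space variable are functions `ℝ → ℝ` of which only the restriction to
`[0, L]` is used.
-/

open MeasureTheory Set

namespace Pool.Agent.KD

/-- Test functions: `p` is `C¹` on `[0,L]` with derivative `p1`, and vanishes at both ends. -/
structure IsTest (L : ℝ) (p p1 : ℝ → ℝ) : Prop where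
  deriv : ∀ x ∈ Icc (0 : ℝ) L, HasDerivWithinAt p (p1 x) (Icc 0 L) x
  cont : ContinuousOn p1 (Icc 0 L)
  left : p 0 = 0
  right : p L = 0

/-- The part of the notion of solution which does not involve the feedback:
`(η, w)` is bounded in `H²(0,L)` on `[0,T]`, satisfies the four Dirichlet conditions, and solves
`η_t = -(w_x + w_xxx + (η w)_x)`, `w_t = -(η_x + η_xxx + w w_x)` in the dual of `H¹₀(0,L)`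
(the third derivatives are integrated by parts once against the test function). -/
structure IsOpenSol (L T : ℝ) (η η1 η2 w w1 w2 : ℝ → ℝ → ℝ) : Prop where
  h2η : ∀ t ∈ Icc (0 : ℝ) T, IsH2 L (η t) (η1 t) (η2 t)
  h2w : ∀ t ∈ Icc (0 : ℝ) T, IsH2 L (w t) (w1 t) (w2 t)
  bdd : ∃ m : ℝ, ∀ t ∈ Icc (0 : ℝ) T,
    (∫ x in (0 : ℝ)..L, η2 t x ^ 2) ≤ m ∧ (∫ x in (0 : ℝ)..L, w2 t x ^ 2) ≤ m
  dir : ∀ t ∈ Icc (0 : ℝ) T, η t 0 = 0 ∧ η t L = 0 ∧ w t 0 = 0 ∧ w t L = 0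
  eqη : ∀ p p1 : ℝ → ℝ, IsTest L p p1 → ∀ t ∈ Icc (0 : ℝ) T,
    HasDerivWithinAt (fun s => ∫ x in (0 : ℝ)..L, η s x * p x)
      (∫ x in (0 : ℝ)..L, (w2 t x * p1 x - w1 t x * p x
        - (η1 t x * w t x + η t x * w1 t x) * p x)) (Icc 0 T) t
  eqw : ∀ p p1 : ℝ → ℝ, IsTest L p p1 → ∀ t ∈ Icc (0 : ℝ) T,
    HasDerivWithinAt (fun s => ∫ x in (0 : ℝ)..L, w s x * p x)
      (∫ x in (0 : ℝ)..L, (η2 t x * p1 x - η1 t x * p x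
        - (w t x * w1 t x) * p x)) (Icc 0 T) t

/-- Solution of the closed loop with feedback kernels `β` (for `η_x(0,t)`, applied to `w`) and
`α` (for `w_x(L,t)`, applied to `η`), and datum `(0, w0)`. -/
structure IsKSol (L T : ℝ) (α β w0 : ℝ → ℝ) (η η1 η2 w w1 w2 : ℝ → ℝ → ℝ) : Prop where
  sol : IsOpenSol L T η η1 η2 w w1 w2
  fb1 : ∀ t ∈ Icc (0 : ℝ) T, η1 t 0 = ∫ x in (0 : ℝ)..L, β x * w t x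
  fb2 : ∀ t ∈ Icc (0 : ℝ) T, w1 t L = ∫ x in (0 : ℝ)..L, α x * η t x
  inη : ∀ x ∈ Icc (0 : ℝ) L, η 0 x = 0
  inw : ∀ x ∈ Icc (0 : ℝ) L, w 0 x = w0 x

/-- A real mode with wave number `k` of the linear conservative system: `a j`, `b j` are the
`j`-th derivatives (`j < 0`: antiderivatives). -/
structure IsMode (L k ρ : ℝ) (a b : ℤ → ℝ → ℝ) : Prop where
  hk : 2 ≤ k
  da : ∀ (j : ℤ) (x : ℝ), HasDerivAt (a j) (a (j + 1) x) x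
  db : ∀ (j : ℤ) (x : ℝ), HasDerivAt (b j) (b (j + 1) x) x
  oda : ∀ x, a 1 x + a 3 x = -(k - k ^ 3) * b 0 x
  odb : ∀ x, b 1 x + b 3 x = (k - k ^ 3) * a 0 x
  a00 : a 0 0 = 0
  a0L : a 0 L = 0
  b00 : b 0 0 = 0
  b0L : b 0 L = 0
  a10 : a 1 0 = 0
  b1L : b 1 L = 0
  b10 : b 1 0 = ρ
  a1L : a 1 L = -ρ
  bda : ∀ j : ℤ, -2 ≤ j → j ≤ 3 → ∀ x ∈ Icc (0 : ℝ) L, |a j x| ≤ 100 * k ^ j
  bdb : ∀ j : ℤ, -2 ≤ j → j ≤ 3 → ∀ x ∈ Icc (0 : ℝ) L, |b j x| ≤ 100 * k ^ j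
  la : ∀ x ∈ Icc (0 : ℝ) L, |a 2 x + k * b 1 x| ≤
    100 * k ^ 2 * (Real.exp (-(k * x / 2)) + Real.exp (-(k * (L - x) / 2)))
  lb : ∀ x ∈ Icc (0 : ℝ) L, |b 2 x - k * a 1 x| ≤
    100 * k ^ 2 * (Real.exp (-(k * x / 2)) + Real.exp (-(k * (L - x) / 2)))
  ρlo : k ≤ ρ
  nrm : L / 4 ≤ ∫ x in (0 : ℝ)..L, b 0 x ^ 2

/-- A state: an `H²` function with Dirichlet conditions and all the bounds by `m` which we use. -/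
structure IsSt (L m : ℝ) (f f1 f2 : ℝ → ℝ) : Prop where
  h2 : IsH2 L f f1 f2
  f0 : f 0 = 0
  fL : f L = 0
  b1 : ∀ x ∈ Icc (0 : ℝ) L, |f1 x| ≤ m
  b0 : ∀ x ∈ Icc (0 : ℝ) L, |f x| ≤ m
  bx : ∀ x ∈ Icc (0 : ℝ) L, |f x| ≤ m * x
  bxL : ∀ x ∈ Icc (0 : ℝ) L, |f x| ≤ m * (L - x)
  i1 : (∫ x in (0 : ℝ)..L, |f2 x|) ≤ m
  i2 : (∫ x in (0 : ℝ)..L, f2 x ^ 2) ≤ m ^ 2

/-- A smooth real function `V 0` with derivatives `V j`, vanishing at both ends. -/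
structure IsV (L m N : ℝ) (V : ℕ → ℝ → ℝ) : Prop where
  d : ∀ (j : ℕ) (x : ℝ), HasDerivAt (V j) (V (j + 1) x) x
  V0 : V 0 0 = 0
  VL : V 0 L = 0
  bV : ∀ j : ℕ, j ≤ 2 → ∀ x ∈ Icc (0 : ℝ) L, |V j x| ≤ m
  bV3 : ∀ x ∈ Icc (0 : ℝ) L, |V 3 x| ≤ N
  bx : ∀ x ∈ Icc (0 : ℝ) L, |V 0 x| ≤ m * x
  bxL : ∀ x ∈ Icc (0 : ℝ) L, |V 0 x| ≤ m * (L - x)

/-- The WKB multiplier `H 0 = exp (i/(3k) ∫₀ˣ V)` with its derivatives. -/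
structure IsWKB (L k h : ℝ) (V : ℕ → ℝ → ℝ) (H : ℕ → ℝ → ℂ) : Prop where
  d : ∀ j : ℕ, j ≤ 3 → ∀ x : ℝ, HasDerivAt (H j) (H (j + 1) x) x
  c4 : Continuous (H 4)
  H00 : H 0 0 = 1
  H1 : ∀ x, H 1 x = (Complex.I * V 0 x / (3 * k)) * H 0 x
  b0 : ∀ x, ‖H 0 x‖ ≤ 1
  bj : ∀ j : ℕ, 1 ≤ j → j ≤ 4 → ∀ x ∈ Icc (0 : ℝ) L, ‖H j x‖ ≤ h

/-- All the data of the counterexample: super-lacunary modes `k n`, feedback kernels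
`α = -∑ ε_j a_j`, `β = -∑ ε_j b_j` on `[0,L]`, and the datum `w0 = ∑ d_j b_j`. -/
structure IsData (L : ℝ) (k ρ : ℕ → ℝ) (a b : ℕ → ℤ → ℝ → ℝ) (ε d : ℕ → ℝ)
    (α β w0 w01 w02 : ℝ → ℝ) (C : ℝ) : Prop where
  mode : ∀ n, IsMode L (k n) (ρ n) (a n) (b n)
  grow : ∀ n, k n ^ 100 ≤ k (n + 1)
  ε0 : ε 0 = 1
  ε1 : ∀ n, ε (n + 1) = (k n ^ 4)⁻¹
  d1 : ∀ n, d (n + 1) = (k (n + 1) ^ 2 * k n ^ 4)⁻¹
  cα : Continuous α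
  cβ : Continuous β
  tα : ∀ n, ∀ x ∈ Icc (0 : ℝ) L,
    |α x + ∑ j ∈ Finset.range (n + 1), ε j * a j 0 x| ≤ 200 * (k n ^ 4)⁻¹
  tβ : ∀ n, ∀ x ∈ Icc (0 : ℝ) L,
    |β x + ∑ j ∈ Finset.range (n + 1), ε j * b j 0 x| ≤ 200 * (k n ^ 4)⁻¹
  cw : ContDiff ℝ 2 w0
  h2 : IsH2 L w0 w01 w02
  w00 : w0 0 = 0
  w0L : w0 L = 0
  w01L : w01 L = 0
  comp : (∫ x in (0 : ℝ)..L, β x * w0 x) = 0
  coef : ∀ n, (∫ x in (0 : ℝ)..L, w0 x * b n 0 x) = d n * ∫ x in (0 : ℝ)..L, b n 0 x ^ 2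
  tail : ∀ n, ∀ x ∈ Icc (0 : ℝ) L,
    |w0 x - ∑ j ∈ Finset.range (n + 1), d j * b j 0 x| ≤ C * (k (n + 1) ^ 2)⁻¹
  lowV : ∀ n : ℕ, ∀ j : ℕ, j ≤ 2 → ∀ x ∈ Icc (0 : ℝ) L,
    |∑ i ∈ Finset.range n, d i * b i j x| ≤ C
  lowV3 : ∀ n : ℕ, ∀ x ∈ Icc (0 : ℝ) L, |∑ i ∈ Finset.range (n + 1), d i * b i 3 x| ≤ C * k n
  slow : ∀ n : ℕ, |∑ j ∈ Finset.range (n + 1), ε j * d j * ∫ x in (0 : ℝ)..L, b j 0 x ^ 2|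
    ≤ C * (k (n + 1) ^ 2)⁻¹

end Pool.Agent.KD
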