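import Pool.Agent.KD.Defs

/-!
Density of `C_c^∞(0,L)` in `L²(0,L)` and in `H¹₀(0,L)` (for `C¹` functions).
-/

set_option autoImplicit false

open MeasureTheory Set

namespace Pool.Agent.KD

/-- A smooth compactly supported function which is close in `L²(0,L)`. -/
theorem kd13_smooth {L : ℝ} {f : ℝ → ℝ} (hf : MemLp f 2 (volume.restrict (Ioc 0 L)))
    {ε : ℝ} (hε : 0 < ε) : ∃ g : ℝ → ℝ, HasCompactSupport g ∧ ContDiff ℝ (⊤ : ℕ∞) g ∧
      MemLp g 2 (volume.restrict (Ioc 0 L)) ∧ (∫ x in Ioc 0 L, (f x - g x) ^ 2) ≤ ε := by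
  obtain ⟨g, hg1, hg2, hg3⟩ := hf.exist_eLpNorm_sub_le (by norm_num) (by norm_num)
    (Real.sqrt_pos.2 hε)
  have hgm : MemLp g 2 (volume.restrict (Ioc 0 L)) :=
    hg2.continuous.memLp_of_hasCompactSupport hg1
  refine ⟨g, hg1, hg2, hgm, ?_⟩
  rw [(hf.sub hgm).eLpNorm_eq_integral_rpow_norm (by norm_num) (by norm_num),
    ENNReal.ofReal_le_ofReal_iff (Real.sqrt_nonneg _)] at hg3
  have h1 : ∀ a, ‖(f - g) a‖ ^ (2 : ENNReal).toReal = (f a - g a) ^ 2 := by
    intro a
    rw [ENNReal.toReal_ofNat, Real.rpow_ofNat, Pi.sub_apply, Real.norm_eq_abs, sq_abs]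
  simp only [h1] at hg3
  rw [ENNReal.toReal_ofNat, ← one_div, ← Real.sqrt_eq_rpow,
    Real.sqrt_le_sqrt_iff hε.le] at hg3
  exact hg3

/-- Smooth cutoff functions. -/
theorem kd13_cut {L s : ℝ} (hs : 0 < s) (h : s < L / 2) : ∃ χ : ℝ → ℝ,
    ContDiff ℝ (⊤ : ℕ∞) χ ∧ tsupport χ ⊆ Icc (s / 2) (L - s / 2) ∧
      (∀ x, 0 ≤ χ x) ∧ (∀ x, χ x ≤ 1) ∧ ∀ x ∈ Icc s (L - s), χ x = 1 := by
  let φ : ContDiffBump (L / 2 : ℝ) := ⟨L / 2 - s, L / 2 - s / 2, by linarith, by linarith⟩
  refine ⟨φ, φ.contDiff, ?_, fun x => φ.nonneg, fun x => φ.le_one, ?_⟩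
  · rw [φ.tsupport_eq, Real.closedBall_eq_Icc]
    apply Icc_subset_Icc
    · show s / 2 ≤ L / 2 - (L / 2 - s / 2)
      linarith
    · show L / 2 + (L / 2 - s / 2) ≤ L - s / 2
      linarith
  · intro x hx
    apply φ.one_of_mem_closedBall
    rw [Real.closedBall_eq_Icc]
    constructor
    · show L / 2 - (L / 2 - s) ≤ x
      linarith [hx.1]
    · show x ≤ L / 2 + (L / 2 - s)
      linarith [hx.2]

theorem dense_l2 {L : ℝ} (hL : 0 < L) {f : ℝ → ℝ} (hf : MemLp f 2 (volume.restrict (Ioc 0 L)))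
    {δ : ℝ} (hδ : 0 < δ) : ∃ p : ℝ → ℝ, ContDiff ℝ (⊤ : ℕ∞) p ∧ tsupport p ⊆ Ioo 0 L ∧
      (∫ x in (0 : ℝ)..L, (f x - p x) ^ 2) ≤ δ := by
  obtain ⟨g, hg1, hg2, hgm, hg3⟩ := kd13_smooth hf (show 0 < δ / 4 by linarith)
  obtain ⟨M, hM⟩ := hg2.continuous.bounded_above_of_compact_support hg1
  have hM0 : 0 ≤ M := (norm_nonneg _).trans (hM 0)
  obtain ⟨s, hs0, hs1, hs2⟩ : ∃ s : ℝ, 0 < s ∧ s < L / 2 ∧ 2 * s * M ^ 2 ≤ δ / 4 := by
    refine ⟨min (L / 4) (δ / (8 * (M ^ 2 + 1))), by positivity, ?_, ?_⟩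
    · exact (min_le_left _ _).trans_lt (by linarith)
    · have h1 : min (L / 4) (δ / (8 * (M ^ 2 + 1))) ≤ δ / (8 * (M ^ 2 + 1)) := min_le_right _ _
      have h2 : δ / (8 * (M ^ 2 + 1)) * (8 * (M ^ 2 + 1)) = δ := by
        field_simp
      have h3 : 0 ≤ min (L / 4) (δ / (8 * (M ^ 2 + 1))) := by positivity
      nlinarith [sq_nonneg M]
  obtain ⟨χ, hχ1, hχ2, hχ3, hχ4, hχ5⟩ := kd13_cut hs0 hs1
  refine ⟨fun x => χ x * g x, hχ1.mul hg2, ?_, ?_⟩
  · refine (tsupport_mul_subset_left (f := χ) (g := g)).trans (hχ2.trans ?_)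
    intro x hx
    exact ⟨by linarith [hx.1], by linarith [hx.2]⟩
  · have hFc : Continuous (fun x => (g x - χ x * g x) ^ 2) := by
      have h1 := hg2.continuous
      have h2 := hχ1.continuous
      fun_prop
    have hFM : ∀ x, (g x - χ x * g x) ^ 2 ≤ M ^ 2 := by
      intro x
      have h1 : (g x - χ x * g x) ^ 2 = (1 - χ x) ^ 2 * (g x) ^ 2 := by ring
      have h2 : (g x) ^ 2 ≤ M ^ 2 := by
        rw [← sq_abs]
        exact pow_le_pow_left₀ (abs_nonneg _) (hM x) 2
      have h3 : (1 - χ x) ^ 2 ≤ 1 := by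
        have := hχ3 x
        have := hχ4 x
        nlinarith
      rw [h1]
      calc (1 - χ x) ^ 2 * (g x) ^ 2 ≤ 1 * M ^ 2 :=
            mul_le_mul h3 h2 (sq_nonneg _) zero_le_one
        _ = M ^ 2 := one_mul _
    have hF0 : ∀ x ∈ Icc s (L - s), (g x - χ x * g x) ^ 2 = 0 := by
      intro x hx
      rw [hχ5 x hx]
      ring
    have hF : (∫ x in (0 : ℝ)..L, (g x - χ x * g x) ^ 2) ≤ δ / 4 := by
      have h1 : (∫ x in (0 : ℝ)..s, (g x - χ x * g x) ^ 2) ≤ s * M ^ 2 := by
        calc (∫ x in (0 : ℝ)..s, (g x - χ x * g x) ^ 2) ≤ ∫ x in (0 : ℝ)..s, M ^ 2 :=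
              intervalIntegral.integral_mono_on hs0.le (hFc.intervalIntegrable _ _)
                intervalIntegrable_const (fun x _ => hFM x)
          _ = s * M ^ 2 := by rw [intervalIntegral.integral_const, smul_eq_mul, sub_zero]
      have h2 : (∫ x in s..(L - s), (g x - χ x * g x) ^ 2) = 0 := by
        rw [intervalIntegral.integral_congr (g := fun _ => (0 : ℝ)),
          intervalIntegral.integral_zero]
        intro x hx
        rw [uIcc_of_le (by linarith)] at hx
        exact hF0 x hx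
      have h3 : (∫ x in (L - s)..L, (g x - χ x * g x) ^ 2) ≤ s * M ^ 2 := by
        calc (∫ x in (L - s)..L, (g x - χ x * g x) ^ 2) ≤ ∫ x in (L - s)..L, M ^ 2 :=
              intervalIntegral.integral_mono_on (by linarith) (hFc.intervalIntegrable _ _)
                intervalIntegrable_const (fun x _ => hFM x)
          _ = s * M ^ 2 := by
              rw [intervalIntegral.integral_const, smul_eq_mul]
              ring
      have h4 := intervalIntegral.integral_add_adjacent_intervals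
        (hFc.intervalIntegrable 0 s (μ := volume)) (hFc.intervalIntegrable s (L - s) (μ := volume))
      have h5 := intervalIntegral.integral_add_adjacent_intervals
        (hFc.intervalIntegrable 0 (L - s) (μ := volume))
        (hFc.intervalIntegrable (L - s) L (μ := volume))
      linarith
    rw [intervalIntegral.integral_of_le hL.le] at hF ⊢
    have hI1 : Integrable (fun x => (f x - g x) ^ 2) (volume.restrict (Ioc 0 L)) :=
      (hf.sub hgm).integrable_sq
    have hI2 : Integrable (fun x => (g x - χ x * g x) ^ 2) (volume.restrict (Ioc 0 L)) :=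
      (hFc.continuousOn.integrableOn_Icc).mono_set Ioc_subset_Icc_self
    calc (∫ x in Ioc 0 L, (f x - χ x * g x) ^ 2)
        ≤ ∫ x in Ioc 0 L, (2 * (f x - g x) ^ 2 + 2 * (g x - χ x * g x) ^ 2) := by
          apply integral_mono_of_nonneg
          · exact Filter.Eventually.of_forall fun x => sq_nonneg _
          · exact (hI1.const_mul 2).add (hI2.const_mul 2)
          · apply Filter.Eventually.of_forall
            intro x
            show (f x - χ x * g x) ^ 2 ≤ 2 * (f x - g x) ^ 2 + 2 * (g x - χ x * g x) ^ 2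
            nlinarith [sq_nonneg ((f x - g x) - (g x - χ x * g x))]
      _ = 2 * (∫ x in Ioc 0 L, (f x - g x) ^ 2)
          + 2 * ∫ x in Ioc 0 L, (g x - χ x * g x) ^ 2 := by
          rw [integral_add (hI1.const_mul 2) (hI2.const_mul 2), integral_const_mul,
            integral_const_mul]
      _ ≤ δ := by linarith

/-- Small in `L²` implies small in `L¹`. -/
theorem kd13_l1 {L ε : ℝ} (hL : 0 < L) (hε : 0 < ε) {h : ℝ → ℝ}
    (hc : ContinuousOn h (Icc 0 L)) (hh : (∫ x in (0 : ℝ)..L, h x ^ 2) ≤ ε ^ 2 / L) :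
    (∫ x in (0 : ℝ)..L, |h x|) ≤ ε := by
  have hu : uIcc (0 : ℝ) L = Icc 0 L := uIcc_of_le hL.le
  have hi1 : IntervalIntegrable (fun x => |h x|) volume 0 L :=
    (hu ▸ hc.abs).intervalIntegrable
  have hi2 : IntervalIntegrable (fun x => h x ^ 2) volume 0 L :=
    (hu ▸ hc.pow 2).intervalIntegrable
  calc (∫ x in (0 : ℝ)..L, |h x|)
      ≤ ∫ x in (0 : ℝ)..L, (ε / (2 * L) + L / (2 * ε) * h x ^ 2) := by
        apply intervalIntegral.integral_mono_on hL.le hi1
          (intervalIntegrable_const.add (hi2.const_mul _))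
        intro x _
        have h1 : ε / (2 * L) + L / (2 * ε) * h x ^ 2 - |h x|
            = (ε - L * |h x|) ^ 2 / (2 * L * ε) := by
          rw [← sq_abs (h x)]
          field_simp
          ring
        have h2 : 0 ≤ (ε - L * |h x|) ^ 2 / (2 * L * ε) := by positivity
        linarith
    _ = ε / 2 + L / (2 * ε) * ∫ x in (0 : ℝ)..L, h x ^ 2 := by
        rw [intervalIntegral.integral_add intervalIntegrable_const (hi2.const_mul _),
          intervalIntegral.integral_const, intervalIntegral.integral_const_mul, smul_eq_mul]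
        field_simp
        ring
    _ ≤ ε / 2 + L / (2 * ε) * (ε ^ 2 / L) := by
        have h3 : 0 ≤ L / (2 * ε) := by positivity
        nlinarith [mul_le_mul_of_nonneg_left hh h3]
    _ = ε := by
        field_simp
        ring

theorem dense_h1 {L : ℝ} (hL : 0 < L) {p p1 : ℝ → ℝ} (hp : IsTest L p p1)
    {δ : ℝ} (hδ : 0 < δ) : ∃ q : ℝ → ℝ, ContDiff ℝ (⊤ : ℕ∞) q ∧ tsupport q ⊆ Ioo 0 L ∧
      (∫ x in (0 : ℝ)..L, (p1 x - deriv q x) ^ 2) ≤ δ ∧
      (∀ x ∈ Icc (0 : ℝ) L, |p x - q x| ≤ δ) := by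
  have hu : uIcc (0 : ℝ) L = Icc 0 L := uIcc_of_le hL.le
  -- the primitive of `p1`
  have hprim : ∀ x ∈ Icc (0 : ℝ) L, (∫ y in (0 : ℝ)..x, p1 y) = p x := by
    intro x hx
    have h1 := intervalIntegral.integral_eq_sub_of_hasDerivAt_of_le hx.1
      (f := p) (f' := p1) (fun y hy => ((hp.deriv y ⟨hy.1, hy.2.trans hx.2⟩).continuousWithinAt).mono
        (Icc_subset_Icc_right hx.2))
      (fun y hy => (hp.deriv y ⟨hy.1.le, hy.2.le.trans hx.2⟩).hasDerivAt
        (Icc_mem_nhds hy.1 (hy.2.trans_le hx.2)))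
      (by
        apply ContinuousOn.intervalIntegrable
        rw [uIcc_of_le hx.1]
        exact hp.cont.mono (Icc_subset_Icc_right hx.2))
    rw [h1, hp.left, sub_zero]
  -- a bump with integral one
  obtain ⟨χ, hχ1, hχ2, hχ3, hχ4, hχ5⟩ := kd13_cut (L := L) (s := L / 4) (by linarith) (by linarith)
  have hχc : Continuous χ := hχ1.continuous
  have hχi : ∀ a b : ℝ, IntervalIntegrable χ volume a b := fun a b => hχc.intervalIntegrable a b
  have hI : 0 < ∫ x in (0 : ℝ)..L, χ x := by
    apply intervalIntegral.integral_pos hL hχc.continuousOn (fun x _ => hχ3 x)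
    exact ⟨L / 2, ⟨by linarith, by linarith⟩, by
      rw [hχ5 _ ⟨by linarith, by linarith⟩]; exact zero_lt_one⟩
  set J := ∫ x in (0 : ℝ)..L, χ x with hJ
  have hBc : Continuous (fun x => (χ x / J) ^ 2) := by fun_prop
  set B := ∫ x in (0 : ℝ)..L, (χ x / J) ^ 2 with hB
  have hB0 : 0 ≤ B := intervalIntegral.integral_nonneg hL.le (fun x _ => sq_nonneg _)
  -- the constants
  obtain ⟨e, he0, he1, he2⟩ : ∃ e : ℝ, 0 < e ∧ e ≤ δ ∧ e ≤ δ ^ 2 / L :=
    ⟨min δ (δ ^ 2 / L), by positivity, min_le_left _ _, min_le_right _ _⟩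
  obtain ⟨ε, hε0, hε1, hε2⟩ : ∃ ε : ℝ, 0 < ε ∧ 2 * (ε ^ 2 / L) ≤ e / 2 ∧
      2 * ε ^ 2 * B ≤ e / 2 := by
    refine ⟨Real.sqrt (e / (4 * (1 / L + B))), ?_, ?_, ?_⟩
    · apply Real.sqrt_pos.2
      positivity
    · rw [Real.sq_sqrt (by positivity)]
      have h1 : e / (4 * (1 / L + B)) * (4 * (1 / L + B)) = e := by
        have : 1 / L + B ≠ 0 := by positivity
        field_simp
      have h2 : 0 ≤ e / (4 * (1 / L + B)) := by positivity
      have h3 : e / (4 * (1 / L + B)) / L = e / (4 * (1 / L + B)) * (1 / L) := by ring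
      rw [h3]
      nlinarith [mul_nonneg h2 hB0]
    · rw [Real.sq_sqrt (by positivity)]
      have h1 : e / (4 * (1 / L + B)) * (4 * (1 / L + B)) = e := by
        have : 1 / L + B ≠ 0 := by positivity
        field_simp
      have h2 : 0 ≤ e / (4 * (1 / L + B)) := by positivity
      have h3 : 0 ≤ 1 / L := by positivity
      nlinarith [mul_nonneg h2 h3]
  -- approximation of `p1`
  have hp1m : MemLp p1 2 (volume.restrict (Ioc 0 L)) := by
    obtain ⟨C, hC⟩ := isCompact_Icc.exists_bound_of_continuousOn hp.cont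
    refine MemLp.of_bound
      ((hp.cont.mono Ioc_subset_Icc_self).aestronglyMeasurable measurableSet_Ioc) C ?_
    rw [ae_restrict_iff' measurableSet_Ioc]
    exact Filter.Eventually.of_forall fun x hx => hC x (Ioc_subset_Icc_self hx)
  obtain ⟨r, hr1, hr2, hr3⟩ := dense_l2 hL hp1m (show 0 < ε ^ 2 / L by positivity)
  have hrc : Continuous r := hr1.continuous
  set m := ∫ x in (0 : ℝ)..L, r x with hm
  have hpi : IntervalIntegrable p1 volume 0 L := (hu ▸ hp.cont).intervalIntegrable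
  have hm1 : |m| ≤ ε := by
    have h1 : (∫ x in (0 : ℝ)..L, (p1 x - r x)) = -m := by
      rw [intervalIntegral.integral_sub hpi (hrc.intervalIntegrable _ _),
        hprim L ⟨hL.le, le_rfl⟩, hp.right, ← hm, zero_sub]
    have h2 := kd13_l1 hL hε0 (hp.cont.sub hrc.continuousOn) hr3
    have h3 := intervalIntegral.abs_integral_le_integral_abs (f := fun x => p1 x - r x)
      (μ := volume) hL.le
    rw [h1, abs_neg] at h3
    exact h3.trans h2
  -- the derivative of `q`
  obtain ⟨q1, hq1⟩ : ∃ q1 : ℝ → ℝ, ∀ x, q1 x = r x - m * (χ x / J) := ⟨_, fun x => rfl⟩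
  have hq1e : q1 = fun x => r x - m * (χ x / J) := funext hq1
  have hq1s : ContDiff ℝ (⊤ : ℕ∞) q1 := by
    rw [hq1e]
    exact hr1.sub (contDiff_const.mul (hχ1.div_const J))
  have hq1c : Continuous q1 := hq1s.continuous
  have hq10 : (∫ x in (0 : ℝ)..L, q1 x) = 0 := by
    have h1 : Continuous (fun x => m * (χ x / J)) := by fun_prop
    rw [hq1e, intervalIntegral.integral_sub (hrc.intervalIntegrable _ _)
      (h1.intervalIntegrable _ _), intervalIntegral.integral_const_mul,
      intervalIntegral.integral_div, ← hJ, ← hm, div_self hI.ne', mul_one, sub_self]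
  have hq1L2 : (∫ x in (0 : ℝ)..L, (p1 x - q1 x) ^ 2) ≤ e := by
    have hc1 : ContinuousOn (fun x => (p1 x - r x) ^ 2) (uIcc 0 L) := by
      rw [hu]
      exact (hp.cont.sub hrc.continuousOn).pow 2
    have hc2 : ContinuousOn (fun x => (p1 x - q1 x) ^ 2) (uIcc 0 L) := by
      rw [hu]
      exact (hp.cont.sub hq1c.continuousOn).pow 2
    calc (∫ x in (0 : ℝ)..L, (p1 x - q1 x) ^ 2)
        ≤ ∫ x in (0 : ℝ)..L, (2 * (p1 x - r x) ^ 2 + 2 * ε ^ 2 * (χ x / J) ^ 2) := by
          apply intervalIntegral.integral_mono_on hL.le hc2.intervalIntegrable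
            ((hc1.intervalIntegrable.const_mul 2).add
              ((hBc.intervalIntegrable _ _).const_mul (2 * ε ^ 2)))
          intro x _
          have h1 : m ^ 2 ≤ ε ^ 2 := by
            rw [← sq_abs]
            exact pow_le_pow_left₀ (abs_nonneg _) hm1 2
          have h2 : (p1 x - q1 x) ^ 2 ≤ 2 * (p1 x - r x) ^ 2 + 2 * (m ^ 2 * (χ x / J) ^ 2) := by
            rw [hq1]
            nlinarith [sq_nonneg ((p1 x - r x) - m * (χ x / J))]
          nlinarith [mul_le_mul_of_nonneg_right h1 (sq_nonneg (χ x / J))]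
      _ = 2 * (∫ x in (0 : ℝ)..L, (p1 x - r x) ^ 2) + 2 * ε ^ 2 * B := by
          rw [intervalIntegral.integral_add (hc1.intervalIntegrable.const_mul 2)
            ((hBc.intervalIntegrable _ _).const_mul (2 * ε ^ 2)),
            intervalIntegral.integral_const_mul, intervalIntegral.integral_const_mul]
      _ ≤ e := by linarith
  -- the support of `q1`
  have htr : IsCompact (tsupport r) := by
    apply (isCompact_Icc (a := (0 : ℝ)) (b := L)).of_isClosed_subset (isClosed_tsupport r)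
    exact hr2.trans Ioo_subset_Icc_self
  obtain ⟨a, b, ha, hb, hab⟩ : ∃ a b : ℝ, 0 < a ∧ b < L ∧ ∀ x, q1 x ≠ 0 → x ∈ Icc a b := by
    obtain ⟨a, ha, ha'⟩ : ∃ a : ℝ, 0 < a ∧ ∀ x ∈ tsupport r, a ≤ x := by
      rcases (tsupport r).eq_empty_or_nonempty with h | h
      · exact ⟨1, one_pos, fun x hx => by rw [h] at hx; exact hx.elim⟩
      · obtain ⟨z, hz, hz'⟩ := htr.exists_isLeast h
        exact ⟨z, (hr2 hz).1, fun x hx => hz' hx⟩
    obtain ⟨b, hb, hb'⟩ : ∃ b : ℝ, b < L ∧ ∀ x ∈ tsupport r, x ≤ b := by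
      rcases (tsupport r).eq_empty_or_nonempty with h | h
      · exact ⟨0, hL, fun x hx => by rw [h] at hx; exact hx.elim⟩
      · obtain ⟨z, hz, hz'⟩ := htr.exists_isGreatest h
        exact ⟨z, (hr2 hz).2, fun x hx => hz' hx⟩
    refine ⟨min a (L / 4 / 2), max b (L - L / 4 / 2), by positivity, max_lt hb (by linarith), ?_⟩
    intro x hx
    by_cases h1 : r x = 0
    · have h2 : χ x ≠ 0 := by
        intro h
        apply hx
        rw [hq1, h1, h]
        ring
      have h3 := hχ2 (subset_tsupport χ h2)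
      exact ⟨(min_le_right _ _).trans h3.1, h3.2.trans (le_max_right _ _)⟩
    · have h3 := subset_tsupport r h1
      exact ⟨(min_le_left _ _).trans (ha' x h3), (hb' x h3).trans (le_max_left _ _)⟩
  -- the function
  have hqd : ∀ x, HasDerivAt (fun x => ∫ y in (0 : ℝ)..x, q1 y) (q1 x) x := fun x =>
    intervalIntegral.integral_hasDerivAt_right (hq1c.intervalIntegrable _ _)
      (hq1c.stronglyMeasurableAtFilter _ _) hq1c.continuousAt
  have hqderiv : deriv (fun x => ∫ y in (0 : ℝ)..x, q1 y) = q1 := funext fun x => (hqd x).deriv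
  refine ⟨fun x => ∫ y in (0 : ℝ)..x, q1 y, ?_, ?_, ?_, ?_⟩
  · rw [contDiff_infty_iff_deriv, hqderiv]
    exact ⟨fun x => (hqd x).differentiableAt, hq1s⟩
  · have h1 : Function.support (fun x => ∫ y in (0 : ℝ)..x, q1 y) ⊆ Icc a b := by
      intro x hx
      rw [Function.mem_support] at hx
      by_contra hcon
      apply hx
      rw [mem_Icc, not_and_or, not_le, not_le] at hcon
      rcases hcon with h | h
      · rw [intervalIntegral.integral_congr (g := fun _ => (0 : ℝ)),
          intervalIntegral.integral_zero]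
        intro y hy
        by_contra hne
        have h2 := (hab y hne).1
        rcases mem_uIcc.1 hy with h3 | h3
        · linarith [h3.2]
        · linarith [h3.2]
      · have h2 : (∫ y in x..L, q1 y) = 0 := by
          rw [intervalIntegral.integral_congr (g := fun _ => (0 : ℝ)),
            intervalIntegral.integral_zero]
          intro y hy
          by_contra hne
          have h2 := (hab y hne).2
          rcases mem_uIcc.1 hy with h3 | h3
          · linarith [h3.1]
          · linarith [h3.1]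
        have h3 := intervalIntegral.integral_add_adjacent_intervals
          (hq1c.intervalIntegrable 0 x (μ := volume)) (hq1c.intervalIntegrable x L (μ := volume))
        rw [h2, hq10, add_zero] at h3
        exact h3
    refine (closure_minimal h1 isClosed_Icc).trans ?_
    intro x hx
    exact ⟨ha.trans_le hx.1, hx.2.trans_lt hb⟩
  · rw [hqderiv]
    exact hq1L2.trans he1
  · intro x hx
    have h1 : p x - ∫ y in (0 : ℝ)..x, q1 y = ∫ y in (0 : ℝ)..x, (p1 y - q1 y) := by
      rw [intervalIntegral.integral_sub _ (hq1c.intervalIntegrable _ _), hprim x hx]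
      apply ContinuousOn.intervalIntegrable
      rw [uIcc_of_le hx.1]
      exact hp.cont.mono (Icc_subset_Icc_right hx.2)
    have hc : ContinuousOn (fun y => p1 y - q1 y) (Icc 0 L) := hp.cont.sub hq1c.continuousOn
    have h2 : (∫ y in (0 : ℝ)..L, |p1 y - q1 y|) ≤ δ := by
      apply kd13_l1 hL hδ hc
      exact hq1L2.trans he2
    have h3 := intervalIntegral.abs_integral_le_integral_abs (f := fun y => p1 y - q1 y)
      (μ := volume) hx.1
    have hi : IntervalIntegrable (fun y => |p1 y - q1 y|) volume 0 L :=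
      (hu ▸ hc.abs).intervalIntegrable
    have h4 : (∫ y in (0 : ℝ)..x, |p1 y - q1 y|) ≤ ∫ y in (0 : ℝ)..L, |p1 y - q1 y| := by
      apply intervalIntegral.integral_mono_interval le_rfl hx.1 hx.2 _ hi
      exact Filter.Eventually.of_forall fun y => abs_nonneg _
    show |p x - ∫ y in (0 : ℝ)..x, q1 y| ≤ δ
    rw [h1]
    exact h3.trans (h4.trans h2)

end Pool.Agent.KD
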