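import Pool.Agent.KD.Defs

/-!
# KD-3: integration by parts for primitives of integrable functions, basic facts on `IsH2`
-/

open MeasureTheory Set Complex

namespace Pool.Agent.KD

theorem kd3_primitive {L : ℝ} {g g1 : ℝ → ℂ}
    (hg : ∀ x ∈ Icc (0 : ℝ) L, HasDerivWithinAt g (g1 x) (Icc 0 L) x)
    (hg1 : ContinuousOn g1 (Icc 0 L)) {a b : ℝ} (ha : 0 ≤ a) (hab : a ≤ b) (hb : b ≤ L) :
    (∫ y in a..b, g1 y) = g b - g a := by
  have hsub : Icc a b ⊆ Icc 0 L := Icc_subset_Icc ha hb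
  refine intervalIntegral.integral_eq_sub_of_hasDerivAt_of_le hab ?_ ?_ ?_
  · intro x hx
    exact ((hg x (hsub hx)).continuousWithinAt).mono hsub
  · intro x hx
    have hx0 : (0 : ℝ) < x := lt_of_le_of_lt ha hx.1
    have hxL : x < L := lt_of_lt_of_le hx.2 hb
    exact (hg x ⟨hx0.le, hxL.le⟩).hasDerivAt (Icc_mem_nhds hx0 hxL)
  · exact (hg1.mono (by rw [uIcc_of_le hab]; exact hsub)).intervalIntegrable

theorem ibp_ac {L : ℝ} (hL : 0 ≤ L) {f1 f2 : ℝ → ℝ}
    (hr : ∀ x ∈ Icc (0 : ℝ) L, f1 x = f1 0 + ∫ y in (0 : ℝ)..x, f2 y)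
    (hf2 : IntervalIntegrable f2 volume 0 L) {g g1 : ℝ → ℂ}
    (hg : ∀ x ∈ Icc (0 : ℝ) L, HasDerivWithinAt g (g1 x) (Icc 0 L) x)
    (hg1 : ContinuousOn g1 (Icc 0 L)) :
    (∫ x in (0 : ℝ)..L, (f2 x : ℂ) * g x)
      = f1 L * g L - f1 0 * g 0 - ∫ x in (0 : ℝ)..L, (f1 x : ℂ) * g1 x := by
  have cg : ContinuousOn g (Icc 0 L) := fun x hx => (hg x hx).continuousWithinAt
  have hf2c : IntervalIntegrable (fun x => (f2 x : ℂ)) volume 0 L := by
    have h := (intervalIntegrable_iff_integrableOn_Ioc_of_le hL).1 hf2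
    rw [intervalIntegrable_iff_integrableOn_Ioc_of_le hL]
    exact Integrable.ofReal h
  have hI2 : Integrable (fun x => (f2 x : ℂ)) (volume.restrict (Ioc 0 L)) :=
    (intervalIntegrable_iff_integrableOn_Ioc_of_le hL).1 hf2c
  have hg1i : IntervalIntegrable g1 volume 0 L :=
    (hg1.mono (by rw [uIcc_of_le hL])).intervalIntegrable
  have hI1 : Integrable g1 (volume.restrict (Ioc 0 L)) :=
    (intervalIntegrable_iff_integrableOn_Ioc_of_le hL).1 hg1i
  -- Fubini
  have hprod : Integrable (fun z : ℝ × ℝ => (f2 z.1 : ℂ) * g1 z.2)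
      ((volume.restrict (Ioc 0 L)).prod (volume.restrict (Ioc 0 L))) := hI2.mul_prod hI1
  have hmeas : MeasurableSet {z : ℝ × ℝ | z.1 < z.2} :=
    measurableSet_lt measurable_fst measurable_snd
  have hind : Integrable (fun z : ℝ × ℝ =>
      Set.indicator {z : ℝ × ℝ | z.1 < z.2} (fun z => (f2 z.1 : ℂ) * g1 z.2) z)
      ((volume.restrict (Ioc 0 L)).prod (volume.restrict (Ioc 0 L))) := hprod.indicator hmeas
  have hswap := integral_integral_swap
    (f := fun x y : ℝ => Set.indicator {z : ℝ × ℝ | z.1 < z.2}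
      (fun z => (f2 z.1 : ℂ) * g1 z.2) (x, y)) hind
  have hleft : (∫ x in Ioc 0 L, ∫ y in Ioc 0 L, Set.indicator {z : ℝ × ℝ | z.1 < z.2}
      (fun z => (f2 z.1 : ℂ) * g1 z.2) (x, y)) = ∫ x in Ioc 0 L, (f2 x : ℂ) * (g L - g x) := by
    refine setIntegral_congr_fun measurableSet_Ioc fun x hx => ?_
    have h1 : (fun y : ℝ => Set.indicator {z : ℝ × ℝ | z.1 < z.2}
        (fun z => (f2 z.1 : ℂ) * g1 z.2) (x, y))
        = Set.indicator (Ioi x) (fun y => (f2 x : ℂ) * g1 y) := by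
      funext y
      by_cases hxy : x < y
      · rw [indicator_of_mem (show (x, y) ∈ {z : ℝ × ℝ | z.1 < z.2} from hxy),
          indicator_of_mem (show y ∈ Ioi x from hxy)]
      · rw [indicator_of_notMem (show (x, y) ∉ {z : ℝ × ℝ | z.1 < z.2} from hxy),
          indicator_of_notMem (show y ∉ Ioi x from hxy)]
    show (∫ y in Ioc 0 L, Set.indicator {z : ℝ × ℝ | z.1 < z.2}
        (fun z => (f2 z.1 : ℂ) * g1 z.2) (x, y)) = (f2 x : ℂ) * (g L - g x)
    rw [h1, setIntegral_indicator measurableSet_Ioi, integral_const_mul]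
    have h2 : Ioc 0 L ∩ Ioi x = Ioc x L := by
      ext y
      simp only [mem_inter_iff, mem_Ioc, mem_Ioi]
      constructor
      · rintro ⟨⟨_, h⟩, h'⟩
        exact ⟨h', h⟩
      · rintro ⟨h, h'⟩
        exact ⟨⟨hx.1.trans h, h'⟩, h⟩
    rw [h2, ← intervalIntegral.integral_of_le hx.2,
      kd3_primitive hg hg1 hx.1.le hx.2 le_rfl]
  have hright : (∫ y in Ioc 0 L, ∫ x in Ioc 0 L, Set.indicator {z : ℝ × ℝ | z.1 < z.2}
      (fun z => (f2 z.1 : ℂ) * g1 z.2) (x, y))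
      = ∫ y in Ioc 0 L, ((f1 y : ℂ) - f1 0) * g1 y := by
    refine setIntegral_congr_fun measurableSet_Ioc fun y hy => ?_
    have h1 : (fun x : ℝ => Set.indicator {z : ℝ × ℝ | z.1 < z.2}
        (fun z => (f2 z.1 : ℂ) * g1 z.2) (x, y))
        = Set.indicator (Iio y) (fun x => (f2 x : ℂ) * g1 y) := by
      funext x
      by_cases hxy : x < y
      · rw [indicator_of_mem (show (x, y) ∈ {z : ℝ × ℝ | z.1 < z.2} from hxy),
          indicator_of_mem (show x ∈ Iio y from hxy)]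
      · rw [indicator_of_notMem (show (x, y) ∉ {z : ℝ × ℝ | z.1 < z.2} from hxy),
          indicator_of_notMem (show x ∉ Iio y from hxy)]
    show (∫ x in Ioc 0 L, Set.indicator {z : ℝ × ℝ | z.1 < z.2}
        (fun z => (f2 z.1 : ℂ) * g1 z.2) (x, y)) = ((f1 y : ℂ) - f1 0) * g1 y
    rw [h1, setIntegral_indicator measurableSet_Iio, integral_mul_const]
    have h2 : Ioc 0 L ∩ Iio y = Ioo 0 y := by
      ext x
      simp only [mem_inter_iff, mem_Ioc, mem_Iio, mem_Ioo]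
      constructor
      · rintro ⟨⟨h, _⟩, h'⟩
        exact ⟨h, h'⟩
      · rintro ⟨h, h'⟩
        exact ⟨⟨h, (h'.trans_le hy.2).le⟩, h'⟩
    have h3 : (∫ x in Ioo 0 y, (f2 x : ℂ)) = (f1 y : ℂ) - f1 0 := by
      rw [← integral_Ioc_eq_integral_Ioo, ← intervalIntegral.integral_of_le hy.1.le,
        intervalIntegral.integral_ofReal, hr y ⟨hy.1.le, hy.2⟩]
      push_cast
      ring
    rw [h2, h3]
  rw [hleft, hright] at hswap
  rw [← intervalIntegral.integral_of_le hL, ← intervalIntegral.integral_of_le hL] at hswap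
  -- integrability of the pieces
  have cf1 : ContinuousOn f1 (Icc 0 L) := by
    have h := intervalIntegral.continuousOn_primitive_interval'
      (μ := volume) (f := f2) (a := 0) (b₁ := 0) (b₂ := L) hf2 (left_mem_uIcc)
    rw [uIcc_of_le hL] at h
    exact (continuousOn_const.add h).congr hr
  have i1 : IntervalIntegrable (fun x => (f2 x : ℂ) * g L) volume 0 L := hf2c.mul_const _
  have i2 : IntervalIntegrable (fun x => (f2 x : ℂ) * g x) volume 0 L :=
    hf2c.mul_continuousOn (by rw [uIcc_of_le hL]; exact cg)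
  have cf1c : ContinuousOn (fun x => (f1 x : ℂ)) (Icc 0 L) :=
    continuous_ofReal.comp_continuousOn cf1
  have i3 : IntervalIntegrable (fun x => (f1 x : ℂ) * g1 x) volume 0 L :=
    ((cf1c.mul hg1).mono (by rw [uIcc_of_le hL])).intervalIntegrable
  have i4 : IntervalIntegrable (fun x => (f1 0 : ℂ) * g1 x) volume 0 L := hg1i.const_mul _
  have e1 : (∫ x in (0 : ℝ)..L, (f2 x : ℂ) * (g L - g x))
      = ((f1 L : ℂ) - f1 0) * g L - ∫ x in (0 : ℝ)..L, (f2 x : ℂ) * g x := by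
    have : (fun x => (f2 x : ℂ) * (g L - g x))
        = fun x => (f2 x : ℂ) * g L - (f2 x : ℂ) * g x := by
      funext x; ring
    rw [this, intervalIntegral.integral_sub i1 i2, intervalIntegral.integral_mul_const,
      intervalIntegral.integral_ofReal, hr L ⟨hL, le_rfl⟩]
    push_cast
    ring
  have e2 : (∫ y in (0 : ℝ)..L, ((f1 y : ℂ) - f1 0) * g1 y)
      = (∫ y in (0 : ℝ)..L, (f1 y : ℂ) * g1 y) - f1 0 * (g L - g 0) := by
    have : (fun y => ((f1 y : ℂ) - f1 0) * g1 y)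
        = fun y => (f1 y : ℂ) * g1 y - (f1 0 : ℂ) * g1 y := by
      funext y; ring
    rw [this, intervalIntegral.integral_sub i3 i4, intervalIntegral.integral_const_mul,
      kd3_primitive hg hg1 le_rfl hL le_rfl]
  rw [e1, e2] at hswap
  linear_combination (-1 : ℂ) * hswap

/-- facts on `IsH2`: integrability of `f2`, continuity, and `f` as a primitive of `f1` -/
theorem IsH2.ii2 {L : ℝ} (hL : 0 ≤ L) {f f1 f2 : ℝ → ℝ} (h : IsH2 L f f1 f2) :
    IntervalIntegrable f2 volume 0 L := by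
  rw [intervalIntegrable_iff_integrableOn_Ioc_of_le hL]
  exact h.memLp.integrable (by norm_num)

theorem IsH2.iisq {L : ℝ} (hL : 0 ≤ L) {f f1 f2 : ℝ → ℝ} (h : IsH2 L f f1 f2) :
    IntervalIntegrable (fun x => f2 x ^ 2) volume 0 L := by
  rw [intervalIntegrable_iff_integrableOn_Ioc_of_le hL]
  exact h.memLp.integrable_sq

theorem IsH2.c1 {L : ℝ} (hL : 0 ≤ L) {f f1 f2 : ℝ → ℝ} (h : IsH2 L f f1 f2) :
    ContinuousOn f1 (Icc 0 L) := by
  have h1 := intervalIntegral.continuousOn_primitive_interval'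
    (μ := volume) (f := f2) (a := 0) (b₁ := 0) (b₂ := L) (h.ii2 hL) (left_mem_uIcc)
  rw [uIcc_of_le hL] at h1
  exact (continuousOn_const.add h1).congr h.repr

theorem IsH2.c0 {L : ℝ} (hL : 0 ≤ L) {f f1 f2 : ℝ → ℝ} (h : IsH2 L f f1 f2) :
    ContinuousOn f (Icc 0 L) := fun x hx => (h.deriv x hx).continuousWithinAt

theorem IsH2.repr0 {L : ℝ} (hL : 0 ≤ L) {f f1 f2 : ℝ → ℝ} (h : IsH2 L f f1 f2) :
    ∀ x ∈ Icc (0 : ℝ) L, f x = f 0 + ∫ y in (0 : ℝ)..x, f1 y := by
  intro x hx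
  have hsub : Icc 0 x ⊆ Icc 0 L := Icc_subset_Icc le_rfl hx.2
  have h1 : (∫ y in (0 : ℝ)..x, f1 y) = f x - f 0 := by
    refine intervalIntegral.integral_eq_sub_of_hasDerivAt_of_le hx.1 ?_ ?_ ?_
    · intro y hy
      exact ((h.deriv y (hsub hy)).continuousWithinAt).mono hsub
    · intro y hy
      have hyL : y < L := lt_of_lt_of_le hy.2 hx.2
      exact (h.deriv y ⟨hy.1.le, hyL.le⟩).hasDerivAt (Icc_mem_nhds hy.1 hyL)
    · exact ((h.c1 hL).mono (by rw [uIcc_of_le hx.1]; exact hsub)).intervalIntegrable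
  rw [h1]
  ring

end Pool.Agent.KD
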