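import Pool.Agent.KD.Ibp

/-!
# KD-5: states
-/

open MeasureTheory Set Complex

namespace Pool.Agent.KD

theorem kd5_cs {L : ℝ} (hL : 0 ≤ L) {f g : ℝ → ℝ}
    (hf : IntervalIntegrable (fun x => f x ^ 2) volume 0 L)
    (hg : IntervalIntegrable (fun x => g x ^ 2) volume 0 L)
    (hfg : IntervalIntegrable (fun x => f x * g x) volume 0 L) :
    (∫ x in (0 : ℝ)..L, f x * g x) ^ 2 ≤
      (∫ x in (0 : ℝ)..L, f x ^ 2) * ∫ x in (0 : ℝ)..L, g x ^ 2 := by
  set A := ∫ x in (0 : ℝ)..L, f x ^ 2 with hA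
  set B := ∫ x in (0 : ℝ)..L, f x * g x with hB
  set C := ∫ x in (0 : ℝ)..L, g x ^ 2 with hC
  have key : ∀ t : ℝ, 0 ≤ C * (t * t) + (-2 * B) * t + A := by
    intro t
    have h1 : (∫ x in (0 : ℝ)..L, (f x ^ 2 - 2 * t * (f x * g x) + t ^ 2 * g x ^ 2))
        = A - 2 * t * B + t ^ 2 * C := by
      rw [intervalIntegral.integral_add (hf.sub (hfg.const_mul _)) (hg.const_mul _),
        intervalIntegral.integral_sub hf (hfg.const_mul _),
        intervalIntegral.integral_const_mul, intervalIntegral.integral_const_mul]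
    have h2 : 0 ≤ ∫ x in (0 : ℝ)..L, (f x ^ 2 - 2 * t * (f x * g x) + t ^ 2 * g x ^ 2) := by
      refine intervalIntegral.integral_nonneg hL fun x _ => ?_
      nlinarith [sq_nonneg (f x - t * g x)]
    rw [h1] at h2
    nlinarith
  have h3 := discrim_le_zero key
  unfold discrim at h3
  nlinarith

theorem kd5_absint {L : ℝ} (hL : 0 ≤ L) {f2 : ℝ → ℝ} (h1 : IntervalIntegrable f2 volume 0 L)
    (h2 : IntervalIntegrable (fun x => f2 x ^ 2) volume 0 L) :
    (∫ x in (0 : ℝ)..L, |f2 x|) ^ 2 ≤ (∫ x in (0 : ℝ)..L, f2 x ^ 2) * L := by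
  have h := kd5_cs hL (f := fun x => |f2 x|) (g := fun _ => 1)
    (by simpa only [sq_abs] using h2) (by simp) (by simpa using h1.abs)
  simpa [sq_abs] using h

theorem kd5_f1 {L : ℝ} (hL : 0 ≤ L) {f f1 f2 : ℝ → ℝ} (h : IsH2 L f f1 f2) {x y : ℝ}
    (hx : x ∈ Icc (0 : ℝ) L) (hy : y ∈ Icc (0 : ℝ) L) :
    |f1 x - f1 y| ≤ ∫ z in (0 : ℝ)..L, |f2 z| := by
  have hi := h.ii2 hL
  have hx' : IntervalIntegrable f2 volume 0 x := hi.mono_set (by
    rw [uIcc_of_le hx.1, uIcc_of_le hL]; exact Icc_subset_Icc_right hx.2)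
  have hy' : IntervalIntegrable f2 volume 0 y := hi.mono_set (by
    rw [uIcc_of_le hy.1, uIcc_of_le hL]; exact Icc_subset_Icc_right hy.2)
  have e : f1 x - f1 y = ∫ z in y..x, f2 z := by
    have e1 := intervalIntegral.integral_add_adjacent_intervals hy'.symm hx'
    have e2 : (∫ z in y..(0 : ℝ), f2 z) = - ∫ z in (0 : ℝ)..y, f2 z :=
      intervalIntegral.integral_symm 0 y
    rw [h.repr x hx, h.repr y hy, ← e1, e2]
    ring
  rw [e]
  have h1 : |∫ z in y..x, f2 z| ≤ |(∫ z in y..x, |f2 z|)| :=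
    intervalIntegral.norm_integral_le_abs_integral_norm (f := f2) (a := y) (b := x)
      (μ := volume)
  refine h1.trans ?_
  have h2 : |(∫ z in y..x, |f2 z|)| ≤ |(∫ z in (0 : ℝ)..L, |f2 z|)| := by
    refine intervalIntegral.abs_integral_mono_interval ?_ ?_ hi.abs
    · rw [uIoc_of_le hL]
      intro z hz
      rw [mem_uIoc] at hz
      rcases hz with hz | hz
      · exact ⟨lt_of_le_of_lt hy.1 hz.1, hz.2.trans hx.2⟩
      · exact ⟨lt_of_le_of_lt hx.1 hz.1, hz.2.trans hy.2⟩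
    · exact Filter.Eventually.of_forall fun z => abs_nonneg _
  refine h2.trans (le_of_eq (abs_of_nonneg ?_))
  exact intervalIntegral.integral_nonneg hL fun z _ => abs_nonneg _

theorem exists_st (L : ℝ) (hL : 0 < L) (M : ℝ) :
    ∃ m : ℝ, 1 ≤ m ∧ ∀ f f1 f2 : ℝ → ℝ, IsH2 L f f1 f2 → f 0 = 0 → f L = 0 →
      (∫ x in (0 : ℝ)..L, f2 x ^ 2) ≤ M → IsSt L m f f1 f2 := by
  set M' := max M 0 with hM'
  have hM0 : 0 ≤ M' := le_max_right _ _
  set S := Real.sqrt (M' * L) with hS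
  have hS0 : 0 ≤ S := Real.sqrt_nonneg _
  have hSL : 0 ≤ S * L := mul_nonneg hS0 hL.le
  refine ⟨1 + S + M' + S * L, by linarith, ?_⟩
  intro f f1 f2 h hf0 hfL hM
  set m := 1 + S + M' + S * L with hm
  have hm1 : 1 ≤ m := by rw [hm]; linarith
  have hSm : S ≤ m := by rw [hm]; linarith
  have hi := h.ii2 hL.le
  have hi2 := h.iisq hL.le
  have hint : (∫ x in (0 : ℝ)..L, f2 x ^ 2) ≤ M' := hM.trans (le_max_left _ _)
  have hA : (∫ x in (0 : ℝ)..L, |f2 x|) ≤ S := by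
    refine Real.le_sqrt_of_sq_le ?_
    exact (kd5_absint hL.le hi hi2).trans (mul_le_mul_of_nonneg_right hint hL.le)
  obtain ⟨x0, hx0, hz⟩ := exists_hasDerivAt_eq_zero (f := f) (f' := f1) hL
    (h.c0 hL.le) (by rw [hf0, hfL]) fun x hx =>
      (h.deriv x (Ioo_subset_Icc_self hx)).hasDerivAt (Icc_mem_nhds hx.1 hx.2)
  have hb1 : ∀ x ∈ Icc (0 : ℝ) L, |f1 x| ≤ S := by
    intro x hx
    have h1 := kd5_f1 hL.le h hx (Ioo_subset_Icc_self hx0)
    rw [hz, sub_zero] at h1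
    exact h1.trans hA
  have hmv : ∀ x ∈ Icc (0 : ℝ) L, ∀ y ∈ Icc (0 : ℝ) L, |f y - f x| ≤ S * |y - x| :=
    fun x hx y hy => (convex_Icc (0 : ℝ) L).norm_image_sub_le_of_norm_hasDerivWithin_le
      h.deriv hb1 hx hy
  have h0m : (0 : ℝ) ∈ Icc (0 : ℝ) L := ⟨le_rfl, hL.le⟩
  have hLm : L ∈ Icc (0 : ℝ) L := ⟨hL.le, le_rfl⟩
  have hx1 : ∀ x ∈ Icc (0 : ℝ) L, |f x| ≤ S * x := by
    intro x hx
    have h1 := hmv 0 h0m x hx
    rwa [hf0, sub_zero, sub_zero, abs_of_nonneg hx.1] at h1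
  have hx2 : ∀ x ∈ Icc (0 : ℝ) L, |f x| ≤ S * (L - x) := by
    intro x hx
    have h1 := hmv x hx L hLm
    rwa [hfL, zero_sub, abs_neg, abs_of_nonneg (sub_nonneg.2 hx.2)] at h1
  refine ⟨h, hf0, hfL, fun x hx => (hb1 x hx).trans hSm, fun x hx => ?_, fun x hx => ?_,
    fun x hx => ?_, hA.trans hSm, ?_⟩
  · have h1 := hx1 x hx
    have h2 : S * x ≤ S * L := mul_le_mul_of_nonneg_left hx.2 hS0
    rw [hm]
    linarith
  · exact (hx1 x hx).trans (mul_le_mul_of_nonneg_right hSm hx.1)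
  · exact (hx2 x hx).trans (mul_le_mul_of_nonneg_right hSm (sub_nonneg.2 hx.2))
  · have h1 : M' ≤ m := by rw [hm]; linarith
    nlinarith

theorem IsSt.mono {L m m' : ℝ} {f f1 f2 : ℝ → ℝ} (hm : 0 ≤ m) (h : IsSt L m f f1 f2)
    (hmm : m ≤ m') : IsSt L m' f f1 f2 := by
  refine ⟨h.h2, h.f0, h.fL, fun x hx => (h.b1 x hx).trans hmm, fun x hx => (h.b0 x hx).trans hmm,
    fun x hx => (h.bx x hx).trans (mul_le_mul_of_nonneg_right hmm hx.1),
    fun x hx => (h.bxL x hx).trans (mul_le_mul_of_nonneg_right hmm (sub_nonneg.2 hx.2)),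
    h.i1.trans hmm, h.i2.trans (pow_le_pow_left₀ hm hmm 2)⟩

theorem st_sub {L m m' : ℝ} (hL : 0 < L) {f f1 f2 g g1 g2 : ℝ → ℝ} (hm : 0 ≤ m) (hm' : 0 ≤ m')
    (hf : IsSt L m f f1 f2) (hg : IsSt L m' g g1 g2) :
    IsSt L (2 * (m + m')) (fun x => f x - g x) (fun x => f1 x - g1 x) (fun x => f2 x - g2 x) := by
  have if2 := hf.h2.ii2 hL.le
  have ig2 := hg.h2.ii2 hL.le
  have ifs := hf.h2.iisq hL.le
  have igs := hg.h2.iisq hL.le
  have hmem : MemLp (fun x => f2 x - g2 x) 2 (volume.restrict (Ioc 0 L)) :=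
    hf.h2.memLp.sub hg.h2.memLp
  have h2 : IsH2 L (fun x => f x - g x) (fun x => f1 x - g1 x) (fun x => f2 x - g2 x) := by
    refine ⟨fun x hx => (hf.h2.deriv x hx).sub (hg.h2.deriv x hx), fun x hx => ?_, hmem⟩
    have hs : uIcc 0 x ⊆ uIcc 0 L := by
      rw [uIcc_of_le hx.1, uIcc_of_le hL.le]; exact Icc_subset_Icc_right hx.2
    show f1 x - g1 x = f1 0 - g1 0 + ∫ y in (0 : ℝ)..x, (f2 y - g2 y)
    rw [intervalIntegral.integral_sub (if2.mono_set hs) (ig2.mono_set hs), hf.h2.repr x hx,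
      hg.h2.repr x hx]
    ring
  have habs : ∀ a b s t : ℝ, |a| ≤ s → |b| ≤ t → |a - b| ≤ s + t := by
    intro a b s t ha hb
    exact (abs_sub a b).trans (add_le_add ha hb)
  refine ⟨h2, ?_, ?_, fun x hx => ?_, fun x hx => ?_, fun x hx => ?_, fun x hx => ?_, ?_, ?_⟩
  · show f 0 - g 0 = 0
    rw [hf.f0, hg.f0, sub_zero]
  · show f L - g L = 0
    rw [hf.fL, hg.fL, sub_zero]
  · have h1 := habs _ _ _ _ (hf.b1 x hx) (hg.b1 x hx)
    show |f1 x - g1 x| ≤ _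
    linarith
  · have h1 := habs _ _ _ _ (hf.b0 x hx) (hg.b0 x hx)
    show |f x - g x| ≤ _
    linarith
  · have h1 := habs _ _ _ _ (hf.bx x hx) (hg.bx x hx)
    show |f x - g x| ≤ _
    nlinarith [mul_nonneg hm hx.1, mul_nonneg hm' hx.1]
  · have h1 := habs _ _ _ _ (hf.bxL x hx) (hg.bxL x hx)
    show |f x - g x| ≤ _
    nlinarith [mul_nonneg hm (sub_nonneg.2 hx.2), mul_nonneg hm' (sub_nonneg.2 hx.2)]
  · have h1 : (∫ x in (0 : ℝ)..L, |f2 x - g2 x|) ≤ ∫ x in (0 : ℝ)..L, (|f2 x| + |g2 x|) := by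
      refine intervalIntegral.integral_mono_on hL.le (if2.sub ig2).abs (if2.abs.add ig2.abs)
        fun x _ => abs_sub _ _
    rw [intervalIntegral.integral_add if2.abs ig2.abs] at h1
    have h3 := hf.i1
    have h4 := hg.i1
    show (∫ x in (0 : ℝ)..L, |f2 x - g2 x|) ≤ _
    linarith
  · have h1 : (∫ x in (0 : ℝ)..L, (f2 x - g2 x) ^ 2) ≤
        ∫ x in (0 : ℝ)..L, (2 * f2 x ^ 2 + 2 * g2 x ^ 2) := by
      refine intervalIntegral.integral_mono_on hL.le (h2.iisq hL.le)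
        ((ifs.const_mul 2).add (igs.const_mul 2)) fun x _ => ?_
      nlinarith [sq_nonneg (f2 x + g2 x)]
    rw [intervalIntegral.integral_add (ifs.const_mul 2) (igs.const_mul 2),
      intervalIntegral.integral_const_mul, intervalIntegral.integral_const_mul] at h1
    have h3 := hf.i2
    have h4 := hg.i2
    show (∫ x in (0 : ℝ)..L, (f2 x - g2 x) ^ 2) ≤ _
    nlinarith [mul_nonneg hm hm', sq_nonneg m, sq_nonneg m']

theorem st_interp {L m : ℝ} (hL : 0 < L) {f f1 f2 : ℝ → ℝ} (hm : 0 ≤ m)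
    (hf : IsSt L m f f1 f2) :
    (∫ x in (0 : ℝ)..L, f1 x ^ 2) ^ 2 ≤ m ^ 2 * ∫ x in (0 : ℝ)..L, f x ^ 2 := by
  have if2 := hf.h2.ii2 hL.le
  have ifs := hf.h2.iisq hL.le
  have c0 := hf.h2.c0 hL.le
  have c1 := hf.h2.c1 hL.le
  have h1 := ibp_ac hL.le hf.h2.repr if2 (g := fun x => (f x : ℂ)) (g1 := fun x => (f1 x : ℂ))
    (fun x hx => (hf.h2.deriv x hx).ofReal_comp)
    (Complex.continuous_ofReal.comp_continuousOn c1)
  have h2 : (∫ x in (0 : ℝ)..L, f2 x * f x) = - ∫ x in (0 : ℝ)..L, f1 x ^ 2 := by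
    have h3 : (((∫ x in (0 : ℝ)..L, f2 x * f x : ℝ)) : ℂ)
        = ((- ∫ x in (0 : ℝ)..L, f1 x ^ 2 : ℝ) : ℂ) := by
      rw [← intervalIntegral.integral_ofReal, Complex.ofReal_neg,
        ← intervalIntegral.integral_ofReal]
      push_cast
      rw [h1, hf.f0, hf.fL]
      simp only [Complex.ofReal_zero, mul_zero, sub_zero, zero_sub]
      congr 1
      refine intervalIntegral.integral_congr fun x _ => ?_
      show (f1 x : ℂ) * (f1 x : ℂ) = (f1 x : ℂ) ^ 2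
      ring
    exact_mod_cast h3
  have h4 := kd5_cs hL.le ifs
    ((c0.pow 2).intervalIntegrable_of_Icc hL.le)
    (if2.mul_continuousOn (by rwa [uIcc_of_le hL.le]))
  rw [h2, neg_sq] at h4
  refine h4.trans (mul_le_mul_of_nonneg_right hf.i2 ?_)
  exact intervalIntegral.integral_nonneg hL.le fun x _ => sq_nonneg _

theorem st_of_V {L m N : ℝ} (hL : 0 < L) (hm : 0 ≤ m) {V : ℕ → ℝ → ℝ} (hV : IsV L m N V) :
    IsSt L ((1 + L) * m) (V 0) (V 1) (V 2) := by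
  have hc : ∀ j, Continuous (V j) := fun j =>
    continuous_iff_continuousAt.2 fun x => (hV.d j x).continuousAt
  have hmL : 0 ≤ L * m := mul_nonneg hL.le hm
  have hmm : m ≤ (1 + L) * m := by nlinarith
  have h2 : IsH2 L (V 0) (V 1) (V 2) := by
    refine ⟨fun x _ => (hV.d 0 x).hasDerivWithinAt, fun x _ => ?_, ?_⟩
    · rw [intervalIntegral.integral_eq_sub_of_hasDerivAt (fun y _ => hV.d 1 y)
        ((hc 2).intervalIntegrable _ _)]
      ring
    · refine MemLp.of_bound (hc 2).aestronglyMeasurable m ?_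
      exact ae_restrict_of_forall_mem measurableSet_Ioc fun x hx =>
        hV.bV 2 le_rfl x (Ioc_subset_Icc_self hx)
  refine ⟨h2, hV.V0, hV.VL, fun x hx => (hV.bV 1 (by norm_num) x hx).trans hmm,
    fun x hx => (hV.bV 0 (by norm_num) x hx).trans hmm,
    fun x hx => (hV.bx x hx).trans (mul_le_mul_of_nonneg_right hmm hx.1),
    fun x hx => (hV.bxL x hx).trans (mul_le_mul_of_nonneg_right hmm (sub_nonneg.2 hx.2)), ?_, ?_⟩
  · have h1 : (∫ x in (0 : ℝ)..L, |V 2 x|) ≤ ∫ _ in (0 : ℝ)..L, m :=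
      intervalIntegral.integral_mono_on hL.le ((hc 2).abs.intervalIntegrable _ _)
        (by simp) fun x hx => hV.bV 2 le_rfl x hx
    rw [intervalIntegral.integral_const, sub_zero, smul_eq_mul] at h1
    linarith
  · have h1 : (∫ x in (0 : ℝ)..L, V 2 x ^ 2) ≤ ∫ _ in (0 : ℝ)..L, m ^ 2 :=
      intervalIntegral.integral_mono_on hL.le (((hc 2).pow 2).intervalIntegrable _ _)
        (by simp) fun x hx => by
          rw [← sq_abs (V 2 x)]
          exact pow_le_pow_left₀ (abs_nonneg _) (hV.bV 2 le_rfl x hx) 2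
    rw [intervalIntegral.integral_const, sub_zero, smul_eq_mul] at h1
    refine h1.trans ?_
    rw [mul_pow]
    refine mul_le_mul_of_nonneg_right ?_ (sq_nonneg m)
    nlinarith

end Pool.Agent.KD
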