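import Pool.Agent.KD.Dense
import Pool.Agent.KD.Ibp
import Pool.Agent.KD.State

/-!
# KdV-KdV system: solutions in the sense of distributions are solutions (project KD, KD-14)
-/

open MeasureTheory Set Filter Topology

namespace Pool.Agent.KD

/-- a function continuous on `[0,L]` is square integrable -/
theorem kd14_memLp {L : ℝ} {f : ℝ → ℝ} (hf : ContinuousOn f (Icc 0 L)) :
    MemLp f 2 (volume.restrict (Ioc 0 L)) := by
  obtain ⟨C, hC⟩ := isCompact_Icc.exists_bound_of_continuousOn hf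
  refine MemLp.of_bound ?_ C ?_
  · exact (hf.mono Ioc_subset_Icc_self).aestronglyMeasurable measurableSet_Ioc
  · exact (ae_restrict_iff' measurableSet_Ioc).2
      (Eventually.of_forall fun x hx => hC x (Ioc_subset_Icc_self hx))

theorem kd14_ii {L : ℝ} (hL : 0 ≤ L) {f g : ℝ → ℝ}
    (hf : MemLp f 2 (volume.restrict (Ioc 0 L))) (hg : MemLp g 2 (volume.restrict (Ioc 0 L))) :
    IntervalIntegrable (fun x => f x * g x) volume 0 L := by
  rw [intervalIntegrable_iff_integrableOn_Ioc_of_le hL]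
  exact hf.integrable_mul hg

theorem kd14_iisq {L : ℝ} (hL : 0 ≤ L) {f : ℝ → ℝ}
    (hf : MemLp f 2 (volume.restrict (Ioc 0 L))) :
    IntervalIntegrable (fun x => f x ^ 2) volume 0 L := by
  rw [intervalIntegrable_iff_integrableOn_Ioc_of_le hL]
  exact hf.integrable_sq

/-- a substitute for the Cauchy-Schwarz inequality -/
theorem kd14_young {L ε : ℝ} (hL : 0 ≤ L) (hε : 0 < ε) {f g : ℝ → ℝ}
    (hf : MemLp f 2 (volume.restrict (Ioc 0 L))) (hg : MemLp g 2 (volume.restrict (Ioc 0 L))) :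
    |∫ x in (0 : ℝ)..L, f x * g x| ≤ ε * (∫ x in (0 : ℝ)..L, f x ^ 2)
      + ε⁻¹ * ∫ x in (0 : ℝ)..L, g x ^ 2 := by
  have h1 := kd14_iisq hL hf
  have h2 := kd14_iisq hL hg
  have h3 := kd14_ii hL hf hg
  calc |∫ x in (0 : ℝ)..L, f x * g x| ≤ ∫ x in (0 : ℝ)..L, |f x * g x| :=
        intervalIntegral.abs_integral_le_integral_abs hL
    _ ≤ ∫ x in (0 : ℝ)..L, (ε * f x ^ 2 + ε⁻¹ * g x ^ 2) := by
        refine intervalIntegral.integral_mono_on hL h3.abs
          ((h1.const_mul ε).add (h2.const_mul ε⁻¹)) ?_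
        intro x _
        have e1 : ε * f x ^ 2 + ε⁻¹ * g x ^ 2 = ε⁻¹ * ((ε * |f x|) ^ 2 + |g x| ^ 2) := by
          rw [mul_pow, sq_abs, sq_abs]
          field_simp
        have e2 : |f x * g x| = ε⁻¹ * (ε * |f x| * |g x|) := by
          rw [abs_mul]
          field_simp
        rw [e1, e2]
        refine mul_le_mul_of_nonneg_left ?_ (inv_nonneg.2 hε.le)
        nlinarith [sq_nonneg (ε * |f x| - |g x|), abs_nonneg (f x), abs_nonneg (g x),
          mul_nonneg (mul_nonneg hε.le (abs_nonneg (f x))) (abs_nonneg (g x))]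
    _ = ε * (∫ x in (0 : ℝ)..L, f x ^ 2) + ε⁻¹ * ∫ x in (0 : ℝ)..L, g x ^ 2 := by
        rw [intervalIntegral.integral_add (h1.const_mul ε) (h2.const_mul ε⁻¹),
          intervalIntegral.integral_const_mul, intervalIntegral.integral_const_mul]

/-- weak continuity can be tested on `C_c^∞(0,L)` -/
theorem kd14_weak {L T M : ℝ} (hL : 0 < L) {u : ℝ → ℝ → ℝ}
    (hu : ∀ t ∈ Icc (0 : ℝ) T, MemLp (u t) 2 (volume.restrict (Ioc 0 L)))
    (hM : ∀ t ∈ Icc (0 : ℝ) T, (∫ x in (0 : ℝ)..L, u t x ^ 2) ≤ M)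
    (hc : ∀ q : ℝ → ℝ, ContDiff ℝ (⊤ : ℕ∞) q → tsupport q ⊆ Ioo 0 L →
      ContinuousOn (fun t => ∫ x in (0 : ℝ)..L, u t x * q x) (Icc 0 T))
    {f : ℝ → ℝ} (hf : MemLp f 2 (volume.restrict (Ioc 0 L))) :
    ContinuousOn (fun t => ∫ x in (0 : ℝ)..L, u t x * f x) (Icc 0 T) := by
  refine continuousOn_of_uniform_approx_of_continuousOn ?_
  intro U hU
  obtain ⟨e, he, heU⟩ := Metric.mem_uniformity_dist.1 hU
  have hM1 : 0 < |M| + 1 := by positivity
  have hε : 0 < e / (4 * (|M| + 1)) := by positivity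
  obtain ⟨q, hq1, hq2, hq3⟩ := dense_l2 hL hf (mul_pos (mul_pos he hε) (by norm_num : (0 : ℝ) < 1 / 4))
  refine ⟨_, hc q hq1 hq2, ?_⟩
  intro t ht
  refine heU ?_
  have mq : MemLp q 2 (volume.restrict (Ioc 0 L)) := kd14_memLp hq1.continuous.continuousOn
  rw [Real.dist_eq, ← intervalIntegral.integral_sub (kd14_ii hL.le (hu t ht) hf)
    (kd14_ii hL.le (hu t ht) mq)]
  have e1 : (fun x => u t x * f x - u t x * q x) = fun x => u t x * (f x - q x) := by
    funext x; ring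
  rw [e1]
  have h1 := kd14_young hL.le hε (hu t ht) (hf.sub mq)
  have h2 : e / (4 * (|M| + 1)) * (∫ x in (0 : ℝ)..L, u t x ^ 2) ≤ e / 4 := by
    have h3 : (∫ x in (0 : ℝ)..L, u t x ^ 2) ≤ |M| + 1 :=
      (hM t ht).trans ((le_abs_self M).trans (by linarith))
    calc e / (4 * (|M| + 1)) * (∫ x in (0 : ℝ)..L, u t x ^ 2)
        ≤ e / (4 * (|M| + 1)) * (|M| + 1) := mul_le_mul_of_nonneg_left h3 hε.le
      _ = e / 4 := by field_simp
  have h4 : (e / (4 * (|M| + 1)))⁻¹ * (∫ x in (0 : ℝ)..L, (f - q) x ^ 2) ≤ e / 4 := by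
    calc (e / (4 * (|M| + 1)))⁻¹ * (∫ x in (0 : ℝ)..L, (f - q) x ^ 2)
        ≤ (e / (4 * (|M| + 1)))⁻¹ * (e * (e / (4 * (|M| + 1))) * (1 / 4)) :=
          mul_le_mul_of_nonneg_left hq3 (inv_nonneg.2 hε.le)
      _ = e / 4 := by field_simp
  have h5 : |∫ x in (0 : ℝ)..L, u t x * (f x - q x)| ≤ e / 4 + e / 4 :=
    h1.trans (add_le_add h2 h4)
  linarith

/-- fundamental theorem of calculus on `[0,L]` -/
theorem kd14_ftc {L : ℝ} (hL : 0 ≤ L) {F F1 : ℝ → ℝ}
    (h : ∀ x ∈ Icc (0 : ℝ) L, HasDerivWithinAt F (F1 x) (Icc 0 L) x)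
    (c : ContinuousOn F1 (Icc 0 L)) : (∫ x in (0 : ℝ)..L, F1 x) = F L - F 0 := by
  refine intervalIntegral.integral_eq_sub_of_hasDerivAt_of_le hL
    (fun x hx => (h x hx).continuousWithinAt) ?_ ?_
  · intro x hx
    exact (h x (Ioo_subset_Icc_self hx)).hasDerivAt (Icc_mem_nhds hx.1 hx.2)
  · rw [← uIcc_of_le hL] at c
    exact c.intervalIntegrable

/-- integration by parts, real version -/
theorem kd14_ibp {L : ℝ} (hL : 0 ≤ L) {f1 f2 : ℝ → ℝ}
    (hr : ∀ x ∈ Icc (0 : ℝ) L, f1 x = f1 0 + ∫ y in (0 : ℝ)..x, f2 y)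
    (hf2 : IntervalIntegrable f2 volume 0 L) {g g1 : ℝ → ℝ}
    (hg : ∀ x ∈ Icc (0 : ℝ) L, HasDerivWithinAt g (g1 x) (Icc 0 L) x)
    (hg1 : ContinuousOn g1 (Icc 0 L)) :
    (∫ x in (0 : ℝ)..L, f2 x * g x)
      = f1 L * g L - f1 0 * g 0 - ∫ x in (0 : ℝ)..L, f1 x * g1 x := by
  have h1 := ibp_ac hL hr hf2 (g := fun x => ((g x : ℝ) : ℂ)) (g1 := fun x => ((g1 x : ℝ) : ℂ))
    (fun x hx => (hg x hx).ofReal_comp) (Complex.continuous_ofReal.comp_continuousOn hg1)
  have h2 : (∫ x in (0 : ℝ)..L, (f2 x : ℂ) * ((g x : ℝ) : ℂ))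
      = ((∫ x in (0 : ℝ)..L, f2 x * g x : ℝ) : ℂ) := by
    rw [← intervalIntegral.integral_ofReal]
    simp only [Complex.ofReal_mul]
  have h3 : (∫ x in (0 : ℝ)..L, (f1 x : ℂ) * ((g1 x : ℝ) : ℂ))
      = ((∫ x in (0 : ℝ)..L, f1 x * g1 x : ℝ) : ℂ) := by
    rw [← intervalIntegral.integral_ofReal]
    simp only [Complex.ofReal_mul]
  rw [h2, h3] at h1
  exact_mod_cast h1

theorem kd14_ends {L : ℝ} {q : ℝ → ℝ} (hq : tsupport q ⊆ Ioo 0 L) : q 0 = 0 ∧ q L = 0 := by
  constructor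
  · by_contra h
    exact absurd (hq (subset_tsupport q h)).1 (lt_irrefl 0)
  · by_contra h
    exact absurd (hq (subset_tsupport q h)).2 (lt_irrefl L)

theorem kd14_der {L : ℝ} {q : ℝ → ℝ} (hq1 : ContDiff ℝ (⊤ : ℕ∞) q) (hq : tsupport q ⊆ Ioo 0 L) :
    ContDiff ℝ (⊤ : ℕ∞) (deriv q) ∧ tsupport (deriv q) ⊆ Ioo 0 L ∧
      ∀ x, HasDerivAt q (deriv q x) x := by
  refine ⟨?_, (closure_minimal (support_deriv_subset) isClosed_closure).trans hq, ?_⟩
  · exact (contDiff_infty_iff_deriv.1 hq1).2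
  · intro x
    exact ((contDiff_infty_iff_deriv.1 hq1).1 x).hasDerivAt

/-- integration by parts twice against a function of `C_c^∞(0,L)` -/
theorem kd14_twice {L : ℝ} (hL : 0 < L) {f f1 f2 : ℝ → ℝ} (h : IsH2 L f f1 f2)
    {q : ℝ → ℝ} (hq1 : ContDiff ℝ (⊤ : ℕ∞) q) (hq : tsupport q ⊆ Ioo 0 L) :
    (∫ x in (0 : ℝ)..L, f2 x * q x) = ∫ x in (0 : ℝ)..L, f x * deriv (deriv q) x := by
  obtain ⟨hd1, hd2, hd3⟩ := kd14_der hq1 hq
  obtain ⟨he1, he2, he3⟩ := kd14_der hd1 hd2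
  have c1 := h.c1 hL.le
  have h1 := kd14_ibp hL.le h.repr (h.ii2 hL.le) (g := q) (g1 := deriv q)
    (fun x _ => (hd3 x).hasDerivWithinAt) hd1.continuous.continuousOn
  have c1' : IntervalIntegrable f1 volume 0 L := by
    rw [← uIcc_of_le hL.le] at c1
    exact c1.intervalIntegrable
  have h2 := kd14_ibp hL.le (h.repr0 hL.le) c1' (g := deriv q) (g1 := deriv (deriv q))
    (fun x _ => (he3 x).hasDerivWithinAt) he1.continuous.continuousOn
  rw [(kd14_ends hq).1, (kd14_ends hq).2] at h1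
  rw [(kd14_ends hd2).1, (kd14_ends hd2).2] at h2
  rw [h1, h2]
  ring

/-- the value at a point is an integral of the second derivative against a continuous kernel -/
theorem kd14_green {L x : ℝ} (hL : 0 < L) (hx : x ∈ Icc (0 : ℝ) L) {f f1 f2 : ℝ → ℝ}
    (h : IsH2 L f f1 f2) (h0 : f 0 = 0) :
    f x = x * f1 0 + ∫ y in (0 : ℝ)..L, f2 y * max (x - y) 0 := by
  have i2 := h.ii2 hL.le
  have i2x : IntervalIntegrable f2 volume 0 x := i2.mono_set (by
    rw [uIcc_of_le hx.1, uIcc_of_le hL.le]; exact Icc_subset_Icc le_rfl hx.2)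
  have h1 := kd14_ibp hx.1 (fun y hy => h.repr y ⟨hy.1, hy.2.trans hx.2⟩) i2x
    (g := fun y => x - y) (g1 := fun _ => -1)
    (fun y _ => ((hasDerivAt_id y).const_sub x).hasDerivWithinAt) continuousOn_const
  have h2 := h.repr0 hL.le x hx
  have cm : Continuous fun y : ℝ => max (x - y) 0 :=
    (continuous_const.sub continuous_id).max continuous_const
  have j1 : IntervalIntegrable (fun y => f2 y * max (x - y) 0) volume 0 L :=
    i2.mul_continuousOn cm.continuousOn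
  have j2 : IntervalIntegrable (fun y => f2 y * max (x - y) 0) volume 0 x :=
    i2x.mul_continuousOn cm.continuousOn
  have j3 : IntervalIntegrable (fun y => f2 y * max (x - y) 0) volume x L :=
    j2.symm.trans j1
  have h3 : (∫ y in (0 : ℝ)..L, f2 y * max (x - y) 0) = ∫ y in (0 : ℝ)..x, f2 y * (x - y) := by
    rw [← intervalIntegral.integral_add_adjacent_intervals j2 j3]
    have e1 : (∫ y in (0 : ℝ)..x, f2 y * max (x - y) 0) = ∫ y in (0 : ℝ)..x, f2 y * (x - y) := by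
      refine intervalIntegral.integral_congr fun y hy => ?_
      rw [uIcc_of_le hx.1] at hy
      show f2 y * max (x - y) 0 = f2 y * (x - y)
      rw [max_eq_left (by linarith [hy.2])]
    have e2 : (∫ y in x..L, f2 y * max (x - y) 0) = ∫ y in x..L, (0 : ℝ) := by
      refine intervalIntegral.integral_congr fun y hy => ?_
      rw [uIcc_of_le hx.2] at hy
      show f2 y * max (x - y) 0 = 0
      rw [max_eq_right (by linarith [hy.1]), mul_zero]
    rw [e1, e2]
    simp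
  rw [h3, h1, h2, h0]
  simp
  ring

/-- weak continuity of the second derivatives gives pointwise continuity in time -/
theorem kd14_point {L T : ℝ} (hL : 0 < L) {u u1 u2 : ℝ → ℝ → ℝ}
    (h : ∀ t ∈ Icc (0 : ℝ) T, IsH2 L (u t) (u1 t) (u2 t))
    (h0 : ∀ t ∈ Icc (0 : ℝ) T, u t 0 = 0) (hLL : ∀ t ∈ Icc (0 : ℝ) T, u t L = 0)
    (c2 : ∀ f : ℝ → ℝ, MemLp f 2 (volume.restrict (Ioc 0 L)) →
      ContinuousOn (fun t => ∫ x in (0 : ℝ)..L, u2 t x * f x) (Icc 0 T))
    {x : ℝ} (hx : x ∈ Icc (0 : ℝ) L) : ContinuousOn (fun t => u t x) (Icc 0 T) := by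
  have cm : ∀ z : ℝ, Continuous fun y : ℝ => max (z - y) 0 := fun z =>
    (continuous_const.sub continuous_id).max continuous_const
  have k : ∀ z : ℝ, ContinuousOn (fun t => ∫ y in (0 : ℝ)..L, u2 t y * max (z - y) 0)
      (Icc 0 T) := fun z => c2 _ (kd14_memLp (cm z).continuousOn)
  have h1 : ∀ t ∈ Icc (0 : ℝ) T, u t x
      = x * (-(∫ y in (0 : ℝ)..L, u2 t y * max (L - y) 0) / L)
        + ∫ y in (0 : ℝ)..L, u2 t y * max (x - y) 0 := by
    intro t ht
    have e1 := kd14_green hL hx (h t ht) (h0 t ht)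
    have e2 := kd14_green hL (right_mem_Icc.2 hL.le) (h t ht) (h0 t ht)
    rw [hLL t ht] at e2
    have e3 : u1 t 0 = -(∫ y in (0 : ℝ)..L, u2 t y * max (L - y) 0) / L := by
      rw [eq_div_iff hL.ne']
      linarith
    rw [e1, e3]
  refine ContinuousOn.congr ?_ h1
  exact (continuousOn_const.mul (((k L).neg).div_const L)).add (k x)

/-- products of bounded families which are pointwise continuous in time -/
theorem kd14_prod {L T m : ℝ} (hL : 0 < L) (hm : 0 ≤ m) {u v : ℝ → ℝ → ℝ}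
    (mu : ∀ t ∈ Icc (0 : ℝ) T, ContinuousOn (u t) (Icc 0 L))
    (mv : ∀ t ∈ Icc (0 : ℝ) T, ContinuousOn (v t) (Icc 0 L))
    (bu : ∀ t ∈ Icc (0 : ℝ) T, ∀ x ∈ Icc (0 : ℝ) L, |u t x| ≤ m)
    (bv : ∀ t ∈ Icc (0 : ℝ) T, ∀ x ∈ Icc (0 : ℝ) L, |v t x| ≤ m)
    (cu : ∀ x ∈ Icc (0 : ℝ) L, ContinuousOn (fun t => u t x) (Icc 0 T))
    (cv : ∀ x ∈ Icc (0 : ℝ) L, ContinuousOn (fun t => v t x) (Icc 0 T))
    {f : ℝ → ℝ} (hf : MemLp f 2 (volume.restrict (Ioc 0 L))) :
    ContinuousOn (fun t => ∫ x in (0 : ℝ)..L, u t x * v t x * f x) (Icc 0 T) := by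
  have m1 : MemLp (fun _ : ℝ => (1 : ℝ)) 2 (volume.restrict (Ioc 0 L)) :=
    kd14_memLp continuousOn_const
  have hfi : IntervalIntegrable f volume 0 L := by
    have h := kd14_ii hL.le hf m1
    simpa using h
  intro t ht
  have ev : ∀ᶠ s in 𝓝[Icc (0 : ℝ) T] t, s ∈ Icc (0 : ℝ) T := self_mem_nhdsWithin
  refine intervalIntegral.continuousWithinAt_of_dominated_interval
    (bound := fun x => m * m * |f x|) ?_ ?_ ?_ ?_
  · filter_upwards [ev] with s hs
    rw [uIoc_of_le hL.le]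
    exact ((((mu s hs).mul (mv s hs)).mono Ioc_subset_Icc_self).aestronglyMeasurable
      measurableSet_Ioc).mul hf.1
  · filter_upwards [ev] with s hs
    refine Eventually.of_forall fun x hx => ?_
    rw [uIoc_of_le hL.le] at hx
    have hx' := Ioc_subset_Icc_self hx
    rw [Real.norm_eq_abs, abs_mul, abs_mul]
    exact mul_le_mul_of_nonneg_right
      (mul_le_mul (bu s hs x hx') (bv s hs x hx') (abs_nonneg _) hm) (abs_nonneg _)
  · exact hfi.abs.const_mul (m * m)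
  · refine Eventually.of_forall fun x hx => ?_
    rw [uIoc_of_le hL.le] at hx
    have hx' := Ioc_subset_Icc_self hx
    exact (((cu x hx').mul (cv x hx')).mul continuousOn_const) t ht

/-- from `C_c^∞` test functions and the integrated equation to `C¹` test functions and the
differentiated equation -/
theorem kd14_main {L T m M : ℝ} (hL : 0 < L) (hT : 0 < T) (hm : 0 ≤ m) {u F : ℝ → ℝ → ℝ}
    (cu : ∀ t ∈ Icc (0 : ℝ) T, ContinuousOn (u t) (Icc 0 L))
    (bu : ∀ t ∈ Icc (0 : ℝ) T, ∀ x ∈ Icc (0 : ℝ) L, |u t x| ≤ m)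
    (mF : ∀ t ∈ Icc (0 : ℝ) T, MemLp (F t) 2 (volume.restrict (Ioc 0 L)))
    (bF : ∀ t ∈ Icc (0 : ℝ) T, (∫ x in (0 : ℝ)..L, F t x ^ 2) ≤ M)
    (cF : ∀ f : ℝ → ℝ, MemLp f 2 (volume.restrict (Ioc 0 L)) →
      ContinuousOn (fun t => ∫ x in (0 : ℝ)..L, F t x * f x) (Icc 0 T))
    (eq : ∀ q : ℝ → ℝ, ContDiff ℝ (⊤ : ℕ∞) q → tsupport q ⊆ Ioo 0 L → ∀ t ∈ Icc (0 : ℝ) T,
      (∫ x in (0 : ℝ)..L, u t x * q x) = (∫ x in (0 : ℝ)..L, u 0 x * q x)
        + ∫ s in (0 : ℝ)..t, ∫ x in (0 : ℝ)..L, F s x * deriv q x)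
    {p p1 : ℝ → ℝ} (hp : IsTest L p p1) : ∀ t ∈ Icc (0 : ℝ) T,
    HasDerivWithinAt (fun s => ∫ x in (0 : ℝ)..L, u s x * p x)
      (∫ x in (0 : ℝ)..L, F t x * p1 x) (Icc 0 T) t := by
  have mp1 : MemLp p1 2 (volume.restrict (Ioc 0 L)) := kd14_memLp hp.cont
  have cp : ContinuousOn p (Icc 0 L) := fun x hx => (hp.deriv x hx).continuousWithinAt
  have cΦ := cF p1 mp1
  have iΦ : ∀ t ∈ Icc (0 : ℝ) T, ∀ g : ℝ → ℝ, ContinuousOn g (Icc 0 T) →
      IntervalIntegrable g volume 0 t := by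
    intro t ht g hg
    refine ContinuousOn.intervalIntegrable ?_
    rw [uIcc_of_le ht.1]
    exact hg.mono (Icc_subset_Icc le_rfl ht.2)
  have h0 : (0 : ℝ) ∈ Icc (0 : ℝ) T := left_mem_Icc.2 hT.le
  -- the integrated equation
  have key : ∀ t ∈ Icc (0 : ℝ) T, (∫ x in (0 : ℝ)..L, u t x * p x)
      = (∫ x in (0 : ℝ)..L, u 0 x * p x) + ∫ s in (0 : ℝ)..t, ∫ x in (0 : ℝ)..L, F s x * p1 x := by
    intro t ht
    refine eq_of_forall_dist_le ?_
    intro e he
    have hM1 : 0 < |M| + 1 := by positivity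
    have hε : 0 < e / (4 * T * (|M| + 1)) := by positivity
    set ε := e / (4 * T * (|M| + 1)) with hεd
    have hδ : 0 < min (e / (4 * L * (m + 1))) (e * ε / (4 * T)) := by positivity
    set δ := min (e / (4 * L * (m + 1))) (e * ε / (4 * T)) with hδd
    obtain ⟨q, hq1, hq2, hq3, hq4⟩ := dense_h1 hL hp hδ
    obtain ⟨hd1, hd2, hd3⟩ := kd14_der hq1 hq2
    have mq1 : MemLp (deriv q) 2 (volume.restrict (Ioc 0 L)) :=
      kd14_memLp hd1.continuous.continuousOn
    have b1 : ∀ s ∈ Icc (0 : ℝ) T,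
        |(∫ x in (0 : ℝ)..L, u s x * p x) - ∫ x in (0 : ℝ)..L, u s x * q x| ≤ e / 4 := by
      intro s hs
      have i1 : IntervalIntegrable (fun x => u s x * p x) volume 0 L := by
        refine ContinuousOn.intervalIntegrable ?_
        rw [uIcc_of_le hL.le]
        exact (cu s hs).mul cp
      have i2 : IntervalIntegrable (fun x => u s x * q x) volume 0 L := by
        refine ContinuousOn.intervalIntegrable ?_
        rw [uIcc_of_le hL.le]
        exact (cu s hs).mul hq1.continuous.continuousOn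
      rw [← intervalIntegral.integral_sub i1 i2]
      have h1 : ‖∫ x in (0 : ℝ)..L, (u s x * p x - u s x * q x)‖ ≤ m * δ * |L - 0| := by
        refine intervalIntegral.norm_integral_le_of_norm_le_const fun x hx => ?_
        rw [uIoc_of_le hL.le] at hx
        have hx' := Ioc_subset_Icc_self hx
        rw [← mul_sub, Real.norm_eq_abs, abs_mul]
        exact mul_le_mul (bu s hs x hx') (hq4 x hx') (abs_nonneg _) hm
      rw [sub_zero, abs_of_pos hL] at h1
      refine h1.trans ?_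
      have h2 : δ ≤ e / (4 * L * (m + 1)) := min_le_left _ _
      calc m * δ * L ≤ (m + 1) * (e / (4 * L * (m + 1))) * L := by
            refine mul_le_mul_of_nonneg_right ?_ hL.le
            exact mul_le_mul (by linarith) h2 hδ.le (by linarith)
        _ = e / 4 := by
            have : m + 1 ≠ 0 := by positivity
            field_simp
    have b2 : |(∫ s in (0 : ℝ)..t, ∫ x in (0 : ℝ)..L, F s x * p1 x)
        - ∫ s in (0 : ℝ)..t, ∫ x in (0 : ℝ)..L, F s x * deriv q x| ≤ e / 2 := by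
      rw [← intervalIntegral.integral_sub (iΦ t ht _ cΦ) (iΦ t ht _ (cF _ mq1))]
      have h1 : ‖∫ s in (0 : ℝ)..t, ((∫ x in (0 : ℝ)..L, F s x * p1 x)
          - ∫ x in (0 : ℝ)..L, F s x * deriv q x)‖ ≤ e / (2 * T) * |t - 0| := by
        refine intervalIntegral.norm_integral_le_of_norm_le_const fun s hs => ?_
        rw [uIoc_of_le ht.1] at hs
        have hs' : s ∈ Icc (0 : ℝ) T := ⟨hs.1.le, hs.2.trans ht.2⟩
        rw [← intervalIntegral.integral_sub (kd14_ii hL.le (mF s hs') mp1)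
          (kd14_ii hL.le (mF s hs') mq1), Real.norm_eq_abs]
        have e1 : (fun x => F s x * p1 x - F s x * deriv q x)
            = fun x => F s x * (p1 x - deriv q x) := by
          funext x; ring
        rw [e1]
        have h1 := kd14_young hL.le hε (mF s hs') (mp1.sub mq1)
        have h2 : ε * (∫ x in (0 : ℝ)..L, F s x ^ 2) ≤ e / (4 * T) := by
          have h3 : (∫ x in (0 : ℝ)..L, F s x ^ 2) ≤ |M| + 1 :=
            (bF s hs').trans ((le_abs_self M).trans (by linarith))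
          calc ε * (∫ x in (0 : ℝ)..L, F s x ^ 2) ≤ ε * (|M| + 1) :=
                mul_le_mul_of_nonneg_left h3 hε.le
            _ = e / (4 * T) := by rw [hεd]; field_simp
        have h4 : ε⁻¹ * (∫ x in (0 : ℝ)..L, (p1 - deriv q) x ^ 2) ≤ e / (4 * T) := by
          calc ε⁻¹ * (∫ x in (0 : ℝ)..L, (p1 - deriv q) x ^ 2)
              ≤ ε⁻¹ * (e * ε / (4 * T)) :=
                mul_le_mul_of_nonneg_left (hq3.trans (min_le_right _ _)) (inv_nonneg.2 hε.le)
            _ = e / (4 * T) := by field_simp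
        have h5 : |∫ x in (0 : ℝ)..L, F s x * (p1 x - deriv q x)| ≤ e / (4 * T) + e / (4 * T) :=
          h1.trans (add_le_add h2 h4)
        refine h5.trans (le_of_eq ?_)
        field_simp
        norm_num
      rw [sub_zero, abs_of_nonneg ht.1] at h1
      refine h1.trans ?_
      calc e / (2 * T) * t ≤ e / (2 * T) * T :=
            mul_le_mul_of_nonneg_left ht.2 (by positivity)
        _ = e / 2 := by field_simp
    have b3 := eq q hq1 hq2 t ht
    have b4 := b1 t ht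
    have b5 := b1 0 h0
    rw [Real.dist_eq]
    rw [abs_le] at b2 b4 b5 ⊢
    constructor <;> linarith [b2.1, b2.2, b4.1, b4.2, b5.1, b5.2]
  intro t ht
  have _ : Fact (t ∈ Icc (0 : ℝ) T) := ⟨ht⟩
  have hd : HasDerivWithinAt (fun v => ∫ s in (0 : ℝ)..v, ∫ x in (0 : ℝ)..L, F s x * p1 x)
      (∫ x in (0 : ℝ)..L, F t x * p1 x) (Icc 0 T) t := by
    refine intervalIntegral.integral_hasDerivWithinAt_right (iΦ t ht _ cΦ) ?_ (cΦ t ht)
    exact ⟨Icc 0 T, self_mem_nhdsWithin, cΦ.aestronglyMeasurable measurableSet_Icc⟩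
  have hd2 := hd.const_add (∫ x in (0 : ℝ)..L, u 0 x * p x)
  exact hd2.congr (fun s hs => key s hs) (key t ht)

/-- square integrals of a sum -/
theorem kd14_sum {L c m : ℝ} (hL : 0 < L) {f g : ℝ → ℝ}
    (hf : MemLp f 2 (volume.restrict (Ioc 0 L))) (cg : ContinuousOn g (Icc 0 L))
    (bg : ∀ x ∈ Icc (0 : ℝ) L, |g x| ≤ c) (bf : (∫ x in (0 : ℝ)..L, f x ^ 2) ≤ m) :
    (∫ x in (0 : ℝ)..L, (f x + g x) ^ 2) ≤ 2 * m + 2 * c ^ 2 * L := by
  have mg := kd14_memLp cg
  have i1 := kd14_iisq hL.le hf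
  have i2 := kd14_iisq hL.le (hf.add mg)
  calc (∫ x in (0 : ℝ)..L, (f x + g x) ^ 2)
      ≤ ∫ x in (0 : ℝ)..L, (2 * f x ^ 2 + 2 * c ^ 2) := by
        refine intervalIntegral.integral_mono_on hL.le i2
          ((i1.const_mul 2).add intervalIntegrable_const) fun x hx => ?_
        have h1 : g x ^ 2 ≤ c ^ 2 := by
          rw [← sq_abs (g x)]
          exact pow_le_pow_left₀ (abs_nonneg _) (bg x hx) 2
        nlinarith [sq_nonneg (f x - g x)]
    _ = 2 * (∫ x in (0 : ℝ)..L, f x ^ 2) + 2 * c ^ 2 * L := by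
        rw [intervalIntegral.integral_add (i1.const_mul 2) intervalIntegrable_const,
          intervalIntegral.integral_const_mul, intervalIntegral.integral_const]
        simp
        ring
    _ ≤ 2 * m + 2 * c ^ 2 * L := by linarith

theorem kd14_iter (q : ℝ → ℝ) (x : ℝ) : iteratedDeriv 3 q x = deriv (deriv (deriv q)) x := by
  rw [iteratedDeriv_succ, iteratedDeriv_succ, iteratedDeriv_one]

/-- one equation of the system -/
theorem kd14_half {L T m c : ℝ} (hL : 0 < L) (hT : 0 < T) (hm : 0 ≤ m)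
    {u z z1 z2 G : ℝ → ℝ → ℝ}
    (cu : ∀ t ∈ Icc (0 : ℝ) T, ContinuousOn (u t) (Icc 0 L))
    (bu : ∀ t ∈ Icc (0 : ℝ) T, ∀ x ∈ Icc (0 : ℝ) L, |u t x| ≤ m)
    (hz : ∀ t ∈ Icc (0 : ℝ) T, IsH2 L (z t) (z1 t) (z2 t))
    (bz : ∀ t ∈ Icc (0 : ℝ) T, (∫ x in (0 : ℝ)..L, z2 t x ^ 2) ≤ m ^ 2)
    (wz : ∀ f : ℝ → ℝ, MemLp f 2 (volume.restrict (Ioc 0 L)) →
      ContinuousOn (fun t => ∫ x in (0 : ℝ)..L, z2 t x * f x) (Icc 0 T))
    (cG : ∀ t ∈ Icc (0 : ℝ) T, ContinuousOn (G t) (Icc 0 L))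
    (bG : ∀ t ∈ Icc (0 : ℝ) T, ∀ x ∈ Icc (0 : ℝ) L, |G t x| ≤ c)
    (wG : ∀ f : ℝ → ℝ, MemLp f 2 (volume.restrict (Ioc 0 L)) →
      ContinuousOn (fun t => ∫ x in (0 : ℝ)..L, G t x * f x) (Icc 0 T))
    (eq : ∀ q : ℝ → ℝ, ContDiff ℝ (⊤ : ℕ∞) q → tsupport q ⊆ Ioo 0 L → ∀ t ∈ Icc (0 : ℝ) T,
      (∫ x in (0 : ℝ)..L, u t x * q x) = (∫ x in (0 : ℝ)..L, u 0 x * q x)
        + ∫ s in (0 : ℝ)..t, ∫ x in (0 : ℝ)..L, (G s x * deriv q x
          + z s x * iteratedDeriv 3 q x))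
    {p p1 : ℝ → ℝ} (hp : IsTest L p p1) : ∀ t ∈ Icc (0 : ℝ) T,
    HasDerivWithinAt (fun s => ∫ x in (0 : ℝ)..L, u s x * p x)
      (∫ x in (0 : ℝ)..L, (z2 t x + G t x) * p1 x) (Icc 0 T) t := by
  have mG : ∀ t ∈ Icc (0 : ℝ) T, MemLp (G t) 2 (volume.restrict (Ioc 0 L)) :=
    fun t ht => kd14_memLp (cG t ht)
  refine kd14_main hL hT hm (F := fun t x => z2 t x + G t x) cu bu
    (fun t ht => (hz t ht).memLp.add (mG t ht))
    (fun t ht => kd14_sum hL (hz t ht).memLp (cG t ht) (bG t ht) (bz t ht)) ?_ ?_ hp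
  · intro f hf
    have h1 := (wz f hf).add (wG f hf)
    refine h1.congr fun t ht => ?_
    have h2 := intervalIntegral.integral_add (kd14_ii hL.le (hz t ht).memLp hf)
      (kd14_ii hL.le (mG t ht) hf)
    show (∫ x in (0 : ℝ)..L, (z2 t x + G t x) * f x)
      = (∫ x in (0 : ℝ)..L, z2 t x * f x) + ∫ x in (0 : ℝ)..L, G t x * f x
    rw [← h2]
    simp only [add_mul]
  · intro q hq1 hq2 t ht
    rw [eq q hq1 hq2 t ht]
    congr 1
    refine intervalIntegral.integral_congr fun s hs => ?_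
    rw [uIcc_of_le ht.1] at hs
    have hs' : s ∈ Icc (0 : ℝ) T := ⟨hs.1, hs.2.trans ht.2⟩
    obtain ⟨hd1, hd2, hd3⟩ := kd14_der hq1 hq2
    obtain ⟨he1, he2, he3⟩ := kd14_der hd1 hd2
    obtain ⟨hf1, hf2, hf3⟩ := kd14_der he1 he2
    have md := kd14_memLp (L := L) hd1.continuous.continuousOn
    have mf := kd14_memLp (L := L) hf1.continuous.continuousOn
    have h1 := kd14_twice hL (hz s hs') hd1 hd2
    have mz : MemLp (z s) 2 (volume.restrict (Ioc 0 L)) := kd14_memLp ((hz s hs').c0 hL.le)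
    show (∫ x in (0 : ℝ)..L, (G s x * deriv q x + z s x * iteratedDeriv 3 q x))
      = ∫ x in (0 : ℝ)..L, (z2 s x + G s x) * deriv q x
    simp only [kd14_iter, add_mul]
    rw [intervalIntegral.integral_add (kd14_ii hL.le (mG s hs') md) (kd14_ii hL.le mz mf),
      intervalIntegral.integral_add (kd14_ii hL.le (hz s hs').memLp md)
        (kd14_ii hL.le (mG s hs') md), h1]
    ring

/-- integration by parts, `H²` function against a test function -/
theorem kd14_by1 {L : ℝ} (hL : 0 < L) {f f1 f2 p p1 : ℝ → ℝ} (h : IsH2 L f f1 f2)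
    (hp : IsTest L p p1) :
    (∫ x in (0 : ℝ)..L, f x * p1 x) = -∫ x in (0 : ℝ)..L, f1 x * p x := by
  have cf := h.c0 hL.le
  have cf1 := h.c1 hL.le
  have cp : ContinuousOn p (Icc 0 L) := fun x hx => (hp.deriv x hx).continuousWithinAt
  have h1 := kd14_ftc hL.le (F := fun x => f x * p x) (F1 := fun x => f1 x * p x + f x * p1 x)
    (fun x hx => (h.deriv x hx).mul (hp.deriv x hx)) ((cf1.mul cp).add (cf.mul hp.cont))
  rw [intervalIntegral.integral_add (kd14_ii hL.le (kd14_memLp cf1) (kd14_memLp cp))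
    (kd14_ii hL.le (kd14_memLp cf) (kd14_memLp hp.cont))] at h1
  simp only [hp.left, hp.right, mul_zero, sub_zero] at h1
  linarith

theorem kd14_by2 {L : ℝ} (hL : 0 < L) {f f1 f2 g g1 g2 p p1 : ℝ → ℝ} (hf : IsH2 L f f1 f2)
    (hg : IsH2 L g g1 g2) (hp : IsTest L p p1) :
    (∫ x in (0 : ℝ)..L, f x * g x * p1 x) = -∫ x in (0 : ℝ)..L, (f1 x * g x + f x * g1 x) * p x := by
  have cf := hf.c0 hL.le
  have cf1 := hf.c1 hL.le
  have cg := hg.c0 hL.le
  have cg1 := hg.c1 hL.le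
  have cp : ContinuousOn p (Icc 0 L) := fun x hx => (hp.deriv x hx).continuousWithinAt
  have h1 := kd14_ftc hL.le (F := fun x => f x * g x * p x)
    (F1 := fun x => (f1 x * g x + f x * g1 x) * p x + f x * g x * p1 x)
    (fun x hx => ((hf.deriv x hx).mul (hg.deriv x hx)).mul (hp.deriv x hx))
    ((((cf1.mul cg).add (cf.mul cg1)).mul cp).add ((cf.mul cg).mul hp.cont))
  rw [intervalIntegral.integral_add
    (kd14_ii hL.le (f := fun x => f1 x * g x + f x * g1 x)
      (kd14_memLp ((cf1.mul cg).add (cf.mul cg1))) (kd14_memLp cp))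
    (kd14_ii hL.le (f := fun x => f x * g x) (kd14_memLp (cf.mul cg)) (kd14_memLp hp.cont))] at h1
  simp only [hp.left, hp.right, mul_zero, sub_zero] at h1
  linarith

/-- `∫ f²` for a bounded function -/
theorem kd14_bsq {L m : ℝ} (hL : 0 < L) {f : ℝ → ℝ} (cf : ContinuousOn f (Icc 0 L))
    (bf : ∀ x ∈ Icc (0 : ℝ) L, |f x| ≤ m) : (∫ x in (0 : ℝ)..L, f x ^ 2) ≤ 2 * m ^ 2 * L := by
  have h := kd14_sum hL (f := fun _ => (0 : ℝ)) (m := 0) (kd14_memLp continuousOn_const) cf bf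
    (by simp)
  simpa using h

/-- a solution in the sense of distributions is a solution -/
theorem dsol_open {L T : ℝ} (hL : 0 < L) (hT : 0 < T) {η η1 η2 w w1 w2 : ℝ → ℝ → ℝ}
    (h : IsDSol L T η η1 η2 w w1 w2) : IsOpenSol L T η η1 η2 w w1 w2 := by
  obtain ⟨M, hM⟩ := h.bdd
  obtain ⟨m, hm1, hst⟩ := exists_st L hL M
  have hm : 0 ≤ m := by linarith
  have sη : ∀ t ∈ Icc (0 : ℝ) T, IsSt L m (η t) (η1 t) (η2 t) := fun t ht =>
    hst _ _ _ (h.h2η t ht) (h.dir t ht).1 (h.dir t ht).2.1 (hM t ht).1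
  have sw : ∀ t ∈ Icc (0 : ℝ) T, IsSt L m (w t) (w1 t) (w2 t) := fun t ht =>
    hst _ _ _ (h.h2w t ht) (h.dir t ht).2.2.1 (h.dir t ht).2.2.2 (hM t ht).2
  have cη : ∀ t ∈ Icc (0 : ℝ) T, ContinuousOn (η t) (Icc 0 L) := fun t ht =>
    (h.h2η t ht).c0 hL.le
  have cw : ∀ t ∈ Icc (0 : ℝ) T, ContinuousOn (w t) (Icc 0 L) := fun t ht =>
    (h.h2w t ht).c0 hL.le
  have bη : ∀ t ∈ Icc (0 : ℝ) T, ∀ x ∈ Icc (0 : ℝ) L, |η t x| ≤ m := fun t ht => (sη t ht).b0
  have bw : ∀ t ∈ Icc (0 : ℝ) T, ∀ x ∈ Icc (0 : ℝ) L, |w t x| ≤ m := fun t ht => (sw t ht).b0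
  have uT : uIcc (0 : ℝ) T = Icc 0 T := uIcc_of_le hT.le
  -- weak continuity of the unknowns
  have wη : ∀ f : ℝ → ℝ, MemLp f 2 (volume.restrict (Ioc 0 L)) →
      ContinuousOn (fun t => ∫ x in (0 : ℝ)..L, η t x * f x) (Icc 0 T) := by
    intro f hf
    refine kd14_weak hL (fun t ht => kd14_memLp (cη t ht))
      (fun t ht => kd14_bsq hL (cη t ht) (bη t ht)) ?_ hf
    intro q hq1 hq2
    have h1 := intervalIntegral.continuousOn_primitive_interval' (h.intη q hq1 hq2)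
      left_mem_uIcc
    rw [uT] at h1
    exact (continuousOn_const.add h1).congr (h.eqη q hq1 hq2)
  have ww : ∀ f : ℝ → ℝ, MemLp f 2 (volume.restrict (Ioc 0 L)) →
      ContinuousOn (fun t => ∫ x in (0 : ℝ)..L, w t x * f x) (Icc 0 T) := by
    intro f hf
    refine kd14_weak hL (fun t ht => kd14_memLp (cw t ht))
      (fun t ht => kd14_bsq hL (cw t ht) (bw t ht)) ?_ hf
    intro q hq1 hq2
    have h1 := intervalIntegral.continuousOn_primitive_interval' (h.intw q hq1 hq2)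
      left_mem_uIcc
    rw [uT] at h1
    exact (continuousOn_const.add h1).congr (h.eqw q hq1 hq2)
  -- weak continuity of the second derivatives
  have wη2 : ∀ f : ℝ → ℝ, MemLp f 2 (volume.restrict (Ioc 0 L)) →
      ContinuousOn (fun t => ∫ x in (0 : ℝ)..L, η2 t x * f x) (Icc 0 T) := by
    intro f hf
    refine kd14_weak hL (fun t ht => (h.h2η t ht).memLp) (fun t ht => (sη t ht).i2) ?_ hf
    intro q hq1 hq2
    obtain ⟨hd1, hd2, hd3⟩ := kd14_der hq1 hq2
    obtain ⟨he1, he2, he3⟩ := kd14_der hd1 hd2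
    exact (wη _ (kd14_memLp he1.continuous.continuousOn)).congr
      fun t ht => kd14_twice hL (h.h2η t ht) hq1 hq2
  have ww2 : ∀ f : ℝ → ℝ, MemLp f 2 (volume.restrict (Ioc 0 L)) →
      ContinuousOn (fun t => ∫ x in (0 : ℝ)..L, w2 t x * f x) (Icc 0 T) := by
    intro f hf
    refine kd14_weak hL (fun t ht => (h.h2w t ht).memLp) (fun t ht => (sw t ht).i2) ?_ hf
    intro q hq1 hq2
    obtain ⟨hd1, hd2, hd3⟩ := kd14_der hq1 hq2
    obtain ⟨he1, he2, he3⟩ := kd14_der hd1 hd2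
    exact (ww _ (kd14_memLp he1.continuous.continuousOn)).congr
      fun t ht => kd14_twice hL (h.h2w t ht) hq1 hq2
  -- pointwise continuity
  have pη : ∀ x ∈ Icc (0 : ℝ) L, ContinuousOn (fun t => η t x) (Icc 0 T) := fun x hx =>
    kd14_point hL h.h2η (fun t ht => (h.dir t ht).1) (fun t ht => (h.dir t ht).2.1) wη2 hx
  have pw : ∀ x ∈ Icc (0 : ℝ) L, ContinuousOn (fun t => w t x) (Icc 0 T) := fun x hx =>
    kd14_point hL h.h2w (fun t ht => (h.dir t ht).2.2.1) (fun t ht => (h.dir t ht).2.2.2) ww2 hx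
  refine ⟨h.h2η, h.h2w, h.bdd, h.dir, ?_, ?_⟩
  · intro p p1 hp t ht
    have h1 := kd14_half hL hT hm (u := η) (z := w) (z1 := w1) (z2 := w2)
      (G := fun s x => w s x + η s x * w s x) (c := m + m * m) cη bη h.h2w
      (fun t ht => (sw t ht).i2) ww2 (fun t ht => (cw t ht).add ((cη t ht).mul (cw t ht)))
      (fun t ht x hx => by
        refine (abs_add_le _ _).trans (add_le_add (bw t ht x hx) ?_)
        rw [abs_mul]
        exact mul_le_mul (bη t ht x hx) (bw t ht x hx) (abs_nonneg _) hm)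
      (fun f hf => by
        refine ((ww f hf).add (kd14_prod hL hm cη cw bη bw pη pw hf)).congr fun t ht => ?_
        show (∫ x in (0 : ℝ)..L, (w t x + η t x * w t x) * f x)
          = (∫ x in (0 : ℝ)..L, w t x * f x) + ∫ x in (0 : ℝ)..L, η t x * w t x * f x
        rw [← intervalIntegral.integral_add (kd14_ii hL.le (kd14_memLp (cw t ht)) hf)
          (kd14_ii hL.le (f := fun x => η t x * w t x)
            (kd14_memLp ((cη t ht).mul (cw t ht))) hf)]
        simp only [add_mul])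
      h.eqη hp t ht
    refine h1.congr_deriv ?_
    have e1 := kd14_by1 hL (h.h2w t ht) hp
    have e2 := kd14_by2 hL (h.h2η t ht) (h.h2w t ht) hp
    have cη' := cη t ht
    have cw' := cw t ht
    have cη1 := (h.h2η t ht).c1 hL.le
    have cw1 := (h.h2w t ht).c1 hL.le
    have cp : ContinuousOn p (Icc 0 L) := fun x hx => (hp.deriv x hx).continuousWithinAt
    have i1 := kd14_ii hL.le (h.h2w t ht).memLp (kd14_memLp hp.cont)
    have i2 := kd14_ii hL.le (kd14_memLp cw') (kd14_memLp hp.cont)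
    have i3 := kd14_ii hL.le (f := fun x => η t x * w t x) (kd14_memLp (cη'.mul cw'))
      (kd14_memLp hp.cont)
    have i4 := kd14_ii hL.le (kd14_memLp cw1) (kd14_memLp cp)
    have i5 := kd14_ii hL.le (f := fun x => η1 t x * w t x + η t x * w1 t x)
      (kd14_memLp ((cη1.mul cw').add (cη'.mul cw1))) (kd14_memLp cp)
    simp only [add_mul] at i3 i5 e2 ⊢
    rw [intervalIntegral.integral_add i1 (i2.add i3), intervalIntegral.integral_add i2 i3,
      intervalIntegral.integral_sub (i1.sub i4) i5, intervalIntegral.integral_sub i1 i4, e1, e2]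
    ring
  · intro p p1 hp t ht
    have h1 := kd14_half hL hT hm (u := w) (z := η) (z1 := η1) (z2 := η2)
      (G := fun s x => η s x + w s x ^ 2 / 2) (c := m + m * m) cw bw h.h2η
      (fun t ht => (sη t ht).i2) wη2 (fun t ht => (cη t ht).add (((cw t ht).pow 2).div_const 2))
      (fun t ht x hx => by
        refine (abs_add_le _ _).trans (add_le_add (bη t ht x hx) ?_)
        have h3 : |w t x| * |w t x| ≤ m * m :=
          mul_le_mul (bw t ht x hx) (bw t ht x hx) (abs_nonneg _) hm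
        rw [abs_of_nonneg (by positivity), ← sq_abs]
        nlinarith [mul_nonneg (abs_nonneg (w t x)) (abs_nonneg (w t x))])
      (fun f hf => by
        refine ((wη f hf).add ((kd14_prod hL hm cw cw bw bw pw pw hf).const_smul
          (1 / 2 : ℝ))).congr fun t ht => ?_
        show (∫ x in (0 : ℝ)..L, (η t x + w t x ^ 2 / 2) * f x)
          = (∫ x in (0 : ℝ)..L, η t x * f x)
            + (1 / 2 : ℝ) * ∫ x in (0 : ℝ)..L, w t x * w t x * f x
        rw [← intervalIntegral.integral_const_mul,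
          ← intervalIntegral.integral_add (kd14_ii hL.le (kd14_memLp (cη t ht)) hf)
          ((kd14_ii hL.le (f := fun x => w t x * w t x)
            (kd14_memLp ((cw t ht).mul (cw t ht))) hf).const_mul _)]
        refine intervalIntegral.integral_congr fun x _ => ?_
        show (η t x + w t x ^ 2 / 2) * f x = η t x * f x + 1 / 2 * (w t x * w t x * f x)
        ring)
      h.eqw hp t ht
    refine h1.congr_deriv ?_
    have e1 := kd14_by1 hL (h.h2η t ht) hp
    have e2 := kd14_by2 hL (h.h2w t ht) (h.h2w t ht) hp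
    have cη' := cη t ht
    have cw' := cw t ht
    have cη1 := (h.h2η t ht).c1 hL.le
    have cw1 := (h.h2w t ht).c1 hL.le
    have cp : ContinuousOn p (Icc 0 L) := fun x hx => (hp.deriv x hx).continuousWithinAt
    have i1 := kd14_ii hL.le (h.h2η t ht).memLp (kd14_memLp hp.cont)
    have i2 := kd14_ii hL.le (kd14_memLp cη') (kd14_memLp hp.cont)
    have i3 := kd14_ii hL.le (f := fun x => w t x * w t x) (kd14_memLp (cw'.mul cw'))
      (kd14_memLp hp.cont)
    have i4 := kd14_ii hL.le (kd14_memLp cη1) (kd14_memLp cp)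
    have i5 := kd14_ii hL.le (f := fun x => w t x * w1 t x)
      (kd14_memLp (cw'.mul cw1)) (kd14_memLp cp)
    have e3 : (∫ x in (0 : ℝ)..L, (w1 t x * w t x + w t x * w1 t x) * p x)
        = 2 * ∫ x in (0 : ℝ)..L, w t x * w1 t x * p x := by
      rw [← intervalIntegral.integral_const_mul]
      refine intervalIntegral.integral_congr fun x _ => ?_
      show (w1 t x * w t x + w t x * w1 t x) * p x = 2 * (w t x * w1 t x * p x)
      ring
    have e4 : (∫ x in (0 : ℝ)..L, (η2 t x + (η t x + w t x ^ 2 / 2)) * p1 x)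
        = (∫ x in (0 : ℝ)..L, η2 t x * p1 x) + (∫ x in (0 : ℝ)..L, η t x * p1 x)
          + (1 / 2) * ∫ x in (0 : ℝ)..L, w t x * w t x * p1 x := by
      rw [← intervalIntegral.integral_const_mul, ← intervalIntegral.integral_add i1 i2,
        ← intervalIntegral.integral_add (i1.add i2) (i3.const_mul _)]
      refine intervalIntegral.integral_congr fun x _ => ?_
      show (η2 t x + (η t x + w t x ^ 2 / 2)) * p1 x
        = η2 t x * p1 x + η t x * p1 x + 1 / 2 * (w t x * w t x * p1 x)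
      ring
    rw [e4, e1, e2, e3, intervalIntegral.integral_sub (i1.sub i4) i5,
      intervalIntegral.integral_sub i1 i4]
    ring

end Pool.Agent.KD
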