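import Pool.Agent.KD.Pair
import Pool.Agent.KD.State

set_option linter.style.longLine false

/-! Bounds of the terms of the identity (project KD, MP_11a591_an). -/

open MeasureTheory Set Complex

namespace Pool.Agent.KD


/-- bound of an integral on `[0,L]` by a constant bound of the integrand -/
private lemma kd8_const {L B : ℝ} (hL : 0 ≤ L) {F : ℝ → ℂ}
    (h : ∀ x ∈ Icc (0 : ℝ) L, ‖F x‖ ≤ B) : ‖∫ x in (0 : ℝ)..L, F x‖ ≤ B * L := by
  have := intervalIntegral.norm_integral_le_of_norm_le_const (a := 0) (b := L) (f := F) (C := B)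
    (fun x hx => h x (by rw [uIoc_of_le hL] at hx; exact ⟨hx.1.le, hx.2⟩))
  rwa [sub_zero, abs_of_nonneg hL] at this

private lemma kd8_cont {f : ℤ → ℝ → ℝ} (h : ∀ (j : ℤ) (x : ℝ), HasDerivAt (f j) (f (j + 1) x) x)
    (j : ℤ) : Continuous (f j) := continuous_iff_continuousAt.2 fun x => (h j x).continuousAt

private lemma kd8_contC {f : ℤ → ℝ → ℝ} (h : ∀ (j : ℤ) (x : ℝ), HasDerivAt (f j) (f (j + 1) x) x)
    (j : ℤ) : Continuous fun x => (f j x : ℂ) := continuous_ofReal.comp (kd8_cont h j)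

private lemma kd8_contV {L m N : ℝ} {V : ℕ → ℝ → ℝ} (hV : IsV L m N V) (j : ℕ) :
    Continuous (V j) := continuous_iff_continuousAt.2 fun x => (hV.d j x).continuousAt

private lemma kd8_contH {L k h : ℝ} {V : ℕ → ℝ → ℝ} {H : ℕ → ℝ → ℂ} (hH : IsWKB L k h V H)
    {j : ℕ} (hj : j ≤ 4) : Continuous (H j) := by
  rcases Nat.lt_or_ge j 4 with h1 | h1
  · exact continuous_iff_continuousAt.2 fun x => (hH.d j (by omega) x).continuousAt
  · obtain rfl : j = 4 := le_antisymm hj h1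
    exact hH.c4

private lemma kd8_h0 {L k h : ℝ} (hL : 0 ≤ L) {V : ℕ → ℝ → ℝ} {H : ℕ → ℝ → ℂ}
    (hH : IsWKB L k h V H) : 0 ≤ h :=
  (norm_nonneg _).trans (hH.bj 1 le_rfl (by norm_num) 0 ⟨le_rfl, hL⟩)

/-- `K₀` is bounded. -/
theorem err0 (L : ℝ) (hL : 0 < L) : ∃ C : ℝ, 0 < C ∧ ∀ (k ρ m N h : ℝ) (a b : ℤ → ℝ → ℝ)
    (V : ℕ → ℝ → ℝ) (H : ℕ → ℝ → ℂ), 1 ≤ m → IsMode L k ρ a b →
    IsV L m N V → IsWKB L k h V H →
    ‖(1 / 2 : ℂ) * (∫ x in (0 : ℝ)..L, (V 0 x : ℂ) ^ 2 * (I * (b 1 x * H 0 x + b 0 x * H 1 x)))‖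
      ≤ C * m ^ 2 := by
  refine ⟨100 * L, by positivity, ?_⟩
  intro k ρ m N h a b V H hm hM hV hH
  have dV : ∀ (j : ℕ) (x : ℝ), HasDerivAt (fun y => (V j y : ℂ)) (V (j + 1) x : ℂ) x :=
    fun j x => (hV.d j x).ofReal_comp
  have db : ∀ (j : ℤ) (x : ℝ), HasDerivAt (fun y => (b j y : ℂ)) (b (j + 1) x : ℂ) x :=
    fun j x => (hM.db j x).ofReal_comp
  have cV : ∀ j, Continuous fun y => (V j y : ℂ) := fun j =>
    continuous_ofReal.comp (kd8_contV hV j)
  have h1 : (∫ x in (0 : ℝ)..L, (V 0 x : ℂ) ^ 2 * (I * (b 1 x * H 0 x + b 0 x * H 1 x)))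
      = - ∫ x in (0 : ℝ)..L, (2 * (V 0 x : ℂ) * V 1 x) * (I * (b 0 x * H 0 x)) := by
    have h2 := intervalIntegral.integral_mul_deriv_eq_deriv_mul (a := 0) (b := L)
      (u := fun x => (V 0 x : ℂ) ^ 2) (v := fun x => I * (b 0 x * H 0 x))
      (u' := fun x => 2 * (V 0 x : ℂ) * V 1 x)
      (v' := fun x => I * (b 1 x * H 0 x + b 0 x * H 1 x))
      (fun x _ => by
        have := (dV 0 x).fun_pow 2
        simpa using this)
      (fun x _ => by
        have := ((db 0 x).fun_mul (hH.d 0 (by norm_num) x)).const_mul I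
        simpa using this)
      (((continuous_const.mul (cV 0)).mul (cV 1)).intervalIntegrable _ _)
      ((continuous_const.mul (((kd8_contC hM.db 1).mul (kd8_contH hH (by norm_num))).add
        ((kd8_contC hM.db 0).mul (kd8_contH hH (by norm_num))))).intervalIntegrable _ _)
    rw [h2]
    simp [hV.V0, hV.VL]
  rw [h1, mul_neg, norm_neg, norm_mul]
  have h3 := kd8_const (L := L) (B := 2 * m ^ 2 * 100) hL.le
    (F := fun x => (2 * (V 0 x : ℂ) * V 1 x) * (I * (b 0 x * H 0 x))) (by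
    intro x hx
    have e0 := hV.bV 0 (by norm_num) x hx
    have e1 := hV.bV 1 (by norm_num) x hx
    have e2 := hM.bdb 0 (by norm_num) (by norm_num) x hx
    have e3 := hH.b0 x
    rw [zpow_zero, mul_one] at e2
    rw [norm_mul, norm_mul, norm_mul, norm_mul, norm_mul, norm_I, one_mul]
    simp only [norm_real, Real.norm_eq_abs]
    have e4 : ‖(2 : ℂ)‖ = 2 := by simp
    rw [e4]
    have e5 : |V 0 x| * |V 1 x| ≤ m * m := mul_le_mul e0 e1 (abs_nonneg _) (by linarith)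
    have e6 : |b 0 x| * ‖H 0 x‖ ≤ 100 * 1 := mul_le_mul e2 e3 (norm_nonneg _) (by norm_num)
    have e7 : (|V 0 x| * |V 1 x|) * (|b 0 x| * ‖H 0 x‖) ≤ (m * m) * (100 * 1) :=
      mul_le_mul e5 e6 (by positivity) (by positivity)
    nlinarith [e7])
  have e8 : ‖(1 / 2 : ℂ)‖ = 1 / 2 := by simp
  rw [e8]
  linarith

/-- `∫ x² e^{-kx/2} ≤ 16/k³` -/
private lemma kd8_exp {L k : ℝ} (hL : 0 ≤ L) (hk : 0 < k) :
    (∫ x in (0 : ℝ)..L, x ^ 2 * Real.exp (-(k * x / 2))) ≤ 16 / k ^ 3 := by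
  have hd : ∀ x ∈ uIcc (0 : ℝ) L, HasDerivAt
      (fun x => -(2 * x ^ 2 / k + 8 * x / k ^ 2 + 16 / k ^ 3) * Real.exp (-(k * x / 2)))
      (x ^ 2 * Real.exp (-(k * x / 2))) x := by
    intro x _
    have e1 : HasDerivAt (fun x : ℝ => -(k * x / 2)) (-(k / 2)) x := by
      have := (((hasDerivAt_id x).const_mul k).div_const 2).fun_neg
      simpa using this
    have e2 := e1.exp
    have e3 : HasDerivAt (fun x : ℝ => -(2 * x ^ 2 / k + 8 * x / k ^ 2 + 16 / k ^ 3))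
        (-(4 * x / k + 8 / k ^ 2)) x := by
      have f1 : HasDerivAt (fun x : ℝ => 2 * x ^ 2 / k) (4 * x / k) x := by
        have := (((hasDerivAt_id' x).fun_pow 2).const_mul 2).div_const k
        have e : (2 : ℝ) * (((2 : ℕ) : ℝ) * x ^ (2 - 1) * 1) / k = 4 * x / k := by
          norm_num
          ring
        rwa [e] at this
      have f2 : HasDerivAt (fun x : ℝ => 8 * x / k ^ 2) (8 / k ^ 2) x := by
        have := ((hasDerivAt_id' x).const_mul 8).div_const (k ^ 2)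
        rwa [mul_one] at this
      exact ((f1.fun_add f2).add_const _).fun_neg
    have e4 := e3.fun_mul e2
    have e5 : -(4 * x / k + 8 / k ^ 2) * Real.exp (-(k * x / 2))
        + -(2 * x ^ 2 / k + 8 * x / k ^ 2 + 16 / k ^ 3) * (Real.exp (-(k * x / 2)) * -(k / 2))
        = x ^ 2 * Real.exp (-(k * x / 2)) := by
      field_simp
      ring
    rwa [e5] at e4
  have hc : Continuous fun x : ℝ => x ^ 2 * Real.exp (-(k * x / 2)) := by fun_prop
  rw [intervalIntegral.integral_eq_sub_of_hasDerivAt hd (hc.intervalIntegrable _ _)]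
  have h1 : 0 ≤ (2 * L ^ 2 / k + 8 * L / k ^ 2 + 16 / k ^ 3) * Real.exp (-(k * L / 2)) := by
    positivity
  have h2 : (-(2 * (0 : ℝ) ^ 2 / k + 8 * 0 / k ^ 2 + 16 / k ^ 3) * Real.exp (-(k * 0 / 2)))
      = -(16 / k ^ 3) := by simp
  rw [h2]
  linarith

theorem err1 (L : ℝ) (hL : 0 < L) : ∃ C : ℝ, 0 < C ∧ ∀ (k ρ m N h : ℝ) (a b : ℤ → ℝ → ℝ)
    (V : ℕ → ℝ → ℝ) (H : ℕ → ℝ → ℂ) (η η1 η2 w w1 w2 : ℝ → ℝ), 1 ≤ m → IsMode L k ρ a b →
    IsV L m N V → IsWKB L k h V H → IsSt L m η η1 η2 → IsSt L m w w1 w2 →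
    ‖∫ x in (0 : ℝ)..L, (V 0 x : ℂ) * H 0 x * ((I / k) * w x * (a 2 x + k * b 1 x)
          - (1 / k) * η x * (b 2 x - k * a 1 x))‖ ≤ C * m ^ 2 / k ^ 2 := by
  refine ⟨6400, by norm_num, ?_⟩
  intro k ρ m N h a b V H η η1 η2 w w1 w2 hm hM hV hH sη sw
  have hk : 0 < k := by linarith [hM.hk]
  have hk3 : 0 < k ^ 3 := by positivity
  let G : ℝ → ℝ := fun x => 200 * k * m ^ 2 * (x ^ 2 * Real.exp (-(k * x / 2))
    + (L - x) ^ 2 * Real.exp (-(k * (L - x) / 2)))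
  have cG : Continuous G := by fun_prop
  have h1 : ‖∫ x in (0 : ℝ)..L, (V 0 x : ℂ) * H 0 x * ((I / k) * w x * (a 2 x + k * b 1 x)
          - (1 / k) * η x * (b 2 x - k * a 1 x))‖ ≤ ∫ x in (0 : ℝ)..L, G x := by
    refine intervalIntegral.norm_integral_le_of_norm_le hL.le ?_ (cG.intervalIntegrable _ _)
    filter_upwards with x hx0
    have hx : x ∈ Icc (0 : ℝ) L := ⟨hx0.1.le, hx0.2⟩
    have ex : 0 ≤ x := hx.1
    have ey : 0 ≤ L - x := by linarith [hx.2]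
    have v1 := hV.bx x hx
    have v2 := hV.bxL x hx
    set E1 := Real.exp (-(k * x / 2))
    set E2 := Real.exp (-(k * (L - x) / 2))
    have hE1 : 0 < E1 := Real.exp_pos _
    have hE2 : 0 < E2 := Real.exp_pos _
    have key : ∀ f : ℝ, |f| ≤ m * x → |f| ≤ m * (L - x) → ∀ r : ℝ,
        |r| ≤ 100 * k ^ 2 * (E1 + E2) →
        |V 0 x| * (1 / k * |f| * |r|) ≤ 100 * k * m ^ 2 * (x ^ 2 * E1 + (L - x) ^ 2 * E2) := by
      intro f f1 f2 r hr
      have g1 : |V 0 x| * |f| ≤ m ^ 2 * x ^ 2 := by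
        calc |V 0 x| * |f| ≤ (m * x) * (m * x) := mul_le_mul v1 f1 (abs_nonneg _) (by positivity)
          _ = _ := by ring
      have g2 : |V 0 x| * |f| ≤ m ^ 2 * (L - x) ^ 2 := by
        calc |V 0 x| * |f| ≤ (m * (L - x)) * (m * (L - x)) :=
              mul_le_mul v2 f2 (abs_nonneg _) (by positivity)
          _ = _ := by ring
      have g0 : 0 ≤ |V 0 x| * |f| := by positivity
      have g3 : |V 0 x| * |f| * (E1 + E2) ≤ m ^ 2 * (x ^ 2 * E1 + (L - x) ^ 2 * E2) := by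
        have := mul_le_mul_of_nonneg_right g1 hE1.le
        have := mul_le_mul_of_nonneg_right g2 hE2.le
        nlinarith
      calc |V 0 x| * (1 / k * |f| * |r|) = (1 / k) * ((|V 0 x| * |f|) * |r|) := by ring
        _ ≤ (1 / k) * ((|V 0 x| * |f|) * (100 * k ^ 2 * (E1 + E2))) := by gcongr
        _ = 100 * k * ((|V 0 x| * |f|) * (E1 + E2)) := by field_simp
        _ ≤ 100 * k * (m ^ 2 * (x ^ 2 * E1 + (L - x) ^ 2 * E2)) := by gcongr
        _ = _ := by ring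
    have k1 := key (w x) (sw.bx x hx) (sw.bxL x hx) _ (hM.la x hx)
    have k2 := key (η x) (sη.bx x hx) (sη.bxL x hx) _ (hM.lb x hx)
    have n1 : ‖(I / k) * w x * (a 2 x + k * b 1 x : ℂ)‖ = 1 / k * |w x| * |a 2 x + k * b 1 x| := by
      rw [norm_mul, norm_mul, norm_div, norm_I, norm_real, norm_real, Real.norm_eq_abs,
        Real.norm_eq_abs, abs_of_pos hk]
      congr 1
      rw [← Real.norm_eq_abs, ← norm_real]
      push_cast
      rfl
    have n2 : ‖(1 / k) * η x * (b 2 x - k * a 1 x : ℂ)‖ = 1 / k * |η x| * |b 2 x - k * a 1 x| := by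
      rw [norm_mul, norm_mul, norm_div, norm_one, norm_real, norm_real, Real.norm_eq_abs,
        Real.norm_eq_abs, abs_of_pos hk]
      congr 1
      rw [← Real.norm_eq_abs, ← norm_real]
      push_cast
      rfl
    have n3 := norm_sub_le ((I / k) * w x * (a 2 x + k * b 1 x : ℂ))
      ((1 / k) * η x * (b 2 x - k * a 1 x : ℂ))
    rw [n1, n2] at n3
    rw [norm_mul, norm_mul, norm_real, Real.norm_eq_abs]
    have hH0 := hH.b0 x
    calc |V 0 x| * ‖H 0 x‖ * _ ≤ |V 0 x| * 1 * (1 / k * |w x| * |a 2 x + k * b 1 x|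
          + 1 / k * |η x| * |b 2 x - k * a 1 x|) := by gcongr
      _ = |V 0 x| * (1 / k * |w x| * |a 2 x + k * b 1 x|)
          + |V 0 x| * (1 / k * |η x| * |b 2 x - k * a 1 x|) := by ring
      _ ≤ _ := by
        simp only [G]
        linarith
  have h2 : (∫ x in (0 : ℝ)..L, G x) ≤ 200 * k * m ^ 2 * (16 / k ^ 3 + 16 / k ^ 3) := by
    simp only [G]
    rw [intervalIntegral.integral_const_mul, intervalIntegral.integral_add]
    · have e1 := kd8_exp hL.le hk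
      have e2 : (∫ x in (0 : ℝ)..L, (L - x) ^ 2 * Real.exp (-(k * (L - x) / 2)))
          = ∫ x in (0 : ℝ)..L, x ^ 2 * Real.exp (-(k * x / 2)) := by
        have := intervalIntegral.integral_comp_sub_left (a := 0) (b := L)
          (fun x : ℝ => x ^ 2 * Real.exp (-(k * x / 2))) L
        rw [sub_self, sub_zero] at this
        exact this
      rw [e2]
      gcongr
    · exact Continuous.intervalIntegrable (by fun_prop) _ _
    · exact Continuous.intervalIntegrable (by fun_prop) _ _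
  refine h1.trans (h2.trans (le_of_eq ?_))
  field_simp
  ring

private lemma kd8_pairs {L k m N h : ℝ} (hL : 0 < L) (hm : 1 ≤ m)
    {V : ℕ → ℝ → ℝ} {H : ℕ → ℝ → ℂ} (hk : 2 ≤ k) (hV : IsV L m N V) (hH : IsWKB L k h V H)
    {f f1 f2 : ℝ → ℝ} (sf : IsSt L m f f1 f2) {p q : ℤ → ℝ → ℝ}
    (dp : ∀ (j : ℤ) (x : ℝ), HasDerivAt (p j) (p (j + 1) x) x)
    (dq : ∀ (j : ℤ) (x : ℝ), HasDerivAt (q j) (q (j + 1) x) x)
    (bp : ∀ x ∈ Icc (0 : ℝ) L, |p (-1) x| ≤ 100 * k ^ (-1 : ℤ))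
    (bq : ∀ x ∈ Icc (0 : ℝ) L, |q (-1) x| ≤ 100 * k ^ (-1 : ℤ)) (c : ℂ) (hc : ‖c‖ ≤ 1)
    (c' : ℂ) (hc' : ‖c'‖ ≤ 1) :
    ‖∫ x in (0 : ℝ)..L, (f x : ℂ) * (c * (3 * H 2 x * p 1 x + (H 1 x + H 3 x) * p 0 x)
        + c' * (V 0 x * H 1 x * q 0 x))‖ ≤ 100 * (9 + 17 * L) * (m ^ 2 * h / k) := by
  have hh := kd8_h0 hL.le hH
  have cf : ContinuousOn (fun x => (f x : ℂ)) (Icc 0 L) :=
    continuous_ofReal.comp_continuousOn (sf.h2.c0 hL.le)
  have cp := kd8_contC dp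
  have cq := kd8_contC dq
  have cV : Continuous fun y => (V 0 y : ℂ) := continuous_ofReal.comp (kd8_contV hV 0)
  have c1 := kd8_contH hH (j := 1) (by norm_num)
  have c2 := kd8_contH hH (j := 2) (by norm_num)
  have c3 := kd8_contH hH (j := 3) (by norm_num)
  have c4 := kd8_contH hH (j := 4) (by norm_num)
  have ii : ∀ g : ℝ → ℂ, Continuous g → IntervalIntegrable (fun x => (f x : ℂ) * g x) volume 0 L :=
    fun g hg => ContinuousOn.intervalIntegrable (by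
      rw [uIcc_of_le hL.le]
      exact cf.mul hg.continuousOn)
  have ek : k ^ (-1 : ℤ) = 1 / k := by rw [zpow_neg_one, one_div]
  -- first
  have t1 := pair2 (m := m) (h := 3 * h) (U := 100 * k ^ (-1 : ℤ)) hL sf
    (H := fun x => 3 * H 2 x) (H1 := fun x => 3 * H 3 x) (H2 := fun x => 3 * H 4 x)
    (fun x => (hH.d 2 (by norm_num) x).const_mul 3) (fun x => (hH.d 3 (by norm_num) x).const_mul 3)
    (continuous_const.mul c4)
    (fun x hx => by
      rw [norm_mul]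
      have := hH.bj 2 (by norm_num) (by norm_num) x hx
      simpa using this)
    (fun x hx => by
      rw [norm_mul]
      have := hH.bj 3 (by norm_num) (by norm_num) x hx
      simpa using this)
    (fun x hx => by
      rw [norm_mul]
      have := hH.bj 4 (by norm_num) (by norm_num) x hx
      simpa using this)
    (u := p 1) (v := p 0) (z := p (-1)) (dp (-1)) (dp 0) (kd8_cont dp 1) bp
  -- second
  have t2 := pair1 (m := m) (h := 2 * h) (U := 100 * k ^ (-1 : ℤ)) hL sf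
    (H := fun x => H 1 x + H 3 x) (H1 := fun x => H 2 x + H 4 x)
    (fun x => (hH.d 1 (by norm_num) x).fun_add (hH.d 3 (by norm_num) x))
    (c2.add c4)
    (fun x hx => by
      have e1 := hH.bj 1 (by norm_num) (by norm_num) x hx
      have e3 := hH.bj 3 (by norm_num) (by norm_num) x hx
      exact (norm_add_le _ _).trans (by linarith))
    (fun x hx => by
      have e1 := hH.bj 2 (by norm_num) (by norm_num) x hx
      have e3 := hH.bj 4 (by norm_num) (by norm_num) x hx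
      exact (norm_add_le _ _).trans (by linarith))
    (u := p 0) (v := p (-1)) (dp (-1)) (kd8_cont dp 0) bp
  -- third
  have t3 := pair1 (m := m) (h := 2 * m * h) (U := 100 * k ^ (-1 : ℤ)) hL sf
    (H := fun x => (V 0 x : ℂ) * H 1 x) (H1 := fun x => (V 1 x : ℂ) * H 1 x + V 0 x * H 2 x)
    (fun x => ((hV.d 0 x).ofReal_comp).fun_mul (hH.d 1 (by norm_num) x))
    (((continuous_ofReal.comp (kd8_contV hV 1)).mul c1).add (cV.mul c2))
    (fun x hx => by
      have e1 := hH.bj 1 (by norm_num) (by norm_num) x hx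
      have e3 := hV.bV 0 (by norm_num) x hx
      rw [norm_mul, norm_real, Real.norm_eq_abs]
      have := mul_le_mul e3 e1 (norm_nonneg _) (by linarith)
      nlinarith [mul_nonneg (by linarith : (0 : ℝ) ≤ m) hh])
    (fun x hx => by
      have e1 := hH.bj 1 (by norm_num) (by norm_num) x hx
      have e2 := hH.bj 2 (by norm_num) (by norm_num) x hx
      have e3 := hV.bV 0 (by norm_num) x hx
      have e4 := hV.bV 1 (by norm_num) x hx
      refine (norm_add_le _ _).trans ?_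
      rw [norm_mul, norm_real, Real.norm_eq_abs, norm_mul, norm_real, Real.norm_eq_abs]
      have := mul_le_mul e3 e2 (norm_nonneg _) (by linarith)
      have := mul_le_mul e4 e1 (norm_nonneg _) (by linarith)
      linarith)
    (u := q 0) (v := q (-1)) (dq (-1)) (kd8_cont dq 0) bq
  have e0 : (∫ x in (0 : ℝ)..L, (f x : ℂ) * (c * (3 * H 2 x * p 1 x + (H 1 x + H 3 x) * p 0 x)
        + c' * (V 0 x * H 1 x * q 0 x)))
      = c * (∫ x in (0 : ℝ)..L, (f x : ℂ) * (3 * H 2 x) * p 1 x)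
        + c * (∫ x in (0 : ℝ)..L, (f x : ℂ) * (H 1 x + H 3 x) * p 0 x)
        + c' * (∫ x in (0 : ℝ)..L, (f x : ℂ) * (V 0 x * H 1 x) * q 0 x) := by
    rw [← intervalIntegral.integral_const_mul, ← intervalIntegral.integral_const_mul,
      ← intervalIntegral.integral_const_mul, ← intervalIntegral.integral_add,
      ← intervalIntegral.integral_add]
    · congr 1
      funext x
      ring
    · have := ii (fun x => c * ((3 * H 2 x) * p 1 x) + c * ((H 1 x + H 3 x) * p 0 x))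
        ((continuous_const.mul ((continuous_const.mul c2).mul (cp 1))).add
          (continuous_const.mul ((c1.add c3).mul (cp 0))))
      convert this using 1
      funext x
      ring
    · have := ii (fun x => c' * ((V 0 x * H 1 x) * q 0 x))
        (continuous_const.mul ((cV.mul c1).mul (cq 0)))
      convert this using 1
      funext x
      ring
    · have := ii (fun x => c * ((3 * H 2 x) * p 1 x))
        (continuous_const.mul ((continuous_const.mul c2).mul (cp 1)))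
      convert this using 1
      funext x
      ring
    · have := ii (fun x => c * ((H 1 x + H 3 x) * p 0 x))
        (continuous_const.mul ((c1.add c3).mul (cp 0)))
      convert this using 1
      funext x
      ring
  rw [e0]
  refine (norm_add₃_le).trans ?_
  rw [norm_mul, norm_mul, norm_mul]
  have s1 := mul_le_mul hc t1 (norm_nonneg _) zero_le_one
  have s2 := mul_le_mul hc t2 (norm_nonneg _) zero_le_one
  have s3 := mul_le_mul hc' t3 (norm_nonneg _) zero_le_one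
  rw [ek] at s1 s2 s3
  have hk0 : 0 < k := by linarith
  have hk1 : (0 : ℝ) ≤ 1 / k := by positivity
  have hmm : m ≤ m ^ 2 := by nlinarith
  have r0 : m * h * (1 / k) ≤ m ^ 2 * h / k := by
    rw [mul_one_div]
    gcongr
  have r1 : m * (m * h) * (1 / k) = m ^ 2 * h / k := by
    rw [mul_one_div]
    ring
  calc _ ≤ 1 * ((3 + 3 * L) * m * (3 * h) * (100 * (1 / k)))
        + 1 * (2 * L * m * (2 * h) * (100 * (1 / k)))
        + 1 * (2 * L * m * (2 * m * h) * (100 * (1 / k))) := add_le_add (add_le_add s1 s2) s3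
    _ = 100 * (9 + 13 * L) * (m * h * (1 / k)) + 100 * (4 * L) * (m * (m * h) * (1 / k)) := by ring
    _ ≤ 100 * (9 + 13 * L) * (m ^ 2 * h / k) + 100 * (4 * L) * (m ^ 2 * h / k) := by
        rw [r1]
        gcongr
    _ = _ := by ring

theorem err2 (L : ℝ) (hL : 0 < L) : ∃ C : ℝ, 0 < C ∧ ∀ (k ρ m N h : ℝ) (a b : ℤ → ℝ → ℝ)
    (V : ℕ → ℝ → ℝ) (H : ℕ → ℝ → ℂ) (η η1 η2 w w1 w2 : ℝ → ℝ), 1 ≤ m → IsMode L k ρ a b →
    IsV L m N V → IsWKB L k h V H → IsSt L m η η1 η2 → IsSt L m w w1 w2 →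
    ‖(∫ x in (0 : ℝ)..L, (w x : ℂ) * (3 * H 2 x * a 1 x + (H 1 x + H 3 x) * a 0 x
          + I * V 0 x * H 1 x * b 0 x))
      + (∫ x in (0 : ℝ)..L, (η x : ℂ) * (3 * I * H 2 x * b 1 x + I * (H 1 x + H 3 x) * b 0 x
          + V 0 x * H 1 x * a 0 x))‖ ≤ C * m ^ 2 * h / k := by
  refine ⟨2 * (100 * (9 + 17 * L)), by positivity, ?_⟩
  intro k ρ m N h a b V H η η1 η2 w w1 w2 hm hM hV hH sη sw
  have t1 := kd8_pairs hL hm hM.hk hV hH sw hM.da hM.db (hM.bda (-1) (by norm_num) (by norm_num))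
    (hM.bdb (-1) (by norm_num) (by norm_num)) 1 (by simp) I (by simp)
  have t2 := kd8_pairs hL hm hM.hk hV hH sη hM.db hM.da (hM.bdb (-1) (by norm_num) (by norm_num))
    (hM.bda (-1) (by norm_num) (by norm_num)) I (by simp) 1 (by simp)
  have e1 : (∫ x in (0 : ℝ)..L, (w x : ℂ) * (3 * H 2 x * a 1 x + (H 1 x + H 3 x) * a 0 x
          + I * V 0 x * H 1 x * b 0 x)) = ∫ x in (0 : ℝ)..L, (w x : ℂ) *
      (1 * (3 * H 2 x * a 1 x + (H 1 x + H 3 x) * a 0 x) + I * (V 0 x * H 1 x * b 0 x)) := by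
    congr 1
    funext x
    ring
  have e2 : (∫ x in (0 : ℝ)..L, (η x : ℂ) * (3 * I * H 2 x * b 1 x + I * (H 1 x + H 3 x) * b 0 x
          + V 0 x * H 1 x * a 0 x)) = ∫ x in (0 : ℝ)..L, (η x : ℂ) *
      (I * (3 * H 2 x * b 1 x + (H 1 x + H 3 x) * b 0 x) + 1 * (V 0 x * H 1 x * a 0 x)) := by
    congr 1
    funext x
    ring
  rw [e1, e2]
  refine (norm_add_le _ _).trans ((add_le_add t1 t2).trans (le_of_eq ?_))
  ring

/-- the `k`-th feedback term against `A` -/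
theorem err6 (L : ℝ) (hL : 0 < L) : ∃ C : ℝ, 0 < C ∧ ∀ (k ρ m N h : ℝ) (a b : ℤ → ℝ → ℝ)
    (V : ℕ → ℝ → ℝ) (H : ℕ → ℝ → ℂ) (η η1 η2 w w1 w2 : ℝ → ℝ), 1 ≤ m → IsMode L k ρ a b →
    IsV L m N V → IsWKB L k h V H → IsSt L m η η1 η2 → IsSt L m w w1 w2 →
    ‖(H 0 L * (∫ x in (0 : ℝ)..L, η x * a 0 x : ℝ) + I * (∫ x in (0 : ℝ)..L, w x * b 0 x : ℝ))
      - ∫ x in (0 : ℝ)..L, ((η x : ℂ) * a 0 x + I * (w x * b 0 x)) * H 0 x‖
      ≤ C * m * h / k ^ 2 := by
  refine ⟨2 * ((3 + 3 * L) * ((1 + L) * 100)), by positivity, ?_⟩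
  intro k ρ m N h a b V H η η1 η2 w w1 w2 hm hM hV hH sη sw
  have hh := kd8_h0 hL.le hH
  have c0 := kd8_contH hH (j := 0) (by norm_num)
  have c2 := kd8_contH hH (j := 2) (by norm_num)
  -- the increments of `H 0`
  have inc : ∀ x ∈ Icc (0 : ℝ) L, ∀ y ∈ Icc (0 : ℝ) L, ‖H 0 y - H 0 x‖ ≤ (1 + L) * h := by
    intro x hx y hy
    have := (convex_Icc (0 : ℝ) L).norm_image_sub_le_of_norm_hasDerivWithin_le (f := H 0)
      (f' := H 1) (C := h) (fun z _ => (hH.d 0 (by norm_num) z).hasDerivWithinAt)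
      (fun z hz => hH.bj 1 le_rfl (by norm_num) z hz) hx hy
    refine this.trans ?_
    have h1 : ‖y - x‖ ≤ L := by
      rw [Real.norm_eq_abs, abs_le]
      constructor <;> linarith [hx.1, hx.2, hy.1, hy.2]
    nlinarith
  have hb1 : ∀ x ∈ Icc (0 : ℝ) L, ‖-H 1 x‖ ≤ (1 + L) * h := fun x hx => by
    rw [norm_neg]
    have := hH.bj 1 le_rfl (by norm_num) x hx
    nlinarith
  have hb2 : ∀ x ∈ Icc (0 : ℝ) L, ‖-H 2 x‖ ≤ (1 + L) * h := fun x hx => by
    rw [norm_neg]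
    have := hH.bj 2 (by norm_num) (by norm_num) x hx
    nlinarith
  have t1 := pair2 (m := m) (h := (1 + L) * h) (U := 100 * k ^ (-2 : ℤ)) hL sη
    (H := fun x => H 0 L - H 0 x) (H1 := fun x => -H 1 x) (H2 := fun x => -H 2 x)
    (fun x => (hH.d 0 (by norm_num) x).const_sub _) (fun x => (hH.d 1 (by norm_num) x).fun_neg)
    c2.neg (fun x hx => inc x hx L ⟨hL.le, le_rfl⟩) hb1 hb2
    (u := a 0) (v := a (-1)) (z := a (-2)) (hM.da (-2)) (hM.da (-1)) (kd8_cont hM.da 0)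
    (hM.bda (-2) (by norm_num) (by norm_num))
  have t2 := pair2 (m := m) (h := (1 + L) * h) (U := 100 * k ^ (-2 : ℤ)) hL sw
    (H := fun x => H 0 0 - H 0 x) (H1 := fun x => -H 1 x) (H2 := fun x => -H 2 x)
    (fun x => (hH.d 0 (by norm_num) x).const_sub _) (fun x => (hH.d 1 (by norm_num) x).fun_neg)
    c2.neg (fun x hx => inc x hx 0 ⟨le_rfl, hL.le⟩) hb1 hb2
    (u := b 0) (v := b (-1)) (z := b (-2)) (hM.db (-2)) (hM.db (-1)) (kd8_cont hM.db 0)
    (hM.bdb (-2) (by norm_num) (by norm_num))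
  have ii : ∀ f : ℝ → ℝ, ContinuousOn f (Icc 0 L) → ∀ g : ℝ → ℂ, Continuous g →
      IntervalIntegrable (fun x => (f x : ℂ) * g x) volume 0 L :=
    fun f hf g hg => ContinuousOn.intervalIntegrable (by
      rw [uIcc_of_le hL.le]
      exact (continuous_ofReal.comp_continuousOn hf).mul hg.continuousOn)
  have cη := sη.h2.c0 hL.le
  have cw := sw.h2.c0 hL.le
  have e0 : (H 0 L * (∫ x in (0 : ℝ)..L, η x * a 0 x : ℝ) + I * (∫ x in (0 : ℝ)..L, w x * b 0 x : ℝ))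
      - ∫ x in (0 : ℝ)..L, ((η x : ℂ) * a 0 x + I * (w x * b 0 x)) * H 0 x
      = (∫ x in (0 : ℝ)..L, (η x : ℂ) * (H 0 L - H 0 x) * a 0 x)
        + I * (∫ x in (0 : ℝ)..L, (w x : ℂ) * (H 0 0 - H 0 x) * b 0 x) := by
    rw [← intervalIntegral.integral_ofReal, ← intervalIntegral.integral_ofReal,
      ← intervalIntegral.integral_const_mul, ← intervalIntegral.integral_const_mul,
      ← intervalIntegral.integral_const_mul, ← intervalIntegral.integral_add,
      ← intervalIntegral.integral_sub, ← intervalIntegral.integral_add]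
    · congr 1
      funext x
      rw [hH.H00]
      push_cast
      ring
    · have := ii η cη (fun x => (H 0 L - H 0 x) * a 0 x)
        ((continuous_const.sub c0).mul (kd8_contC hM.da 0))
      convert this using 1
      funext x
      ring
    · have := ii w cw (fun x => I * ((H 0 0 - H 0 x) * b 0 x))
        (continuous_const.mul ((continuous_const.sub c0).mul (kd8_contC hM.db 0)))
      convert this using 1
      funext x
      ring
    · have h1 := ii η cη (fun x => H 0 L * a 0 x) (continuous_const.mul (kd8_contC hM.da 0))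
      have h2 := ii w cw (fun x => I * b 0 x) (continuous_const.mul (kd8_contC hM.db 0))
      convert h1.add h2 using 1
      funext x
      push_cast
      ring
    · have h1 := ii η cη (fun x => a 0 x * H 0 x) ((kd8_contC hM.da 0).mul c0)
      have h2 := ii w cw (fun x => I * b 0 x * H 0 x)
        ((continuous_const.mul (kd8_contC hM.db 0)).mul c0)
      convert h1.add h2 using 1
      funext x
      ring
    · have h1 := ii η cη (fun x => H 0 L * a 0 x) (continuous_const.mul (kd8_contC hM.da 0))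
      convert h1 using 1
      funext x
      push_cast
      ring
    · have h2 := ii w cw (fun x => I * b 0 x) (continuous_const.mul (kd8_contC hM.db 0))
      convert h2 using 1
      funext x
      push_cast
      ring
  rw [e0]
  refine (norm_add_le _ _).trans ?_
  rw [norm_mul, norm_I, one_mul]
  refine (add_le_add t1 t2).trans (le_of_eq ?_)
  have ek : k ^ (-2 : ℤ) = 1 / k ^ 2 := by
    rw [zpow_neg, one_div]
    norm_cast
  rw [ek]
  ring

private lemma kd8_cs {L A B c : ℝ} (hL : 0 ≤ L) (hA : 0 < A) (hB : 0 < B) (hc : 0 ≤ c)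
    {p q : ℝ → ℝ} (ip : IntervalIntegrable (fun x => p x ^ 2) volume 0 L)
    (iq : IntervalIntegrable (fun x => q x ^ 2) volume 0 L)
    (hp : (∫ x in (0 : ℝ)..L, p x ^ 2) ≤ A ^ 2) (hq : (∫ x in (0 : ℝ)..L, q x ^ 2) ≤ B ^ 2)
    {F : ℝ → ℂ} (hF : ∀ x ∈ Icc (0 : ℝ) L, ‖F x‖ ≤ c * (|p x| * |q x|)) :
    ‖∫ x in (0 : ℝ)..L, F x‖ ≤ c * (A * B) := by
  have h1 : ‖∫ x in (0 : ℝ)..L, F x‖
      ≤ ∫ x in (0 : ℝ)..L, (c * B / (2 * A) * p x ^ 2 + c * A / (2 * B) * q x ^ 2) := by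
    refine intervalIntegral.norm_integral_le_of_norm_le hL ?_ ((ip.const_mul _).add (iq.const_mul _))
    filter_upwards with x hx0
    refine (hF x ⟨hx0.1.le, hx0.2⟩).trans ?_
    have e : |p x| * |q x| ≤ B / (2 * A) * p x ^ 2 + A / (2 * B) * q x ^ 2 := by
      have h2 : B / (2 * A) * p x ^ 2 + A / (2 * B) * q x ^ 2 - |p x| * |q x|
          = (B * |p x| - A * |q x|) ^ 2 / (2 * A * B) := by
        rw [← sq_abs (p x), ← sq_abs (q x)]
        field_simp
        ring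
      have h3 : 0 ≤ (B * |p x| - A * |q x|) ^ 2 / (2 * A * B) := by positivity
      linarith
    calc c * (|p x| * |q x|) ≤ c * (B / (2 * A) * p x ^ 2 + A / (2 * B) * q x ^ 2) := by gcongr
      _ = _ := by ring
  refine h1.trans ?_
  rw [intervalIntegral.integral_add (ip.const_mul _) (iq.const_mul _),
    intervalIntegral.integral_const_mul, intervalIntegral.integral_const_mul]
  calc _ ≤ c * B / (2 * A) * A ^ 2 + c * A / (2 * B) * B ^ 2 := by gcongr
    _ = _ := by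
      field_simp
      ring

private lemma kd8_core {L k h P D mf mg : ℝ} (hL : 0 < L) (hD : 0 < D) (hmf : 0 < mf)
    (hmg : 0 < mg) (hh1 : h ≤ 1) {V : ℕ → ℝ → ℝ} {H : ℕ → ℝ → ℂ} (hH : IsWKB L k h V H)
    {f f1 f2 g g1 g2 : ℝ → ℝ} (sf : IsSt L mf f f1 f2) (sg : IsSt L mg g g1 g2)
    {p : ℤ → ℝ → ℝ} (dp : ∀ (j : ℤ) (x : ℝ), HasDerivAt (p j) (p (j + 1) x) x)
    (bp : ∀ x ∈ Icc (0 : ℝ) L, |p (-1) x| ≤ P)
    (hf : (∫ x in (0 : ℝ)..L, f x ^ 2) ≤ D ^ 2) (hg : (∫ x in (0 : ℝ)..L, g x ^ 2) ≤ D ^ 2) :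
    ‖∫ x in (0 : ℝ)..L, (f x : ℂ) * g x * (p 1 x * H 0 x + p 0 x * H 1 x)‖
      ≤ (3 + L) * (mf + mg) * P * D := by
  have hh := kd8_h0 hL.le hH
  have hP : 0 ≤ P := (abs_nonneg _).trans (bp 0 ⟨le_rfl, hL.le⟩)
  have cf0 := sf.h2.c0 hL.le
  have cf1 := sf.h2.c1 hL.le
  have cg0 := sg.h2.c0 hL.le
  have cg1 := sg.h2.c1 hL.le
  have cC : ∀ {u : ℝ → ℝ}, ContinuousOn u (Icc 0 L) →
      ContinuousOn (fun x => (u x : ℂ)) (Icc 0 L) := fun hu =>
    continuous_ofReal.comp_continuousOn hu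
  have cp := fun j => (kd8_contC dp j).continuousOn (s := Icc 0 L)
  have cH0 := (kd8_contH hH (j := 0) (by norm_num)).continuousOn (s := Icc 0 L)
  have cH1 := (kd8_contH hH (j := 1) (by norm_num)).continuousOn (s := Icc 0 L)
  have ic : ∀ {u : ℝ → ℂ}, ContinuousOn u (Icc 0 L) → IntervalIntegrable u volume 0 L :=
    fun hu => ContinuousOn.intervalIntegrable (by rwa [uIcc_of_le hL.le])
  have icr : ∀ {u : ℝ → ℝ}, ContinuousOn u (Icc 0 L) → IntervalIntegrable u volume 0 L :=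
    fun hu => ContinuousOn.intervalIntegrable (by rwa [uIcc_of_le hL.le])
  have dH : ∀ j : ℕ, j ≤ 3 → ∀ x, HasDerivWithinAt (H j) (H (j + 1) x) (Icc 0 L) x :=
    fun j hj x => (hH.d j hj x).hasDerivWithinAt
  have dpc : ∀ (j : ℤ) (x : ℝ),
      HasDerivWithinAt (fun y => (p j y : ℂ)) (p (j + 1) x : ℂ) (Icc 0 L) x :=
    fun j x => (dp j x).ofReal_comp.hasDerivWithinAt
  have dc : ∀ {u u1 : ℝ → ℝ}, (∀ x ∈ Icc (0 : ℝ) L, HasDerivWithinAt u (u1 x) (Icc 0 L) x) →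
      ∀ x ∈ Icc (0 : ℝ) L, HasDerivWithinAt (fun y => (u y : ℂ)) (u1 x : ℂ) (Icc 0 L) x :=
    fun hu x hx => (hu x hx).ofReal_comp
  -- first integration by parts
  have A := ibp_ac hL.le (f1 := f) (f2 := f1) (sf.h2.repr0 hL.le) (icr cf1)
    (g := fun x => (g x : ℂ) * (p 0 x * H 0 x))
    (g1 := fun x => (g1 x : ℂ) * (p 0 x * H 0 x) + g x * (p 1 x * H 0 x + p 0 x * H 1 x))
    (fun x hx => (dc sg.h2.deriv x hx).fun_mul ((dpc 0 x).fun_mul (dH 0 (by norm_num) x)))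
    (((cC cg1).mul ((cp 0).mul cH0)).add ((cC cg0).mul (((cp 1).mul cH0).add ((cp 0).mul cH1))))
  -- second
  have second : ∀ {u u1 u2 v v1 v2 : ℝ → ℝ} {mu mv : ℝ}, IsSt L mu u u1 u2 → IsSt L mv v v1 v2 →
      (∫ x in (0 : ℝ)..L, (u1 x : ℂ) * (v x * (p 0 x * H 0 x)))
      = -((∫ x in (0 : ℝ)..L, (u2 x : ℂ) * (v x * H 0 x * p (-1) x))
        + (∫ x in (0 : ℝ)..L, (u1 x : ℂ) * (v1 x * H 0 x * p (-1) x))
        + (∫ x in (0 : ℝ)..L, (u1 x : ℂ) * (v x * H 1 x * p (-1) x))) := by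
    intro u u1 u2 v v1 v2 mu mv su sv
    have cu1 := su.h2.c1 hL.le
    have cv0 := sv.h2.c0 hL.le
    have cv1 := sv.h2.c1 hL.le
    have B := ibp_ac hL.le (f1 := u1) (f2 := u2) su.h2.repr (su.h2.ii2 hL.le)
      (g := fun x => (v x : ℂ) * H 0 x * p (-1) x)
      (g1 := fun x => ((v1 x : ℂ) * H 0 x + v x * H 1 x) * p (-1) x + (v x : ℂ) * H 0 x * p 0 x)
      (fun x hx => ((dc sv.h2.deriv x hx).fun_mul (dH 0 (by norm_num) x)).fun_mul (dpc (-1) x))
      (((((cC cv1).mul cH0).add ((cC cv0).mul cH1)).mul (cp (-1))).add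
        (((cC cv0).mul cH0).mul (cp 0)))
    rw [sv.f0, sv.fL] at B
    rw [B]
    have e : (∫ x in (0 : ℝ)..L, (u1 x : ℂ) * (((v1 x : ℂ) * H 0 x + v x * H 1 x) * p (-1) x
        + (v x : ℂ) * H 0 x * p 0 x))
        = (∫ x in (0 : ℝ)..L, (u1 x : ℂ) * (v1 x * H 0 x * p (-1) x))
        + (∫ x in (0 : ℝ)..L, (u1 x : ℂ) * (v x * H 1 x * p (-1) x))
        + (∫ x in (0 : ℝ)..L, (u1 x : ℂ) * (v x * (p 0 x * H 0 x))) := by
      rw [← intervalIntegral.integral_add, ← intervalIntegral.integral_add]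
      · congr 1
        funext x
        ring
      · exact ic (((cC cu1).mul (((cC cv1).mul cH0).mul (cp (-1)))).add
          ((cC cu1).mul (((cC cv0).mul cH1).mul (cp (-1)))))
      · exact ic ((cC cu1).mul ((cC cv0).mul ((cp 0).mul cH0)))
      · exact ic ((cC cu1).mul (((cC cv1).mul cH0).mul (cp (-1))))
      · exact ic ((cC cu1).mul (((cC cv0).mul cH1).mul (cp (-1))))
    rw [e]
    push_cast
    ring
  have B1 := second sf sg
  have B2 := second sg sf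
  have E : (∫ x in (0 : ℝ)..L, (f x : ℂ) * ((g1 x : ℂ) * (p 0 x * H 0 x)
        + g x * (p 1 x * H 0 x + p 0 x * H 1 x)))
      = (∫ x in (0 : ℝ)..L, (g1 x : ℂ) * (f x * (p 0 x * H 0 x)))
        + ∫ x in (0 : ℝ)..L, (f x : ℂ) * g x * (p 1 x * H 0 x + p 0 x * H 1 x) := by
    rw [← intervalIntegral.integral_add]
    · congr 1
      funext x
      ring
    · exact ic ((cC cg1).mul ((cC cf0).mul ((cp 0).mul cH0)))
    · exact ic (((cC cf0).mul (cC cg0)).mul (((cp 1).mul cH0).add ((cp 0).mul cH1)))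
  rw [sf.f0, sf.fL, E, B1, B2] at A
  have F : (∫ x in (0 : ℝ)..L, (f x : ℂ) * g x * (p 1 x * H 0 x + p 0 x * H 1 x))
      = ((∫ x in (0 : ℝ)..L, (f2 x : ℂ) * (g x * H 0 x * p (-1) x))
        + (∫ x in (0 : ℝ)..L, (f1 x : ℂ) * (g1 x * H 0 x * p (-1) x))
        + (∫ x in (0 : ℝ)..L, (f1 x : ℂ) * (g x * H 1 x * p (-1) x)))
      + ((∫ x in (0 : ℝ)..L, (g2 x : ℂ) * (f x * H 0 x * p (-1) x))
        + (∫ x in (0 : ℝ)..L, (g1 x : ℂ) * (f1 x * H 0 x * p (-1) x))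
        + (∫ x in (0 : ℝ)..L, (g1 x : ℂ) * (f x * H 1 x * p (-1) x))) := by
    push_cast at A
    linear_combination A
  rw [F]
  -- squares
  have sq1 : ∀ {u u1 u2 : ℝ → ℝ} {mu : ℝ}, 0 < mu → IsSt L mu u u1 u2 →
      (∫ x in (0 : ℝ)..L, u x ^ 2) ≤ D ^ 2 →
      (∫ x in (0 : ℝ)..L, u1 x ^ 2) ≤ (Real.sqrt (mu * D)) ^ 2 := by
    intro u u1 u2 mu hmu su hu
    rw [Real.sq_sqrt (by positivity)]
    have h1 := st_interp hL hmu.le su
    have h2 : (∫ x in (0 : ℝ)..L, u1 x ^ 2) ^ 2 ≤ (mu * D) ^ 2 := by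
      refine h1.trans ?_
      rw [mul_pow]
      gcongr
    exact le_of_sq_le_sq h2 (by positivity)
  have b0 := hH.b0
  have b1 := hH.bj 1 le_rfl (by norm_num)
  -- the three kinds of terms
  have T1 : ∀ {u u1 u2 v v1 v2 : ℝ → ℝ} {mu mv : ℝ}, 0 < mu → IsSt L mu u u1 u2 →
      IsSt L mv v v1 v2 → (∫ x in (0 : ℝ)..L, v x ^ 2) ≤ D ^ 2 →
      ‖∫ x in (0 : ℝ)..L, (u2 x : ℂ) * (v x * H 0 x * p (-1) x)‖ ≤ P * (mu * D) := by
    intro u u1 u2 v v1 v2 mu mv hmu su sv hv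
    refine kd8_cs hL.le hmu hD hP (su.h2.iisq hL.le) (icr ((sv.h2.c0 hL.le).pow 2)) su.i2 hv ?_
    intro x hx
    rw [norm_mul, norm_mul, norm_mul, norm_real, norm_real, norm_real, Real.norm_eq_abs,
      Real.norm_eq_abs, Real.norm_eq_abs]
    calc |u2 x| * (|v x| * ‖H 0 x‖ * |p (-1) x|) ≤ |u2 x| * (|v x| * 1 * P) := by
          gcongr
          · exact b0 x
          · exact bp x hx
      _ = _ := by ring
  have T2 : ∀ {u u1 u2 v v1 v2 : ℝ → ℝ} {mu mv : ℝ}, 0 < mu → 0 < mv → IsSt L mu u u1 u2 →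
      IsSt L mv v v1 v2 → (∫ x in (0 : ℝ)..L, u x ^ 2) ≤ D ^ 2 →
      (∫ x in (0 : ℝ)..L, v x ^ 2) ≤ D ^ 2 →
      ‖∫ x in (0 : ℝ)..L, (u1 x : ℂ) * (v1 x * H 0 x * p (-1) x)‖
        ≤ P * ((mu + mv) / 2 * D) := by
    intro u u1 u2 v v1 v2 mu mv hmu hmv su sv hu hv
    have h1 := kd8_cs hL.le (Real.sqrt_pos.2 (mul_pos hmu hD)) (Real.sqrt_pos.2 (mul_pos hmv hD))
      hP (icr ((su.h2.c1 hL.le).pow 2)) (icr ((sv.h2.c1 hL.le).pow 2)) (sq1 hmu su hu)
      (sq1 hmv sv hv) (F := fun x => (u1 x : ℂ) * (v1 x * H 0 x * p (-1) x)) (by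
      intro x hx
      rw [norm_mul, norm_mul, norm_mul, norm_real, norm_real, norm_real, Real.norm_eq_abs,
        Real.norm_eq_abs, Real.norm_eq_abs]
      calc |u1 x| * (|v1 x| * ‖H 0 x‖ * |p (-1) x|) ≤ |u1 x| * (|v1 x| * 1 * P) := by
            gcongr
            · exact b0 x
            · exact bp x hx
        _ = _ := by ring)
    refine h1.trans (mul_le_mul_of_nonneg_left ?_ hP)
    have e1 := Real.sq_sqrt (mul_pos hmu hD).le
    have e2 := Real.sq_sqrt (mul_pos hmv hD).le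
    nlinarith [sq_nonneg (Real.sqrt (mu * D) - Real.sqrt (mv * D))]
  have T3 : ∀ {u u1 u2 v v1 v2 : ℝ → ℝ} {mu mv : ℝ}, 0 < mu → IsSt L mu u u1 u2 →
      IsSt L mv v v1 v2 → (∫ x in (0 : ℝ)..L, v x ^ 2) ≤ D ^ 2 →
      ‖∫ x in (0 : ℝ)..L, (u1 x : ℂ) * (v x * H 1 x * p (-1) x)‖
        ≤ P * ((1 + L) * mu * D) := by
    intro u u1 u2 v v1 v2 mu mv hmu su sv hv
    refine kd8_cs (p := fun _ => mu) (A := (1 + L) * mu) hL.le (by positivity) hD hP
      (icr continuousOn_const)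
      (icr ((sv.h2.c0 hL.le).pow 2)) ?_ hv ?_
    · rw [intervalIntegral.integral_const, smul_eq_mul, sub_zero, mul_pow]
      have : L ≤ (1 + L) ^ 2 := by nlinarith
      exact mul_le_mul_of_nonneg_right this (by positivity)
    intro x hx
    rw [norm_mul, norm_mul, norm_mul, norm_real, norm_real, norm_real, Real.norm_eq_abs,
      Real.norm_eq_abs, Real.norm_eq_abs, abs_of_pos hmu]
    calc |u1 x| * (|v x| * ‖H 1 x‖ * |p (-1) x|) ≤ mu * (|v x| * 1 * P) := by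
          gcongr
          · exact su.b1 x hx
          · exact (b1 x hx).trans hh1
          · exact bp x hx
      _ = _ := by ring
  refine (norm_add_le _ _).trans ?_
  have r1 := (norm_add₃_le (a := ∫ x in (0 : ℝ)..L, (f2 x : ℂ) * (g x * H 0 x * p (-1) x))
    (b := ∫ x in (0 : ℝ)..L, (f1 x : ℂ) * (g1 x * H 0 x * p (-1) x))
    (c := ∫ x in (0 : ℝ)..L, (f1 x : ℂ) * (g x * H 1 x * p (-1) x)))
  have r2 := (norm_add₃_le (a := ∫ x in (0 : ℝ)..L, (g2 x : ℂ) * (f x * H 0 x * p (-1) x))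
    (b := ∫ x in (0 : ℝ)..L, (g1 x : ℂ) * (f1 x * H 0 x * p (-1) x))
    (c := ∫ x in (0 : ℝ)..L, (g1 x : ℂ) * (f x * H 1 x * p (-1) x)))
  have u1 := T1 hmf sf sg hg
  have u2 := T2 hmf hmg sf sg hf hg
  have u3 := T3 hmf sf sg hg
  have v1 := T1 hmg sg sf hf
  have v2 := T2 hmg hmf sg sf hg hf
  have v3 := T3 hmg sg sf hf
  calc _ ≤ (P * (mf * D) + P * ((mf + mg) / 2 * D) + P * ((1 + L) * mf * D))
        + (P * (mg * D) + P * ((mg + mf) / 2 * D) + P * ((1 + L) * mg * D)) := by linarith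
    _ = _ := by ring

theorem err5 (L : ℝ) (hL : 0 < L) : ∃ C : ℝ, 0 < C ∧ ∀ (k ρ m N h D : ℝ) (a b : ℤ → ℝ → ℝ)
    (V : ℕ → ℝ → ℝ) (H : ℕ → ℝ → ℂ) (η η1 η2 w w1 w2 : ℝ → ℝ), 1 ≤ m → h ≤ 1 → 0 ≤ D →
    IsMode L k ρ a b → IsV L m N V → IsWKB L k h V H → IsSt L m η η1 η2 → IsSt L m w w1 w2 →
    (∫ x in (0 : ℝ)..L, η x ^ 2) ≤ D ^ 2 → (∫ x in (0 : ℝ)..L, (w x - V 0 x) ^ 2) ≤ D ^ 2 →
    ‖(∫ x in (0 : ℝ)..L, (η x : ℂ) * (w x - V 0 x) * (a 1 x * H 0 x + a 0 x * H 1 x))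
        + (1 / 2) * ∫ x in (0 : ℝ)..L, ((w x : ℂ) - V 0 x) ^ 2
            * (I * (b 1 x * H 0 x + b 0 x * H 1 x))‖ ≤ C * m ^ 2 * D / k := by
  refine ⟨(3 + L) * (9 + 4 * L) * 100, by positivity, ?_⟩
  intro k ρ m N h D a b V H η η1 η2 w w1 w2 hm hh1 hD hM hV hH sη sw hη hw
  have hk : 0 < k := by linarith [hM.hk]
  have hm0 : 0 < m := by linarith
  have sV := st_of_V hL hm0.le hV
  have sg := st_sub hL hm0.le (by positivity) sw sV
  have hmg : 0 < 2 * (m + (1 + L) * m) := by positivity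
  have ek : k ^ (-1 : ℤ) = 1 / k := by rw [zpow_neg_one, one_div]
  have key : ∀ D' : ℝ, 0 < D' → D ≤ D' →
      ‖(∫ x in (0 : ℝ)..L, (η x : ℂ) * (w x - V 0 x) * (a 1 x * H 0 x + a 0 x * H 1 x))
        + (1 / 2) * ∫ x in (0 : ℝ)..L, ((w x : ℂ) - V 0 x) ^ 2
            * (I * (b 1 x * H 0 x + b 0 x * H 1 x))‖
      ≤ (3 + L) * (9 + 4 * L) * 100 * m * D' / k := by
    intro D' hD' hDD
    have hsq : D ^ 2 ≤ D' ^ 2 := by gcongr
    have t1 := kd8_core hL hD' hm0 hmg hh1 hH sη sg hM.da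
      (hM.bda (-1) (by norm_num) (by norm_num)) (hη.trans hsq) (hw.trans hsq)
    have t2 := kd8_core hL hD' hmg hmg hh1 hH sg sg hM.db
      (hM.bdb (-1) (by norm_num) (by norm_num)) (hw.trans hsq) (hw.trans hsq)
    have e1 : (∫ x in (0 : ℝ)..L, (η x : ℂ) * (w x - V 0 x) * (a 1 x * H 0 x + a 0 x * H 1 x))
        = ∫ x in (0 : ℝ)..L, (η x : ℂ) * ((w x - V 0 x : ℝ) : ℂ)
          * (a 1 x * H 0 x + a 0 x * H 1 x) := by
      congr 1
      funext x
      push_cast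
      ring
    have e2 : (∫ x in (0 : ℝ)..L, ((w x : ℂ) - V 0 x) ^ 2
            * (I * (b 1 x * H 0 x + b 0 x * H 1 x)))
        = I * ∫ x in (0 : ℝ)..L, ((w x - V 0 x : ℝ) : ℂ) * ((w x - V 0 x : ℝ) : ℂ)
          * (b 1 x * H 0 x + b 0 x * H 1 x) := by
      rw [← intervalIntegral.integral_const_mul]
      congr 1
      funext x
      push_cast
      ring
    rw [e1, e2]
    refine (norm_add_le _ _).trans ?_
    rw [norm_mul, norm_mul, norm_I, one_mul]
    have e8 : ‖(1 / 2 : ℂ)‖ = 1 / 2 := by simp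
    rw [e8]
    rw [ek] at t1 t2
    calc _ ≤ (3 + L) * (m + 2 * (m + (1 + L) * m)) * (100 * (1 / k)) * D'
          + 1 / 2 * ((3 + L) * (2 * (m + (1 + L) * m) + 2 * (m + (1 + L) * m))
            * (100 * (1 / k)) * D') := by gcongr
      _ = _ := by ring
  have hlim : ‖(∫ x in (0 : ℝ)..L, (η x : ℂ) * (w x - V 0 x) * (a 1 x * H 0 x + a 0 x * H 1 x))
        + (1 / 2) * ∫ x in (0 : ℝ)..L, ((w x : ℂ) - V 0 x) ^ 2
            * (I * (b 1 x * H 0 x + b 0 x * H 1 x))‖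
      ≤ (3 + L) * (9 + 4 * L) * 100 * m * D / k := by
    refine le_of_forall_pos_le_add fun e he => ?_
    have hc : 0 < (3 + L) * (9 + 4 * L) * 100 * m / k := by positivity
    refine (key (D + e / ((3 + L) * (9 + 4 * L) * 100 * m / k)) (by positivity)
      (by linarith [show (0 : ℝ) < e / ((3 + L) * (9 + 4 * L) * 100 * m / k) by positivity])).trans
      (le_of_eq ?_)
    field_simp
  refine hlim.trans ?_
  have hmm : m ≤ m ^ 2 := by nlinarith
  gcongr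

end Pool.Agent.KD
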