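import Pool.Agent.KD.Final6

open MeasureTheory Set Complex

namespace Pool.Agent.KD

theorem no_ksol {L : ℝ} (hL : 0 < L) {k ρ : ℕ → ℝ} {a b : ℕ → ℤ → ℝ → ℝ}
    {ε d : ℕ → ℝ} {α β w0 w01 w02 : ℝ → ℝ} {C : ℝ} (hC : 0 < C)
    (hd : IsData L k ρ a b ε d α β w0 w01 w02 C) {c T : ℝ} (hc : c ≠ 0) (hT : 0 < T)
    {η η1 η2 w w1 w2 : ℝ → ℝ → ℝ}
    (hs : IsKSol L T α β (fun x => c * w0 x) η η1 η2 w w1 w2) : False := by
  obtain ⟨M, hM⟩ := hs.sol.bdd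
  obtain ⟨m0, hm0, hst0⟩ := exists_st L hL M
  set m : ℝ := m0 + |c| * C with hmdef
  have hcC : 0 ≤ |c| * C := by positivity
  have hm : 1 ≤ m := by linarith
  have hmC : |c| * C ≤ m := by linarith
  have hst : ∀ t ∈ Icc (0 : ℝ) T,
      IsSt L m (η t) (η1 t) (η2 t) ∧ IsSt L m (w t) (w1 t) (w2 t) := by
    intro t ht
    obtain ⟨d1, d2, d3, d4⟩ := hs.sol.dir t ht
    exact ⟨(hst0 _ _ _ (hs.sol.h2η t ht) d1 d2 (hM t ht).1).mono (by linarith) (by linarith),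
      (hst0 _ _ _ (hs.sol.h2w t ht) d3 d4 (hM t ht).2).mono (by linarith) (by linarith)⟩
  obtain ⟨Q1, hQ1, est⟩ := kd12_est L hL
  obtain ⟨Q2, hQ2, low⟩ := kd12_B0 L hL
  obtain ⟨Q3, hQ3, upp⟩ := kd12_BU L hL
  obtain ⟨Ct, hCt, l2⟩ := l2_small L hL m hm
  set q : ℝ := 1 + 2 * Ct + 2 * m ^ 2 * L with hq
  have hq1 : 1 ≤ q := by
    have : 0 ≤ 2 * m ^ 2 * L := by positivity
    linarith
  set g : ℝ := |c| * L with hg
  have hg0 : 0 < g := by positivity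
  -- choice of n
  obtain ⟨n, hn⟩ : ∃ n : ℕ, max (max (15 * m) (1 / T))
      (max (8 * (2 * (Q1 * m ^ 3 * q) + Q2 * m ^ 2) / g) (192 * (Q3 * m ^ 2) / g)) < (n : ℝ) :=
    exists_nat_gt _
  have hlin := kd12_k_lin hd n
  set N := k n with hN
  set K := k (n + 1) with hKdef
  have hN2 : 2 ≤ N := (hd.mode n).hk
  have hK2 : 2 ≤ K := (hd.mode (n + 1)).hk
  have hN0 : 0 < N := by linarith
  have hN1 : 1 ≤ N := by linarith
  have hK0 : 0 < K := by linarith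
  have hNK : N ^ 100 ≤ K := hd.grow n
  have hnN : (n : ℝ) < N := by linarith
  have c1 : 15 * m < N := ((le_max_left _ _).trans (le_max_left _ _)).trans_lt (hn.trans hnN)
  have c2 : 1 / T < N := ((le_max_right _ _).trans (le_max_left _ _)).trans_lt (hn.trans hnN)
  have c3 : 8 * (2 * (Q1 * m ^ 3 * q) + Q2 * m ^ 2) / g < N :=
    ((le_max_left _ _).trans (le_max_right _ _)).trans_lt (hn.trans hnN)
  have c4 : 192 * (Q3 * m ^ 2) / g < N :=
    ((le_max_right _ _).trans (le_max_right _ _)).trans_lt (hn.trans hnN)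
  have hmN : 15 * (m * N) ≤ K := by
    calc 15 * (m * N) = (15 * m) * N := by ring
      _ ≤ N * N := by gcongr
      _ = N ^ 2 := by ring
      _ ≤ N ^ 100 := pow_le_pow_right₀ hN1 (by norm_num)
      _ ≤ K := hNK
  have hmN1 : m ≤ m * N := le_mul_of_one_le_right (by linarith) hN1
  have hmNK : m * N ≤ K := by nlinarith
  set V : ℕ → ℝ → ℝ := fun j x => c * ∑ i ∈ Finset.range (n + 1), d i * b i (j : ℤ) x with hVdef
  have hV : IsV L m (m * N) V := kd12_V hL hC hd hmC n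
  obtain ⟨H, hH⟩ := exists_wkb hL hm hmN1 hmNK hV
  set σ : ℝ := ρ (n + 1) * ε (n + 1) with hσdef
  have hε1 : ε (n + 1) = (N ^ 4)⁻¹ := hd.ε1 n
  have hρ1 : K ≤ ρ (n + 1) := (hd.mode (n + 1)).ρlo
  have hσ : K / N ^ 4 ≤ σ := by
    rw [hσdef, hε1, div_eq_mul_inv]
    gcongr
  have hσ0 : 0 < σ := lt_of_lt_of_le (by positivity) hσ
  set lam : ℂ := ((σ : ℝ) : ℂ) + I * ((K - K ^ 3 : ℝ) : ℂ) with hlam
  have hlamre : lam.re = σ := by
    rw [hlam]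
    generalize K - K ^ 3 = μ
    simp
  set τ : ℝ := (N ^ 20)⁻¹ with hτ
  have hτ0 : 0 ≤ τ := by positivity
  have hτT : τ ≤ T := by
    have h1 : N ≤ N ^ 20 := le_self_pow₀ hN1 (by norm_num)
    have h2 : 1 < N * T := by
      rw [div_lt_iff₀ hT] at c2
      exact c2
    rw [hτ, inv_le_comm₀ (by positivity) hT]
    have h3 : T⁻¹ < N := by
      rw [inv_eq_one_div]; exact c2
    linarith
  have hsub : Icc (0 : ℝ) τ ⊆ Icc 0 T := Icc_subset_Icc le_rfl hτT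
  -- the functions B and B'
  set B : ℝ → ℂ := fun s => Amp L (a (n + 1)) (b (n + 1)) H (η s) (w s)
        + (Slow (ρ (n + 1)) (H 0 L) n ε (fun j => Cx L (a j 0) (η s))
            (fun j => Cx L (b j 0) (w s)) - Kz L (b (n + 1)) V H) / lam with hBdef
  set B' : ℝ → ℂ := fun t => AmpD L (a (n + 1)) (b (n + 1)) H (η t) (η1 t) (η2 t) (w t) (w1 t)
      (w2 t) + Slow (ρ (n + 1)) (H 0 L) n ε
            (fun j => CxD L (a j 0) (a j 1) (w1 t) (w2 t)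
              (fun x => η1 t x * w t x + η t x * w1 t x))
            (fun j => CxD L (b j 0) (b j 1) (η1 t) (η2 t) (fun x => w t x * w1 t x)) / lam
    with hB'def
  have hB : ∀ t ∈ Icc (0 : ℝ) T, HasDerivWithinAt B (B' t) (Icc 0 T) t := by
    intro t ht
    have h1 := kd12_AmpD hL (hd.mode (n + 1)) hH hs.sol ht
    have h2 : HasDerivWithinAt (fun s => Slow (ρ (n + 1)) (H 0 L) n ε
        (fun j => Cx L (a j 0) (η s)) (fun j => Cx L (b j 0) (w s))) _ (Icc 0 T) t :=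
      kd12_Slow_deriv (fun j => hs.sol.eqη _ _ (kd12_testa (hd.mode j)) t ht)
        (fun j => hs.sol.eqw _ _ (kd12_testb (hd.mode j)) t ht)
    exact h1.add ((h2.sub_const (Kz L (b (n + 1)) V H)).div_const lam)
  -- L2 smallness
  have hηD : ∀ t ∈ Icc (0 : ℝ) τ, (∫ x in (0 : ℝ)..L, η t x ^ 2) ≤ (q * (N ^ 10)⁻¹) ^ 2 := by
    intro t ht
    have h1 := (l2 T _ _ _ _ _ _ hs.sol hst t (hsub ht)).1
    have h2 : (∫ x in (0 : ℝ)..L, η t x ^ 2) = ∫ x in (0 : ℝ)..L, (η t x - η 0 x) ^ 2 := by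
      refine intervalIntegral.integral_congr fun x hx => ?_
      rw [uIcc_of_le hL.le] at hx
      rw [hs.inη x hx, sub_zero]
    rw [h2]
    calc (∫ x in (0 : ℝ)..L, (η t x - η 0 x) ^ 2) ≤ Ct * t := h1
      _ ≤ Ct * τ := by gcongr; exact ht.2
      _ ≤ q ^ 2 * τ := by
          gcongr
          have : 0 ≤ 2 * m ^ 2 * L := by positivity
          nlinarith
      _ = (q * (N ^ 10)⁻¹) ^ 2 := by rw [hτ]; field_simp
  have hwD : ∀ t ∈ Icc (0 : ℝ) τ, (∫ x in (0 : ℝ)..L, (w t x - V 0 x) ^ 2)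
      ≤ (q * (N ^ 10)⁻¹) ^ 2 := by
    intro t ht
    have h1 := (l2 T _ _ _ _ _ _ hs.sol hst t (hsub ht)).2
    have cw : ContinuousOn (w t) (uIcc 0 L) := by
      rw [uIcc_of_le hL.le]; exact ((hst t (hsub ht)).2.h2.c0 hL.le)
    have cw0 : ContinuousOn (w 0) (uIcc 0 L) := by
      rw [uIcc_of_le hL.le]
      exact ((hst 0 ⟨le_rfl, hT.le⟩).2.h2.c0 hL.le)
    have cV : Continuous (V 0) :=
      continuous_iff_continuousAt.2 fun x => (hV.d 0 x).continuousAt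
    have h3 : ∀ x ∈ Icc (0 : ℝ) L, (w t x - V 0 x) ^ 2
        ≤ 2 * (w t x - w 0 x) ^ 2 + 2 * (m * (K ^ 2)⁻¹) ^ 2 := by
      intro x hx
      have h4 : |w 0 x - V 0 x| ≤ m * (K ^ 2)⁻¹ := by
        rw [hs.inw x hx, hVdef]
        simp only [Nat.cast_zero]
        rw [← mul_sub, abs_mul]
        calc |c| * |_| ≤ |c| * (C * (K ^ 2)⁻¹) :=
              mul_le_mul_of_nonneg_left (hd.tail n x hx) (abs_nonneg c)
          _ = |c| * C * (K ^ 2)⁻¹ := by ring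
          _ ≤ m * (K ^ 2)⁻¹ := by gcongr
      have h5 : (w 0 x - V 0 x) ^ 2 ≤ (m * (K ^ 2)⁻¹) ^ 2 := by
        rw [← sq_abs]; gcongr
      nlinarith [sq_nonneg ((w t x - w 0 x) - (w 0 x - V 0 x))]
    have I1 : IntervalIntegrable (fun x => (w t x - V 0 x) ^ 2) volume 0 L :=
      ((cw.sub cV.continuousOn).pow 2).intervalIntegrable
    have I2 : IntervalIntegrable (fun x => (w t x - w 0 x) ^ 2) volume 0 L :=
      ((cw.sub cw0).pow 2).intervalIntegrable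
    calc (∫ x in (0 : ℝ)..L, (w t x - V 0 x) ^ 2)
        ≤ ∫ x in (0 : ℝ)..L, (2 * (w t x - w 0 x) ^ 2 + 2 * (m * (K ^ 2)⁻¹) ^ 2) :=
          intervalIntegral.integral_mono_on hL.le I1
            ((I2.const_mul 2).add intervalIntegrable_const) h3
      _ = 2 * (∫ x in (0 : ℝ)..L, (w t x - w 0 x) ^ 2) + L * (2 * (m * (K ^ 2)⁻¹) ^ 2) := by
          rw [intervalIntegral.integral_add (I2.const_mul 2) intervalIntegrable_const,
            intervalIntegral.integral_const_mul, intervalIntegral.integral_const]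
          simp
      _ ≤ 2 * (Ct * τ) + L * (2 * (m ^ 2 * τ)) := by
          have h6 : Ct * t ≤ Ct * τ := by gcongr; exact ht.2
          have h7 : (m * (K ^ 2)⁻¹) ^ 2 ≤ m ^ 2 * τ := by
            have h20 : N ^ 20 ≤ K ^ 4 := by
              calc N ^ 20 ≤ N ^ 100 := pow_le_pow_right₀ hN1 (by norm_num)
                _ ≤ K := hNK
                _ ≤ K ^ 4 := le_self_pow₀ (by linarith) (by norm_num)
            calc (m * (K ^ 2)⁻¹) ^ 2 = m ^ 2 * (K ^ 4)⁻¹ := by field_simp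
              _ ≤ m ^ 2 * τ := by rw [hτ]; gcongr
          have h8 := h1.trans h6
          have h9 : L * (2 * (m * (K ^ 2)⁻¹) ^ 2) ≤ L * (2 * (m ^ 2 * τ)) := by gcongr
          linarith
      _ ≤ q ^ 2 * τ := by
          have h10 : 2 * (Ct * τ) + L * (2 * (m ^ 2 * τ)) = (2 * Ct + 2 * m ^ 2 * L) * τ := by
            ring
          rw [h10]
          gcongr
          nlinarith
      _ = (q * (N ^ 10)⁻¹) ^ 2 := by rw [hτ]; field_simp
  -- the estimate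
  have hkj : ∀ j, j ≤ n → k j ≤ N := fun j hj => kd12_k_mono hd hj
  have hεb := kd12_ε hd
  have hR : ∀ t ∈ Icc (0 : ℝ) τ, ‖B' t - lam * B t‖
      ≤ Q1 * m ^ 3 * (N ^ 2 / K ^ 2 + q * (N ^ 10)⁻¹ / K) := by
    intro t ht
    exact est C m (q * (N ^ 10)⁻¹) k ρ a b ε d α β w0 w01 w02 (η t) (η1 t) (η2 t) (w t) (w1 t)
      (w2 t) n V H lam hd hm (by positivity) hmN (by linarith) hkj hεb hV hH
      (hst t (hsub ht)).1 (hst t (hsub ht)).2 (hs.fb1 t (hsub ht)) (hs.fb2 t (hsub ht))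
      (hηD t ht) (hwD t ht) hlam
  have h0T : (0 : ℝ) ∈ Icc (0 : ℝ) T := ⟨le_rfl, hT.le⟩
  have hτm : τ ∈ Icc (0 : ℝ) T := hsub ⟨hτ0, le_rfl⟩
  have hlow := low C m c k ρ a b ε d α β w0 w01 w02 (η 0) (η1 0) (η2 0) (w 0) (w1 0)
      (w2 0) n V H lam hd hm hmC hV hH (hst 0 h0T).1 (hst 0 h0T).2 hs.inη hs.inw hlam
  have hupp := upp C m k ρ a b ε d α β w0 w01 w02 (η τ) (η1 τ) (η2 τ) (w τ) (w1 τ)
      (w2 τ) n V H lam hd hm (kd12_k_mono hd (Nat.le_succ n)) (by linarith) hεb hV hH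
      (hst τ hτm).1 (hst τ hτm).2 hlam
  have hgrow := grow hτ0 hσ0 hlamre (fun t ht => (hB t (hsub ht)).mono hsub) hR
  have hfin := hgrow.trans hupp
  have hexp : 0 < Real.exp (σ * τ) := Real.exp_pos _
  refine kd12_num (N := N) (K := K) (g := g) (σ := σ) (A1 := 2 * (Q1 * m ^ 3 * q))
    (A2 := Q2 * m ^ 2) (A3 := Q3 * m ^ 2) hN2 hNK hg0 (by positivity) (by positivity) hσ ?_ ?_ ?_
  · rw [div_lt_iff₀ hg0] at c3
    linarith
  · rw [div_lt_iff₀ hg0] at c4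
    linarith
  · refine le_trans (mul_le_mul_of_nonneg_left ?_ hexp.le) hfin
    have h1 : Q1 * m ^ 3 * (N ^ 2 / K ^ 2 + q * (N ^ 10)⁻¹ / K)
        ≤ 2 * (Q1 * m ^ 3 * q) * ((N ^ 2 / K ^ 2 + (N ^ 10)⁻¹ / K) / 2) := by
      have h2 : N ^ 2 / K ^ 2 + q * (N ^ 10)⁻¹ / K ≤ q * (N ^ 2 / K ^ 2 + (N ^ 10)⁻¹ / K) := by
        have h3 : N ^ 2 / K ^ 2 ≤ q * (N ^ 2 / K ^ 2) :=
          le_mul_of_one_le_left (by positivity) hq1
        have h4 : q * (N ^ 10)⁻¹ / K = q * ((N ^ 10)⁻¹ / K) := by ring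
        rw [h4, mul_add]
        linarith
      calc Q1 * m ^ 3 * (N ^ 2 / K ^ 2 + q * (N ^ 10)⁻¹ / K)
          ≤ Q1 * m ^ 3 * (q * (N ^ 2 / K ^ 2 + (N ^ 10)⁻¹ / K)) := by gcongr
        _ = _ := by ring
    have h5 : Q1 * m ^ 3 * (N ^ 2 / K ^ 2 + q * (N ^ 10)⁻¹ / K) / σ
        ≤ 2 * (Q1 * m ^ 3 * q) * ((N ^ 2 / K ^ 2 + (N ^ 10)⁻¹ / K) / 2) / σ := by gcongr
    have h6 : g / 4 * (K ^ 2 * N ^ 4)⁻¹ = |c| * (L / 4) * (K ^ 2 * N ^ 4)⁻¹ := by
      rw [hg]; ring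
    rw [h6]
    have h7 : |c| * (L / 4) * (K ^ 2 * N ^ 4)⁻¹ - Q2 * m ^ 2 * (N / K ^ 3) ≤ ‖B 0‖ := hlow
    linarith

end Pool.Agent.KD
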