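import Pool.Agent.KD.Defs

/-!
# Growth of an unstable coordinate (project KD, row KD-6)

If `B' = lam B + O(R)` with `re lam = σ > 0`, then `‖B τ‖ ≥ exp (σ τ) (‖B 0‖ - R / σ)`.
-/

open MeasureTheory Set Complex

namespace Pool.Agent.KD

/-- the derivative of `exp (-lam t) B t` -/
private theorem kd6_deriv {B : ℝ → ℂ} {b : ℂ} {τ : ℝ} {lam : ℂ} {t : ℝ}
    (hB : HasDerivWithinAt B b (Icc 0 τ) t) :
    HasDerivWithinAt (fun s : ℝ => Complex.exp (-(lam * s)) * B s)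
      (Complex.exp (-(lam * t)) * (b - lam * B t)) (Icc 0 τ) t := by
  have h1 : HasDerivAt (fun s : ℝ => (-(lam * (s : ℂ)))) (-(lam * 1)) t :=
    ((Complex.ofRealCLM.hasDerivAt (x := t)).const_mul lam).neg
  have h2 : HasDerivAt (fun s : ℝ => Complex.exp (-(lam * (s : ℂ))))
      (Complex.exp (-(lam * (t : ℂ))) * (-(lam * 1))) t := h1.cexp
  have h3 := h2.hasDerivWithinAt (s := Icc 0 τ) |>.mul hB
  refine h3.congr_deriv ?_
  ring

theorem grow {B B' : ℝ → ℂ} {τ R σ : ℝ} {lam : ℂ} (hτ : 0 ≤ τ) (hσ : 0 < σ)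
    (hre : lam.re = σ) (hB : ∀ t ∈ Icc (0 : ℝ) τ, HasDerivWithinAt B (B' t) (Icc 0 τ) t)
    (hR : ∀ t ∈ Icc (0 : ℝ) τ, ‖B' t - lam * B t‖ ≤ R) :
    Real.exp (σ * τ) * (‖B 0‖ - R / σ) ≤ ‖B τ‖ := by
  have hR0 : 0 ≤ R := le_trans (norm_nonneg _) (hR 0 ⟨le_rfl, hτ⟩)
  have hexp : ∀ t : ℝ, ‖Complex.exp (-(lam * (t : ℂ)))‖ = Real.exp (-(σ * t)) := by
    intro t
    rw [Complex.norm_exp]
    congr 1
    simp [hre]
  set G : ℝ → ℂ := fun s => Complex.exp (-(lam * (s : ℂ))) * B s - B 0 with hG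
  have hGd : ∀ t ∈ Icc (0 : ℝ) τ, HasDerivWithinAt G
      (Complex.exp (-(lam * (t : ℂ))) * (B' t - lam * B t)) (Icc 0 τ) t := by
    intro t ht
    exact (kd6_deriv (hB t ht)).sub_const (B 0)
  have hcont : ContinuousOn G (Icc 0 τ) := fun t ht => (hGd t ht).continuousWithinAt
  have hright : ∀ t ∈ Ico (0 : ℝ) τ, HasDerivWithinAt G
      (Complex.exp (-(lam * (t : ℂ))) * (B' t - lam * B t)) (Ici t) t := by
    intro t ht
    have h1 := hGd t ⟨ht.1, ht.2.le⟩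
    refine h1.mono_of_mem_nhdsWithin ?_
    exact Icc_mem_nhdsGE_of_mem ht
  have hBd : ∀ t : ℝ, HasDerivAt (fun s : ℝ => R / σ * (1 - Real.exp (-(σ * s))))
      (Real.exp (-(σ * t)) * R) t := by
    intro t
    have h1 : HasDerivAt (fun s : ℝ => -(σ * s)) (-(σ * 1)) t :=
      ((hasDerivAt_id t).const_mul σ).neg
    have h2 := (h1.exp.const_sub 1).const_mul (R / σ)
    refine h2.congr_deriv ?_
    field_simp
  have h0 : ‖G 0‖ ≤ R / σ * (1 - Real.exp (-(σ * 0))) := by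
    simp [hG]
  have hbound : ∀ t ∈ Ico (0 : ℝ) τ,
      ‖Complex.exp (-(lam * (t : ℂ))) * (B' t - lam * B t)‖ ≤ Real.exp (-(σ * t)) * R := by
    intro t ht
    rw [norm_mul, hexp]
    exact mul_le_mul_of_nonneg_left (hR t ⟨ht.1, ht.2.le⟩) (Real.exp_nonneg _)
  have hmain := image_norm_le_of_norm_deriv_right_le_deriv_boundary hcont hright h0 hBd hbound
    (x := τ) ⟨hτ, le_rfl⟩
  have h1 : ‖G τ‖ ≤ R / σ := by
    refine hmain.trans ?_
    have : 0 ≤ R / σ := div_nonneg hR0 hσ.le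
    nlinarith [Real.exp_nonneg (-(σ * τ))]
  have h2 : ‖B 0‖ ≤ Real.exp (-(σ * τ)) * ‖B τ‖ + R / σ := by
    have h3 : B 0 = Complex.exp (-(lam * (τ : ℂ))) * B τ - G τ := by simp [hG]
    calc ‖B 0‖ = ‖Complex.exp (-(lam * (τ : ℂ))) * B τ - G τ‖ := by rw [← h3]
      _ ≤ ‖Complex.exp (-(lam * (τ : ℂ))) * B τ‖ + ‖G τ‖ := norm_sub_le _ _
      _ ≤ Real.exp (-(σ * τ)) * ‖B τ‖ + R / σ := by
        rw [norm_mul, hexp]
        linarith
  have h4 : Real.exp (σ * τ) * Real.exp (-(σ * τ)) = 1 := by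
    rw [← Real.exp_add]
    simp
  calc Real.exp (σ * τ) * (‖B 0‖ - R / σ)
      ≤ Real.exp (σ * τ) * (Real.exp (-(σ * τ)) * ‖B τ‖) :=
        mul_le_mul_of_nonneg_left (by linarith) (Real.exp_nonneg _)
    _ = ‖B τ‖ := by rw [← mul_assoc, h4, one_mul]

end Pool.Agent.KD
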