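import Pool.Agent.KD.Ibp

/-!
# KD-7: the exact identity for the derivative of the amplitude
-/

open MeasureTheory Set Complex

namespace Pool.Agent.KD

/-- the abstract identity: `P`, `Q` are the two complex multipliers with their derivatives -/
theorem kd7_parts {L : ℝ} (hL : 0 < L) {P P1 P2 P3 Q Q1 Q2 Q3 : ℝ → ℂ}
    (dP : ∀ x, HasDerivAt P (P1 x) x) (dP1 : ∀ x, HasDerivAt P1 (P2 x) x)
    (dP2 : ∀ x, HasDerivAt P2 (P3 x) x) (cP3 : Continuous P3)
    (dQ : ∀ x, HasDerivAt Q (Q1 x) x) (dQ1 : ∀ x, HasDerivAt Q1 (Q2 x) x)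
    (dQ2 : ∀ x, HasDerivAt Q2 (Q3 x) x) (cQ3 : Continuous Q3)
    {η η1 η2 w w1 w2 : ℝ → ℝ} (sη : IsH2 L η η1 η2) (sw : IsH2 L w w1 w2)
    (η0 : η 0 = 0) (ηL : η L = 0) (w0 : w 0 = 0) (wL : w L = 0) :
    (∫ x in (0 : ℝ)..L, ((w2 x : ℂ) * P1 x - w1 x * P x - (η1 x * w x + η x * w1 x) * P x))
    + (∫ x in (0 : ℝ)..L, ((η2 x : ℂ) * Q1 x - η1 x * Q x - (w x * w1 x) * Q x))
    = (w1 L * P1 L - w1 0 * P1 0) + (η1 L * Q1 L - η1 0 * Q1 0)
      + ∫ x in (0 : ℝ)..L, ((w x : ℂ) * (P1 x + P3 x) + η x * (Q1 x + Q3 x)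
          + η x * w x * P1 x + (1 / 2) * (w x) ^ 2 * Q1 x) := by
  have hL0 : (0 : ℝ) ≤ L := hL.le
  have hu : uIcc (0 : ℝ) L = Icc 0 L := uIcc_of_le hL0
  have cP : Continuous P := continuous_iff_continuousAt.2 fun x => (dP x).continuousAt
  have cP1 : Continuous P1 := continuous_iff_continuousAt.2 fun x => (dP1 x).continuousAt
  have cP2 : Continuous P2 := continuous_iff_continuousAt.2 fun x => (dP2 x).continuousAt
  have cQ : Continuous Q := continuous_iff_continuousAt.2 fun x => (dQ x).continuousAt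
  have cQ1 : Continuous Q1 := continuous_iff_continuousAt.2 fun x => (dQ1 x).continuousAt
  have cQ2 : Continuous Q2 := continuous_iff_continuousAt.2 fun x => (dQ2 x).continuousAt
  have cw : ContinuousOn (fun x => (w x : ℂ)) (Icc 0 L) :=
    continuous_ofReal.comp_continuousOn (sw.c0 hL0)
  have cw1 : ContinuousOn (fun x => (w1 x : ℂ)) (Icc 0 L) :=
    continuous_ofReal.comp_continuousOn (sw.c1 hL0)
  have cη : ContinuousOn (fun x => (η x : ℂ)) (Icc 0 L) :=
    continuous_ofReal.comp_continuousOn (sη.c0 hL0)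
  have cη1 : ContinuousOn (fun x => (η1 x : ℂ)) (Icc 0 L) :=
    continuous_ofReal.comp_continuousOn (sη.c1 hL0)
  have iw2 : IntervalIntegrable (fun x => (w2 x : ℂ)) volume 0 L := by
    have h := (intervalIntegrable_iff_integrableOn_Ioc_of_le hL0).1 (sw.ii2 hL0)
    rw [intervalIntegrable_iff_integrableOn_Ioc_of_le hL0]
    exact Integrable.ofReal h
  have iη2 : IntervalIntegrable (fun x => (η2 x : ℂ)) volume 0 L := by
    have h := (intervalIntegrable_iff_integrableOn_Ioc_of_le hL0).1 (sη.ii2 hL0)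
    rw [intervalIntegrable_iff_integrableOn_Ioc_of_le hL0]
    exact Integrable.ofReal h
  have ii : ∀ f : ℝ → ℂ, ContinuousOn f (Icc 0 L) → IntervalIntegrable f volume 0 L := by
    intro f hf
    exact (hf.mono (by rw [hu])).intervalIntegrable
  have hw : (∫ x in (0 : ℝ)..L, (w2 x : ℂ) * P1 x)
      = w1 L * P1 L - w1 0 * P1 0 - ∫ x in (0 : ℝ)..L, (w1 x : ℂ) * P2 x :=
    ibp_ac hL0 sw.repr (sw.ii2 hL0) (fun x _ => (dP1 x).hasDerivWithinAt) cP2.continuousOn
  have hη : (∫ x in (0 : ℝ)..L, (η2 x : ℂ) * Q1 x)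
      = η1 L * Q1 L - η1 0 * Q1 0 - ∫ x in (0 : ℝ)..L, (η1 x : ℂ) * Q2 x :=
    ibp_ac hL0 sη.repr (sη.ii2 hL0) (fun x _ => (dQ1 x).hasDerivWithinAt) cQ2.continuousOn
  -- the total derivative
  have dw : ∀ x ∈ Icc (0 : ℝ) L, HasDerivWithinAt (fun x => (w x : ℂ)) (w1 x : ℂ) (Icc 0 L) x :=
    fun x hx => (sw.deriv x hx).ofReal_comp
  have dη : ∀ x ∈ Icc (0 : ℝ) L, HasDerivWithinAt (fun x => (η x : ℂ)) (η1 x : ℂ) (Icc 0 L) x :=
    fun x hx => (sη.deriv x hx).ofReal_comp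
  have htot : (∫ x in (0 : ℝ)..L,
      (((w1 x : ℂ) * P2 x + w x * P3 x) + (w1 x * P x + w x * P1 x)
        + (η1 x * Q2 x + η x * Q3 x) + (η1 x * Q x + η x * Q1 x)
        + ((η1 x * w x + η x * w1 x) * P x + η x * w x * P1 x)
        + ((w x * w1 x) * Q x + (1 / 2) * (w x) ^ 2 * Q1 x))) = 0 := by
    have h := kd3_primitive (L := L)
      (g := fun x => (w x : ℂ) * P2 x + w x * P x + η x * Q2 x + η x * Q x
        + η x * w x * P x + (1 / 2) * (w x) ^ 2 * Q x)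
      (g1 := fun x => (((w1 x : ℂ) * P2 x + w x * P3 x) + (w1 x * P x + w x * P1 x)
        + (η1 x * Q2 x + η x * Q3 x) + (η1 x * Q x + η x * Q1 x)
        + ((η1 x * w x + η x * w1 x) * P x + η x * w x * P1 x)
        + ((w x * w1 x) * Q x + (1 / 2) * (w x) ^ 2 * Q1 x)))
      (fun x hx => by
        have h1 := dw x hx
        have h2 := dη x hx
        have h3 := (dP x).hasDerivWithinAt (s := Icc 0 L)
        have h4 := (dP2 x).hasDerivWithinAt (s := Icc 0 L)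
        have h5 := (dQ x).hasDerivWithinAt (s := Icc 0 L)
        have h6 := (dQ2 x).hasDerivWithinAt (s := Icc 0 L)
        have h7 := (((((h1.mul h4).add (h1.mul h3)).add (h2.mul h6)).add (h2.mul h5)).add
          ((h2.mul h1).mul h3)).add (((h1.pow 2).const_mul (1 / 2 : ℂ)).mul h5)
        refine h7.congr_deriv ?_
        simp only [Pi.mul_apply, Pi.pow_apply]
        push_cast
        ring)
      (by
        have := cP.continuousOn (s := Icc 0 L)
        have := cP1.continuousOn (s := Icc 0 L)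
        have := cP2.continuousOn (s := Icc 0 L)
        have := cP3.continuousOn (s := Icc 0 L)
        have := cQ.continuousOn (s := Icc 0 L)
        have := cQ1.continuousOn (s := Icc 0 L)
        have := cQ2.continuousOn (s := Icc 0 L)
        have := cQ3.continuousOn (s := Icc 0 L)
        fun_prop) le_rfl hL0 le_rfl
    rw [h]
    simp [η0, ηL, w0, wL]
  have iw2P : IntervalIntegrable (fun x => (w2 x : ℂ) * P1 x) volume 0 L :=
    iw2.mul_continuousOn (by rw [hu]; exact cP1.continuousOn)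
  have iη2Q : IntervalIntegrable (fun x => (η2 x : ℂ) * Q1 x) volume 0 L :=
    iη2.mul_continuousOn (by rw [hu]; exact cQ1.continuousOn)
  have c1 := cP.continuousOn (s := Icc 0 L)
  have c2 := cP1.continuousOn (s := Icc 0 L)
  have c3 := cP2.continuousOn (s := Icc 0 L)
  have c4 := cP3.continuousOn (s := Icc 0 L)
  have c5 := cQ.continuousOn (s := Icc 0 L)
  have c6 := cQ1.continuousOn (s := Icc 0 L)
  have c7 := cQ2.continuousOn (s := Icc 0 L)
  have c8 := cQ3.continuousOn (s := Icc 0 L)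
  have e1 : (∫ x in (0 : ℝ)..L, ((w2 x : ℂ) * P1 x - w1 x * P x
        - (η1 x * w x + η x * w1 x) * P x))
      = (∫ x in (0 : ℝ)..L, (w2 x : ℂ) * P1 x)
        - ∫ x in (0 : ℝ)..L, ((w1 x : ℂ) * P x + (η1 x * w x + η x * w1 x) * P x) := by
    rw [← intervalIntegral.integral_sub iw2P (ii _ (by fun_prop))]
    refine intervalIntegral.integral_congr fun x _ => ?_
    ring
  have e2 : (∫ x in (0 : ℝ)..L, ((η2 x : ℂ) * Q1 x - η1 x * Q x - (w x * w1 x) * Q x))
      = (∫ x in (0 : ℝ)..L, (η2 x : ℂ) * Q1 x)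
        - ∫ x in (0 : ℝ)..L, ((η1 x : ℂ) * Q x + (w x * w1 x) * Q x) := by
    rw [← intervalIntegral.integral_sub iη2Q (ii _ (by fun_prop))]
    refine intervalIntegral.integral_congr fun x _ => ?_
    ring
  have e3 : (∫ x in (0 : ℝ)..L, ((w x : ℂ) * (P1 x + P3 x) + η x * (Q1 x + Q3 x)
          + η x * w x * P1 x + (1 / 2) * (w x) ^ 2 * Q1 x))
      + ((∫ x in (0 : ℝ)..L, (w1 x : ℂ) * P2 x) + (∫ x in (0 : ℝ)..L, (η1 x : ℂ) * Q2 x)
        + (∫ x in (0 : ℝ)..L, ((w1 x : ℂ) * P x + (η1 x * w x + η x * w1 x) * P x))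
        + ∫ x in (0 : ℝ)..L, ((η1 x : ℂ) * Q x + (w x * w1 x) * Q x)) = 0 := by
    rw [← htot, ← intervalIntegral.integral_add (ii _ (by fun_prop)) (ii _ (by fun_prop)),
      ← intervalIntegral.integral_add (ii _ (by fun_prop)) (ii _ (by fun_prop)),
      ← intervalIntegral.integral_add (ii _ (by fun_prop)) (ii _ (by fun_prop)),
      ← intervalIntegral.integral_add (ii _ (by fun_prop)) (ii _ (by fun_prop))]
    refine intervalIntegral.integral_congr fun x _ => ?_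
    ring
  rw [e1, e2, hw, hη]
  linear_combination (-1 : ℂ) * e3

theorem ident {L k ρ m N h : ℝ} (hL : 0 < L) {a b : ℤ → ℝ → ℝ} (hm : IsMode L k ρ a b)
    {V : ℕ → ℝ → ℝ} {H : ℕ → ℝ → ℂ} (hV : IsV L m N V) (hH : IsWKB L k h V H)
    {η η1 η2 w w1 w2 : ℝ → ℝ} (sη : IsSt L m η η1 η2) (sw : IsSt L m w w1 w2) :
    (∫ x in (0 : ℝ)..L, ((w2 x : ℂ) * (a 1 x * H 0 x + a 0 x * H 1 x)
        - w1 x * (a 0 x * H 0 x) - (η1 x * w x + η x * w1 x) * (a 0 x * H 0 x)))
    + (∫ x in (0 : ℝ)..L, ((η2 x : ℂ) * (I * (b 1 x * H 0 x + b 0 x * H 1 x))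
        - η1 x * (I * (b 0 x * H 0 x)) - (w x * w1 x) * (I * (b 0 x * H 0 x))))
    = I * (k - k ^ 3 : ℝ) * (∫ x in (0 : ℝ)..L, ((η x : ℂ) * a 0 x + I * (w x * b 0 x)) * H 0 x)
      - ρ * H 0 L * w1 L - I * ρ * η1 0
      + (∫ x in (0 : ℝ)..L, (V 0 x : ℂ) * H 0 x * ((I / k) * w x * (a 2 x + k * b 1 x)
          - (1 / k) * η x * (b 2 x - k * a 1 x)))
      + (∫ x in (0 : ℝ)..L, (w x : ℂ) * (3 * H 2 x * a 1 x + (H 1 x + H 3 x) * a 0 x
          + I * V 0 x * H 1 x * b 0 x))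
      + (∫ x in (0 : ℝ)..L, (η x : ℂ) * (3 * I * H 2 x * b 1 x + I * (H 1 x + H 3 x) * b 0 x
          + V 0 x * H 1 x * a 0 x))
      - (1 / 2) * (∫ x in (0 : ℝ)..L, (V 0 x : ℂ) ^ 2 * (I * (b 1 x * H 0 x + b 0 x * H 1 x)))
      + ((∫ x in (0 : ℝ)..L, (η x : ℂ) * (w x - V 0 x) * (a 1 x * H 0 x + a 0 x * H 1 x))
        + (1 / 2) * ∫ x in (0 : ℝ)..L, ((w x : ℂ) - V 0 x) ^ 2
            * (I * (b 1 x * H 0 x + b 0 x * H 1 x))) := by
  have hL0 : (0 : ℝ) ≤ L := hL.le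
  have hu : uIcc (0 : ℝ) L = Icc 0 L := uIcc_of_le hL0
  have hk0 : (k : ℂ) ≠ 0 := by
    have : k ≠ 0 := by
      have := hm.hk
      linarith
    exact_mod_cast this
  have da : ∀ (j : ℤ) (x : ℝ), HasDerivAt (fun x => (a j x : ℂ)) (a (j + 1) x : ℂ) x :=
    fun j x => (hm.da j x).ofReal_comp
  have db : ∀ (j : ℤ) (x : ℝ), HasDerivAt (fun x => (b j x : ℂ)) (b (j + 1) x : ℂ) x :=
    fun j x => (hm.db j x).ofReal_comp
  have d0 : ∀ x, HasDerivAt (H 0) (H 1 x) x := hH.d 0 (by norm_num)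
  have d1 : ∀ x, HasDerivAt (H 1) (H 2 x) x := hH.d 1 (by norm_num)
  have d2 : ∀ x, HasDerivAt (H 2) (H 3 x) x := hH.d 2 (by norm_num)
  have d3 : ∀ x, HasDerivAt (H 3) (H 4 x) x := hH.d 3 (by norm_num)
  have cH0 : Continuous (H 0) := continuous_iff_continuousAt.2 fun x => (d0 x).continuousAt
  have cH1 : Continuous (H 1) := continuous_iff_continuousAt.2 fun x => (d1 x).continuousAt
  have cH2 : Continuous (H 2) := continuous_iff_continuousAt.2 fun x => (d2 x).continuousAt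
  have cH3 : Continuous (H 3) := continuous_iff_continuousAt.2 fun x => (d3 x).continuousAt
  have ca : ∀ j : ℤ, Continuous (fun x => (a j x : ℂ)) := fun j =>
    continuous_iff_continuousAt.2 fun x => (da j x).continuousAt
  have cb : ∀ j : ℤ, Continuous (fun x => (b j x : ℂ)) := fun j =>
    continuous_iff_continuousAt.2 fun x => (db j x).continuousAt
  have cV : Continuous (fun x => (V 0 x : ℂ)) :=
    continuous_iff_continuousAt.2 fun x => ((hV.d 0 x).ofReal_comp).continuousAt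
  have da0 : ∀ x, HasDerivAt (fun x => (a 0 x : ℂ)) (a 1 x : ℂ) x := fun x => da 0 x
  have da1 : ∀ x, HasDerivAt (fun x => (a 1 x : ℂ)) (a 2 x : ℂ) x := fun x => da 1 x
  have da2 : ∀ x, HasDerivAt (fun x => (a 2 x : ℂ)) (a 3 x : ℂ) x := fun x => da 2 x
  have db0 : ∀ x, HasDerivAt (fun x => (b 0 x : ℂ)) (b 1 x : ℂ) x := fun x => db 0 x
  have db1 : ∀ x, HasDerivAt (fun x => (b 1 x : ℂ)) (b 2 x : ℂ) x := fun x => db 1 x
  have db2 : ∀ x, HasDerivAt (fun x => (b 2 x : ℂ)) (b 3 x : ℂ) x := fun x => db 2 x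
  have ca0 := ca 0
  have ca1 := ca 1
  have ca2 := ca 2
  have ca3 := ca 3
  have cb0 := cb 0
  have cb1 := cb 1
  have cb2 := cb 2
  have cb3 := cb 3
  have cw : ContinuousOn (fun x => (w x : ℂ)) (Icc 0 L) :=
    continuous_ofReal.comp_continuousOn (sw.h2.c0 hL0)
  have cη : ContinuousOn (fun x => (η x : ℂ)) (Icc 0 L) :=
    continuous_ofReal.comp_continuousOn (sη.h2.c0 hL0)
  have ii : ∀ f : ℝ → ℂ, ContinuousOn f (Icc 0 L) → IntervalIntegrable f volume 0 L := by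
    intro f hf
    exact (hf.mono (by rw [hu])).intervalIntegrable
  have key := kd7_parts hL (P := fun x => (a 0 x : ℂ) * H 0 x)
    (P1 := fun x => (a 1 x : ℂ) * H 0 x + a 0 x * H 1 x)
    (P2 := fun x => (a 2 x : ℂ) * H 0 x + 2 * a 1 x * H 1 x + a 0 x * H 2 x)
    (P3 := fun x => (a 3 x : ℂ) * H 0 x + 3 * a 2 x * H 1 x + 3 * a 1 x * H 2 x + a 0 x * H 3 x)
    (Q := fun x => I * ((b 0 x : ℂ) * H 0 x))
    (Q1 := fun x => I * ((b 1 x : ℂ) * H 0 x + b 0 x * H 1 x))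
    (Q2 := fun x => I * ((b 2 x : ℂ) * H 0 x + 2 * b 1 x * H 1 x + b 0 x * H 2 x))
    (Q3 := fun x => I * ((b 3 x : ℂ) * H 0 x + 3 * b 2 x * H 1 x + 3 * b 1 x * H 2 x
      + b 0 x * H 3 x))
    (fun x => (da0 x).mul (d0 x))
    (fun x => (((da1 x).mul (d0 x)).add ((da0 x).mul (d1 x))).congr_deriv (by ring))
    (fun x => ((((da2 x).mul (d0 x)).add (((da1 x).const_mul (2 : ℂ)).mul (d1 x))).add
      ((da0 x).mul (d2 x))).congr_deriv (by ring))
    (by fun_prop)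
    (fun x => ((db0 x).mul (d0 x)).const_mul I)
    (fun x => ((((db1 x).mul (d0 x)).add ((db0 x).mul (d1 x))).const_mul I).congr_deriv
      (by ring))
    (fun x => (((((db2 x).mul (d0 x)).add (((db1 x).const_mul (2 : ℂ)).mul (d1 x))).add
      ((db0 x).mul (d2 x))).const_mul I).congr_deriv (by ring))
    (by fun_prop) sη.h2 sw.h2 sη.f0 sη.fL sw.f0 sw.fL
  rw [key]
  -- pull everything into one integral
  have c1 := cH0.continuousOn (s := Icc 0 L)
  have c2 := cH1.continuousOn (s := Icc 0 L)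
  have c3 := cH2.continuousOn (s := Icc 0 L)
  have c4 := cH3.continuousOn (s := Icc 0 L)
  have c5 := ca0.continuousOn (s := Icc 0 L)
  have c6 := ca1.continuousOn (s := Icc 0 L)
  have c7 := ca2.continuousOn (s := Icc 0 L)
  have c8 := ca3.continuousOn (s := Icc 0 L)
  have c9 := cb0.continuousOn (s := Icc 0 L)
  have c10 := cb1.continuousOn (s := Icc 0 L)
  have c11 := cb2.continuousOn (s := Icc 0 L)
  have c12 := cb3.continuousOn (s := Icc 0 L)
  have c13 := cV.continuousOn (s := Icc 0 L)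
  have hbdP : (w1 L : ℂ) * (a 1 L * H 0 L + a 0 L * H 1 L)
      - w1 0 * (a 1 0 * H 0 0 + a 0 0 * H 1 0) = - (ρ * H 0 L * w1 L) := by
    rw [hm.a1L, hm.a0L, hm.a10, hm.a00]
    push_cast
    ring
  have hbdQ : (η1 L : ℂ) * (I * (b 1 L * H 0 L + b 0 L * H 1 L))
      - η1 0 * (I * (b 1 0 * H 0 0 + b 0 0 * H 1 0)) = - (I * ρ * η1 0) := by
    rw [hm.b1L, hm.b0L, hm.b10, hm.b00, hH.H00]
    push_cast
    ring
  rw [hbdP, hbdQ]
  have hint : (∫ x in (0 : ℝ)..L, ((w x : ℂ) * ((a 1 x * H 0 x + a 0 x * H 1 x)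
          + (a 3 x * H 0 x + 3 * a 2 x * H 1 x + 3 * a 1 x * H 2 x + a 0 x * H 3 x))
        + η x * (I * (b 1 x * H 0 x + b 0 x * H 1 x)
          + I * (b 3 x * H 0 x + 3 * b 2 x * H 1 x + 3 * b 1 x * H 2 x + b 0 x * H 3 x))
        + η x * w x * (a 1 x * H 0 x + a 0 x * H 1 x)
        + (1 / 2) * (w x) ^ 2 * (I * (b 1 x * H 0 x + b 0 x * H 1 x))))
      = I * (k - k ^ 3 : ℝ)
          * (∫ x in (0 : ℝ)..L, ((η x : ℂ) * a 0 x + I * (w x * b 0 x)) * H 0 x)
      + (∫ x in (0 : ℝ)..L, (V 0 x : ℂ) * H 0 x * ((I / k) * w x * (a 2 x + k * b 1 x)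
          - (1 / k) * η x * (b 2 x - k * a 1 x)))
      + (∫ x in (0 : ℝ)..L, (w x : ℂ) * (3 * H 2 x * a 1 x + (H 1 x + H 3 x) * a 0 x
          + I * V 0 x * H 1 x * b 0 x))
      + (∫ x in (0 : ℝ)..L, (η x : ℂ) * (3 * I * H 2 x * b 1 x + I * (H 1 x + H 3 x) * b 0 x
          + V 0 x * H 1 x * a 0 x))
      - (1 / 2) * (∫ x in (0 : ℝ)..L, (V 0 x : ℂ) ^ 2 * (I * (b 1 x * H 0 x + b 0 x * H 1 x)))
      + ((∫ x in (0 : ℝ)..L, (η x : ℂ) * (w x - V 0 x) * (a 1 x * H 0 x + a 0 x * H 1 x))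
        + (1 / 2) * ∫ x in (0 : ℝ)..L, ((w x : ℂ) - V 0 x) ^ 2
            * (I * (b 1 x * H 0 x + b 0 x * H 1 x))) := by
    rw [← intervalIntegral.integral_const_mul, ← intervalIntegral.integral_const_mul (1 / 2 : ℂ),
      ← intervalIntegral.integral_const_mul (1 / 2 : ℂ),
      ← intervalIntegral.integral_add (ii _ (by fun_prop)) (ii _ (by fun_prop)),
      ← intervalIntegral.integral_add (ii _ (by fun_prop)) (ii _ (by fun_prop)),
      ← intervalIntegral.integral_add (ii _ (by fun_prop)) (ii _ (by fun_prop)),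
      ← intervalIntegral.integral_sub (ii _ (by fun_prop)) (ii _ (by fun_prop)),
      ← intervalIntegral.integral_add (ii _ (by fun_prop)) (ii _ (by fun_prop)),
      ← intervalIntegral.integral_add (ii _ (by fun_prop)) (ii _ (by fun_prop))]
    refine intervalIntegral.integral_congr fun x _ => ?_
    have hA : (a 3 x : ℂ) = -(k - k ^ 3) * b 0 x - a 1 x := by
      have := hm.oda x
      have h3 : a 3 x = -(k - k ^ 3) * b 0 x - a 1 x := by linarith
      rw [h3]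
      push_cast
      ring
    have hB : (b 3 x : ℂ) = (k - k ^ 3) * a 0 x - b 1 x := by
      have := hm.odb x
      have h3 : b 3 x = (k - k ^ 3) * a 0 x - b 1 x := by linarith
      rw [h3]
      push_cast
      ring
    have hI : I ^ 2 = -1 := I_sq
    rw [hA, hB, hH.H1 x]
    push_cast
    field_simp
    ring_nf
    simp only [hI]
    ring
  rw [hint]
  ring

end Pool.Agent.KD
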