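import Pool.Agent.KD.Ibp

/-!
# KD-10: the time derivatives of the tested quantities
-/

open MeasureTheory Set Complex

namespace Pool.Agent.KD

/-- the real and imaginary parts of a complex test function are test functions -/
theorem kd10_test {L : ℝ} {p p1 : ℝ → ℂ}
    (hp : ∀ x ∈ Icc (0 : ℝ) L, HasDerivWithinAt p (p1 x) (Icc 0 L) x)
    (cp : ContinuousOn p1 (Icc 0 L)) (p0 : p 0 = 0) (pL : p L = 0) :
    IsTest L (fun x => (p x).re) (fun x => (p1 x).re) ∧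
      IsTest L (fun x => (p x).im) (fun x => (p1 x).im) := by
  refine ⟨⟨fun x hx => ?_, Complex.continuous_re.comp_continuousOn cp, ?_, ?_⟩,
    ⟨fun x hx => ?_, Complex.continuous_im.comp_continuousOn cp, ?_, ?_⟩⟩
  · exact Complex.reCLM.hasFDerivAt.comp_hasDerivWithinAt x (hp x hx)
  · simp [p0]
  · simp [pL]
  · exact Complex.imCLM.hasFDerivAt.comp_hasDerivWithinAt x (hp x hx)
  · simp [p0]
  · simp [pL]

theorem kd10_split {L : ℝ} {u v : ℝ → ℝ} {f : ℝ → ℂ} (hu : IntervalIntegrable u volume 0 L)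
    (hv : IntervalIntegrable v volume 0 L) (hL : 0 ≤ L)
    (hf : ∀ x ∈ Icc (0 : ℝ) L, f x = (u x : ℂ) + I * (v x : ℂ)) :
    (∫ x in (0 : ℝ)..L, f x) = ((∫ x in (0 : ℝ)..L, u x : ℝ) : ℂ)
      + I * ((∫ x in (0 : ℝ)..L, v x : ℝ) : ℂ) := by
  have h1 : (∫ x in (0 : ℝ)..L, f x) = ∫ x in (0 : ℝ)..L, ((u x : ℂ) + I * (v x : ℂ)) := by
    apply intervalIntegral.integral_congr
    intro x hx
    rw [Set.uIcc_of_le hL] at hx
    exact hf x hx
  have hu' : IntervalIntegrable (fun x => (u x : ℂ)) volume 0 L :=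
    ⟨Integrable.ofReal hu.1, Integrable.ofReal hu.2⟩
  have hv' : IntervalIntegrable (fun x => (v x : ℂ)) volume 0 L :=
    ⟨Integrable.ofReal hv.1, Integrable.ofReal hv.2⟩
  rw [h1, intervalIntegral.integral_add hu' (hv'.const_mul I),
    intervalIntegral.integral_const_mul, intervalIntegral.integral_ofReal,
    intervalIntegral.integral_ofReal]

/-- integrability of a product of an integrable and a continuous function on `[0,L]` -/
theorem kd10_ii {L : ℝ} (hL : 0 ≤ L) {u v : ℝ → ℝ} (hu : IntervalIntegrable u volume 0 L)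
    (hv : ContinuousOn v (Icc 0 L)) : IntervalIntegrable (fun x => u x * v x) volume 0 L := by
  apply hu.mul_continuousOn
  rwa [Set.uIcc_of_le hL]

theorem kd10_ic {L : ℝ} (hL : 0 ≤ L) {v : ℝ → ℝ} (hv : ContinuousOn v (Icc 0 L)) :
    IntervalIntegrable v volume 0 L := by
  apply ContinuousOn.intervalIntegrable
  rwa [Set.uIcc_of_le hL]

/-- one equation: the passage from real to complex test functions -/
theorem kd10_deriv {L T : ℝ} (hL : 0 ≤ L) {e : ℝ → ℝ → ℝ} {A2 A1 B : ℝ → ℝ} {t : ℝ}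
    (ht : t ∈ Icc (0 : ℝ) T)
    (he : ∀ s ∈ Icc (0 : ℝ) T, ContinuousOn (e s) (Icc 0 L))
    (hA2 : IntervalIntegrable A2 volume 0 L) (hA1 : ContinuousOn A1 (Icc 0 L))
    (hB : ContinuousOn B (Icc 0 L))
    (h : ∀ p p1 : ℝ → ℝ, IsTest L p p1 →
      HasDerivWithinAt (fun s => ∫ x in (0 : ℝ)..L, e s x * p x)
        (∫ x in (0 : ℝ)..L, (A2 x * p1 x - A1 x * p x - B x * p x)) (Icc 0 T) t)
    {p p1 : ℝ → ℂ}
    (hp : ∀ x ∈ Icc (0 : ℝ) L, HasDerivWithinAt p (p1 x) (Icc 0 L) x)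
    (cp : ContinuousOn p1 (Icc 0 L)) (p0 : p 0 = 0) (pL : p L = 0) :
    HasDerivWithinAt (fun s => ∫ x in (0 : ℝ)..L, (e s x : ℂ) * p x)
      (∫ x in (0 : ℝ)..L, ((A2 x : ℂ) * p1 x - A1 x * p x - B x * p x)) (Icc 0 T) t := by
  obtain ⟨hr, hi⟩ := kd10_test hp cp p0 pL
  have cpp : ContinuousOn p (Icc 0 L) := fun x hx => (hp x hx).continuousWithinAt
  have cr : ContinuousOn (fun x => (p x).re) (Icc 0 L) :=
    Complex.continuous_re.comp_continuousOn cpp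
  have ci : ContinuousOn (fun x => (p x).im) (Icc 0 L) :=
    Complex.continuous_im.comp_continuousOn cpp
  have key : ∀ s ∈ Icc (0 : ℝ) T, (∫ x in (0 : ℝ)..L, (e s x : ℂ) * p x)
      = ((∫ x in (0 : ℝ)..L, e s x * (p x).re : ℝ) : ℂ)
        + I * ((∫ x in (0 : ℝ)..L, e s x * (p x).im : ℝ) : ℂ) := by
    intro s hs
    apply kd10_split (kd10_ic hL ((he s hs).mul cr)) (kd10_ic hL ((he s hs).mul ci)) hL
    intro x _
    apply Complex.ext
    · simp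
    · simp
  have val : (∫ x in (0 : ℝ)..L, ((A2 x : ℂ) * p1 x - A1 x * p x - B x * p x))
      = ((∫ x in (0 : ℝ)..L, (A2 x * (p1 x).re - A1 x * (p x).re - B x * (p x).re) : ℝ) : ℂ)
        + I * ((∫ x in (0 : ℝ)..L,
          (A2 x * (p1 x).im - A1 x * (p x).im - B x * (p x).im) : ℝ) : ℂ) := by
    apply kd10_split
    · exact ((kd10_ii hL hA2 hr.cont).sub (kd10_ic hL (hA1.mul cr))).sub
        (kd10_ic hL (hB.mul cr))
    · exact ((kd10_ii hL hA2 hi.cont).sub (kd10_ic hL (hA1.mul ci))).sub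
        (kd10_ic hL (hB.mul ci))
    · exact hL
    · intro x _
      apply Complex.ext
      · simp
      · simp
  rw [val]
  have d1 := (h _ _ hr).ofReal_comp
  have d2 := ((h _ _ hi).ofReal_comp).const_mul I
  exact (d1.add d2).congr (fun s hs => key s hs) (key t ht)

theorem deriv_cη {L T : ℝ} (hL : 0 < L) {η η1 η2 w w1 w2 : ℝ → ℝ → ℝ}
    (hs : IsOpenSol L T η η1 η2 w w1 w2) {p p1 : ℝ → ℂ}
    (hp : ∀ x ∈ Icc (0 : ℝ) L, HasDerivWithinAt p (p1 x) (Icc 0 L) x)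
    (cp : ContinuousOn p1 (Icc 0 L)) (p0 : p 0 = 0) (pL : p L = 0) :
    ∀ t ∈ Icc (0 : ℝ) T, HasDerivWithinAt (fun s => ∫ x in (0 : ℝ)..L, (η s x : ℂ) * p x)
      (∫ x in (0 : ℝ)..L, ((w2 t x : ℂ) * p1 x - w1 t x * p x
        - (η1 t x * w t x + η t x * w1 t x) * p x)) (Icc 0 T) t := by
  intro t ht
  have h := kd10_deriv (L := L) (T := T) hL.le (e := η) (A2 := w2 t) (A1 := w1 t)
    (B := fun x => η1 t x * w t x + η t x * w1 t x) ht
    (fun s hs' => (hs.h2η s hs').c0 hL.le) ((hs.h2w t ht).ii2 hL.le) ((hs.h2w t ht).c1 hL.le)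
    ((((hs.h2η t ht).c1 hL.le).mul ((hs.h2w t ht).c0 hL.le)).add
      (((hs.h2η t ht).c0 hL.le).mul ((hs.h2w t ht).c1 hL.le)))
    (fun q q1 hq => hs.eqη q q1 hq t ht) hp cp p0 pL
  convert h using 1
  apply intervalIntegral.integral_congr
  intro x _
  push_cast
  rfl

theorem deriv_cw {L T : ℝ} (hL : 0 < L) {η η1 η2 w w1 w2 : ℝ → ℝ → ℝ}
    (hs : IsOpenSol L T η η1 η2 w w1 w2) {p p1 : ℝ → ℂ}
    (hp : ∀ x ∈ Icc (0 : ℝ) L, HasDerivWithinAt p (p1 x) (Icc 0 L) x)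
    (cp : ContinuousOn p1 (Icc 0 L)) (p0 : p 0 = 0) (pL : p L = 0) :
    ∀ t ∈ Icc (0 : ℝ) T, HasDerivWithinAt (fun s => ∫ x in (0 : ℝ)..L, (w s x : ℂ) * p x)
      (∫ x in (0 : ℝ)..L, ((η2 t x : ℂ) * p1 x - η1 t x * p x
        - (w t x * w1 t x) * p x)) (Icc 0 T) t := by
  intro t ht
  have h := kd10_deriv (L := L) (T := T) hL.le (e := w) (A2 := η2 t) (A1 := η1 t)
    (B := fun x => w t x * w1 t x) ht
    (fun s hs' => (hs.h2w s hs').c0 hL.le) ((hs.h2η t ht).ii2 hL.le) ((hs.h2η t ht).c1 hL.le)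
    (((hs.h2w t ht).c0 hL.le).mul ((hs.h2w t ht).c1 hL.le))
    (fun q q1 hq => hs.eqw q q1 hq t ht) hp cp p0 pL
  convert h using 1
  apply intervalIntegral.integral_congr
  intro x _
  push_cast
  rfl

theorem kd10_bound {L m : ℝ} (hL : 0 ≤ L) (hm : 0 ≤ m) {A2 A1 B p p1 : ℝ → ℝ}
    (hA2 : IntervalIntegrable A2 volume 0 L) (i1 : (∫ x in (0 : ℝ)..L, |A2 x|) ≤ m)
    (bA1 : ∀ x ∈ Icc (0 : ℝ) L, |A1 x| ≤ m) (bB : ∀ x ∈ Icc (0 : ℝ) L, |B x| ≤ 2 * m ^ 2)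
    (bp : ∀ x ∈ Icc (0 : ℝ) L, |p x| ≤ 2 * m) (bp1 : ∀ x ∈ Icc (0 : ℝ) L, |p1 x| ≤ 2 * m) :
    |∫ x in (0 : ℝ)..L, (A2 x * p1 x - A1 x * p x - B x * p x)|
      ≤ 2 * m ^ 2 + 2 * m ^ 2 * L + 4 * m ^ 3 * L := by
  have hg : IntervalIntegrable (fun x => 2 * m * |A2 x| + (2 * m ^ 2 + 4 * m ^ 3)) volume 0 L :=
    (hA2.abs.const_mul _).add intervalIntegrable_const
  have h1 := intervalIntegral.norm_integral_le_of_norm_le (f := fun x =>
    A2 x * p1 x - A1 x * p x - B x * p x) hL (Filter.Eventually.of_forall fun x hx => ?_) hg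
  · rw [Real.norm_eq_abs] at h1
    refine h1.trans ?_
    rw [intervalIntegral.integral_add (hA2.abs.const_mul _) intervalIntegrable_const,
      intervalIntegral.integral_const_mul, intervalIntegral.integral_const]
    simp only [smul_eq_mul, sub_zero]
    nlinarith [mul_le_mul_of_nonneg_left i1 hm]
  · have hx' : x ∈ Icc (0 : ℝ) L := ⟨hx.1.le, hx.2⟩
    have a1 := bA1 x hx'
    have a2 := bB x hx'
    have a3 := bp x hx'
    have a4 := bp1 x hx'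
    have e1 : |A2 x * p1 x| ≤ 2 * m * |A2 x| := by
      rw [abs_mul]
      nlinarith [abs_nonneg (A2 x)]
    have e2 : |A1 x * p x| ≤ 2 * m ^ 2 := by
      rw [abs_mul]
      calc |A1 x| * |p x| ≤ m * (2 * m) := mul_le_mul a1 a3 (abs_nonneg _) hm
        _ = 2 * m ^ 2 := by ring
    have e3 : |B x * p x| ≤ 4 * m ^ 3 := by
      rw [abs_mul]
      calc |B x| * |p x| ≤ (2 * m ^ 2) * (2 * m) :=
            mul_le_mul a2 a3 (abs_nonneg _) (by positivity)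
        _ = 4 * m ^ 3 := by ring
    rw [Real.norm_eq_abs]
    calc |A2 x * p1 x - A1 x * p x - B x * p x|
        ≤ |A2 x * p1 x - A1 x * p x| + |B x * p x| := abs_sub _ _
      _ ≤ |A2 x * p1 x| + |A1 x * p x| + |B x * p x| := by gcongr; exact abs_sub _ _
      _ ≤ 2 * m * |A2 x| + (2 * m ^ 2 + 4 * m ^ 3) := by linarith

/-- one component: the square distance to the initial value grows at most linearly -/
theorem kd10_small {L m T : ℝ} (hL : 0 ≤ L) (hm : 0 ≤ m) {e e1 e2 A2 A1 B : ℝ → ℝ → ℝ}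
    (he : ∀ s ∈ Icc (0 : ℝ) T, IsSt L m (e s) (e1 s) (e2 s))
    (hA2 : ∀ s ∈ Icc (0 : ℝ) T, IntervalIntegrable (A2 s) volume 0 L)
    (i1 : ∀ s ∈ Icc (0 : ℝ) T, (∫ x in (0 : ℝ)..L, |A2 s x|) ≤ m)
    (bA1 : ∀ s ∈ Icc (0 : ℝ) T, ∀ x ∈ Icc (0 : ℝ) L, |A1 s x| ≤ m)
    (bB : ∀ s ∈ Icc (0 : ℝ) T, ∀ x ∈ Icc (0 : ℝ) L, |B s x| ≤ 2 * m ^ 2)
    (h : ∀ p p1 : ℝ → ℝ, IsTest L p p1 → ∀ s ∈ Icc (0 : ℝ) T,
      HasDerivWithinAt (fun s => ∫ x in (0 : ℝ)..L, e s x * p x)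
        (∫ x in (0 : ℝ)..L, (A2 s x * p1 x - A1 s x * p x - B s x * p x)) (Icc 0 T) s)
    {t : ℝ} (ht : t ∈ Icc (0 : ℝ) T) :
    (∫ x in (0 : ℝ)..L, (e t x - e 0 x) ^ 2)
      ≤ (2 * m ^ 2 + 2 * m ^ 2 * L + 4 * m ^ 3 * L) * t := by
  have h0 : (0 : ℝ) ∈ Icc (0 : ℝ) T := ⟨le_refl _, ht.1.trans ht.2⟩
  have st := he t ht
  have s0 := he 0 h0
  have test : IsTest L (fun x => e t x - e 0 x) (fun x => e1 t x - e1 0 x) := by
    refine ⟨fun x hx => (st.h2.deriv x hx).sub (s0.h2.deriv x hx),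
      (st.h2.c1 hL).sub (s0.h2.c1 hL), ?_, ?_⟩
    · show e t 0 - e 0 0 = 0
      rw [st.f0, s0.f0, sub_zero]
    · show e t L - e 0 L = 0
      rw [st.fL, s0.fL, sub_zero]
  have hd := h _ _ test
  have bd : ∀ s ∈ Icc (0 : ℝ) T,
      ‖∫ x in (0 : ℝ)..L, (A2 s x * (e1 t x - e1 0 x) - A1 s x * (e t x - e 0 x)
        - B s x * (e t x - e 0 x))‖ ≤ 2 * m ^ 2 + 2 * m ^ 2 * L + 4 * m ^ 3 * L := by
    intro s hs
    rw [Real.norm_eq_abs]
    apply kd10_bound hL hm (hA2 s hs) (i1 s hs) (bA1 s hs) (bB s hs)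
    · intro x hx
      have a := abs_sub (e t x) (e 0 x)
      have b := st.b0 x hx
      have c := s0.b0 x hx
      linarith
    · intro x hx
      have a := abs_sub (e1 t x) (e1 0 x)
      have b := st.b1 x hx
      have c := s0.b1 x hx
      linarith
  have mv := (convex_Icc (0 : ℝ) T).norm_image_sub_le_of_norm_hasDerivWithin_le
    (fun s hs => hd s hs) bd h0 ht
  have ct : ContinuousOn (e t) (Icc 0 L) := st.h2.c0 hL
  have c0 : ContinuousOn (e 0) (Icc 0 L) := s0.h2.c0 hL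
  have eq : (∫ x in (0 : ℝ)..L, e t x * (e t x - e 0 x))
      - (∫ x in (0 : ℝ)..L, e 0 x * (e t x - e 0 x)) = ∫ x in (0 : ℝ)..L, (e t x - e 0 x) ^ 2 := by
    have q1 : IntervalIntegrable (fun x => e t x * (e t x - e 0 x)) volume 0 L :=
      kd10_ic hL (ct.mul (ct.sub c0))
    have q2 : IntervalIntegrable (fun x => e 0 x * (e t x - e 0 x)) volume 0 L :=
      kd10_ic hL (c0.mul (ct.sub c0))
    rw [← intervalIntegral.integral_sub q1 q2]
    apply intervalIntegral.integral_congr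
    intro x _
    ring
  rw [← eq]
  refine (le_abs_self _).trans ?_
  rw [Real.norm_eq_abs, Real.norm_eq_abs, sub_zero, abs_of_nonneg ht.1] at mv
  exact mv

theorem l2_small (L : ℝ) (hL : 0 < L) (m : ℝ) (hm : 1 ≤ m) : ∃ C : ℝ, 0 < C ∧
    ∀ (T : ℝ) (η η1 η2 w w1 w2 : ℝ → ℝ → ℝ), IsOpenSol L T η η1 η2 w w1 w2 →
    (∀ t ∈ Icc (0 : ℝ) T, IsSt L m (η t) (η1 t) (η2 t) ∧ IsSt L m (w t) (w1 t) (w2 t)) →
    ∀ t ∈ Icc (0 : ℝ) T, (∫ x in (0 : ℝ)..L, (η t x - η 0 x) ^ 2) ≤ C * t ∧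
      (∫ x in (0 : ℝ)..L, (w t x - w 0 x) ^ 2) ≤ C * t := by
  have hm0 : 0 ≤ m := by linarith
  refine ⟨2 * m ^ 2 + 2 * m ^ 2 * L + 4 * m ^ 3 * L, by positivity, ?_⟩
  intro T η η1 η2 w w1 w2 hs hst t ht
  have bm : ∀ {u v : ℝ}, |u| ≤ m → |v| ≤ m → |u * v| ≤ m ^ 2 := by
    intro u v hu hv
    rw [abs_mul, pow_two]
    exact mul_le_mul hu hv (abs_nonneg _) hm0
  constructor
  · refine kd10_small (e1 := η1) (e2 := η2) (A2 := w2) (A1 := w1)
      (B := fun s x => η1 s x * w s x + η s x * w1 s x) hL.le hm0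
      (fun s hs' => (hst s hs').1) (fun s hs' => (hst s hs').2.h2.ii2 hL.le)
      (fun s hs' => (hst s hs').2.i1) (fun s hs' => (hst s hs').2.b1) ?_ ?_ ht
    · intro s hs' x hx
      have a1 := bm ((hst s hs').1.b1 x hx) ((hst s hs').2.b0 x hx)
      have a2 := bm ((hst s hs').1.b0 x hx) ((hst s hs').2.b1 x hx)
      have a3 := abs_add_le (η1 s x * w s x) (η s x * w1 s x)
      show |η1 s x * w s x + η s x * w1 s x| ≤ 2 * m ^ 2
      linarith
    · intro p p1 hp s hs'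
      exact hs.eqη p p1 hp s hs'
  · refine kd10_small (e1 := w1) (e2 := w2) (A2 := η2) (A1 := η1)
      (B := fun s x => w s x * w1 s x) hL.le hm0
      (fun s hs' => (hst s hs').2) (fun s hs' => (hst s hs').1.h2.ii2 hL.le)
      (fun s hs' => (hst s hs').1.i1) (fun s hs' => (hst s hs').1.b1) ?_ ?_ ht
    · intro s hs' x hx
      have a1 := bm ((hst s hs').2.b0 x hx) ((hst s hs').2.b1 x hx)
      show |w s x * w1 s x| ≤ 2 * m ^ 2
      nlinarith [sq_nonneg m]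
    · intro p p1 hp s hs'
      exact hs.eqw p p1 hp s hs'

end Pool.Agent.KD
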