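import Pool.Agent.KD.Defs

/-! The WKB multiplier (project KD, MP_11a591_an, row KD-9). -/

open MeasureTheory Set Complex

namespace Pool.Agent.KD

/-- the exponent derivatives `θ_j = i V_j / (3k)` -/
noncomputable def kd9_th (k : ℝ) (V : ℕ → ℝ → ℝ) (j : ℕ) (x : ℝ) : ℂ :=
  I * (V j x : ℂ) / (3 * (k : ℂ))

/-- the exponential `exp (i/(3k) ∫₀ˣ V₀)` -/
noncomputable def kd9_E (k : ℝ) (V : ℕ → ℝ → ℝ) (x : ℝ) : ℂ :=
  cexp (I * ((∫ y in (0 : ℝ)..x, V 0 y : ℝ) : ℂ) / (3 * (k : ℂ)))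

/-- the sequence `H` -/
noncomputable def kd9_H (k : ℝ) (V : ℕ → ℝ → ℝ) : ℕ → ℝ → ℂ
  | 0 => fun x => kd9_E k V x
  | 1 => fun x => kd9_th k V 0 x * kd9_E k V x
  | 2 => fun x => (kd9_th k V 1 x + kd9_th k V 0 x ^ 2) * kd9_E k V x
  | 3 => fun x => (kd9_th k V 2 x + 3 * kd9_th k V 0 x * kd9_th k V 1 x
      + kd9_th k V 0 x ^ 3) * kd9_E k V x
  | _ => fun x => (kd9_th k V 3 x + 4 * kd9_th k V 0 x * kd9_th k V 2 x
      + 3 * kd9_th k V 1 x ^ 2 + 6 * kd9_th k V 0 x ^ 2 * kd9_th k V 1 x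
      + kd9_th k V 0 x ^ 4) * kd9_E k V x

theorem kd9_th_deriv {L m N k : ℝ} {V : ℕ → ℝ → ℝ} (hV : IsV L m N V) (j : ℕ) (x : ℝ) :
    HasDerivAt (kd9_th k V j) (kd9_th k V (j + 1) x) x := by
  have h := (hV.d j x).ofReal_comp
  have h2 := (h.const_mul I).div_const (3 * (k : ℂ))
  exact h2

theorem kd9_E_deriv {L m N k : ℝ} {V : ℕ → ℝ → ℝ} (hV : IsV L m N V) (x : ℝ) :
    HasDerivAt (kd9_E k V) (kd9_th k V 0 x * kd9_E k V x) x := by
  have hc : Continuous (V 0) :=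
    continuous_iff_continuousAt.mpr fun y => (hV.d 0 y).continuousAt
  have h0 : HasDerivAt (fun u => ∫ y in (0 : ℝ)..u, V 0 y) (V 0 x) x :=
    intervalIntegral.integral_hasDerivAt_right (hc.intervalIntegrable _ _)
      (hc.stronglyMeasurableAtFilter _ _) hc.continuousAt
  have h1 := h0.ofReal_comp
  have h2 := ((h1.const_mul I).div_const (3 * (k : ℂ))).cexp
  refine h2.congr_deriv ?_
  simp only [kd9_th, kd9_E]
  ring

theorem kd9_E_norm (k : ℝ) (V : ℕ → ℝ → ℝ) (x : ℝ) : ‖kd9_E k V x‖ = 1 := by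
  have h : I * ((∫ y in (0 : ℝ)..x, V 0 y : ℝ) : ℂ) / (3 * (k : ℂ))
      = (((∫ y in (0 : ℝ)..x, V 0 y) / (3 * k) : ℝ) : ℂ) * I := by
    push_cast
    ring
  rw [kd9_E, h, Complex.norm_exp_ofReal_mul_I]

theorem kd9_th_norm {L m N k : ℝ} {V : ℕ → ℝ → ℝ} (hk : 0 < k) (hmN : m ≤ N)
    (hV : IsV L m N V) {j : ℕ} (hj : j ≤ 3) {x : ℝ} (hx : x ∈ Icc (0 : ℝ) L) :
    ‖kd9_th k V j x‖ ≤ N / (3 * k) := by
  have hb : |V j x| ≤ N := by
    rcases Nat.lt_or_ge j 3 with h | h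
    · exact (hV.bV j (by omega) x hx).trans hmN
    · have : j = 3 := le_antisymm hj h
      subst this
      exact hV.bV3 x hx
  rw [kd9_th, norm_div, norm_mul, norm_I, one_mul, Complex.norm_real, Real.norm_eq_abs]
  have h3 : ‖(3 * (k : ℂ))‖ = 3 * k := by
    rw [norm_mul, Complex.norm_real, Real.norm_eq_abs, abs_of_pos hk]
    norm_num
  rw [h3]
  gcongr

theorem exists_wkb {L m N k : ℝ} (hL : 0 < L) (hm : 1 ≤ m) (hmN : m ≤ N) (hNk : N ≤ k)
    {V : ℕ → ℝ → ℝ} (hV : IsV L m N V) : ∃ H : ℕ → ℝ → ℂ, IsWKB L k (15 * N / k) V H := by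
  have _ := hL
  have hk : 0 < k := by linarith
  have hN : 0 < N := by linarith
  have hθ := fun (j : ℕ) (x : ℝ) => kd9_th_deriv (k := k) hV j x
  have hE := fun (x : ℝ) => kd9_E_deriv (k := k) hV x
  refine ⟨kd9_H k V, ⟨?_, ?_, ?_, ?_, ?_, ?_⟩⟩
  · intro j hj x
    interval_cases j
    · exact hE x
    · show HasDerivAt (fun x => kd9_th k V 0 x * kd9_E k V x) _ x
      refine ((hθ 0 x).mul (hE x)).congr_deriv ?_
      show _ = (kd9_th k V 1 x + kd9_th k V 0 x ^ 2) * kd9_E k V x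
      ring
    · show HasDerivAt (fun x => (kd9_th k V 1 x + kd9_th k V 0 x ^ 2) * kd9_E k V x) _ x
      refine (((hθ 1 x).add ((hθ 0 x).pow 2)).mul (hE x)).congr_deriv ?_
      show _ = (kd9_th k V 2 x + 3 * kd9_th k V 0 x * kd9_th k V 1 x
        + kd9_th k V 0 x ^ 3) * kd9_E k V x
      simp only [Nat.cast_ofNat, Pi.pow_apply, Pi.add_apply]
      norm_num
      ring
    · show HasDerivAt (fun x => (kd9_th k V 2 x + 3 * kd9_th k V 0 x * kd9_th k V 1 x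
        + kd9_th k V 0 x ^ 3) * kd9_E k V x) _ x
      refine ((((hθ 2 x).add (((hθ 0 x).const_mul 3).mul (hθ 1 x))).add
        ((hθ 0 x).pow 3)).mul (hE x)).congr_deriv ?_
      show _ = (kd9_th k V 3 x + 4 * kd9_th k V 0 x * kd9_th k V 2 x
        + 3 * kd9_th k V 1 x ^ 2 + 6 * kd9_th k V 0 x ^ 2 * kd9_th k V 1 x
        + kd9_th k V 0 x ^ 4) * kd9_E k V x
      simp only [Nat.cast_ofNat, Pi.pow_apply, Pi.add_apply, Pi.mul_apply]
      norm_num
      ring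
  · have cθ : ∀ j, Continuous (kd9_th k V j) := fun j =>
      continuous_iff_continuousAt.mpr fun y => (hθ j y).continuousAt
    have cE : Continuous (kd9_E k V) :=
      continuous_iff_continuousAt.mpr fun y => (hE y).continuousAt
    have c0 := cθ 0
    have c1 := cθ 1
    have c2 := cθ 2
    have c3 := cθ 3
    show Continuous (fun x => (kd9_th k V 3 x + 4 * kd9_th k V 0 x * kd9_th k V 2 x
        + 3 * kd9_th k V 1 x ^ 2 + 6 * kd9_th k V 0 x ^ 2 * kd9_th k V 1 x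
        + kd9_th k V 0 x ^ 4) * kd9_E k V x)
    fun_prop
  · show kd9_E k V 0 = 1
    simp [kd9_E]
  · intro x
    rfl
  · intro x
    exact (kd9_E_norm k V x).le
  · intro j hj1 hj4 x hx
    set q : ℝ := N / (3 * k) with hq
    have hq0 : 0 ≤ q := by positivity
    have hq1 : q ≤ 1 / 3 := by
      rw [hq, div_le_iff₀ (by positivity)]
      linarith
    have hgoal : 15 * N / k = 45 * q := by
      rw [hq]
      field_simp
      norm_num
    rw [hgoal]
    have t0 : ‖kd9_th k V 0 x‖ ≤ q := kd9_th_norm hk hmN hV (by norm_num) hx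
    have t1 : ‖kd9_th k V 1 x‖ ≤ q := kd9_th_norm hk hmN hV (by norm_num) hx
    have t2 : ‖kd9_th k V 2 x‖ ≤ q := kd9_th_norm hk hmN hV (by norm_num) hx
    have t3 : ‖kd9_th k V 3 x‖ ≤ q := kd9_th_norm hk hmN hV (by norm_num) hx
    have n0 := norm_nonneg (kd9_th k V 0 x)
    have n1 := norm_nonneg (kd9_th k V 1 x)
    have n2 := norm_nonneg (kd9_th k V 2 x)
    have n3 := norm_nonneg (kd9_th k V 3 x)
    have e2 : ∀ {u v : ℝ}, 0 ≤ u → 0 ≤ v → u ≤ q → v ≤ q → u * v ≤ q := by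
      intro u v hu hv huq hvq
      nlinarith
    have nn : ‖(3 : ℂ)‖ = 3 := by norm_num
    have nn4 : ‖(4 : ℂ)‖ = 4 := by norm_num
    have nn6 : ‖(6 : ℂ)‖ = 6 := by norm_num
    interval_cases j
    · show ‖kd9_th k V 0 x * kd9_E k V x‖ ≤ 45 * q
      rw [norm_mul, kd9_E_norm, mul_one]
      linarith
    · show ‖(kd9_th k V 1 x + kd9_th k V 0 x ^ 2) * kd9_E k V x‖ ≤ 45 * q
      rw [norm_mul, kd9_E_norm, mul_one]
      refine (norm_add_le _ _).trans ?_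
      rw [norm_pow, pow_two]
      have := e2 n0 n0 t0 t0
      linarith
    · show ‖(kd9_th k V 2 x + 3 * kd9_th k V 0 x * kd9_th k V 1 x
        + kd9_th k V 0 x ^ 3) * kd9_E k V x‖ ≤ 45 * q
      rw [norm_mul, kd9_E_norm, mul_one]
      refine (norm_add₃_le).trans ?_
      rw [norm_pow, norm_mul, norm_mul, nn, pow_succ, pow_two]
      have h1 := e2 n0 n1 t0 t1
      have h2 := e2 n0 n0 t0 t0
      have h3 := e2 (mul_nonneg n0 n0) n0 h2 t0
      nlinarith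
    · show ‖(kd9_th k V 3 x + 4 * kd9_th k V 0 x * kd9_th k V 2 x
        + 3 * kd9_th k V 1 x ^ 2 + 6 * kd9_th k V 0 x ^ 2 * kd9_th k V 1 x
        + kd9_th k V 0 x ^ 4) * kd9_E k V x‖ ≤ 45 * q
      rw [norm_mul, kd9_E_norm, mul_one]
      refine (norm_add_le _ _).trans ?_
      refine (add_le_add_left (norm_add_le _ _) _).trans ?_
      refine (add_le_add_left (add_le_add_left (norm_add₃_le) _) _).trans ?_
      simp only [norm_pow, norm_mul, nn, nn4, nn6]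
      have h02 := e2 n0 n2 t0 t2
      have h11 := e2 n1 n1 t1 t1
      have h00 := e2 n0 n0 t0 t0
      have h001 := e2 (mul_nonneg n0 n0) n1 h00 t1
      have h0000 := e2 (mul_nonneg n0 n0) (mul_nonneg n0 n0) h00 h00
      nlinarith

end Pool.Agent.KD
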