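import Pool.Agent.KD.Err
import Pool.Agent.KD.Ident
import Pool.Agent.KD.Grow
import Pool.Agent.KD.Wkb
import Pool.Agent.KD.Time

open MeasureTheory Set Complex

namespace Pool.Agent.KD

variable {L T c C m : ℝ} {k ρ : ℕ → ℝ} {a b : ℕ → ℤ → ℝ → ℝ} {ε d : ℕ → ℝ}
  {α β w0 w01 w02 : ℝ → ℝ} {η η1 η2 w w1 w2 : ℝ → ℝ → ℝ}

/-! ### facts on modes -/

theorem kd12_mode_c {L k ρ : ℝ} {a b : ℤ → ℝ → ℝ} (h : IsMode L k ρ a b) (j : ℤ) :
    Continuous (a j) ∧ Continuous (b j) :=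
  ⟨continuous_iff_continuousAt.2 fun x => (h.da j x).continuousAt,
    continuous_iff_continuousAt.2 fun x => (h.db j x).continuousAt⟩

theorem kd12_a0 {L k ρ : ℝ} {a b : ℤ → ℝ → ℝ} (h : IsMode L k ρ a b) {x : ℝ}
    (hx : x ∈ Icc (0 : ℝ) L) : |a 0 x| ≤ 100 := by
  have := h.bda 0 (by norm_num) (by norm_num) x hx
  simpa using this

theorem kd12_b0 {L k ρ : ℝ} {a b : ℤ → ℝ → ℝ} (h : IsMode L k ρ a b) {x : ℝ}
    (hx : x ∈ Icc (0 : ℝ) L) : |b 0 x| ≤ 100 := by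
  have := h.bdb 0 (by norm_num) (by norm_num) x hx
  simpa using this

theorem kd12_a1 {L k ρ : ℝ} {a b : ℤ → ℝ → ℝ} (h : IsMode L k ρ a b) {x : ℝ}
    (hx : x ∈ Icc (0 : ℝ) L) : |a 1 x| ≤ 100 * k := by
  have := h.bda 1 (by norm_num) (by norm_num) x hx
  simpa using this

theorem kd12_b1 {L k ρ : ℝ} {a b : ℤ → ℝ → ℝ} (h : IsMode L k ρ a b) {x : ℝ}
    (hx : x ∈ Icc (0 : ℝ) L) : |b 1 x| ≤ 100 * k := by
  have := h.bdb 1 (by norm_num) (by norm_num) x hx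
  simpa using this

theorem kd12_ρ {L k ρ : ℝ} {a b : ℤ → ℝ → ℝ} (hL : 0 < L) (h : IsMode L k ρ a b) :
    0 < ρ ∧ k ≤ ρ ∧ ρ ≤ 100 * k := by
  have h1 := kd12_b1 h (x := 0) ⟨le_rfl, hL.le⟩
  rw [h.b10] at h1
  have h2 := h.ρlo
  have h3 := h.hk
  exact ⟨by linarith, h2, (le_abs_self _).trans h1⟩

theorem kd12_testa {L k ρ : ℝ} {a b : ℤ → ℝ → ℝ} (h : IsMode L k ρ a b) :
    IsTest L (a 0) (a 1) :=
  ⟨fun x _ => (h.da 0 x).hasDerivWithinAt, (kd12_mode_c h 1).1.continuousOn, h.a00, h.a0L⟩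

theorem kd12_testb {L k ρ : ℝ} {a b : ℤ → ℝ → ℝ} (h : IsMode L k ρ a b) :
    IsTest L (b 0) (b 1) :=
  ⟨fun x _ => (h.db 0 x).hasDerivWithinAt, (kd12_mode_c h 1).2.continuousOn, h.b00, h.b0L⟩

/-! ### generic integral bounds -/

theorem kd12_abs_int {L B : ℝ} (hL : 0 ≤ L) {f : ℝ → ℝ}
    (h : ∀ x ∈ Icc (0 : ℝ) L, |f x| ≤ B) : |∫ x in (0 : ℝ)..L, f x| ≤ B * L := by
  have := intervalIntegral.norm_integral_le_of_norm_le_const (a := (0 : ℝ)) (b := L) (f := f)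
    (C := B) (fun x hx => by
      rw [uIoc_of_le hL] at hx
      exact h x ⟨hx.1.le, hx.2⟩)
  simpa [abs_of_nonneg hL] using this

theorem kd12_norm_int {L B : ℝ} (hL : 0 ≤ L) {f : ℝ → ℂ}
    (h : ∀ x ∈ Icc (0 : ℝ) L, ‖f x‖ ≤ B) : ‖∫ x in (0 : ℝ)..L, f x‖ ≤ B * L := by
  have := intervalIntegral.norm_integral_le_of_norm_le_const (a := (0 : ℝ)) (b := L) (f := f)
    (C := B) (fun x hx => by
      rw [uIoc_of_le hL] at hx
      exact h x ⟨hx.1.le, hx.2⟩)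
  simpa [abs_of_nonneg hL] using this

/-- the derivative of a coordinate is bounded -/
theorem kd12_coord_bd {L m K : ℝ} (hL : 0 < L) (hm : 1 ≤ m) (hK : 1 ≤ K)
    {g g1 g2 p p1 : ℝ → ℝ}
    (hg : IsSt L m g g1 g2) (cp : ContinuousOn p (Icc 0 L))
    (cp1 : ContinuousOn p1 (Icc 0 L))
    (b0 : ∀ x ∈ Icc (0 : ℝ) L, |p x| ≤ 100) (b1 : ∀ x ∈ Icc (0 : ℝ) L, |p1 x| ≤ 100 * K)
    {r : ℝ → ℝ} (cr : ContinuousOn r (Icc 0 L)) (hr : ∀ x ∈ Icc (0 : ℝ) L, |r x| ≤ 2 * m ^ 2) :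
    |∫ x in (0 : ℝ)..L, (g2 x * p1 x - g1 x * p x - r x * p x)|
      ≤ 400 * (1 + L) * m ^ 2 * K := by
  have i2 : IntervalIntegrable g2 volume 0 L := hg.h2.ii2 hL.le
  have cg1 := hg.h2.c1 hL.le
  have hu : uIcc (0 : ℝ) L = Icc 0 L := uIcc_of_le hL.le
  have I1 : IntervalIntegrable (fun x => g2 x * p1 x) volume 0 L :=
    i2.mul_continuousOn (by rwa [hu])
  have I2 : IntervalIntegrable (fun x => g1 x * p x) volume 0 L :=
    (ContinuousOn.mul (by rwa [hu]) (by rwa [hu])).intervalIntegrable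
  have I3 : IntervalIntegrable (fun x => r x * p x) volume 0 L :=
    (ContinuousOn.mul (by rwa [hu]) (by rwa [hu])).intervalIntegrable
  rw [intervalIntegral.integral_sub (I1.sub I2) I3, intervalIntegral.integral_sub I1 I2]
  have e1 : |∫ x in (0 : ℝ)..L, g2 x * p1 x| ≤ 100 * K * m := by
    calc |∫ x in (0 : ℝ)..L, g2 x * p1 x| ≤ ∫ x in (0 : ℝ)..L, |g2 x * p1 x| :=
          intervalIntegral.abs_integral_le_integral_abs hL.le
      _ ≤ ∫ x in (0 : ℝ)..L, 100 * K * |g2 x| := by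
          refine intervalIntegral.integral_mono_on hL.le I1.abs (i2.abs.const_mul _) ?_
          intro x hx
          rw [abs_mul]
          nlinarith [abs_nonneg (g2 x), b1 x hx]
      _ = 100 * K * ∫ x in (0 : ℝ)..L, |g2 x| := by
          rw [intervalIntegral.integral_const_mul]
      _ ≤ 100 * K * m := by
          have := hg.i1
          nlinarith
  have e2 : |∫ x in (0 : ℝ)..L, g1 x * p x| ≤ m * 100 * L := by
    refine kd12_abs_int hL.le fun x hx => ?_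
    rw [abs_mul]
    exact mul_le_mul (hg.b1 x hx) (b0 x hx) (abs_nonneg _) (by linarith)
  have e3 : |∫ x in (0 : ℝ)..L, r x * p x| ≤ 2 * m ^ 2 * 100 * L := by
    refine kd12_abs_int hL.le fun x hx => ?_
    rw [abs_mul]
    exact mul_le_mul (hr x hx) (b0 x hx) (abs_nonneg _) (by positivity)
  have t1 := abs_sub (∫ x in (0 : ℝ)..L, g2 x * p1 x) (∫ x in (0 : ℝ)..L, g1 x * p x)
  have t2 := abs_sub ((∫ x in (0 : ℝ)..L, g2 x * p1 x) - ∫ x in (0 : ℝ)..L, g1 x * p x)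
    (∫ x in (0 : ℝ)..L, r x * p x)
  have hmm : m ≤ m ^ 2 := by nlinarith
  have q1 : 100 * K * m ≤ 100 * K * m ^ 2 := by
    have : 0 ≤ 100 * K := by linarith
    nlinarith
  have q2 : m * 100 * L ≤ 100 * L * m ^ 2 * K := by
    have h1 : m * (100 * L) ≤ m ^ 2 * (100 * L) := by
      exact mul_le_mul_of_nonneg_right hmm (by positivity)
    have h2 : m ^ 2 * (100 * L) ≤ m ^ 2 * (100 * L) * K := by
      exact le_mul_of_one_le_right (by positivity) hK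
    linarith
  have q3 : 2 * m ^ 2 * 100 * L ≤ 200 * L * m ^ 2 * K := by
    have h2 : m ^ 2 * (200 * L) ≤ m ^ 2 * (200 * L) * K := by
      exact le_mul_of_one_le_right (by positivity) hK
    linarith
  have q4 : 0 ≤ 300 * m ^ 2 * K := by positivity
  have q5 : 0 ≤ 100 * L * m ^ 2 * K := by positivity
  nlinarith [t1, t2, e1, e2, e3]

end Pool.Agent.KD
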