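import Pool.Agent.KD.Final1

open MeasureTheory Set Complex

namespace Pool.Agent.KD

variable {L T c C m : ℝ} {k ρ : ℕ → ℝ} {a b : ℕ → ℤ → ℝ → ℝ} {ε d : ℕ → ℝ}
  {α β w0 w01 w02 : ℝ → ℝ} {η η1 η2 w w1 w2 : ℝ → ℝ → ℝ}

/-- The amplitude `A(t)`. -/
noncomputable def Amp (L : ℝ) (a b : ℤ → ℝ → ℝ) (H : ℕ → ℝ → ℂ) (η w : ℝ → ℝ) : ℂ :=
  ∫ x in (0 : ℝ)..L, ((η x : ℂ) * a 0 x + I * (w x * b 0 x)) * H 0 x

/-- The time derivative of the amplitude. -/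
noncomputable def AmpD (L : ℝ) (a b : ℤ → ℝ → ℝ) (H : ℕ → ℝ → ℂ)
    (η η1 η2 w w1 w2 : ℝ → ℝ) : ℂ :=
  (∫ x in (0 : ℝ)..L, ((w2 x : ℂ) * (a 1 x * H 0 x + a 0 x * H 1 x)
        - w1 x * (a 0 x * H 0 x) - (η1 x * w x + η x * w1 x) * (a 0 x * H 0 x)))
    + (∫ x in (0 : ℝ)..L, ((η2 x : ℂ) * (I * (b 1 x * H 0 x + b 0 x * H 1 x))
        - η1 x * (I * (b 0 x * H 0 x)) - (w x * w1 x) * (I * (b 0 x * H 0 x))))

theorem kd12_Hc {L k h : ℝ} {V : ℕ → ℝ → ℝ} {H : ℕ → ℝ → ℂ} (hH : IsWKB L k h V H) :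
    Continuous (H 0) ∧ Continuous (H 1) :=
  ⟨continuous_iff_continuousAt.2 fun x => (hH.d 0 (by norm_num) x).continuousAt,
    continuous_iff_continuousAt.2 fun x => (hH.d 1 (by norm_num) x).continuousAt⟩

theorem kd12_split {L : ℝ} (hL : 0 < L) {f f1 f2 g g1 g2 : ℝ → ℝ} (hf : IsH2 L f f1 f2)
    (hg : IsH2 L g g1 g2) {u v z : ℝ → ℂ} (cu : Continuous u) (cv : Continuous v)
    (cz : Continuous z) :
    (∫ x in (0 : ℝ)..L, ((f x : ℂ) * u x + I * (g x * v x)) * z x)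
      = (∫ x in (0 : ℝ)..L, (f x : ℂ) * (u x * z x))
        + ∫ x in (0 : ℝ)..L, (g x : ℂ) * (I * (v x * z x)) := by
  have hu : uIcc (0 : ℝ) L = Icc 0 L := uIcc_of_le hL.le
  have cf : ContinuousOn (fun x => (f x : ℂ)) (uIcc 0 L) := by
    rw [hu]; exact continuous_ofReal.comp_continuousOn (hf.c0 hL.le)
  have cg : ContinuousOn (fun x => (g x : ℂ)) (uIcc 0 L) := by
    rw [hu]; exact continuous_ofReal.comp_continuousOn (hg.c0 hL.le)
  have I1 : IntervalIntegrable (fun x => (f x : ℂ) * (u x * z x)) volume 0 L :=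
    (cf.mul (cu.mul cz).continuousOn).intervalIntegrable
  have I2 : IntervalIntegrable (fun x => (g x : ℂ) * (I * (v x * z x))) volume 0 L :=
    (cg.mul (continuous_const.mul (cv.mul cz)).continuousOn).intervalIntegrable
  rw [← intervalIntegral.integral_add I1 I2]
  refine intervalIntegral.integral_congr fun x _ => ?_
  ring

theorem kd12_AmpD {L T k ρ h : ℝ} (hL : 0 < L) {a b : ℤ → ℝ → ℝ} (hm : IsMode L k ρ a b)
    {V : ℕ → ℝ → ℝ} {H : ℕ → ℝ → ℂ} (hH : IsWKB L k h V H)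
    {η η1 η2 w w1 w2 : ℝ → ℝ → ℝ} (hs : IsOpenSol L T η η1 η2 w w1 w2) {t : ℝ}
    (ht : t ∈ Icc (0 : ℝ) T) :
    HasDerivWithinAt (fun s => Amp L a b H (η s) (w s))
      (AmpD L a b H (η t) (η1 t) (η2 t) (w t) (w1 t) (w2 t)) (Icc 0 T) t := by
  obtain ⟨cH0, cH1⟩ := kd12_Hc hH
  have hda : ∀ x, HasDerivAt (fun x => (a 0 x : ℂ)) (a 1 x : ℂ) x := fun x =>
    (hm.da 0 x).ofReal_comp
  have hdb : ∀ x, HasDerivAt (fun x => (b 0 x : ℂ)) (b 1 x : ℂ) x := fun x =>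
    (hm.db 0 x).ofReal_comp
  have ca0 : Continuous fun x => (a 0 x : ℂ) := continuous_ofReal.comp (kd12_mode_c hm 0).1
  have ca1 : Continuous fun x => (a 1 x : ℂ) := continuous_ofReal.comp (kd12_mode_c hm 1).1
  have cb0 : Continuous fun x => (b 0 x : ℂ) := continuous_ofReal.comp (kd12_mode_c hm 0).2
  have cb1 : Continuous fun x => (b 1 x : ℂ) := continuous_ofReal.comp (kd12_mode_c hm 1).2
  have hp : ∀ x ∈ Icc (0 : ℝ) L, HasDerivWithinAt (fun x => (a 0 x : ℂ) * H 0 x)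
      (a 1 x * H 0 x + a 0 x * H 1 x) (Icc 0 L) x := fun x _ =>
    ((hda x).mul (hH.d 0 (by norm_num) x)).hasDerivWithinAt
  have hq : ∀ x ∈ Icc (0 : ℝ) L, HasDerivWithinAt (fun x => I * ((b 0 x : ℂ) * H 0 x))
      (I * (b 1 x * H 0 x + b 0 x * H 1 x)) (Icc 0 L) x := fun x _ =>
    (((hdb x).mul (hH.d 0 (by norm_num) x)).const_mul I).hasDerivWithinAt
  have h1 := deriv_cη hL hs hp (((ca1.mul cH0).add (ca0.mul cH1)).continuousOn)
    (by simp [hm.a00]) (by simp [hm.a0L]) t ht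
  have h2 := deriv_cw hL hs hq
    ((continuous_const.mul ((cb1.mul cH0).add (cb0.mul cH1))).continuousOn)
    (by simp [hm.b00]) (by simp [hm.b0L]) t ht
  have h3 := h1.add h2
  unfold AmpD
  refine h3.congr ?_ ?_
  · intro s hs'
    have e := kd12_split (L := L) hL (hs.h2η s hs') (hs.h2w s hs') ca0 cb0 cH0
    simpa [Amp] using e
  · have e := kd12_split (L := L) hL (hs.h2η t ht) (hs.h2w t ht) ca0 cb0 cH0
    simpa [Amp] using e

end Pool.Agent.KD
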