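import Pool.Agent.KD.Final2

open MeasureTheory Set Complex

namespace Pool.Agent.KD

/-! ### feedback decomposition -/

theorem kd12_fb {L : ℝ} (hL : 0 < L) {α f : ℝ → ℝ} (cα : Continuous α)
    (cf : ContinuousOn f (Icc 0 L)) {u : ℕ → ℝ → ℝ} (cu : ∀ j, Continuous (u j)) (ε : ℕ → ℝ)
    (s : Finset ℕ) : (∫ x in (0 : ℝ)..L, α x * f x)
      = (∫ x in (0 : ℝ)..L, (α x + ∑ j ∈ s, ε j * u j x) * f x)
        - ∑ j ∈ s, ε j * ∫ x in (0 : ℝ)..L, f x * u j x := by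
  have hu : uIcc (0 : ℝ) L = Icc 0 L := uIcc_of_le hL.le
  have cf' : ContinuousOn f (uIcc 0 L) := by rwa [hu]
  have I1 : IntervalIntegrable (fun x => α x * f x) volume 0 L :=
    (cα.continuousOn.mul cf').intervalIntegrable
  have I2 : ∀ j ∈ s, IntervalIntegrable (fun x => ε j * (f x * u j x)) volume 0 L := fun j _ =>
    (continuousOn_const.mul (cf'.mul (cu j).continuousOn)).intervalIntegrable
  have e : ∀ j ∈ s, ε j * (∫ x in (0 : ℝ)..L, f x * u j x)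
      = ∫ x in (0 : ℝ)..L, ε j * (f x * u j x) := fun j _ => by
    rw [intervalIntegral.integral_const_mul]
  rw [Finset.sum_congr rfl e, ← intervalIntegral.integral_finset_sum I2,
    ← intervalIntegral.integral_sub]
  · refine intervalIntegral.integral_congr fun x _ => ?_
    rw [add_mul, Finset.sum_mul]
    have : ∑ i ∈ s, ε i * u i x * f x = ∑ i ∈ s, ε i * (f x * u i x) :=
      Finset.sum_congr rfl fun i _ => by ring
    rw [this]
    ring
  · exact ((cα.add (continuous_finsetSum s fun j _ =>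
      continuous_const.mul (cu j))).continuousOn.mul cf').intervalIntegrable
  · exact (continuousOn_finsetSum s fun j _ =>
      continuousOn_const.mul (cf'.mul (cu j).continuousOn)).intervalIntegrable

/-- `X_j` -/
noncomputable def Cx (L : ℝ) (u f : ℝ → ℝ) : ℝ := ∫ x in (0 : ℝ)..L, f x * u x

theorem kd12_Cx_bd {L m : ℝ} (hL : 0 < L) {u f : ℝ → ℝ}
    (hu : ∀ x ∈ Icc (0 : ℝ) L, |u x| ≤ 100) (hf : ∀ x ∈ Icc (0 : ℝ) L, |f x| ≤ m) :
    |Cx L u f| ≤ 100 * m * L := by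
  unfold Cx
  refine kd12_abs_int hL.le fun x hx => ?_
  rw [abs_mul]
  nlinarith [hu x hx, hf x hx, abs_nonneg (u x), abs_nonneg (f x)]

/-- The slow part `S`. -/
noncomputable def Slow (r : ℝ) (z : ℂ) (n : ℕ) (ε : ℕ → ℝ) (X Y : ℕ → ℝ) : ℂ :=
  r * ∑ j ∈ Finset.range (n + 1), (ε j : ℂ) * (z * X j + I * Y j)

theorem kd12_Slow_bd {r B : ℝ} {z : ℂ} {n : ℕ} {ε X Y : ℕ → ℝ} (hr : 0 ≤ r) (hz : ‖z‖ ≤ 1)
    (hε : ∀ j, j ≤ n → |ε j| ≤ 1) (hX : ∀ j, j ≤ n → |X j| ≤ B) (hY : ∀ j, j ≤ n → |Y j| ≤ B) :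
    ‖Slow r z n ε X Y‖ ≤ r * ((n + 1) * (2 * B)) := by
  unfold Slow
  rw [norm_mul, Complex.norm_real, Real.norm_of_nonneg hr]
  refine mul_le_mul_of_nonneg_left ?_ hr
  refine (norm_sum_le _ _).trans ?_
  have : ∀ j ∈ Finset.range (n + 1), ‖(ε j : ℂ) * (z * X j + I * Y j)‖ ≤ 2 * B := by
    intro j hj
    have hj' : j ≤ n := by simpa [Nat.lt_succ_iff] using hj
    have h1 : ‖z * X j + I * Y j‖ ≤ 2 * B := by
      refine (norm_add_le _ _).trans ?_
      rw [norm_mul, norm_mul, Complex.norm_real, Complex.norm_real, Complex.norm_I,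
        Real.norm_eq_abs, Real.norm_eq_abs]
      nlinarith [hX j hj', hY j hj', abs_nonneg (X j), abs_nonneg (Y j), norm_nonneg z]
    have h0 : 0 ≤ 2 * B := (norm_nonneg _).trans h1
    rw [norm_mul, Complex.norm_real, Real.norm_eq_abs]
    calc |ε j| * ‖z * X j + I * Y j‖ ≤ 1 * (2 * B) :=
          mul_le_mul (hε j hj') h1 (norm_nonneg _) (by norm_num)
      _ = 2 * B := one_mul _
  refine (Finset.sum_le_sum this).trans ?_
  simp

theorem kd12_Slow_deriv {T r : ℝ} {z : ℂ} {n : ℕ} {ε : ℕ → ℝ} {X Y : ℕ → ℝ → ℝ}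
    {X' Y' : ℕ → ℝ} {t : ℝ}
    (hX : ∀ j, HasDerivWithinAt (X j) (X' j) (Icc 0 T) t)
    (hY : ∀ j, HasDerivWithinAt (Y j) (Y' j) (Icc 0 T) t) :
    HasDerivWithinAt (fun s => Slow r z n ε (fun j => X j s) (fun j => Y j s))
      (Slow r z n ε X' Y') (Icc 0 T) t := by
  unfold Slow
  refine HasDerivWithinAt.const_mul _ ?_
  refine HasDerivWithinAt.fun_sum fun j _ => ?_
  refine HasDerivWithinAt.const_mul _ ?_
  exact (((hX j).ofReal_comp).const_mul z).add (((hY j).ofReal_comp).const_mul I)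

/-- The derivative of `X_j`, from the equation. -/
noncomputable def CxD (L : ℝ) (u u1 g1 g2 r : ℝ → ℝ) : ℝ :=
  ∫ x in (0 : ℝ)..L, (g2 x * u1 x - g1 x * u x - r x * u x)

end Pool.Agent.KD
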