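import Pool.Agent.KD.Final3

open MeasureTheory Set Complex

namespace Pool.Agent.KD

theorem kd12_Slow_eq {r : ℝ} {z : ℂ} {n : ℕ} {ε X Y : ℕ → ℝ} :
    Slow r z n ε X Y = r * (z * ((∑ j ∈ Finset.range (n + 1), ε j * X j : ℝ) : ℂ)
      + I * ((∑ j ∈ Finset.range (n + 1), ε j * Y j : ℝ) : ℂ)) := by
  unfold Slow
  congr 1
  push_cast
  rw [Finset.mul_sum, Finset.mul_sum, ← Finset.sum_add_distrib]
  exact Finset.sum_congr rfl fun j _ => by ring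

/-- The constant `K₀`. -/
noncomputable def Kz (L : ℝ) (b : ℤ → ℝ → ℝ) (V : ℕ → ℝ → ℝ) (H : ℕ → ℝ → ℂ) : ℂ :=
  (1 / 2) * (∫ x in (0 : ℝ)..L, (V 0 x : ℂ) ^ 2 * (I * (b 1 x * H 0 x + b 0 x * H 1 x)))

theorem kd12_est (L : ℝ) (hL : 0 < L) : ∃ Q : ℝ, 0 < Q ∧ ∀ (C m D : ℝ) (k ρ : ℕ → ℝ)
    (a b : ℕ → ℤ → ℝ → ℝ) (ε d : ℕ → ℝ) (α β w0 w01 w02 : ℝ → ℝ) (η η1 η2 w w1 w2 : ℝ → ℝ)
    (n : ℕ) (V : ℕ → ℝ → ℝ) (H : ℕ → ℝ → ℂ) (lam : ℂ),
    IsData L k ρ a b ε d α β w0 w01 w02 C → 1 ≤ m → 0 ≤ D → 15 * (m * k n) ≤ k (n + 1) →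
    (n : ℝ) + 1 ≤ k n → (∀ j, j ≤ n → k j ≤ k n) → (∀ j, 0 ≤ ε j ∧ ε j ≤ 1) →
    IsV L m (m * k n) V → IsWKB L (k (n + 1)) (15 * (m * k n) / k (n + 1)) V H →
    IsSt L m η η1 η2 → IsSt L m w w1 w2 → (η1 0 = ∫ x in (0 : ℝ)..L, β x * w x) →
    (w1 L = ∫ x in (0 : ℝ)..L, α x * η x) →
    (∫ x in (0 : ℝ)..L, η x ^ 2) ≤ D ^ 2 → (∫ x in (0 : ℝ)..L, (w x - V 0 x) ^ 2) ≤ D ^ 2 →
    lam = ((ρ (n + 1) * ε (n + 1) : ℝ) : ℂ) + I * ((k (n + 1) - k (n + 1) ^ 3 : ℝ) : ℂ) →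
    ‖(AmpD L (a (n + 1)) (b (n + 1)) H η η1 η2 w w1 w2
        + Slow (ρ (n + 1)) (H 0 L) n ε
            (fun j => CxD L (a j 0) (a j 1) w1 w2 (fun x => η1 x * w x + η x * w1 x))
            (fun j => CxD L (b j 0) (b j 1) η1 η2 (fun x => w x * w1 x)) / lam)
      - lam * (Amp L (a (n + 1)) (b (n + 1)) H η w
        + (Slow (ρ (n + 1)) (H 0 L) n ε (fun j => Cx L (a j 0) η) (fun j => Cx L (b j 0) w)
          - Kz L (b (n + 1)) V H) / lam)‖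
      ≤ Q * m ^ 3 * (k n ^ 2 / k (n + 1) ^ 2 + D / k (n + 1)) := by
  obtain ⟨C1, hC1, E1⟩ := err1 L hL
  obtain ⟨C2, hC2, E2⟩ := err2 L hL
  obtain ⟨C5, hC5, E5⟩ := err5 L hL
  obtain ⟨C6, hC6, E6⟩ := err6 L hL
  refine ⟨1500 * C6 + 40000 * L + C1 + 15 * C2 + C5 + 160000 * (1 + L), by positivity, ?_⟩
  intro C m D k ρ a b ε d α β w0 w01 w02 η η1 η2 w w1 w2 n V H lam hd hm hD hK hnk hkj hε hV hH
    sη sw fb1 fb2 hη hw hlam
  have hmode := hd.mode (n + 1)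
  set N := k n with hN
  set K := k (n + 1) with hKdef
  have hN2 : 2 ≤ N := (hd.mode n).hk
  have hK2 : 2 ≤ K := hmode.hk
  have hK0 : 0 < K := by linarith
  obtain ⟨hρ0, hρ1, hρ2⟩ := kd12_ρ hL hmode
  have hε1 := hε (n + 1)
  set μ : ℝ := K - K ^ 3 with hμ
  set σ : ℝ := ρ (n + 1) * ε (n + 1) with hσ
  have hσ0 : 0 ≤ σ := mul_nonneg hρ0.le hε1.1
  have hσ1 : σ ≤ 100 * K := by
    calc σ ≤ ρ (n + 1) * 1 := mul_le_mul_of_nonneg_left hε1.2 hρ0.le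
      _ ≤ 100 * K := by linarith
  have hμ2 : K ^ 3 / 2 ≤ |μ| := by
    rw [abs_sub_comm, abs_of_nonneg (by nlinarith [sq_nonneg K, sq_nonneg (K - 2)])]
    nlinarith [mul_pos hK0 hK0, mul_nonneg hK0.le (by nlinarith : (0:ℝ) ≤ K * K - 4)]
  have hlamn : K ^ 3 / 2 ≤ ‖lam‖ := by
    refine hμ2.trans ?_
    have : lam.im = μ := by simp [hlam]
    rw [← this]
    exact Complex.abs_im_le_norm lam
  have hlam0 : lam ≠ 0 := by
    intro h0
    rw [h0, norm_zero] at hlamn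
    have : 0 < K ^ 3 / 2 := by positivity
    linarith
  -- bounds of the pieces
  have e1 := E1 K (ρ (n + 1)) m _ _ _ _ V H η η1 η2 w w1 w2 hm hmode hV hH sη sw
  have e2 := E2 K (ρ (n + 1)) m _ _ _ _ V H η η1 η2 w w1 w2 hm hmode hV hH sη sw
  have hh : 15 * (m * N) / K ≤ 1 := by
    rw [div_le_one hK0]; exact hK
  have e5 := E5 K (ρ (n + 1)) m _ _ D _ _ V H η η1 η2 w w1 w2 hm hh hD hmode hV hH sη sw hη hw
  have e6 := E6 K (ρ (n + 1)) m _ _ _ _ V H η η1 η2 w w1 w2 hm hmode hV hH sη sw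
  have id := ident hL hmode hV hH sη sw
  have hH0 : ‖H 0 L‖ ≤ 1 := hH.b0 L
  -- feedback
  have ca : ∀ j, Continuous (a j 0) := fun j => (kd12_mode_c (hd.mode j) 0).1
  have cb : ∀ j, Continuous (b j 0) := fun j => (kd12_mode_c (hd.mode j) 0).2
  have f1 := kd12_fb hL hd.cα (sη.h2.c0 hL.le) ca ε (Finset.range (n + 1 + 1))
  have f2 := kd12_fb hL hd.cβ (sw.h2.c0 hL.le) cb ε (Finset.range (n + 1 + 1))
  rw [← fb2] at f1
  rw [← fb1] at f2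
  rw [Finset.sum_range_succ] at f1 f2
  have g1 : |∫ x in (0 : ℝ)..L, (α x + ∑ j ∈ Finset.range (n + 1 + 1), ε j * a j 0 x) * η x|
      ≤ 200 * (K ^ 4)⁻¹ * m * L := by
    refine kd12_abs_int hL.le fun x hx => ?_
    rw [abs_mul]
    exact mul_le_mul (hd.tα (n + 1) x hx) (sη.b0 x hx) (abs_nonneg _) (by positivity)
  have g2 : |∫ x in (0 : ℝ)..L, (β x + ∑ j ∈ Finset.range (n + 1 + 1), ε j * b j 0 x) * w x|
      ≤ 200 * (K ^ 4)⁻¹ * m * L := by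
    refine kd12_abs_int hL.le fun x hx => ?_
    rw [abs_mul]
    exact mul_le_mul (hd.tβ (n + 1) x hx) (sw.b0 x hx) (abs_nonneg _) (by positivity)
  -- slow derivative
  have hS' : ‖Slow (ρ (n + 1)) (H 0 L) n ε
            (fun j => CxD L (a j 0) (a j 1) w1 w2 (fun x => η1 x * w x + η x * w1 x))
            (fun j => CxD L (b j 0) (b j 1) η1 η2 (fun x => w x * w1 x))‖
      ≤ ρ (n + 1) * ((n + 1) * (2 * (400 * (1 + L) * m ^ 2 * N))) := by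
    refine kd12_Slow_bd hρ0.le hH0 (fun j _ => ?_) (fun j hj => ?_) (fun j hj => ?_)
    · rw [abs_of_nonneg (hε j).1]; exact (hε j).2
    · have hkj' := hkj j hj
      have hj2 := (hd.mode j).hk
      refine kd12_coord_bd hL hm (by linarith) sw (ca j).continuousOn
        (kd12_mode_c (hd.mode j) 1).1.continuousOn (fun x hx => kd12_a0 (hd.mode j) hx)
        (fun x hx => (kd12_a1 (hd.mode j) hx).trans (by linarith)) ?_ ?_
      · exact ((sη.h2.c1 hL.le).mul (sw.h2.c0 hL.le)).add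
          ((sη.h2.c0 hL.le).mul (sw.h2.c1 hL.le))
      · intro x hx
        have := abs_add_le (η1 x * w x) (η x * w1 x)
        rw [abs_mul, abs_mul] at this
        nlinarith [sη.b1 x hx, sw.b0 x hx, sη.b0 x hx, sw.b1 x hx, abs_nonneg (η1 x),
          abs_nonneg (w x), abs_nonneg (η x), abs_nonneg (w1 x)]
    · have hkj' := hkj j hj
      have hj2 := (hd.mode j).hk
      refine kd12_coord_bd hL hm (by linarith) sη (cb j).continuousOn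
        (kd12_mode_c (hd.mode j) 1).2.continuousOn (fun x hx => kd12_b0 (hd.mode j) hx)
        (fun x hx => (kd12_b1 (hd.mode j) hx).trans (by linarith)) ?_ ?_
      · exact (sw.h2.c0 hL.le).mul (sw.h2.c1 hL.le)
      · intro x hx
        rw [abs_mul]
        nlinarith [sw.b0 x hx, sw.b1 x hx, abs_nonneg (w x), abs_nonneg (w1 x)]
  set tα := ∫ x in (0 : ℝ)..L, (α x + ∑ j ∈ Finset.range (n + 1 + 1), ε j * a j 0 x) * η x
    with htα
  set tβ := ∫ x in (0 : ℝ)..L, (β x + ∑ j ∈ Finset.range (n + 1 + 1), ε j * b j 0 x) * w x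
    with htβ
  set S' := Slow (ρ (n + 1)) (H 0 L) n ε
            (fun j => CxD L (a j 0) (a j 1) w1 w2 (fun x => η1 x * w x + η x * w1 x))
            (fun j => CxD L (b j 0) (b j 1) η1 η2 (fun x => w x * w1 x)) with hS'def
  set A := ∫ x in (0 : ℝ)..L, ((η x : ℂ) * a (n + 1) 0 x + I * (w x * b (n + 1) 0 x)) * H 0 x
    with hA
  set T1 := ∫ x in (0 : ℝ)..L, (V 0 x : ℂ) * H 0 x * ((I / K) * w x *
    (a (n + 1) 2 x + K * b (n + 1) 1 x) - (1 / K) * η x * (b (n + 1) 2 x - K * a (n + 1) 1 x))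
    with hT1
  set T2 := ∫ x in (0 : ℝ)..L, (w x : ℂ) * (3 * H 2 x * a (n + 1) 1 x
    + (H 1 x + H 3 x) * a (n + 1) 0 x + I * V 0 x * H 1 x * b (n + 1) 0 x) with hT2
  set T3 := ∫ x in (0 : ℝ)..L, (η x : ℂ) * (3 * I * H 2 x * b (n + 1) 1 x
    + I * (H 1 x + H 3 x) * b (n + 1) 0 x + V 0 x * H 1 x * a (n + 1) 0 x) with hT3
  set KK := ∫ x in (0 : ℝ)..L, (V 0 x : ℂ) ^ 2 * (I * (b (n + 1) 1 x * H 0 x
    + b (n + 1) 0 x * H 1 x)) with hKK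
  set T5a := ∫ x in (0 : ℝ)..L, (η x : ℂ) * (w x - V 0 x) * (a (n + 1) 1 x * H 0 x
    + a (n + 1) 0 x * H 1 x) with hT5a
  set T5b := ∫ x in (0 : ℝ)..L, ((w x : ℂ) - V 0 x) ^ 2
            * (I * (b (n + 1) 1 x * H 0 x + b (n + 1) 0 x * H 1 x)) with hT5b
  have key : (AmpD L (a (n + 1)) (b (n + 1)) H η η1 η2 w w1 w2 + S' / lam)
      - lam * (Amp L (a (n + 1)) (b (n + 1)) H η w
        + (Slow (ρ (n + 1)) (H 0 L) n ε (fun j => Cx L (a j 0) η) (fun j => Cx L (b j 0) w)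
          - Kz L (b (n + 1)) V H) / lam)
      = σ * ((H 0 L * (∫ x in (0 : ℝ)..L, η x * a (n + 1) 0 x : ℝ)
            + I * (∫ x in (0 : ℝ)..L, w x * b (n + 1) 0 x : ℝ)) - A)
        - ρ (n + 1) * (H 0 L * tα + I * tβ) + T1 + (T2 + T3) + (T5a + 1 / 2 * T5b)
        + S' / lam := by
    have hAmp : Amp L (a (n + 1)) (b (n + 1)) H η w = A := rfl
    have hKz : Kz L (b (n + 1)) V H = 1 / 2 * KK := rfl
    have hD' : AmpD L (a (n + 1)) (b (n + 1)) H η η1 η2 w w1 w2 = _ := id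
    rw [hAmp, hKz, hD', kd12_Slow_eq]
    have hsum : lam * (A + ((ρ (n + 1) : ℂ) * (H 0 L
        * ((∑ j ∈ Finset.range (n + 1), ε j * Cx L (a j 0) η : ℝ) : ℂ)
        + I * ((∑ j ∈ Finset.range (n + 1), ε j * Cx L (b j 0) w : ℝ) : ℂ))
        - 1 / 2 * KK) / lam) = lam * A + ((ρ (n + 1) : ℂ) * (H 0 L
        * ((∑ j ∈ Finset.range (n + 1), ε j * Cx L (a j 0) η : ℝ) : ℂ)
        + I * ((∑ j ∈ Finset.range (n + 1), ε j * Cx L (b j 0) w : ℝ) : ℂ))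
        - 1 / 2 * KK) := by
      field_simp
    rw [hsum, f1, f2, hlam]
    simp only [Cx]
    push_cast
    simp only [hσ, hμ]
    push_cast
    ring
  rw [key]
  have hNn : (0 : ℝ) ≤ N := by linarith
  have hK1 : 1 ≤ K := by linarith
  have hm23 : m ^ 2 ≤ m ^ 3 := by nlinarith [sq_nonneg m]
  have hm13 : m ≤ m ^ 3 := by nlinarith [sq_nonneg m]
  have hm3 : 0 ≤ m ^ 3 := by positivity
  have hNN : N ≤ N ^ 2 := by nlinarith
  have h1N : 1 ≤ N ^ 2 := by nlinarith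
  set P : ℝ := N ^ 2 / K ^ 2 with hP
  have hP0 : 0 ≤ P := by positivity
  have hPN : N / K ^ 2 ≤ P := by
    rw [hP]; gcongr
  have hP1 : 1 / K ^ 2 ≤ P := by
    rw [hP]; gcongr
  have b6 : ‖(σ : ℂ) * ((H 0 L * (∫ x in (0 : ℝ)..L, η x * a (n + 1) 0 x : ℝ)
            + I * (∫ x in (0 : ℝ)..L, w x * b (n + 1) 0 x : ℝ)) - A)‖
      ≤ 1500 * C6 * m ^ 3 * P := by
    rw [norm_mul, Complex.norm_real, Real.norm_of_nonneg hσ0]
    calc σ * ‖_‖ ≤ (100 * K) * (C6 * m * (15 * (m * N) / K) / K ^ 2) :=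
          mul_le_mul hσ1 e6 (norm_nonneg _) (by positivity)
      _ = 1500 * C6 * m ^ 2 * (N / K ^ 2) := by field_simp; ring
      _ ≤ 1500 * C6 * m ^ 3 * P := by gcongr
  have bt : ‖(ρ (n + 1) : ℂ) * (H 0 L * tα + I * tβ)‖ ≤ 40000 * L * m ^ 3 * P := by
    rw [norm_mul, Complex.norm_real, Real.norm_of_nonneg hρ0.le]
    have h1 : ‖H 0 L * tα + I * tβ‖ ≤ 2 * (200 * (K ^ 4)⁻¹ * m * L) := by
      refine (norm_add_le _ _).trans ?_
      rw [norm_mul, norm_mul, Complex.norm_real, Complex.norm_real, Complex.norm_I,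
        Real.norm_eq_abs, Real.norm_eq_abs]
      nlinarith [abs_nonneg tα, abs_nonneg tβ, norm_nonneg (H 0 L)]
    calc ρ (n + 1) * ‖H 0 L * tα + I * tβ‖ ≤ (100 * K) * (2 * (200 * (K ^ 4)⁻¹ * m * L)) :=
          mul_le_mul hρ2 h1 (norm_nonneg _) (by positivity)
      _ = 40000 * L * m * (1 / K ^ 2 * (1 / K)) := by field_simp; ring
      _ ≤ 40000 * L * m * (1 / K ^ 2 * 1) := by
          gcongr
          rw [div_le_one hK0]; exact hK1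
      _ = 40000 * L * m * (1 / K ^ 2) := by ring
      _ ≤ 40000 * L * m ^ 3 * P := by gcongr
  have b1 : ‖T1‖ ≤ C1 * m ^ 3 * P := by
    calc ‖T1‖ ≤ C1 * m ^ 2 / K ^ 2 := e1
      _ = C1 * m ^ 2 * (1 / K ^ 2) := by ring
      _ ≤ C1 * m ^ 3 * P := by gcongr
  have b2 : ‖T2 + T3‖ ≤ 15 * C2 * m ^ 3 * P := by
    calc ‖T2 + T3‖ ≤ C2 * m ^ 2 * (15 * (m * N) / K) / K := e2
      _ = 15 * C2 * m ^ 3 * (N / K ^ 2) := by field_simp
      _ ≤ 15 * C2 * m ^ 3 * P := by gcongr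
  have b5 : ‖T5a + 1 / 2 * T5b‖ ≤ C5 * m ^ 3 * (D / K) := by
    calc ‖T5a + 1 / 2 * T5b‖ ≤ C5 * m ^ 2 * D / K := e5
      _ = C5 * m ^ 2 * (D / K) := by ring
      _ ≤ C5 * m ^ 3 * (D / K) := by gcongr
  have bS : ‖S' / lam‖ ≤ 160000 * (1 + L) * m ^ 3 * P := by
    rw [norm_div]
    calc ‖S'‖ / ‖lam‖ ≤ (ρ (n + 1) * ((n + 1) * (2 * (400 * (1 + L) * m ^ 2 * N))))
          / (K ^ 3 / 2) := by gcongr
      _ ≤ ((100 * K) * (N * (2 * (400 * (1 + L) * m ^ 2 * N)))) / (K ^ 3 / 2) := by gcongr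
      _ = 160000 * (1 + L) * m ^ 2 * P := by rw [hP]; field_simp; ring
      _ ≤ 160000 * (1 + L) * m ^ 3 * P := by gcongr
  have hfin : ‖(σ : ℂ) * ((H 0 L * (∫ x in (0 : ℝ)..L, η x * a (n + 1) 0 x : ℝ)
            + I * (∫ x in (0 : ℝ)..L, w x * b (n + 1) 0 x : ℝ)) - A)
        - ρ (n + 1) * (H 0 L * tα + I * tβ) + T1 + (T2 + T3) + (T5a + 1 / 2 * T5b)
        + S' / lam‖ ≤ 1500 * C6 * m ^ 3 * P + 40000 * L * m ^ 3 * P + C1 * m ^ 3 * P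
        + 15 * C2 * m ^ 3 * P + C5 * m ^ 3 * (D / K) + 160000 * (1 + L) * m ^ 3 * P := by
    refine (norm_add_le _ _).trans (add_le_add ?_ bS)
    refine (norm_add_le _ _).trans (add_le_add ?_ b5)
    refine (norm_add_le _ _).trans (add_le_add ?_ b2)
    refine (norm_add_le _ _).trans (add_le_add ?_ b1)
    exact (norm_sub_le _ _).trans (add_le_add b6 bt)
  refine hfin.trans ?_
  have hDK : 0 ≤ D / K := by positivity
  have z1 : 0 ≤ (1500 * C6 + 40000 * L + C1 + 15 * C2 + 160000 * (1 + L)) * m ^ 3 * (D / K) := by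
    positivity
  have z2 : 0 ≤ C5 * m ^ 3 * P := by positivity
  nlinarith [z1, z2]

end Pool.Agent.KD
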