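import Pool.Agent.KD.Final4

open MeasureTheory Set Complex

namespace Pool.Agent.KD

theorem kd12_lam {K σ : ℝ} {lam : ℂ} (hK2 : 2 ≤ K)
    (hlam : lam = (σ : ℂ) + I * ((K - K ^ 3 : ℝ) : ℂ)) : K ^ 3 / 2 ≤ ‖lam‖ := by
  have hK0 : 0 < K := by linarith
  have hμ2 : K ^ 3 / 2 ≤ |K - K ^ 3| := by
    rw [abs_sub_comm, abs_of_nonneg (by nlinarith [sq_nonneg K, sq_nonneg (K - 2)])]
    nlinarith [mul_pos hK0 hK0, mul_nonneg hK0.le (by nlinarith : (0:ℝ) ≤ K * K - 4)]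
  refine hμ2.trans ?_
  have : lam.im = K - K ^ 3 := by
    rw [hlam]
    generalize K - K ^ 3 = μ
    simp
  rw [← this]
  exact Complex.abs_im_le_norm lam

theorem kd12_B0 (L : ℝ) (hL : 0 < L) : ∃ Q : ℝ, 0 < Q ∧ ∀ (C m c : ℝ) (k ρ : ℕ → ℝ)
    (a b : ℕ → ℤ → ℝ → ℝ) (ε d : ℕ → ℝ) (α β w0 w01 w02 : ℝ → ℝ) (η η1 η2 w w1 w2 : ℝ → ℝ)
    (n : ℕ) (V : ℕ → ℝ → ℝ) (H : ℕ → ℝ → ℂ) (lam : ℂ),
    IsData L k ρ a b ε d α β w0 w01 w02 C → 1 ≤ m → |c| * C ≤ m →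
    IsV L m (m * k n) V → IsWKB L (k (n + 1)) (15 * (m * k n) / k (n + 1)) V H →
    IsSt L m η η1 η2 → IsSt L m w w1 w2 → (∀ x ∈ Icc (0 : ℝ) L, η x = 0) →
    (∀ x ∈ Icc (0 : ℝ) L, w x = c * w0 x) →
    lam = ((ρ (n + 1) * ε (n + 1) : ℝ) : ℂ) + I * ((k (n + 1) - k (n + 1) ^ 3 : ℝ) : ℂ) →
    |c| * (L / 4) * (k (n + 1) ^ 2 * k n ^ 4)⁻¹ - Q * m ^ 2 * (k n / k (n + 1) ^ 3) ≤
    ‖Amp L (a (n + 1)) (b (n + 1)) H η w
        + (Slow (ρ (n + 1)) (H 0 L) n ε (fun j => Cx L (a j 0) η) (fun j => Cx L (b j 0) w)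
          - Kz L (b (n + 1)) V H) / lam‖ := by
  obtain ⟨C0, hC0, E0⟩ := err0 L hL
  obtain ⟨C6, hC6, E6⟩ := err6 L hL
  refine ⟨15 * C6 + 200 + 2 * C0, by positivity, ?_⟩
  intro C m c k ρ a b ε d α β w0 w01 w02 η η1 η2 w w1 w2 n V H lam hd hm hcC hV hH sη sw
    hη hw hlam
  have hmode := hd.mode (n + 1)
  set N := k n with hN
  set K := k (n + 1) with hKdef
  have hN2 : 2 ≤ N := (hd.mode n).hk
  have hK2 : 2 ≤ K := hmode.hk
  have hK0 : 0 < K := by linarith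
  have hN0 : 0 < N := by linarith
  obtain ⟨hρ0, hρ1, hρ2⟩ := kd12_ρ hL hmode
  have hlamn := kd12_lam hK2 hlam
  have e0 := E0 K (ρ (n + 1)) m _ _ _ _ V H hm hmode hV hH
  have e6 := E6 K (ρ (n + 1)) m _ _ _ _ V H η η1 η2 w w1 w2 hm hmode hV hH sη sw
  have hX : ∀ j, Cx L (a j 0) η = 0 := by
    intro j
    unfold Cx
    have : ∀ x ∈ uIcc (0 : ℝ) L, η x * a j 0 x = 0 := by
      intro x hx
      rw [uIcc_of_le hL.le] at hx
      rw [hη x hx, zero_mul]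
    rw [intervalIntegral.integral_congr (g := fun _ => (0 : ℝ)) this]
    simp
  have hY : ∀ j, Cx L (b j 0) w = c * (d j * ∫ x in (0 : ℝ)..L, b j 0 x ^ 2) := by
    intro j
    unfold Cx
    have : ∀ x ∈ uIcc (0 : ℝ) L, w x * b j 0 x = c * (w0 x * b j 0 x) := by
      intro x hx
      rw [uIcc_of_le hL.le] at hx
      rw [hw x hx]; ring
    rw [intervalIntegral.integral_congr this, intervalIntegral.integral_const_mul, hd.coef j]
  set A := Amp L (a (n + 1)) (b (n + 1)) H η w with hA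
  have eA : ‖(H 0 L * (Cx L (a (n + 1) 0) η : ℝ) + I * (Cx L (b (n + 1) 0) w : ℝ)) - A‖
      ≤ C6 * m * (15 * (m * N) / K) / K ^ 2 := e6
  rw [hX, hY] at eA
  have hd1 : d (n + 1) = (K ^ 2 * N ^ 4)⁻¹ := hd.d1 n
  have hnb := hmode.nrm
  have eA2 : |c| * (L / 4) * (K ^ 2 * N ^ 4)⁻¹
      ≤ ‖(H 0 L * ((0 : ℝ) : ℂ) + I * ((c * (d (n + 1) * ∫ x in (0 : ℝ)..L,
          b (n + 1) 0 x ^ 2) : ℝ) : ℂ))‖ := by
    rw [ofReal_zero, mul_zero, zero_add, norm_mul, Complex.norm_I, one_mul, Complex.norm_real,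
      Real.norm_eq_abs, abs_mul, mul_assoc]
    refine mul_le_mul_of_nonneg_left ?_ (abs_nonneg c)
    rw [hd1, abs_mul, abs_of_pos (by positivity : 0 < (K ^ 2 * N ^ 4)⁻¹), mul_comm]
    exact mul_le_mul_of_nonneg_left (hnb.trans (le_abs_self _)) (by positivity)
  have eS : ‖Slow (ρ (n + 1)) (H 0 L) n ε (fun j => Cx L (a j 0) η)
      (fun j => Cx L (b j 0) w)‖ ≤ 100 * K * (m * (K ^ 2)⁻¹) := by
    rw [kd12_Slow_eq]
    have s1 : (∑ j ∈ Finset.range (n + 1), ε j * Cx L (a j 0) η) = 0 :=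
      Finset.sum_eq_zero fun j _ => by rw [hX, mul_zero]
    have s2 : (∑ j ∈ Finset.range (n + 1), ε j * Cx L (b j 0) w)
        = c * ∑ j ∈ Finset.range (n + 1), ε j * d j * ∫ x in (0 : ℝ)..L, b j 0 x ^ 2 := by
      rw [Finset.mul_sum]
      exact Finset.sum_congr rfl fun j _ => by rw [hY]; ring
    rw [s1, s2, ofReal_zero, mul_zero, zero_add, norm_mul, norm_mul, Complex.norm_I, one_mul,
      Complex.norm_real, Complex.norm_real, Real.norm_of_nonneg hρ0.le, Real.norm_eq_abs,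
      abs_mul]
    refine mul_le_mul hρ2 ?_ (by positivity) (by positivity)
    calc |c| * |_| ≤ |c| * (C * (K ^ 2)⁻¹) :=
          mul_le_mul_of_nonneg_left (hd.slow n) (abs_nonneg c)
      _ = |c| * C * (K ^ 2)⁻¹ := by ring
      _ ≤ m * (K ^ 2)⁻¹ := by gcongr
  have eK : ‖Kz L (b (n + 1)) V H‖ ≤ C0 * m ^ 2 := e0
  have eSK : ‖(Slow (ρ (n + 1)) (H 0 L) n ε (fun j => Cx L (a j 0) η)
      (fun j => Cx L (b j 0) w) - Kz L (b (n + 1)) V H) / lam‖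
      ≤ (100 * K * (m * (K ^ 2)⁻¹) + C0 * m ^ 2) / (K ^ 3 / 2) := by
    rw [norm_div]
    have := (norm_sub_le (Slow (ρ (n + 1)) (H 0 L) n ε (fun j => Cx L (a j 0) η)
      (fun j => Cx L (b j 0) w)) (Kz L (b (n + 1)) V H)).trans (add_le_add eS eK)
    gcongr
  have hmm : m ≤ m ^ 2 := by nlinarith
  have eSK2 : (100 * K * (m * (K ^ 2)⁻¹) + C0 * m ^ 2) / (K ^ 3 / 2)
      ≤ (200 + 2 * C0) * m ^ 2 * (N / K ^ 3) := by
    have h1 : 100 * K * (m * (K ^ 2)⁻¹) ≤ 100 * m ^ 2 := by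
      have : K * (K ^ 2)⁻¹ ≤ 1 := by
        rw [← div_eq_mul_inv, div_le_one (by positivity)]
        nlinarith
      calc 100 * K * (m * (K ^ 2)⁻¹) = 100 * m * (K * (K ^ 2)⁻¹) := by ring
        _ ≤ 100 * m * 1 := by gcongr
        _ ≤ 100 * m ^ 2 := by linarith
    calc (100 * K * (m * (K ^ 2)⁻¹) + C0 * m ^ 2) / (K ^ 3 / 2)
        ≤ (100 * m ^ 2 + C0 * m ^ 2) / (K ^ 3 / 2) := by gcongr
      _ = (200 + 2 * C0) * m ^ 2 * (1 / K ^ 3) := by field_simp; ring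
      _ ≤ (200 + 2 * C0) * m ^ 2 * (N / K ^ 3) := by
          gcongr
          linarith
  have e6' : C6 * m * (15 * (m * N) / K) / K ^ 2 = 15 * C6 * m ^ 2 * (N / K ^ 3) := by
    field_simp
  have t1 := norm_sub_le (H 0 L * ((0 : ℝ) : ℂ) + I * ((c * (d (n + 1) * ∫ x in (0 : ℝ)..L,
          b (n + 1) 0 x ^ 2) : ℝ) : ℂ) - A) (-A)
  have t2 := norm_sub_le (A + (Slow (ρ (n + 1)) (H 0 L) n ε (fun j => Cx L (a j 0) η)
      (fun j => Cx L (b j 0) w) - Kz L (b (n + 1)) V H) / lam)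
      ((Slow (ρ (n + 1)) (H 0 L) n ε (fun j => Cx L (a j 0) η)
      (fun j => Cx L (b j 0) w) - Kz L (b (n + 1)) V H) / lam)
  rw [add_sub_cancel_right] at t2
  rw [sub_neg_eq_add, sub_add_cancel, norm_neg] at t1
  have : (15 * C6 + 200 + 2 * C0) * m ^ 2 * (N / K ^ 3)
      = 15 * C6 * m ^ 2 * (N / K ^ 3) + (200 + 2 * C0) * m ^ 2 * (N / K ^ 3) := by ring
  rw [this]
  linarith

theorem kd12_BU (L : ℝ) (hL : 0 < L) : ∃ Q : ℝ, 0 < Q ∧ ∀ (C m : ℝ) (k ρ : ℕ → ℝ)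
    (a b : ℕ → ℤ → ℝ → ℝ) (ε d : ℕ → ℝ) (α β w0 w01 w02 : ℝ → ℝ) (η η1 η2 w w1 w2 : ℝ → ℝ)
    (n : ℕ) (V : ℕ → ℝ → ℝ) (H : ℕ → ℝ → ℂ) (lam : ℂ),
    IsData L k ρ a b ε d α β w0 w01 w02 C → 1 ≤ m → k n ≤ k (n + 1) → (n : ℝ) + 1 ≤ k n →
    (∀ j, 0 ≤ ε j ∧ ε j ≤ 1) →
    IsV L m (m * k n) V → IsWKB L (k (n + 1)) (15 * (m * k n) / k (n + 1)) V H →
    IsSt L m η η1 η2 → IsSt L m w w1 w2 →
    lam = ((ρ (n + 1) * ε (n + 1) : ℝ) : ℂ) + I * ((k (n + 1) - k (n + 1) ^ 3 : ℝ) : ℂ) →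
    ‖Amp L (a (n + 1)) (b (n + 1)) H η w
        + (Slow (ρ (n + 1)) (H 0 L) n ε (fun j => Cx L (a j 0) η) (fun j => Cx L (b j 0) w)
          - Kz L (b (n + 1)) V H) / lam‖ ≤ Q * m ^ 2 := by
  obtain ⟨C0, hC0, E0⟩ := err0 L hL
  refine ⟨40200 * L + 2 * C0, by positivity, ?_⟩
  intro C m k ρ a b ε d α β w0 w01 w02 η η1 η2 w w1 w2 n V H lam hd hm hNK hnk hε hV hH sη sw
    hlam
  have hmode := hd.mode (n + 1)
  set N := k n with hN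
  set K := k (n + 1) with hKdef
  have hN2 : 2 ≤ N := (hd.mode n).hk
  have hK2 : 2 ≤ K := hmode.hk
  have hK0 : 0 < K := by linarith
  have hN0 : 0 < N := by linarith
  obtain ⟨hρ0, hρ1, hρ2⟩ := kd12_ρ hL hmode
  have hlamn := kd12_lam hK2 hlam
  have e0 := E0 K (ρ (n + 1)) m _ _ _ _ V H hm hmode hV hH
  have eK : ‖Kz L (b (n + 1)) V H‖ ≤ C0 * m ^ 2 := e0
  have hmm : m ≤ m ^ 2 := by nlinarith
  have eA : ‖Amp L (a (n + 1)) (b (n + 1)) H η w‖ ≤ 200 * m * L := by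
    unfold Amp
    refine kd12_norm_int hL.le fun x hx => ?_
    rw [norm_mul]
    have h1 : ‖(η x : ℂ) * a (n + 1) 0 x + I * (w x * b (n + 1) 0 x)‖ ≤ 200 * m := by
      refine (norm_add_le _ _).trans ?_
      rw [norm_mul, norm_mul, norm_mul, Complex.norm_real, Complex.norm_real, Complex.norm_real,
        Complex.norm_real, Complex.norm_I, Real.norm_eq_abs, Real.norm_eq_abs,
        Real.norm_eq_abs, Real.norm_eq_abs]
      have p1 : |η x| * |a (n + 1) 0 x| ≤ m * 100 :=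
        mul_le_mul (sη.b0 x hx) (kd12_a0 hmode hx) (abs_nonneg _) (by linarith)
      have p2 : |w x| * |b (n + 1) 0 x| ≤ m * 100 :=
        mul_le_mul (sw.b0 x hx) (kd12_b0 hmode hx) (abs_nonneg _) (by linarith)
      linarith
    calc ‖(η x : ℂ) * a (n + 1) 0 x + I * (w x * b (n + 1) 0 x)‖ * ‖H 0 x‖
        ≤ (200 * m) * 1 := mul_le_mul h1 (hH.b0 x) (norm_nonneg _) (by positivity)
      _ = 200 * m := mul_one _
  have eS : ‖Slow (ρ (n + 1)) (H 0 L) n ε (fun j => Cx L (a j 0) η)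
      (fun j => Cx L (b j 0) w)‖ ≤ ρ (n + 1) * ((n + 1) * (2 * (100 * m * L))) :=
    kd12_Slow_bd hρ0.le (hH.b0 L)
      (fun j _ => by rw [abs_of_nonneg (hε j).1]; exact (hε j).2)
      (fun j _ => kd12_Cx_bd hL (fun x hx => kd12_a0 (hd.mode j) hx) sη.b0)
      (fun j _ => kd12_Cx_bd hL (fun x hx => kd12_b0 (hd.mode j) hx) sw.b0)
  have eSK : ‖(Slow (ρ (n + 1)) (H 0 L) n ε (fun j => Cx L (a j 0) η)
      (fun j => Cx L (b j 0) w) - Kz L (b (n + 1)) V H) / lam‖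
      ≤ (ρ (n + 1) * ((n + 1) * (2 * (100 * m * L))) + C0 * m ^ 2) / (K ^ 3 / 2) := by
    rw [norm_div]
    have := (norm_sub_le (Slow (ρ (n + 1)) (H 0 L) n ε (fun j => Cx L (a j 0) η)
      (fun j => Cx L (b j 0) w)) (Kz L (b (n + 1)) V H)).trans (add_le_add eS eK)
    gcongr
  have eSK2 : (ρ (n + 1) * ((n + 1) * (2 * (100 * m * L))) + C0 * m ^ 2) / (K ^ 3 / 2)
      ≤ (40000 * L + 2 * C0) * m ^ 2 := by
    have hK1 : 1 ≤ K := by linarith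
    have hKK : K ^ 2 ≤ K ^ 3 := pow_le_pow_right₀ hK1 (by norm_num)
    have hK3 : 1 ≤ K ^ 3 := one_le_pow₀ hK1
    rw [div_le_iff₀ (by positivity)]
    have h1 : ρ (n + 1) * ((n + 1) * (2 * (100 * m * L)))
        ≤ (100 * K) * (K * (2 * (100 * m ^ 2 * L))) := by
      gcongr
      linarith
    have h2 : (100 * K) * (K * (2 * (100 * m ^ 2 * L))) = 20000 * L * m ^ 2 * K ^ 2 := by ring
    have h3 : 20000 * L * m ^ 2 * K ^ 2 ≤ 20000 * L * m ^ 2 * K ^ 3 := by gcongr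
    have h4 : C0 * m ^ 2 * 1 ≤ C0 * m ^ 2 * K ^ 3 := by gcongr
    nlinarith
  have := norm_add_le (Amp L (a (n + 1)) (b (n + 1)) H η w)
    ((Slow (ρ (n + 1)) (H 0 L) n ε (fun j => Cx L (a j 0) η)
      (fun j => Cx L (b j 0) w) - Kz L (b (n + 1)) V H) / lam)
  have h5 : 200 * m * L ≤ 200 * L * m ^ 2 := by
    have := mul_le_mul_of_nonneg_left hmm (by positivity : 0 ≤ 200 * L)
    linarith
  nlinarith

end Pool.Agent.KD
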