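import Pool.Agent.KD.Final5

open MeasureTheory Set Complex

namespace Pool.Agent.KD

theorem kd12_num {N K g σ A1 A2 A3 : ℝ} (hN : 2 ≤ N) (hK : N ^ 100 ≤ K) (hg : 0 < g)
    (hA1 : 0 ≤ A1) (hA2 : 0 ≤ A2) (hσ : K / N ^ 4 ≤ σ)
    (h1 : 8 * (A1 + A2) ≤ g * N) (h2 : 192 * A3 < g * N)
    (hfin : Real.exp (σ * (N ^ 20)⁻¹) * ((g / 4) * (K ^ 2 * N ^ 4)⁻¹ - A2 * (N / K ^ 3)
      - A1 * ((N ^ 2 / K ^ 2 + (N ^ 10)⁻¹ / K) / 2) / σ) ≤ A3) : False := by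
  have hN0 : 0 < N := by linarith
  have hN1 : 1 ≤ N := by linarith
  have hNK : N ≤ K := (le_self_pow₀ hN1 (by norm_num)).trans hK
  have hK0 : 0 < K := by linarith
  have hσ0 : 0 < σ := lt_of_lt_of_le (by positivity) hσ
  -- the bracket
  have e1 : A2 * (N / K ^ 3) ≤ (A2 / N) * (K ^ 2 * N ^ 4)⁻¹ := by
    have : N / K ^ 3 ≤ (1 / N) * (K ^ 2 * N ^ 4)⁻¹ := by
      have h6 : N ^ 6 ≤ K := (pow_le_pow_right₀ hN1 (by norm_num)).trans hK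
      rw [show (1 / N) * (K ^ 2 * N ^ 4)⁻¹ = 1 / (K ^ 2 * N ^ 5) by field_simp,
        div_le_div_iff₀ (by positivity) (by positivity)]
      calc N * (K ^ 2 * N ^ 5) = K ^ 2 * N ^ 6 := by ring
        _ ≤ K ^ 2 * K := by gcongr
        _ = 1 * K ^ 3 := by ring
    calc A2 * (N / K ^ 3) ≤ A2 * ((1 / N) * (K ^ 2 * N ^ 4)⁻¹) := by gcongr
      _ = (A2 / N) * (K ^ 2 * N ^ 4)⁻¹ := by ring
  have e2 : A1 * ((N ^ 2 / K ^ 2 + (N ^ 10)⁻¹ / K) / 2) / σ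
      ≤ (A1 / N) * (K ^ 2 * N ^ 4)⁻¹ := by
    have h12 : N ^ 12 ≤ K := (pow_le_pow_right₀ hN1 (by norm_num)).trans hK
    have s1 : N ^ 2 / K ^ 2 ≤ (N ^ 10)⁻¹ / K := by
      rw [show (N ^ 10)⁻¹ / K = 1 / (N ^ 10 * K) by field_simp,
        div_le_div_iff₀ (by positivity) (by positivity)]
      calc N ^ 2 * (N ^ 10 * K) = N ^ 12 * K := by ring
        _ ≤ K * K := by gcongr
        _ = 1 * K ^ 2 := by ring
    have s2 : (N ^ 2 / K ^ 2 + (N ^ 10)⁻¹ / K) / 2 ≤ (N ^ 10)⁻¹ / K := by linarith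
    calc A1 * ((N ^ 2 / K ^ 2 + (N ^ 10)⁻¹ / K) / 2) / σ
        ≤ A1 * ((N ^ 10)⁻¹ / K) / (K / N ^ 4) := by gcongr
      _ = A1 * (1 / (N ^ 6 * K ^ 2)) := by field_simp
      _ ≤ A1 * (1 / (N ^ 5 * K ^ 2)) := by
          gcongr
          norm_num
      _ = (A1 / N) * (K ^ 2 * N ^ 4)⁻¹ := by field_simp
  have e3 : (g / 8) * (K ^ 2 * N ^ 4)⁻¹ ≤ (g / 4) * (K ^ 2 * N ^ 4)⁻¹ - A2 * (N / K ^ 3)
      - A1 * ((N ^ 2 / K ^ 2 + (N ^ 10)⁻¹ / K) / 2) / σ := by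
    have h3 : A1 / N + A2 / N ≤ g / 8 := by
      rw [← add_div, div_le_div_iff₀ hN0 (by norm_num)]
      linarith
    have h4 : (A1 / N + A2 / N) * (K ^ 2 * N ^ 4)⁻¹ ≤ (g / 8) * (K ^ 2 * N ^ 4)⁻¹ := by gcongr
    nlinarith
  have e4 : (K / N ^ 24) ^ 4 / 24 ≤ Real.exp (σ * (N ^ 20)⁻¹) := by
    have h5 : K / N ^ 24 ≤ σ * (N ^ 20)⁻¹ := by
      calc K / N ^ 24 = (K / N ^ 4) * (N ^ 20)⁻¹ := by field_simp
        _ ≤ σ * (N ^ 20)⁻¹ := by gcongr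
    have h6 := Real.pow_div_factorial_le_exp (σ * (N ^ 20)⁻¹) (by positivity) 4
    have h7 : (K / N ^ 24) ^ 4 / 24 ≤ (σ * (N ^ 20)⁻¹) ^ 4 / (Nat.factorial 4 : ℝ) := by
      have : ((Nat.factorial 4 : ℕ) : ℝ) = 24 := by norm_num [Nat.factorial]
      rw [this]
      gcongr
    exact h7.trans h6
  have e5 : (K / N ^ 24) ^ 4 / 24 * ((g / 8) * (K ^ 2 * N ^ 4)⁻¹) ≤ A3 :=
    (mul_le_mul e4 e3 (by positivity) (Real.exp_pos _).le).trans hfin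
  have e6 : (K / N ^ 24) ^ 4 / 24 * ((g / 8) * (K ^ 2 * N ^ 4)⁻¹) = g / 192 * (K ^ 2 / N ^ 100) := by
    field_simp
    norm_num
  have e7 : N ≤ K ^ 2 / N ^ 100 := by
    rw [le_div_iff₀ (by positivity)]
    calc N * N ^ 100 ≤ K * K := by gcongr
      _ = K ^ 2 := by ring
  rw [e6] at e5
  have e8 : g / 192 * N ≤ g / 192 * (K ^ 2 / N ^ 100) := by gcongr
  linarith

section growth
variable {L C : ℝ} {k ρ : ℕ → ℝ} {a b : ℕ → ℤ → ℝ → ℝ} {ε d : ℕ → ℝ}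
  {α β w0 w01 w02 : ℝ → ℝ}

theorem kd12_k_step (hd : IsData L k ρ a b ε d α β w0 w01 w02 C) (n : ℕ) :
    k n + 1 ≤ k (n + 1) := by
  have h2 := (hd.mode n).hk
  have h3 := hd.grow n
  have h4 : k n ^ 2 ≤ k n ^ 100 := pow_le_pow_right₀ (by linarith) (by norm_num)
  nlinarith

theorem kd12_k_lin (hd : IsData L k ρ a b ε d α β w0 w01 w02 C) (n : ℕ) :
    (n : ℝ) + 2 ≤ k n := by
  induction n with
  | zero => simpa using (hd.mode 0).hk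
  | succ n ih =>
    have := kd12_k_step hd n
    push_cast
    linarith

theorem kd12_k_mono (hd : IsData L k ρ a b ε d α β w0 w01 w02 C) {i j : ℕ} (hij : i ≤ j) :
    k i ≤ k j :=
  monotone_nat_of_le_succ (f := k) (fun n => by linarith [kd12_k_step hd n]) hij

theorem kd12_ε (hd : IsData L k ρ a b ε d α β w0 w01 w02 C) (j : ℕ) : 0 ≤ ε j ∧ ε j ≤ 1 := by
  cases j with
  | zero => rw [hd.ε0]; norm_num
  | succ n =>
    rw [hd.ε1]
    have h2 := (hd.mode n).hk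
    have : 1 ≤ k n ^ 4 := one_le_pow₀ (by linarith)
    exact ⟨by positivity, inv_le_one_of_one_le₀ this⟩

/-- the low part of the datum -/
theorem kd12_V (hL : 0 < L) (hC : 0 < C) (hd : IsData L k ρ a b ε d α β w0 w01 w02 C)
    {c m : ℝ} (hm : |c| * C ≤ m) (n : ℕ) :
    IsV L m (m * k n) (fun j x => c * ∑ i ∈ Finset.range (n + 1), d i * b i (j : ℤ) x) := by
  have hm0 : 0 ≤ m := (by positivity : (0 : ℝ) ≤ |c| * C).trans hm
  have hD : ∀ (j : ℕ) (x : ℝ), HasDerivAt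
      (fun x => c * ∑ i ∈ Finset.range (n + 1), d i * b i (j : ℤ) x)
      (c * ∑ i ∈ Finset.range (n + 1), d i * b i ((j + 1 : ℕ) : ℤ) x) x := by
    intro j x
    refine HasDerivAt.const_mul _ (HasDerivAt.fun_sum fun i _ => ?_)
    exact ((hd.mode i).db j x).const_mul _
  have hB : ∀ j : ℕ, j ≤ 2 → ∀ x ∈ Icc (0 : ℝ) L,
      |c * ∑ i ∈ Finset.range (n + 1), d i * b i (j : ℤ) x| ≤ m := by
    intro j hj x hx
    rw [abs_mul]
    exact (mul_le_mul_of_nonneg_left (hd.lowV (n + 1) j hj x hx) (abs_nonneg c)).trans hm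
  have h0 : c * ∑ i ∈ Finset.range (n + 1), d i * b i ((0 : ℕ) : ℤ) 0 = 0 := by
    rw [Finset.sum_eq_zero, mul_zero]
    intro i _
    rw [Nat.cast_zero, (hd.mode i).b00, mul_zero]
  have h0L : c * ∑ i ∈ Finset.range (n + 1), d i * b i ((0 : ℕ) : ℤ) L = 0 := by
    rw [Finset.sum_eq_zero, mul_zero]
    intro i _
    rw [Nat.cast_zero, (hd.mode i).b0L, mul_zero]
  have hmv : ∀ x ∈ Icc (0 : ℝ) L, ∀ y ∈ Icc (0 : ℝ) L,
      |(c * ∑ i ∈ Finset.range (n + 1), d i * b i ((0 : ℕ) : ℤ) x)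
        - (c * ∑ i ∈ Finset.range (n + 1), d i * b i ((0 : ℕ) : ℤ) y)| ≤ m * |x - y| := by
    intro x hx y hy
    have := Convex.norm_image_sub_le_of_norm_hasDerivWithin_le
      (f := fun x => c * ∑ i ∈ Finset.range (n + 1), d i * b i ((0 : ℕ) : ℤ) x)
      (f' := fun x => c * ∑ i ∈ Finset.range (n + 1), d i * b i ((1 : ℕ) : ℤ) x)
      (s := Icc (0 : ℝ) L) (C := m) (fun z _ => (hD 0 z).hasDerivWithinAt)
      (fun z hz => hB 1 (by norm_num) z hz) (convex_Icc 0 L) hy hx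
    simpa [Real.norm_eq_abs] using this
  refine ⟨hD, h0, h0L, hB, ?_, ?_, ?_⟩
  · intro x hx
    rw [abs_mul]
    have := hd.lowV3 n x hx
    calc |c| * |∑ i ∈ Finset.range (n + 1), d i * b i ((3 : ℕ) : ℤ) x|
        ≤ |c| * (C * k n) := mul_le_mul_of_nonneg_left this (abs_nonneg c)
      _ = |c| * C * k n := by ring
      _ ≤ m * k n := by
          have := (hd.mode n).hk
          gcongr
  · intro x hx
    have := hmv x hx 0 ⟨le_rfl, hL.le⟩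
    rw [h0, sub_zero, sub_zero, abs_of_nonneg hx.1] at this
    exact this
  · intro x hx
    have := hmv x hx L ⟨hL.le, le_rfl⟩
    rw [h0L, sub_zero, abs_sub_comm, abs_of_nonneg (by linarith [hx.2] : (0 : ℝ) ≤ L - x)] at this
    exact this

end growth

end Pool.Agent.KD
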