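import Pool.Agent.KD.Defs

/-!
KD-1: existence of modes
-/

open MeasureTheory Set Complex

namespace Pool.Agent.KD

noncomputable def kd1S (k : ℝ) : ℝ := Real.sqrt (3 * k ^ 2 - 4) / 2
noncomputable def kd1Z1 (k : ℝ) : ℂ := I * k
noncomputable def kd1Z2 (k : ℝ) : ℂ := -(I * k / 2) + (kd1S k : ℝ)
noncomputable def kd1Z3 (k : ℝ) : ℂ := -(I * k / 2) - (kd1S k : ℝ)
noncomputable def kd1C (h k : ℝ) : ℝ := Real.cos (3 * k * h / 2) / Real.cosh (kd1S k * h)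
noncomputable def kd1D (h k : ℝ) : ℝ := Real.sin (3 * k * h / 2) / Real.sinh (kd1S k * h)
noncomputable def kd1p (h k : ℝ) : ℂ := ((kd1C h k : ℝ) + I * (kd1D h k : ℝ)) / 2
noncomputable def kd1m (h k : ℝ) : ℂ := ((kd1C h k : ℝ) - I * (kd1D h k : ℝ)) / 2

/-- a single exponential term -/
noncomputable def kd1E (z c : ℂ) (h : ℝ) (j : ℤ) (x : ℝ) : ℂ :=
  c * z ^ j * exp (z * ((x : ℂ) - h))

noncomputable def kd1P (h k : ℝ) (j : ℤ) (x : ℝ) : ℂ :=
  kd1E (kd1Z1 k) 1 h j x - kd1E (kd1Z2 k) (kd1p h k) h j x - kd1E (kd1Z3 k) (kd1m h k) h j x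

theorem kd1E_deriv {z : ℂ} (hz : z ≠ 0) (c : ℂ) (h : ℝ) (j : ℤ) (x : ℝ) :
    HasDerivAt (kd1E z c h j) (kd1E z c h (j + 1) x) x := by
  have h1 : HasDerivAt (fun x : ℝ => z * ((x : ℂ) - h)) z x := by
    have := ((Complex.ofRealCLM.hasDerivAt (x := x)).sub_const (h : ℂ)).const_mul z
    simpa using this
  have h2 := (h1.cexp).const_mul (c * z ^ j)
  have h3 : kd1E z c h (j + 1) x = c * z ^ j * (exp (z * ((x : ℂ) - h)) * z) := by
    unfold kd1E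
    rw [zpow_add_one₀ hz]
    ring
  rw [h3]
  exact h2

theorem kd1S_sq {k : ℝ} (hk : 2 ≤ k) : kd1S k ^ 2 = (3 * k ^ 2 - 4) / 4 := by
  unfold kd1S
  rw [div_pow, Real.sq_sqrt (by nlinarith)]
  norm_num

theorem kd1S_nonneg (k : ℝ) : 0 ≤ kd1S k := by
  unfold kd1S
  positivity

theorem kd1S_lo {k : ℝ} (hk : 2 ≤ k) : k / 2 ≤ kd1S k := by
  have h1 := kd1S_sq hk
  have h2 := kd1S_nonneg k
  nlinarith

theorem kd1S_hi {k : ℝ} (hk : 2 ≤ k) : kd1S k ≤ k := by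
  have h1 := kd1S_sq hk
  have h2 := kd1S_nonneg k
  nlinarith

theorem kd1_cube1 (k : ℝ) : kd1Z1 k + kd1Z1 k ^ 3 = I * ((k : ℂ) - k ^ 3) := by
  unfold kd1Z1
  rw [mul_pow, I_pow_three]
  ring

theorem kd1_quad2 {k : ℝ} (hk : 2 ≤ k) :
    kd1Z2 k ^ 2 + I * k * kd1Z2 k + 1 - (k : ℂ) ^ 2 = 0 := by
  have h1 : ((kd1S k : ℝ) : ℂ) ^ 2 = (3 * (k : ℂ) ^ 2 - 4) / 4 := by
    rw [← Complex.ofReal_pow, kd1S_sq hk]
    push_cast
    ring
  unfold kd1Z2
  linear_combination h1 - (k : ℂ) ^ 2 / 4 * I_sq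

theorem kd1_quad3 {k : ℝ} (hk : 2 ≤ k) :
    kd1Z3 k ^ 2 + I * k * kd1Z3 k + 1 - (k : ℂ) ^ 2 = 0 := by
  have h1 : ((kd1S k : ℝ) : ℂ) ^ 2 = (3 * (k : ℂ) ^ 2 - 4) / 4 := by
    rw [← Complex.ofReal_pow, kd1S_sq hk]
    push_cast
    ring
  unfold kd1Z3
  linear_combination h1 - (k : ℂ) ^ 2 / 4 * I_sq

theorem kd1_cube_of_quad {z : ℂ} {k : ℝ} (h : z ^ 2 + I * k * z + 1 - (k : ℂ) ^ 2 = 0) :
    z + z ^ 3 = I * ((k : ℂ) - k ^ 3) := by
  have h2 : z + z ^ 3 - I * ((k : ℂ) - k ^ 3)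
      = (z - I * k) * (z ^ 2 + I * k * z + 1 - (k : ℂ) ^ 2) := by
    linear_combination ((k : ℂ) ^ 2 * z) * I_sq
  rw [h, mul_zero] at h2
  linear_combination h2

theorem kd1_ne1 {k : ℝ} (hk : 2 ≤ k) : kd1Z1 k ≠ 0 := by
  unfold kd1Z1
  have : (k : ℂ) ≠ 0 := by exact_mod_cast (by linarith : k ≠ 0)
  exact mul_ne_zero I_ne_zero this

theorem kd1_re2 (k : ℝ) : (kd1Z2 k).re = kd1S k := by
  unfold kd1Z2
  simp

theorem kd1_im2 (k : ℝ) : (kd1Z2 k).im = -(k / 2) := by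
  unfold kd1Z2
  simp

theorem kd1_re3 (k : ℝ) : (kd1Z3 k).re = -kd1S k := by
  unfold kd1Z3
  simp

theorem kd1_im3 (k : ℝ) : (kd1Z3 k).im = -(k / 2) := by
  unfold kd1Z3
  simp

theorem kd1_norm1 {k : ℝ} (hk : 2 ≤ k) : ‖kd1Z1 k‖ = k := by
  unfold kd1Z1
  rw [norm_mul, norm_I, one_mul, Complex.norm_real, Real.norm_eq_abs, abs_of_nonneg (by linarith)]

theorem kd1_normsq2 {k : ℝ} (hk : 2 ≤ k) : ‖kd1Z2 k‖ ^ 2 = k ^ 2 - 1 := by
  rw [← Complex.normSq_eq_norm_sq, Complex.normSq_apply, kd1_re2, kd1_im2]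
  have := kd1S_sq hk
  nlinarith

theorem kd1_normsq3 {k : ℝ} (hk : 2 ≤ k) : ‖kd1Z3 k‖ ^ 2 = k ^ 2 - 1 := by
  rw [← Complex.normSq_eq_norm_sq, Complex.normSq_apply, kd1_re3, kd1_im3]
  have := kd1S_sq hk
  nlinarith

theorem kd1_pow_bd {z : ℂ} {k : ℝ} (hk : 2 ≤ k) (h : ‖z‖ ^ 2 = k ^ 2 - 1) {j : ℤ}
    (h1 : -2 ≤ j) (h2 : j ≤ 3) : ‖z ^ j‖ ≤ 4 * k ^ j := by
  have hk0 : (0 : ℝ) < k := by linarith
  have hz0 : 0 ≤ ‖z‖ := norm_nonneg z
  have hzk : ‖z‖ ≤ k := by nlinarith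
  have hz2 : k / 2 ≤ ‖z‖ := by nlinarith
  have hzpos : 0 < ‖z‖ := by linarith
  rw [norm_zpow]
  rcases le_or_gt 0 j with hj | hj
  · obtain ⟨n, rfl⟩ := Int.eq_ofNat_of_zero_le hj
    have : ‖z‖ ^ (n : ℤ) ≤ k ^ (n : ℤ) := by
      rw [zpow_natCast, zpow_natCast]
      exact pow_le_pow_left₀ hz0 hzk n
    have h3 : 0 < k ^ (n : ℤ) := zpow_pos hk0 _
    linarith
  · have hj' : j = -1 ∨ j = -2 := by omega
    rcases hj' with rfl | rfl
    · rw [zpow_neg_one, zpow_neg_one]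
      rw [inv_le_comm₀ hzpos (by positivity), mul_inv, inv_inv]
      linarith
    · have e1 : ‖z‖ ^ (-2 : ℤ) = (‖z‖ ^ 2)⁻¹ := by
        rw [zpow_neg]; norm_cast
      have e2 : k ^ (-2 : ℤ) = (k ^ 2)⁻¹ := by
        rw [zpow_neg]; norm_cast
      rw [e1, e2]
      rw [inv_le_comm₀ (by positivity) (by positivity), mul_inv, inv_inv, h]
      nlinarith

theorem kd1_ne_of_norm {z : ℂ} {k : ℝ} (hk : 2 ≤ k) (h : ‖z‖ ^ 2 = k ^ 2 - 1) : z ≠ 0 := by
  intro h0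
  rw [h0, norm_zero] at h
  nlinarith

theorem kd1P_deriv {h k : ℝ} (hk : 2 ≤ k) (j : ℤ) (x : ℝ) :
    HasDerivAt (kd1P h k j) (kd1P h k (j + 1) x) x := by
  have n1 := kd1_ne1 hk
  have n2 := kd1_ne_of_norm hk (kd1_normsq2 hk)
  have n3 := kd1_ne_of_norm hk (kd1_normsq3 hk)
  exact ((kd1E_deriv n1 1 h j x).sub (kd1E_deriv n2 _ h j x)).sub (kd1E_deriv n3 _ h j x)

theorem kd1E_ode {z : ℂ} {k : ℝ} (hz : z + z ^ 3 = I * ((k : ℂ) - k ^ 3)) (c : ℂ) (h : ℝ) (x : ℝ) :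
    kd1E z c h 1 x + kd1E z c h 3 x = I * ((k : ℂ) - k ^ 3) * kd1E z c h 0 x := by
  unfold kd1E
  have e1 : z ^ (1 : ℤ) = z := zpow_one z
  have e3 : z ^ (3 : ℤ) = z ^ 3 := by norm_cast
  have e0 : z ^ (0 : ℤ) = 1 := zpow_zero z
  rw [e1, e3, e0]
  linear_combination c * exp (z * ((x : ℂ) - h)) * hz

theorem kd1P_ode {h k : ℝ} (hk : 2 ≤ k) (x : ℝ) :
    kd1P h k 1 x + kd1P h k 3 x = I * ((k : ℂ) - k ^ 3) * kd1P h k 0 x := by
  have o1 := kd1E_ode (kd1_cube1 k) 1 h x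
  have o2 := kd1E_ode (kd1_cube_of_quad (kd1_quad2 hk)) (kd1p h k) h x
  have o3 := kd1E_ode (kd1_cube_of_quad (kd1_quad3 hk)) (kd1m h k) h x
  unfold kd1P
  linear_combination o1 - o2 - o3

/-! ### symmetry -/

theorem kd1E_symm {z z' c c' : ℂ} (hz : (starRingEnd ℂ) z = -z') (hc : (starRingEnd ℂ) c = c')
    (h : ℝ) (j : ℤ) (x : ℝ) :
    kd1E z' c' h j (2 * h - x) = (-1) ^ j * (starRingEnd ℂ) (kd1E z c h j x) := by
  unfold kd1E
  rw [map_mul, map_mul, map_zpow₀, ← Complex.exp_conj, map_mul, map_sub, hz, hc,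
    Complex.conj_ofReal, Complex.conj_ofReal, neg_eq_neg_one_mul z', mul_zpow]
  have e1 : z' * (((2 * h - x : ℝ) : ℂ) - h) = -1 * z' * ((x : ℂ) - h) := by
    push_cast; ring
  have e2 : ((-1 : ℂ) ^ j) * ((-1 : ℂ) ^ j) = 1 := by
    rw [← mul_zpow]; norm_num
  rw [e1]
  linear_combination (-(c' * z' ^ j * exp (-1 * z' * ((x : ℂ) - h)))) * e2

theorem kd1P_symm (h k : ℝ) (j : ℤ) (x : ℝ) :
    kd1P h k j (2 * h - x) = (-1) ^ j * (starRingEnd ℂ) (kd1P h k j x) := by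
  have two : (starRingEnd ℂ) 2 = 2 := map_ofNat _ 2
  have c1 : (starRingEnd ℂ) (kd1Z1 k) = -kd1Z1 k := by
    unfold kd1Z1; simp
  have c2 : (starRingEnd ℂ) (kd1Z2 k) = -kd1Z3 k := by
    unfold kd1Z2 kd1Z3; simp [two]; ring
  have c3 : (starRingEnd ℂ) (kd1Z3 k) = -kd1Z2 k := by
    unfold kd1Z2 kd1Z3; simp [two]; ring
  have d2 : (starRingEnd ℂ) (kd1p h k) = kd1m h k := by
    unfold kd1p kd1m; simp [two]; ring
  have d3 : (starRingEnd ℂ) (kd1m h k) = kd1p h k := by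
    unfold kd1p kd1m; simp [two]
  have s1 := kd1E_symm c1 (map_one _) h j x
  have s2 := kd1E_symm c2 d2 h j x
  have s3 := kd1E_symm c3 d3 h j x
  unfold kd1P
  rw [map_sub, map_sub, mul_sub, mul_sub, ← s1, ← s2, ← s3]
  ring

/-! ### values at the left end -/

theorem kd1_P00 {h k : ℝ} (hk : 2 ≤ k) (hh : 0 < h) : kd1P h k 0 0 = 0 := by
  have hu : 0 < kd1S k * h := mul_pos (by linarith [kd1S_lo hk]) hh
  have hC : (kd1C h k : ℂ) * Complex.cosh ((kd1S k * h : ℝ) : ℂ)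
      = Complex.cos ((3 * k * h / 2 : ℝ) : ℂ) := by
    unfold kd1C
    rw [← Complex.ofReal_cosh, ← Complex.ofReal_cos, ← Complex.ofReal_mul,
      div_mul_cancel₀ _ (Real.cosh_pos _).ne']
  have hD : (kd1D h k : ℂ) * Complex.sinh ((kd1S k * h : ℝ) : ℂ)
      = Complex.sin ((3 * k * h / 2 : ℝ) : ℂ) := by
    unfold kd1D
    rw [← Complex.ofReal_sinh, ← Complex.ofReal_sin, ← Complex.ofReal_mul,
      div_mul_cancel₀ _ (Real.sinh_pos_iff.2 hu).ne']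
  have e1 : exp (kd1Z2 k * (((0 : ℝ) : ℂ) - h)) = exp (I * k * h / 2)
      * (Complex.cosh ((kd1S k * h : ℝ) : ℂ) - Complex.sinh ((kd1S k * h : ℝ) : ℂ)) := by
    rw [Complex.cosh_sub_sinh, ← Complex.exp_add]
    unfold kd1Z2
    push_cast
    ring_nf
  have e2 : exp (kd1Z3 k * (((0 : ℝ) : ℂ) - h)) = exp (I * k * h / 2)
      * (Complex.cosh ((kd1S k * h : ℝ) : ℂ) + Complex.sinh ((kd1S k * h : ℝ) : ℂ)) := by
    rw [Complex.cosh_add_sinh, ← Complex.exp_add]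
    unfold kd1Z3
    push_cast
    ring_nf
  have e3 : exp (kd1Z1 k * (((0 : ℝ) : ℂ) - h)) = exp (I * k * h / 2)
      * (Complex.cos ((3 * k * h / 2 : ℝ) : ℂ) - Complex.sin ((3 * k * h / 2 : ℝ) : ℂ) * I) := by
    rw [Complex.cos_sub_sin_I, ← Complex.exp_add]
    unfold kd1Z1
    push_cast
    ring_nf
  unfold kd1P kd1E
  rw [e1, e2, e3, zpow_zero, zpow_zero, zpow_zero]
  unfold kd1p kd1m
  linear_combination (-exp (I * k * h / 2)) * hC + (I * exp (I * k * h / 2)) * hD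

theorem kd1_P10 {h k : ℝ} (hk : 2 ≤ k) (hh : 0 < h) :
    kd1P h k 1 0 = (3 * I * k / 2 + (kd1S k : ℝ)) * exp (-(I * k * h))
      - 2 * (kd1S k : ℝ) * (kd1p h k * exp (-(kd1Z2 k * h))) := by
  have h0 := kd1_P00 hk hh
  unfold kd1P kd1E at h0 ⊢
  rw [zpow_zero, zpow_zero, zpow_zero] at h0
  rw [zpow_one, zpow_one, zpow_one]
  have e1 : kd1Z1 k * (((0 : ℝ) : ℂ) - h) = -(I * k * h) := by
    unfold kd1Z1; push_cast; ring
  have e2 : kd1Z2 k * (((0 : ℝ) : ℂ) - h) = -(kd1Z2 k * h) := by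
    push_cast; ring
  rw [e1, e2] at h0 ⊢
  have a1 : kd1Z1 k - kd1Z3 k = 3 * I * k / 2 + (kd1S k : ℝ) := by
    unfold kd1Z1 kd1Z3; ring
  have a2 : kd1Z2 k - kd1Z3 k = 2 * (kd1S k : ℝ) := by
    unfold kd1Z2 kd1Z3; ring
  rw [← a1, ← a2]
  linear_combination kd1Z3 k * h0

/-! ### bounds -/

theorem kd1_inv_cosh (u : ℝ) : (Real.cosh u)⁻¹ ≤ 2 * Real.exp (-u) := by
  rw [Real.exp_neg, Real.cosh_eq, Real.exp_neg]
  have h1 : 0 < Real.exp u := Real.exp_pos u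
  have h2 : 0 < (Real.exp u)⁻¹ := inv_pos.2 h1
  rw [inv_le_comm₀ (by positivity) (by positivity), mul_inv, inv_inv]
  linarith

theorem kd1_inv_sinh {u : ℝ} (hu : 1 ≤ u) : (Real.sinh u)⁻¹ ≤ 4 * Real.exp (-u) := by
  have h1 : 0 < Real.exp u := Real.exp_pos u
  have h3 : 1 + u ≤ Real.exp u := by linarith [Real.add_one_le_exp u]
  have hs : 0 < Real.sinh u := Real.sinh_pos_iff.2 (by linarith)
  rw [inv_le_comm₀ hs (by positivity), mul_inv, Real.exp_neg, inv_inv, Real.sinh_eq, Real.exp_neg]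
  have h2 : (Real.exp u)⁻¹ * Real.exp u = 1 := inv_mul_cancel₀ h1.ne'
  have h4 : 0 < (Real.exp u)⁻¹ := inv_pos.2 h1
  nlinarith

theorem kd1_C_bd (h k : ℝ) : |kd1C h k| ≤ 2 * Real.exp (-(kd1S k * h)) := by
  unfold kd1C
  rw [abs_div, abs_of_pos (Real.cosh_pos _), div_eq_mul_inv]
  have h1 := Real.abs_cos_le_one (3 * k * h / 2)
  have h2 := kd1_inv_cosh (kd1S k * h)
  have h3 : 0 < (Real.cosh (kd1S k * h))⁻¹ := inv_pos.2 (Real.cosh_pos _)
  nlinarith [abs_nonneg (Real.cos (3 * k * h / 2))]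

theorem kd1_D_bd {h k : ℝ} (hu : 1 ≤ kd1S k * h) :
    |kd1D h k| ≤ 4 * Real.exp (-(kd1S k * h)) := by
  unfold kd1D
  have hs : 0 < Real.sinh (kd1S k * h) := Real.sinh_pos_iff.2 (by linarith)
  rw [abs_div, abs_of_pos hs, div_eq_mul_inv]
  have h1 := Real.abs_sin_le_one (3 * k * h / 2)
  have h2 := kd1_inv_sinh hu
  have h3 : 0 < (Real.sinh (kd1S k * h))⁻¹ := inv_pos.2 hs
  nlinarith [abs_nonneg (Real.sin (3 * k * h / 2))]

theorem kd1_p_bd {h k : ℝ} (hu : 1 ≤ kd1S k * h) :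
    ‖kd1p h k‖ ≤ 3 * Real.exp (-(kd1S k * h)) := by
  unfold kd1p
  have h1 := kd1_C_bd h k
  have h2 := kd1_D_bd hu
  have h3 := norm_add_le ((kd1C h k : ℝ) : ℂ) (I * (kd1D h k : ℝ))
  rw [norm_mul, norm_I, one_mul, Complex.norm_real, Complex.norm_real, Real.norm_eq_abs,
    Real.norm_eq_abs] at h3
  rw [norm_div]
  norm_num
  linarith

theorem kd1_m_bd {h k : ℝ} (hu : 1 ≤ kd1S k * h) :
    ‖kd1m h k‖ ≤ 3 * Real.exp (-(kd1S k * h)) := by
  unfold kd1m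
  have h1 := kd1_C_bd h k
  have h2 := kd1_D_bd hu
  have h3 := norm_sub_le ((kd1C h k : ℝ) : ℂ) (I * (kd1D h k : ℝ))
  rw [norm_mul, norm_I, one_mul, Complex.norm_real, Complex.norm_real, Real.norm_eq_abs,
    Real.norm_eq_abs] at h3
  rw [norm_div]
  norm_num
  linarith

theorem kd1E_norm (z c : ℂ) (h : ℝ) (j : ℤ) (x : ℝ) :
    ‖kd1E z c h j x‖ = ‖c‖ * ‖z ^ j‖ * Real.exp (z.re * (x - h)) := by
  unfold kd1E
  rw [norm_mul, norm_mul, Complex.norm_exp, ← Complex.ofReal_sub, Complex.re_mul_ofReal]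

theorem kd1E_norm2 {h k : ℝ} (hu : 1 ≤ kd1S k * h) (j : ℤ) (x : ℝ) :
    ‖kd1E (kd1Z2 k) (kd1p h k) h j x‖
      ≤ 3 * ‖kd1Z2 k ^ j‖ * Real.exp (-(kd1S k * (2 * h - x))) := by
  rw [kd1E_norm, kd1_re2]
  have h1 := kd1_p_bd hu
  have h2 : Real.exp (-(kd1S k * (2 * h - x)))
      = Real.exp (-(kd1S k * h)) * Real.exp (kd1S k * (x - h)) := by
    rw [← Real.exp_add]; ring_nf
  rw [h2]
  have h3 : 0 ≤ ‖kd1Z2 k ^ j‖ * Real.exp (kd1S k * (x - h)) := by positivity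
  nlinarith

theorem kd1E_norm3 {h k : ℝ} (hu : 1 ≤ kd1S k * h) (j : ℤ) (x : ℝ) :
    ‖kd1E (kd1Z3 k) (kd1m h k) h j x‖
      ≤ 3 * ‖kd1Z3 k ^ j‖ * Real.exp (-(kd1S k * x)) := by
  rw [kd1E_norm, kd1_re3]
  have h1 := kd1_m_bd hu
  have h2 : Real.exp (-(kd1S k * x))
      = Real.exp (-(kd1S k * h)) * Real.exp (-kd1S k * (x - h)) := by
    rw [← Real.exp_add]; ring_nf
  rw [h2]
  have h3 : 0 ≤ ‖kd1Z3 k ^ j‖ * Real.exp (-kd1S k * (x - h)) := by positivity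
  nlinarith

theorem kd1P_bd {h k : ℝ} (hk : 2 ≤ k) (hu : 1 ≤ kd1S k * h) {j : ℤ} (h1 : -2 ≤ j) (h2 : j ≤ 3)
    {x : ℝ} (hx : x ∈ Icc (0 : ℝ) (2 * h)) : ‖kd1P h k j x‖ ≤ 25 * k ^ j := by
  have hs := kd1S_nonneg k
  have k1 := kd1E_norm (kd1Z1 k) 1 h j x
  have k2 := kd1E_norm2 hu j x
  have k3 := kd1E_norm3 hu j x
  have e1 : (kd1Z1 k).re = 0 := by unfold kd1Z1; simp
  rw [e1, zero_mul, Real.exp_zero, norm_one, one_mul, mul_one, norm_zpow, kd1_norm1 hk] at k1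
  have b2 := kd1_pow_bd hk (kd1_normsq2 hk) h1 h2
  have b3 := kd1_pow_bd hk (kd1_normsq3 hk) h1 h2
  have x2 : Real.exp (-(kd1S k * (2 * h - x))) ≤ 1 := by
    rw [Real.exp_le_one_iff]
    have := mul_nonneg hs (sub_nonneg.2 hx.2)
    linarith
  have x3 : Real.exp (-(kd1S k * x)) ≤ 1 := by
    rw [Real.exp_le_one_iff]
    have := mul_nonneg hs hx.1
    linarith
  have p2 := Real.exp_pos (-(kd1S k * (2 * h - x)))
  have p3 := Real.exp_pos (-(kd1S k * x))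
  have n2 := norm_nonneg (kd1Z2 k ^ j)
  have n3 := norm_nonneg (kd1Z3 k ^ j)
  have t1 : ‖kd1P h k j x‖ ≤ ‖kd1E (kd1Z1 k) 1 h j x‖ + ‖kd1E (kd1Z2 k) (kd1p h k) h j x‖
      + ‖kd1E (kd1Z3 k) (kd1m h k) h j x‖ := by
    unfold kd1P
    exact (norm_sub_le _ _).trans (by gcongr; exact norm_sub_le _ _)
  nlinarith

/-- the wave part cancels -/
theorem kd1P_layer {h k : ℝ} (hk : 2 ≤ k) (hu : 1 ≤ kd1S k * h)
    {x : ℝ} (hx : x ∈ Icc (0 : ℝ) (2 * h)) : ‖kd1P h k 2 x - I * k * kd1P h k 1 x‖ ≤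
      6 * k ^ 2 * (Real.exp (-(k * x / 2)) + Real.exp (-(k * (2 * h - x) / 2))) := by
  have hs := kd1S_lo hk
  have hk0 : (0 : ℝ) < k := by linarith
  have key : kd1P h k 2 x - I * k * kd1P h k 1 x
      = -((kd1Z2 k - I * k) * kd1E (kd1Z2 k) (kd1p h k) h 1 x)
        - (kd1Z3 k - I * k) * kd1E (kd1Z3 k) (kd1m h k) h 1 x := by
    unfold kd1P kd1E
    have z2 : ∀ z : ℂ, z ^ (2 : ℤ) = z * z := fun z => by
      rw [← sq]; norm_cast
    rw [z2, z2, z2, zpow_one, zpow_one, zpow_one]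
    unfold kd1Z1
    ring
  have k2 := kd1E_norm2 hu 1 x
  have k3 := kd1E_norm3 hu 1 x
  rw [zpow_one] at k2 k3
  have b2 : ‖kd1Z2 k‖ ≤ k := by
    have := kd1_normsq2 hk
    nlinarith [norm_nonneg (kd1Z2 k)]
  have b3 : ‖kd1Z3 k‖ ≤ k := by
    have := kd1_normsq3 hk
    nlinarith [norm_nonneg (kd1Z3 k)]
  have hik : ‖(I * k : ℂ)‖ = k := kd1_norm1 hk
  have c2 : ‖kd1Z2 k - I * k‖ ≤ 2 * k := by
    have := norm_sub_le (kd1Z2 k) (I * k)
    linarith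
  have c3 : ‖kd1Z3 k - I * k‖ ≤ 2 * k := by
    have := norm_sub_le (kd1Z3 k) (I * k)
    linarith
  have x2 : Real.exp (-(kd1S k * (2 * h - x))) ≤ Real.exp (-(k * (2 * h - x) / 2)) := by
    rw [Real.exp_le_exp]
    have := mul_le_mul_of_nonneg_right hs (sub_nonneg.2 hx.2)
    linarith
  have x3 : Real.exp (-(kd1S k * x)) ≤ Real.exp (-(k * x / 2)) := by
    rw [Real.exp_le_exp]
    have := mul_le_mul_of_nonneg_right hs hx.1
    linarith
  have p2 := Real.exp_pos (-(kd1S k * (2 * h - x)))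
  have p3 := Real.exp_pos (-(kd1S k * x))
  have q2 : ‖kd1E (kd1Z2 k) (kd1p h k) h 1 x‖ ≤ 3 * k * Real.exp (-(k * (2 * h - x) / 2)) :=
    k2.trans (by gcongr)
  have q3 : ‖kd1E (kd1Z3 k) (kd1m h k) h 1 x‖ ≤ 3 * k * Real.exp (-(k * x / 2)) :=
    k3.trans (by gcongr)
  rw [key]
  calc ‖-((kd1Z2 k - I * k) * kd1E (kd1Z2 k) (kd1p h k) h 1 x)
        - (kd1Z3 k - I * k) * kd1E (kd1Z3 k) (kd1m h k) h 1 x‖
      ≤ ‖kd1Z2 k - I * k‖ * ‖kd1E (kd1Z2 k) (kd1p h k) h 1 x‖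
        + ‖kd1Z3 k - I * k‖ * ‖kd1E (kd1Z3 k) (kd1m h k) h 1 x‖ := by
        refine (norm_sub_le _ _).trans ?_
        rw [norm_neg, norm_mul, norm_mul]
    _ ≤ (2 * k) * (3 * k * Real.exp (-(k * (2 * h - x) / 2)))
        + (2 * k) * (3 * k * Real.exp (-(k * x / 2))) := by gcongr
    _ = 6 * k ^ 2 * (Real.exp (-(k * x / 2)) + Real.exp (-(k * (2 * h - x) / 2))) := by ring

/-! ### the phase and the boundary condition -/

noncomputable def kd1w : ℂ := exp ((Real.pi / 4 : ℝ) * I)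

theorem kd1w_norm : ‖kd1w‖ = 1 := Complex.norm_exp_ofReal_mul_I _

theorem kd1w_sq : kd1w * kd1w = I := by
  unfold kd1w
  rw [← Complex.exp_add]
  have : (((Real.pi / 4 : ℝ) : ℂ) * I + ((Real.pi / 4 : ℝ) : ℂ) * I) = (Real.pi : ℂ) / 2 * I := by
    push_cast; ring
  rw [this, Complex.exp_pi_div_two_mul_I]

theorem kd1w_conj : I * (starRingEnd ℂ) kd1w = kd1w := by
  have h1 : kd1w * (starRingEnd ℂ) kd1w = 1 := by
    rw [Complex.mul_conj, Complex.normSq_eq_norm_sq, kd1w_norm]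
    norm_num
  rw [← kd1w_sq, mul_assoc, h1, mul_one]

noncomputable def kd1W (σ h k : ℝ) (j : ℤ) (x : ℝ) : ℂ := σ * kd1w * kd1P h k j x

theorem kd1W_symm (σ h k : ℝ) (j : ℤ) (x : ℝ) :
    kd1W σ h k j (2 * h - x) = (-1) ^ j * (I * (starRingEnd ℂ) (kd1W σ h k j x)) := by
  unfold kd1W
  rw [kd1P_symm, map_mul, map_mul, Complex.conj_ofReal]
  linear_combination (-(σ * (-1) ^ j * (starRingEnd ℂ) (kd1P h k j x))) * kd1w_conj

theorem kd1W_norm {σ : ℝ} (hσ : |σ| = 1) (h k : ℝ) (j : ℤ) (x : ℝ) :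
    ‖kd1W σ h k j x‖ = ‖kd1P h k j x‖ := by
  unfold kd1W
  rw [norm_mul, norm_mul, kd1w_norm, Complex.norm_real, Real.norm_eq_abs, hσ]
  ring

theorem kd1W_deriv (σ : ℝ) {h k : ℝ} (hk : 2 ≤ k) (j : ℤ) (x : ℝ) :
    HasDerivAt (kd1W σ h k j) (kd1W σ h k (j + 1) x) x :=
  (kd1P_deriv hk j x).const_mul (σ * kd1w)

theorem kd1_err {h k : ℝ} (hk : 2 ≤ k) (hu : 30 ≤ kd1S k * h) :
    ‖2 * (kd1S k : ℝ) * (kd1p h k * exp (-(kd1Z2 k * h)))‖ ≤ kd1S k / 10 := by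
  have hp := kd1_p_bd (h := h) (k := k) (by linarith)
  have hs := kd1S_nonneg k
  have e1 : ‖exp (-(kd1Z2 k * h))‖ = Real.exp (-(kd1S k * h)) := by
    rw [Complex.norm_exp, neg_re, Complex.re_mul_ofReal, kd1_re2]
  rw [norm_mul, norm_mul, norm_mul, e1, Complex.norm_real, Real.norm_eq_abs, abs_of_nonneg hs]
  have e2 : Real.exp (-(kd1S k * h)) * Real.exp (-(kd1S k * h)) ≤ 1 / 60 := by
    rw [← Real.exp_add]
    have h3 : -(kd1S k * h) + -(kd1S k * h) = -(2 * (kd1S k * h)) := by ring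
    rw [h3, Real.exp_neg, inv_le_comm₀ (Real.exp_pos _) (by norm_num)]
    have := Real.add_one_le_exp (2 * (kd1S k * h))
    norm_num
    linarith
  have e3 := Real.exp_pos (-(kd1S k * h))
  have e4 : ‖kd1p h k‖ * Real.exp (-(kd1S k * h)) ≤ 1 / 20 := by nlinarith
  norm_num
  nlinarith

theorem kd1_re_main (h k : ℝ) :
    (kd1w * ((3 * I * k / 2 + (kd1S k : ℝ)) * exp (-(I * k * h)))).re
      = kd1S k * Real.cos (Real.pi / 4 - k * h) - 3 * k / 2 * Real.sin (Real.pi / 4 - k * h) := by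
  have e1 : kd1w * ((3 * I * k / 2 + (kd1S k : ℝ)) * exp (-(I * k * h)))
      = (3 * I * k / 2 + (kd1S k : ℝ)) * exp (((Real.pi / 4 - k * h : ℝ) : ℂ) * I) := by
    have : exp (((Real.pi / 4 - k * h : ℝ) : ℂ) * I) = kd1w * exp (-(I * k * h)) := by
      unfold kd1w
      rw [← Complex.exp_add]
      push_cast
      ring_nf
    rw [this]
    ring
  rw [e1, mul_re, Complex.exp_ofReal_mul_I_re, Complex.exp_ofReal_mul_I_im]
  simp

theorem kd1_norm_main {h k : ℝ} (hk : 2 ≤ k) :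
    ‖(3 * I * k / 2 + (kd1S k : ℝ)) * exp (-(I * k * h))‖ ^ 2 = 3 * k ^ 2 - 1 := by
  have e1 : ‖exp (-(I * k * h))‖ = 1 := by
    rw [Complex.norm_exp]
    simp
  rw [norm_mul, e1, mul_one, ← Complex.normSq_eq_norm_sq, Complex.normSq_apply]
  have := kd1S_sq hk
  simp
  nlinarith

theorem kd1_lower {h k : ℝ} (hk : 2 ≤ k) (hh : 0 < h) (hu : 30 ≤ kd1S k * h) :
    k ≤ ‖kd1P h k 1 0‖ := by
  have h1 := kd1_err hk hu
  have h2 := kd1_norm_main (h := h) hk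
  have h3 := kd1S_hi hk
  rw [kd1_P10 hk hh]
  have h4 := norm_sub_norm_le ((3 * I * k / 2 + (kd1S k : ℝ)) * exp (-(I * k * h)))
    (2 * (kd1S k : ℝ) * (kd1p h k * exp (-(kd1Z2 k * h))))
  have h5 := norm_nonneg ((3 * I * k / 2 + (kd1S k : ℝ)) * exp (-(I * k * h)))
  have h6 : 11 / 10 * k ≤ ‖(3 * I * k / 2 + (kd1S k : ℝ)) * exp (-(I * k * h))‖ := by
    by_contra hc
    rw [not_le] at hc
    nlinarith
  linarith

theorem kd1_F_close {h k : ℝ} (hk : 2 ≤ k) (hh : 0 < h) (hu : 30 ≤ kd1S k * h) :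
    |(kd1w * kd1P h k 1 0).re - (kd1S k * Real.cos (Real.pi / 4 - k * h)
      - 3 * k / 2 * Real.sin (Real.pi / 4 - k * h))| ≤ kd1S k / 10 := by
  rw [← kd1_re_main, ← Complex.sub_re, kd1_P10 hk hh]
  refine (Complex.abs_re_le_norm _).trans ?_
  have e1 : kd1w * ((3 * I * k / 2 + (kd1S k : ℝ)) * exp (-(I * k * h))
      - 2 * (kd1S k : ℝ) * (kd1p h k * exp (-(kd1Z2 k * h))))
      - kd1w * ((3 * I * k / 2 + (kd1S k : ℝ)) * exp (-(I * k * h)))
      = -(kd1w * (2 * (kd1S k : ℝ) * (kd1p h k * exp (-(kd1Z2 k * h))))) := by ring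
  rw [e1, norm_neg, norm_mul, kd1w_norm, one_mul]
  exact kd1_err hk hu

theorem kd1_cont {h : ℝ} (hh : 0 < h) :
    ContinuousOn (fun k : ℝ => (kd1w * kd1P h k 1 0).re) (Ici 2) := by
  have hS : Continuous kd1S := by
    unfold kd1S
    exact (Real.continuous_sqrt.comp (by fun_prop)).div_const 2
  have hZ1 : Continuous kd1Z1 := by unfold kd1Z1; fun_prop
  have hZ2 : Continuous kd1Z2 := by unfold kd1Z2; fun_prop
  have hZ3 : Continuous kd1Z3 := by unfold kd1Z3; fun_prop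
  have hC : ContinuousOn (kd1C h) (Ici 2) := by
    unfold kd1C
    refine ContinuousOn.div (by fun_prop) ?_ (fun k _ => (Real.cosh_pos _).ne')
    exact (Real.continuous_cosh.comp (hS.mul continuous_const)).continuousOn
  have hD : ContinuousOn (kd1D h) (Ici 2) := by
    unfold kd1D
    refine ContinuousOn.div (by fun_prop) ?_ (fun k hk => ?_)
    · exact (Real.continuous_sinh.comp (hS.mul continuous_const)).continuousOn
    · refine (Real.sinh_pos_iff.2 (mul_pos ?_ hh)).ne'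
      have hk' : (2 : ℝ) ≤ k := hk
      linarith [kd1S_lo hk']
  have hp : ContinuousOn (kd1p h) (Ici 2) := by
    unfold kd1p
    fun_prop
  have hm : ContinuousOn (kd1m h) (Ici 2) := by
    unfold kd1m
    fun_prop
  unfold kd1P kd1E
  simp only [zpow_one]
  fun_prop

theorem kd1_trig1 (N : ℕ) : Real.cos (Real.pi / 4 - (7 * Real.pi / 12 + N * (2 * Real.pi))) = 1 / 2
    ∧ Real.sin (Real.pi / 4 - (7 * Real.pi / 12 + N * (2 * Real.pi))) = -(Real.sqrt 3 / 2) := by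
  have e : Real.pi / 4 - (7 * Real.pi / 12 + N * (2 * Real.pi))
      = -(Real.pi / 3) - N * (2 * Real.pi) := by ring
  rw [e, Real.cos_sub_nat_mul_two_pi, Real.sin_sub_nat_mul_two_pi, Real.cos_neg, Real.sin_neg,
    Real.cos_pi_div_three, Real.sin_pi_div_three]
  exact ⟨rfl, rfl⟩

theorem kd1_trig2 (N : ℕ) :
    Real.cos (Real.pi / 4 - (7 * Real.pi / 12 + N * (2 * Real.pi) + Real.pi)) = -(1 / 2)
    ∧ Real.sin (Real.pi / 4 - (7 * Real.pi / 12 + N * (2 * Real.pi) + Real.pi))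
      = Real.sqrt 3 / 2 := by
  have e : Real.pi / 4 - (7 * Real.pi / 12 + N * (2 * Real.pi) + Real.pi)
      = -(Real.pi / 3) - N * (2 * Real.pi) - Real.pi := by ring
  rw [e, Real.cos_sub_pi, Real.sin_sub_pi, Real.cos_sub_nat_mul_two_pi,
    Real.sin_sub_nat_mul_two_pi, Real.cos_neg, Real.sin_neg,
    Real.cos_pi_div_three, Real.sin_pi_div_three]
  exact ⟨rfl, neg_neg _⟩

/-- the wave number -/
theorem kd1_exists_k {h : ℝ} (hh : 0 < h) (K : ℝ) :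
    ∃ k : ℝ, K ≤ k ∧ 2 ≤ k ∧ 60 ≤ k * h ∧ (kd1w * kd1P h k 1 0).re = 0 := by
  obtain ⟨N, hN⟩ := exists_nat_ge (max (max (K * h) (2 * h)) 60)
  have hN1 : K * h ≤ N := ((le_max_left _ _).trans (le_max_left _ _)).trans hN
  have hN2 : 2 * h ≤ N := ((le_max_right _ _).trans (le_max_left _ _)).trans hN
  have hN3 : 60 ≤ (N : ℝ) := (le_max_right _ _).trans hN
  have hpi := Real.pi_gt_three
  set θ : ℝ := 7 * Real.pi / 12 + N * (2 * Real.pi) with hθ
  have hθN : (N : ℝ) ≤ θ := by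
    rw [hθ]
    nlinarith
  have hk1 : θ / h * h = θ := div_mul_cancel₀ _ hh.ne'
  have hk2 : (θ + Real.pi) / h * h = θ + Real.pi := div_mul_cancel₀ _ hh.ne'
  have hle : θ / h ≤ (θ + Real.pi) / h := by
    apply div_le_div_of_nonneg_right _ hh.le
    linarith
  have hge2 : 2 ≤ θ / h := by
    rw [le_div_iff₀ hh]; linarith
  have hgeK : K ≤ θ / h := by
    rw [le_div_iff₀ hh]; linarith
  have hu : ∀ k : ℝ, θ / h ≤ k → 60 ≤ k * h ∧ 30 ≤ kd1S k * h := by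
    intro k hk
    have h1 : 60 ≤ k * h := by
      have := mul_le_mul_of_nonneg_right hk hh.le
      linarith
    have h2 := kd1S_lo (hge2.trans hk)
    have h3 := mul_le_mul_of_nonneg_right h2 hh.le
    exact ⟨h1, by linarith⟩
  have hs3 : 0 ≤ Real.sqrt 3 := Real.sqrt_nonneg 3
  have f1 : 0 ≤ (kd1w * kd1P h (θ / h) 1 0).re := by
    have h1 := kd1_F_close hge2 hh (hu _ le_rfl).2
    rw [hk1, hθ, (kd1_trig1 N).1, (kd1_trig1 N).2, ← hθ] at h1
    have h2 := (abs_le.1 h1).1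
    have h3 := kd1S_nonneg (θ / h)
    have h4 : 0 ≤ 3 * (θ / h) / 2 * (Real.sqrt 3 / 2) := by positivity
    linarith
  have f2 : (kd1w * kd1P h ((θ + Real.pi) / h) 1 0).re ≤ 0 := by
    have h1 := kd1_F_close (hge2.trans hle) hh (hu _ hle).2
    rw [hk2, hθ, (kd1_trig2 N).1, (kd1_trig2 N).2, ← hθ] at h1
    have h2 := (abs_le.1 h1).2
    have h3 := kd1S_nonneg ((θ + Real.pi) / h)
    have h5 : 0 ≤ (θ + Real.pi) / h := by linarith
    have h4 : 0 ≤ 3 * ((θ + Real.pi) / h) / 2 * (Real.sqrt 3 / 2) := by positivity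
    linarith
  have hc : ContinuousOn (fun k : ℝ => (kd1w * kd1P h k 1 0).re)
      (Icc (θ / h) ((θ + Real.pi) / h)) :=
    (kd1_cont hh).mono (fun k hk => hge2.trans hk.1)
  obtain ⟨k, hk, hk0⟩ := intermediate_value_Icc' hle hc ⟨f2, f1⟩
  exact ⟨k, hgeK.trans hk.1, hge2.trans hk.1, (hu k hk.1).1, hk0⟩

/-! ### the norm -/

theorem kd1_norm_lower {h k : ℝ} (hu : 1 ≤ kd1S k * h) (hk : 2 ≤ k)
    {x : ℝ} (hx : x ∈ Icc (0 : ℝ) (2 * h)) :
    1 - 6 * (Real.exp (-(k * x / 2)) + Real.exp (-(k * (2 * h - x) / 2)))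
      ≤ ‖kd1P h k 0 x‖ ^ 2 := by
  have hs := kd1S_lo hk
  have k2 := kd1E_norm2 hu 0 x
  have k3 := kd1E_norm3 hu 0 x
  rw [zpow_zero, norm_one, mul_one] at k2 k3
  have x2 : Real.exp (-(kd1S k * (2 * h - x))) ≤ Real.exp (-(k * (2 * h - x) / 2)) := by
    rw [Real.exp_le_exp]
    have := mul_le_mul_of_nonneg_right hs (sub_nonneg.2 hx.2)
    linarith
  have x3 : Real.exp (-(kd1S k * x)) ≤ Real.exp (-(k * x / 2)) := by
    rw [Real.exp_le_exp]
    have := mul_le_mul_of_nonneg_right hs hx.1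
    linarith
  have k1 := kd1E_norm (kd1Z1 k) 1 h 0 x
  have e1 : (kd1Z1 k).re = 0 := by unfold kd1Z1; simp
  rw [e1, zero_mul, Real.exp_zero, norm_one, one_mul, mul_one, zpow_zero, norm_one] at k1
  have t1 : ‖kd1E (kd1Z1 k) 1 h 0 x‖ ≤ ‖kd1P h k 0 x‖ + ‖kd1E (kd1Z2 k) (kd1p h k) h 0 x‖
      + ‖kd1E (kd1Z3 k) (kd1m h k) h 0 x‖ := by
    have e2 : kd1E (kd1Z1 k) 1 h 0 x = kd1P h k 0 x + kd1E (kd1Z2 k) (kd1p h k) h 0 x
      + kd1E (kd1Z3 k) (kd1m h k) h 0 x := by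
      unfold kd1P; ring
    rw [e2]
    exact norm_add₃_le
  nlinarith [sq_nonneg (‖kd1P h k 0 x‖ - 1)]

theorem kd1_int_lower {h k : ℝ} (hk : 2 ≤ k) (hh : 0 < h) (hkh : 60 ≤ k * h) :
    h ≤ ∫ x in (0 : ℝ)..(2 * h),
      (1 - 6 * (Real.exp (-(k * x / 2)) + Real.exp (-(k * (2 * h - x) / 2)))) := by
  have hk0 : (0 : ℝ) < k := by linarith
  have hG : ∀ x : ℝ, HasDerivAt (fun x : ℝ => x - 6 * (-(2 / k) * Real.exp (-(k * x / 2))
      + 2 / k * Real.exp (-(k * (2 * h - x) / 2))))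
      (1 - 6 * (Real.exp (-(k * x / 2)) + Real.exp (-(k * (2 * h - x) / 2)))) x := by
    intro x
    have a1 : HasDerivAt (fun x : ℝ => -(k * x / 2)) (-(k / 2)) x := by
      have := (((hasDerivAt_id x).const_mul k).div_const 2).neg
      rw [mul_one] at this
      exact this
    have a2 : HasDerivAt (fun x : ℝ => -(k * (2 * h - x) / 2)) (k / 2) x := by
      have := ((((hasDerivAt_id x).const_sub (2 * h)).const_mul k).div_const 2).neg
      have e : -(k * -1 / 2) = k / 2 := by ring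
      rw [e] at this
      exact this
    have a3 := (hasDerivAt_id x).sub (((a1.exp.const_mul (-(2 / k))).add
      (a2.exp.const_mul (2 / k))).const_mul 6)
    have e : 1 - 6 * (-(2 / k) * (Real.exp (-(k * x / 2)) * -(k / 2))
        + 2 / k * (Real.exp (-(k * (2 * h - x) / 2)) * (k / 2)))
        = 1 - 6 * (Real.exp (-(k * x / 2)) + Real.exp (-(k * (2 * h - x) / 2))) := by
      field_simp
    rw [e] at a3
    exact a3
  have hci : Continuous (fun x : ℝ => 1 - 6 * (Real.exp (-(k * x / 2))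
      + Real.exp (-(k * (2 * h - x) / 2)))) := by fun_prop
  rw [intervalIntegral.integral_eq_sub_of_hasDerivAt (fun x _ => hG x)
    (hci.intervalIntegrable _ _)]
  have e0 : Real.exp (-(k * 0 / 2)) = 1 := by norm_num
  have e1 : Real.exp (-(k * (2 * h - 2 * h) / 2)) = 1 := by norm_num
  have e2 : 2 / k ≤ h / 30 := by
    rw [div_le_iff₀ hk0]; linarith
  have e3 := Real.exp_pos (-(k * (2 * h) / 2))
  have e4 := Real.exp_pos (-(k * (2 * h - 0) / 2))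
  have e5 : 0 < 2 / k := by positivity
  rw [e0, e1]
  have e6 : 0 ≤ 2 / k * Real.exp (-(k * (2 * h) / 2)) := by positivity
  have e7 : 0 ≤ 2 / k * Real.exp (-(k * (2 * h - 0) / 2)) := by positivity
  linarith

theorem exists_mode (L : ℝ) (hL : 0 < L) (K : ℝ) :
    ∃ (k ρ : ℝ) (a b : ℤ → ℝ → ℝ), K ≤ k ∧ IsMode L k ρ a b := by
  obtain ⟨h, rfl⟩ : ∃ h : ℝ, L = 2 * h := ⟨L / 2, by ring⟩
  have hh : 0 < h := by linarith
  obtain ⟨k, hK, hk, hkh, hk0⟩ := kd1_exists_k hh K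
  have hs := kd1S_lo hk
  have hu : 30 ≤ kd1S k * h := by
    have := mul_le_mul_of_nonneg_right hs hh.le
    linarith
  have hu1 : 1 ≤ kd1S k * h := by linarith
  -- the sign
  obtain ⟨σ, hσ, hσk⟩ : ∃ σ : ℝ, |σ| = 1 ∧ k ≤ σ * (kd1w * kd1P h k 1 0).im := by
    have h1 := kd1_lower hk hh hu
    have h2 : ‖kd1w * kd1P h k 1 0‖ = |(kd1w * kd1P h k 1 0).im| := by
      have h3 : ‖kd1w * kd1P h k 1 0‖ ^ 2 = |(kd1w * kd1P h k 1 0).im| ^ 2 := by
        rw [← Complex.normSq_eq_norm_sq, Complex.normSq_apply, hk0, sq_abs]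
        ring
      exact (sq_eq_sq₀ (norm_nonneg _) (abs_nonneg _)).1 h3
    rw [norm_mul, kd1w_norm, one_mul] at h2
    rw [h2] at h1
    rcases abs_cases (kd1w * kd1P h k 1 0).im with ⟨h4, _⟩ | ⟨h4, _⟩
    · exact ⟨1, by norm_num, by rw [h4] at h1; linarith⟩
    · exact ⟨-1, by norm_num, by rw [h4] at h1; linarith⟩
  have hk00 : (0 : ℝ) < k := by linarith
  -- values at 0
  have w00 : kd1W σ h k 0 0 = 0 := by
    unfold kd1W; rw [kd1_P00 hk hh, mul_zero]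
  have w10 : kd1W σ h k 1 0 = σ * (kd1w * kd1P h k 1 0) := by
    unfold kd1W; ring
  have w10re : (kd1W σ h k 1 0).re = 0 := by
    rw [w10, Complex.re_ofReal_mul, hk0, mul_zero]
  have w10im : (kd1W σ h k 1 0).im = σ * (kd1w * kd1P h k 1 0).im := by
    rw [w10, Complex.im_ofReal_mul]
  -- symmetry
  have s0 : ∀ x, kd1W σ h k 0 (2 * h - x) = I * (starRingEnd ℂ) (kd1W σ h k 0 x) := by
    intro x
    rw [kd1W_symm, zpow_zero, one_mul]
  have s1 : ∀ x, kd1W σ h k 1 (2 * h - x) = -(I * (starRingEnd ℂ) (kd1W σ h k 1 x)) := by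
    intro x
    rw [kd1W_symm, zpow_one, neg_one_mul]
  have w0L : kd1W σ h k 0 (2 * h) = 0 := by
    have := s0 0
    rw [sub_zero, w00] at this
    rw [this]; simp
  have w1L : kd1W σ h k 1 (2 * h) = -(I * (starRingEnd ℂ) (kd1W σ h k 1 0)) := by
    have := s1 0
    rwa [sub_zero] at this
  have sre : ∀ x, (kd1W σ h k 0 (2 * h - x)).re = (kd1W σ h k 0 x).im := by
    intro x
    rw [s0 x]
    simp
  have ode : ∀ x, kd1W σ h k 1 x + kd1W σ h k 3 x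
      = I * ((k - k ^ 3 : ℝ) : ℂ) * kd1W σ h k 0 x := by
    intro x
    unfold kd1W
    have := kd1P_ode (h := h) hk x
    push_cast
    linear_combination (σ * kd1w) * this
  have dre : ∀ (j : ℤ) (x : ℝ), HasDerivAt (fun x => (kd1W σ h k j x).re)
      (kd1W σ h k (j + 1) x).re x := fun j x =>
    Complex.reCLM.hasFDerivAt.comp_hasDerivAt x (kd1W_deriv σ hk j x)
  have dim : ∀ (j : ℤ) (x : ℝ), HasDerivAt (fun x => (kd1W σ h k j x).im)
      (kd1W σ h k (j + 1) x).im x := fun j x =>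
    Complex.imCLM.hasFDerivAt.comp_hasDerivAt x (kd1W_deriv σ hk j x)
  have bd : ∀ j : ℤ, -2 ≤ j → j ≤ 3 → ∀ x ∈ Icc (0 : ℝ) (2 * h),
      ‖kd1W σ h k j x‖ ≤ 100 * k ^ j := by
    intro j h1 h2 x hx
    rw [kd1W_norm hσ]
    have h3 := kd1P_bd hk hu1 h1 h2 hx
    have h4 : 0 < k ^ j := zpow_pos hk00 _
    linarith
  have lay : ∀ x ∈ Icc (0 : ℝ) (2 * h), ‖kd1W σ h k 2 x - I * k * kd1W σ h k 1 x‖ ≤
      100 * k ^ 2 * (Real.exp (-(k * x / 2)) + Real.exp (-(k * (2 * h - x) / 2))) := by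
    intro x hx
    have e : kd1W σ h k 2 x - I * k * kd1W σ h k 1 x
        = σ * kd1w * (kd1P h k 2 x - I * k * kd1P h k 1 x) := by
      unfold kd1W; ring
    rw [e, norm_mul, norm_mul, kd1w_norm, Complex.norm_real, Real.norm_eq_abs, hσ]
    have h1 := kd1P_layer hk hu1 hx
    have h2 := Real.exp_pos (-(k * x / 2))
    have h3 := Real.exp_pos (-(k * (2 * h - x) / 2))
    have h4 : 0 < k ^ 2 := by positivity
    nlinarith [mul_pos h4 h2, mul_pos h4 h3]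
  refine ⟨k, σ * (kd1w * kd1P h k 1 0).im, fun j x => (kd1W σ h k j x).re,
    fun j x => (kd1W σ h k j x).im, hK, ?_⟩
  have cre : ∀ j : ℤ, Continuous (fun x => (kd1W σ h k j x).re) := fun j =>
    continuous_iff_continuousAt.2 (fun x => (dre j x).continuousAt)
  have cim : ∀ j : ℤ, Continuous (fun x => (kd1W σ h k j x).im) := fun j =>
    continuous_iff_continuousAt.2 (fun x => (dim j x).continuousAt)
  exact {
    hk := hk
    da := dre
    db := dim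
    oda := fun x => by
      have := congrArg Complex.re (ode x)
      rw [Complex.add_re, mul_assoc, Complex.I_mul_re, Complex.im_ofReal_mul] at this
      rw [this]; ring
    odb := fun x => by
      have := congrArg Complex.im (ode x)
      rw [Complex.add_im, mul_assoc, Complex.I_mul_im, Complex.re_ofReal_mul] at this
      exact this
    a00 := by simp only [w00, Complex.zero_re]
    a0L := by simp only [w0L, Complex.zero_re]
    b00 := by simp only [w00, Complex.zero_im]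
    b0L := by simp only [w0L, Complex.zero_im]
    a10 := w10re
    b1L := by
      simp only [w1L]
      simp [w10re]
    b10 := w10im
    a1L := by
      simp only [w1L]
      rw [← w10im]
      simp
    bda := fun j h1 h2 x hx => (Complex.abs_re_le_norm _).trans (bd j h1 h2 x hx)
    bdb := fun j h1 h2 x hx => (Complex.abs_im_le_norm _).trans (bd j h1 h2 x hx)
    la := fun x hx => by
      have h1 := (Complex.abs_re_le_norm _).trans (lay x hx)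
      rw [Complex.sub_re, mul_assoc, Complex.I_mul_re, Complex.im_ofReal_mul, sub_neg_eq_add] at h1
      exact h1
    lb := fun x hx => by
      have h1 := (Complex.abs_im_le_norm _).trans (lay x hx)
      rw [Complex.sub_im, mul_assoc, Complex.I_mul_im, Complex.re_ofReal_mul] at h1
      exact h1
    ρlo := hσk
    nrm := by
      have i1 : (∫ x in (0 : ℝ)..(2 * h), (kd1W σ h k 0 x).im ^ 2)
          = ∫ x in (0 : ℝ)..(2 * h), (kd1W σ h k 0 x).re ^ 2 := by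
        have := intervalIntegral.integral_comp_sub_left
          (fun x => (kd1W σ h k 0 x).re ^ 2) (2 * h) (a := 0) (b := 2 * h)
        rw [sub_self, sub_zero] at this
        rw [← this]
        simp only [sre]
      have i2 : (∫ x in (0 : ℝ)..(2 * h), ((kd1W σ h k 0 x).re ^ 2 + (kd1W σ h k 0 x).im ^ 2))
          = (∫ x in (0 : ℝ)..(2 * h), (kd1W σ h k 0 x).re ^ 2)
            + ∫ x in (0 : ℝ)..(2 * h), (kd1W σ h k 0 x).im ^ 2 :=
        intervalIntegral.integral_add (((cre 0).pow 2).intervalIntegrable _ _)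
          (((cim 0).pow 2).intervalIntegrable _ _)
      have i3 : (∫ x in (0 : ℝ)..(2 * h),
          (1 - 6 * (Real.exp (-(k * x / 2)) + Real.exp (-(k * (2 * h - x) / 2)))))
          ≤ ∫ x in (0 : ℝ)..(2 * h), ((kd1W σ h k 0 x).re ^ 2 + (kd1W σ h k 0 x).im ^ 2) := by
        apply intervalIntegral.integral_mono_on (by linarith)
        · exact (by fun_prop : Continuous (fun x : ℝ => 1 - 6 * (Real.exp (-(k * x / 2))
            + Real.exp (-(k * (2 * h - x) / 2))))).intervalIntegrable _ _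
        · exact (((cre 0).pow 2).add ((cim 0).pow 2)).intervalIntegrable _ _
        · intro x hx
          have h1 := kd1_norm_lower hu1 hk hx
          rw [← kd1W_norm hσ, ← Complex.normSq_eq_norm_sq, Complex.normSq_apply] at h1
          linarith
      have i4 := kd1_int_lower hk hh hkh
      show 2 * h / 4 ≤ ∫ x in (0 : ℝ)..(2 * h), (kd1W σ h k 0 x).im ^ 2
      linarith }

end Pool.Agent.KD
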