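import Pool.Agent.KD.Ibp

set_option linter.style.longLine false

/-! Pairing of a state with an oscillating factor (project KD, MP_11a591_an). -/

open MeasureTheory Set Complex

namespace Pool.Agent.KD

private lemma kd4_const {L B : ℝ} (hL : 0 ≤ L) {F : ℝ → ℂ}
    (h : ∀ x ∈ Icc (0 : ℝ) L, ‖F x‖ ≤ B) : ‖∫ x in (0 : ℝ)..L, F x‖ ≤ B * L := by
  have := intervalIntegral.norm_integral_le_of_norm_le_const (a := 0) (b := L) (f := F) (C := B)
    (fun x hx => h x (by rw [uIoc_of_le hL] at hx; exact ⟨hx.1.le, hx.2⟩))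
  rwa [sub_zero, abs_of_nonneg hL] at this

private lemma kd4_first {L m : ℝ} (hL : 0 < L) {f f1 f2 : ℝ → ℝ} (hf : IsSt L m f f1 f2)
    {H H1 : ℝ → ℂ} (hH : ∀ x, HasDerivAt H (H1 x) x) (cH1 : Continuous H1)
    {u v : ℝ → ℝ} (hv : ∀ x, HasDerivAt v (u x) x) (cu : Continuous u) :
    (∫ x in (0 : ℝ)..L, (f x : ℂ) * H x * u x)
      = -(∫ x in (0 : ℝ)..L, (f1 x : ℂ) * (H x * v x)) - ∫ x in (0 : ℝ)..L, (f x : ℂ) * H1 x * v x := by
  have cH : Continuous H := continuous_iff_continuousAt.2 fun x => (hH x).continuousAt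
  have cv : Continuous v := continuous_iff_continuousAt.2 fun x => (hv x).continuousAt
  have cf : ContinuousOn (fun x => (f x : ℂ)) (Icc 0 L) :=
    continuous_ofReal.comp_continuousOn (hf.h2.c0 hL.le)
  have cuC : Continuous fun x => (u x : ℂ) := continuous_ofReal.comp cu
  have cvC : Continuous fun x => (v x : ℂ) := continuous_ofReal.comp cv
  have i1 : IntervalIntegrable f1 volume 0 L := ContinuousOn.intervalIntegrable (by
    rw [uIcc_of_le hL.le]
    exact hf.h2.c1 hL.le)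
  have A := ibp_ac hL.le (f1 := f) (f2 := f1) (hf.h2.repr0 hL.le) i1
    (g := fun x => H x * v x) (g1 := fun x => H1 x * v x + H x * u x)
    (fun x _ => ((hH x).fun_mul (hv x).ofReal_comp).hasDerivWithinAt)
    (((cH1.mul cvC).add (cH.mul cuC)).continuousOn)
  have E : (∫ x in (0 : ℝ)..L, (f x : ℂ) * (H1 x * v x + H x * u x))
      = (∫ x in (0 : ℝ)..L, (f x : ℂ) * H1 x * v x) + ∫ x in (0 : ℝ)..L, (f x : ℂ) * H x * u x := by
    rw [← intervalIntegral.integral_add]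
    · congr 1
      funext x
      ring
    · exact ContinuousOn.intervalIntegrable (by
        rw [uIcc_of_le hL.le]
        exact (cf.mul cH1.continuousOn).mul cvC.continuousOn)
    · exact ContinuousOn.intervalIntegrable (by
        rw [uIcc_of_le hL.le]
        exact (cf.mul cH.continuousOn).mul cuC.continuousOn)
  rw [E, hf.f0, hf.fL] at A
  push_cast at A
  linear_combination A

theorem pair1 {L m h U : ℝ} (hL : 0 < L) {f f1 f2 : ℝ → ℝ} (hf : IsSt L m f f1 f2)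
    {H H1 : ℝ → ℂ} (hH : ∀ x, HasDerivAt H (H1 x) x) (cH1 : Continuous H1)
    (bH : ∀ x ∈ Icc (0 : ℝ) L, ‖H x‖ ≤ h) (bH1 : ∀ x ∈ Icc (0 : ℝ) L, ‖H1 x‖ ≤ h)
    {u v : ℝ → ℝ} (hv : ∀ x, HasDerivAt v (u x) x) (cu : Continuous u)
    (bv : ∀ x ∈ Icc (0 : ℝ) L, |v x| ≤ U) :
    ‖∫ x in (0 : ℝ)..L, (f x : ℂ) * H x * u x‖ ≤ 2 * L * m * h * U := by
  rw [kd4_first hL hf hH cH1 hv cu]
  have hm : 0 ≤ m := (abs_nonneg _).trans (hf.b0 0 ⟨le_rfl, hL.le⟩)
  have hh : 0 ≤ h := (norm_nonneg _).trans (bH 0 ⟨le_rfl, hL.le⟩)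
  have t1 := kd4_const (B := m * h * U) hL.le (F := fun x => (f1 x : ℂ) * (H x * v x)) (by
    intro x hx
    rw [norm_mul, norm_mul, norm_real, norm_real, Real.norm_eq_abs, Real.norm_eq_abs, mul_assoc]
    exact mul_le_mul (hf.b1 x hx) (mul_le_mul (bH x hx) (bv x hx) (abs_nonneg _) hh)
      (by positivity) hm)
  have t2 := kd4_const (B := m * h * U) hL.le (F := fun x => (f x : ℂ) * H1 x * v x) (by
    intro x hx
    rw [norm_mul, norm_mul, norm_real, norm_real, Real.norm_eq_abs, Real.norm_eq_abs]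
    exact mul_le_mul (mul_le_mul (hf.b0 x hx) (bH1 x hx) (norm_nonneg _) hm) (bv x hx)
      (abs_nonneg _) (mul_nonneg hm hh))
  refine (norm_sub_le _ _).trans ?_
  rw [norm_neg]
  linarith

theorem pair2 {L m h U : ℝ} (hL : 0 < L) {f f1 f2 : ℝ → ℝ} (hf : IsSt L m f f1 f2)
    {H H1 H2 : ℝ → ℂ} (hH : ∀ x, HasDerivAt H (H1 x) x) (hH1 : ∀ x, HasDerivAt H1 (H2 x) x)
    (cH2 : Continuous H2) (bH : ∀ x ∈ Icc (0 : ℝ) L, ‖H x‖ ≤ h)
    (bH1 : ∀ x ∈ Icc (0 : ℝ) L, ‖H1 x‖ ≤ h) (bH2 : ∀ x ∈ Icc (0 : ℝ) L, ‖H2 x‖ ≤ h)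
    {u v z : ℝ → ℝ} (hz : ∀ x, HasDerivAt z (v x) x) (hv : ∀ x, HasDerivAt v (u x) x)
    (cu : Continuous u) (bz : ∀ x ∈ Icc (0 : ℝ) L, |z x| ≤ U) :
    ‖∫ x in (0 : ℝ)..L, (f x : ℂ) * H x * u x‖ ≤ (3 + 3 * L) * m * h * U := by
  have cH : Continuous H := continuous_iff_continuousAt.2 fun x => (hH x).continuousAt
  have cH1 : Continuous H1 := continuous_iff_continuousAt.2 fun x => (hH1 x).continuousAt
  have cv : Continuous v := continuous_iff_continuousAt.2 fun x => (hv x).continuousAt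
  have cz : Continuous z := continuous_iff_continuousAt.2 fun x => (hz x).continuousAt
  have cvC : Continuous fun x => (v x : ℂ) := continuous_ofReal.comp cv
  have czC : Continuous fun x => (z x : ℂ) := continuous_ofReal.comp cz
  have cf1 : ContinuousOn (fun x => (f1 x : ℂ)) (Icc 0 L) :=
    continuous_ofReal.comp_continuousOn (hf.h2.c1 hL.le)
  rw [kd4_first hL hf hH cH1 hv cu]
  have hm : 0 ≤ m := (abs_nonneg _).trans (hf.b0 0 ⟨le_rfl, hL.le⟩)
  have hh : 0 ≤ h := (norm_nonneg _).trans (bH 0 ⟨le_rfl, hL.le⟩)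
  have hU : 0 ≤ U := (abs_nonneg _).trans (bz 0 ⟨le_rfl, hL.le⟩)
  have t2 := pair1 hL hf hH1 cH2 bH1 bH2 hz cv bz
  have B := ibp_ac hL.le (f1 := f1) (f2 := f2) hf.h2.repr (hf.h2.ii2 hL.le)
    (g := fun x => H x * z x) (g1 := fun x => H1 x * z x + H x * v x)
    (fun x _ => ((hH x).fun_mul (hz x).ofReal_comp).hasDerivWithinAt)
    (((cH1.mul czC).add (cH.mul cvC)).continuousOn)
  have E : (∫ x in (0 : ℝ)..L, (f1 x : ℂ) * (H1 x * z x + H x * v x))
      = (∫ x in (0 : ℝ)..L, (f1 x : ℂ) * (H1 x * z x))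
        + ∫ x in (0 : ℝ)..L, (f1 x : ℂ) * (H x * v x) := by
    rw [← intervalIntegral.integral_add]
    · congr 1
      funext x
      ring
    · exact ContinuousOn.intervalIntegrable (by
        rw [uIcc_of_le hL.le]
        exact cf1.mul ((cH1.mul czC).continuousOn))
    · exact ContinuousOn.intervalIntegrable (by
        rw [uIcc_of_le hL.le]
        exact cf1.mul ((cH.mul cvC).continuousOn))
  rw [E] at B
  have F : (∫ x in (0 : ℝ)..L, (f1 x : ℂ) * (H x * v x))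
      = (f1 L : ℂ) * (H L * z L) - (f1 0 : ℂ) * (H 0 * z 0)
        - (∫ x in (0 : ℝ)..L, (f2 x : ℂ) * (H x * z x))
        - ∫ x in (0 : ℝ)..L, (f1 x : ℂ) * (H1 x * z x) := by
    linear_combination B
  have bd : ∀ x ∈ Icc (0 : ℝ) L, ‖(f1 x : ℂ) * (H x * z x)‖ ≤ m * h * U := by
    intro x hx
    rw [norm_mul, norm_mul, norm_real, norm_real, Real.norm_eq_abs, Real.norm_eq_abs, mul_assoc]
    exact mul_le_mul (hf.b1 x hx) (mul_le_mul (bH x hx) (bz x hx) (abs_nonneg _) hh)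
      (by positivity) hm
  have s1 := bd L ⟨hL.le, le_rfl⟩
  have s2 := bd 0 ⟨le_rfl, hL.le⟩
  have s3 : ‖∫ x in (0 : ℝ)..L, (f2 x : ℂ) * (H x * z x)‖ ≤ h * U * m := by
    have h1 : ‖∫ x in (0 : ℝ)..L, (f2 x : ℂ) * (H x * z x)‖
        ≤ ∫ x in (0 : ℝ)..L, h * U * |f2 x| := by
      refine intervalIntegral.norm_integral_le_of_norm_le hL.le ?_
        ((hf.h2.ii2 hL.le).abs.const_mul _)
      filter_upwards with x hx0
      have hx : x ∈ Icc (0 : ℝ) L := ⟨hx0.1.le, hx0.2⟩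
      rw [norm_mul, norm_mul, norm_real, norm_real, Real.norm_eq_abs, Real.norm_eq_abs, mul_comm]
      exact mul_le_mul_of_nonneg_right (mul_le_mul (bH x hx) (bz x hx) (abs_nonneg _) hh)
        (abs_nonneg _)
    rw [intervalIntegral.integral_const_mul] at h1
    exact h1.trans (mul_le_mul_of_nonneg_left hf.i1 (mul_nonneg hh hU))
  have s4 := kd4_const (B := m * h * U) hL.le (F := fun x => (f1 x : ℂ) * (H1 x * z x)) (by
    intro x hx
    rw [norm_mul, norm_mul, norm_real, norm_real, Real.norm_eq_abs, Real.norm_eq_abs, mul_assoc]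
    exact mul_le_mul (hf.b1 x hx) (mul_le_mul (bH1 x hx) (bz x hx) (abs_nonneg _) hh)
      (by positivity) hm)
  have s5 : ‖∫ x in (0 : ℝ)..L, (f1 x : ℂ) * (H x * v x)‖ ≤ (3 + L) * (m * h * U) := by
    rw [F]
    refine (norm_sub_le _ _).trans ?_
    refine (add_le_add_left ((norm_sub_le _ _).trans
      (add_le_add_left (norm_sub_le _ _) _)) _).trans ?_
    linarith
  refine (norm_sub_le _ _).trans ?_
  rw [norm_neg]
  linarith

end Pool.Agent.KD
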