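import Mathlib

/-!
# KdV-KdV system with linear boundary feedback (MP_11a591_an): the notion of solution

All functions of the space variable are functions `ℝ → ℝ` of which only the restriction to
`[0, L]` is used.
-/

open MeasureTheory Set

namespace Pool.Agent.KD

/-- `f` is in `H²(0,L)`, with derivative `f1` and second (weak) derivative `f2 ∈ L²(0,L)`:
`f` is differentiable on `[0,L]` with derivative `f1`, and `f1` is a primitive of the square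
integrable function `f2`. -/
structure IsH2 (L : ℝ) (f f1 f2 : ℝ → ℝ) : Prop where
  deriv : ∀ x ∈ Icc (0 : ℝ) L, HasDerivWithinAt f (f1 x) (Icc 0 L) x
  repr : ∀ x ∈ Icc (0 : ℝ) L, f1 x = f1 0 + ∫ y in (0 : ℝ)..x, f2 y
  memLp : MemLp f2 2 (volume.restrict (Ioc 0 L))

/-- `(η, w)` is a solution on `[0,T]` of
`η_t + w_x + w_xxx + (η w)_x = 0`, `w_t + η_x + η_xxx + w w_x = 0` with the four Dirichlet
conditions, in the sense of distributions and with values bounded in `H²(0,L)`: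
`η t`, `w t` (`0 ≤ t ≤ T`) have first and second derivatives `η1 t`, `w1 t` and `η2 t`, `w2 t`, the
`L²` norms of `η2 t`, `w2 t` are bounded, `η t`, `w t` vanish at `0` and `L`, and for every
`p ∈ C_c^∞(0,L)` the equations tested against `p` and integrated over `[0,t]` hold for every
`t ∈ [0,T]`. (Nothing is said about the Neumann values `η_x(0,t)`, `w_x(L,t)`.) -/
structure IsDSol (L T : ℝ) (η η1 η2 w w1 w2 : ℝ → ℝ → ℝ) : Prop where
  h2η : ∀ t ∈ Icc (0 : ℝ) T, IsH2 L (η t) (η1 t) (η2 t)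
  h2w : ∀ t ∈ Icc (0 : ℝ) T, IsH2 L (w t) (w1 t) (w2 t)
  bdd : ∃ m : ℝ, ∀ t ∈ Icc (0 : ℝ) T,
    (∫ x in (0 : ℝ)..L, η2 t x ^ 2) ≤ m ∧ (∫ x in (0 : ℝ)..L, w2 t x ^ 2) ≤ m
  dir : ∀ t ∈ Icc (0 : ℝ) T, η t 0 = 0 ∧ η t L = 0 ∧ w t 0 = 0 ∧ w t L = 0
  intη : ∀ p : ℝ → ℝ, ContDiff ℝ (⊤ : ℕ∞) p → tsupport p ⊆ Ioo 0 L →
    IntervalIntegrable (fun s => ∫ x in (0 : ℝ)..L, ((w s x + η s x * w s x) * deriv p x
      + w s x * iteratedDeriv 3 p x)) volume 0 T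
  intw : ∀ p : ℝ → ℝ, ContDiff ℝ (⊤ : ℕ∞) p → tsupport p ⊆ Ioo 0 L →
    IntervalIntegrable (fun s => ∫ x in (0 : ℝ)..L, ((η s x + w s x ^ 2 / 2) * deriv p x
      + η s x * iteratedDeriv 3 p x)) volume 0 T
  eqη : ∀ p : ℝ → ℝ, ContDiff ℝ (⊤ : ℕ∞) p → tsupport p ⊆ Ioo 0 L → ∀ t ∈ Icc (0 : ℝ) T,
    (∫ x in (0 : ℝ)..L, η t x * p x) = (∫ x in (0 : ℝ)..L, η 0 x * p x)
      + ∫ s in (0 : ℝ)..t, ∫ x in (0 : ℝ)..L, ((w s x + η s x * w s x) * deriv p x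
          + w s x * iteratedDeriv 3 p x)
  eqw : ∀ p : ℝ → ℝ, ContDiff ℝ (⊤ : ℕ∞) p → tsupport p ⊆ Ioo 0 L → ∀ t ∈ Icc (0 : ℝ) T,
    (∫ x in (0 : ℝ)..L, w t x * p x) = (∫ x in (0 : ℝ)..L, w 0 x * p x)
      + ∫ s in (0 : ℝ)..t, ∫ x in (0 : ℝ)..L, ((η s x + w s x ^ 2 / 2) * deriv p x
          + η s x * iteratedDeriv 3 p x)

end Pool.Agent.KD
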